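import Pool.Agent.X48.Rad
import Pool.Agent.Y570.KP.Shift

/-!
# The program of Schrijver for binary codes: comparison with Delsarte's program, and solutions
from radial kernels
-/

set_option autoImplicit false

open Filter Topology

namespace Pool.Agent.X48.Sch

open Finset Pool.Agent.Y570.KP Pool.Agent.X48.Rad Pool.Agent.TH41.BL

variable {n : ℕ}

/-- The weight of a word. -/
def wt {n : ℕ} (u : Fin n → Bool) : ℕ := hammingDist (fun _ => false) u

/-- The constraints of Schrijver's semidefinite program -/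
structure IsS (n d : ℕ) (x : ℕ → ℕ → ℕ → ℝ) : Prop where
  zero : x 0 0 0 = 1
  symm : ∀ u v : Fin n → Bool,
    x (wt u) (wt v) (hammingDist u v) = x (wt v) (wt u) (hammingDist u v)
  symm' : ∀ u v : Fin n → Bool,
    x (wt u) (wt v) (hammingDist u v) = x (wt u) (hammingDist u v) (wt v)
  nonneg : ∀ u v : Fin n → Bool, 0 ≤ x (wt u) (wt v) (hammingDist u v)
  le : ∀ u v : Fin n → Bool, x (wt u) (wt v) (hammingDist u v) ≤ x (wt u) 0 (wt u)
  add_le : ∀ u v : Fin n → Bool,
    x (wt u) 0 (wt u) + x (wt v) 0 (wt v) ≤ 1 + x (wt u) (wt v) (hammingDist u v)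
  dist : ∀ u v : Fin n → Bool, 0 < wt u → wt u < d → x (wt u) (wt v) (hammingDist u v) = 0
  psd : ∀ a : (Fin n → Bool) → ℝ,
    0 ≤ ∑ u, ∑ v, a u * a v * x (wt u) (wt v) (hammingDist u v)
  psd' : ∀ a : (Fin n → Bool) → ℝ,
    0 ≤ ∑ u, ∑ v, a u * a v * (x (hammingDist u v) 0 (hammingDist u v) -
      x (wt u) (wt v) (hammingDist u v))

lemma wt_zero : wt (fun _ : Fin n => false) = 0 := by
  unfold wt
  exact hammingDist_self _

lemma wt_eq_zero {u : Fin n → Bool} : wt u = 0 ↔ u = fun _ => false := by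
  unfold wt
  rw [hammingDist_eq_zero]
  exact eq_comm

lemma dist_zero (u : Fin n → Bool) : hammingDist u (fun _ => false) = wt u := by
  unfold wt
  exact hammingDist_comm _ _

lemma tr_zero (u : Fin n → Bool) : tr' u (fun _ => false) = u := by
  funext i
  simp [tr']

lemma dist_tr (u w : Fin n → Bool) : hammingDist u (tr' u w) = wt w := by
  have h1 := tr'_dist u (fun _ => false) w
  rw [tr_zero] at h1
  exact h1

lemma exists_wt (u v : Fin n → Bool) : ∃ w : Fin n → Bool, wt w = hammingDist u v := by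
  refine ⟨tr' u v, ?_⟩
  have h1 := tr'_dist u u v
  have h2 : tr' u u = fun _ => false := by
    funext i
    simp [tr']
  rw [h2] at h1
  exact h1

lemma sum_dist (F : ℕ → ℝ) (u : Fin n → Bool) :
    ∑ v : Fin n → Bool, F (hammingDist u v) = ∑ w : Fin n → Bool, F (wt w) := by
  rw [← Equiv.sum_comp (tr' u) (fun v => F (hammingDist u v))]
  exact Finset.sum_congr rfl fun w _ => by rw [dist_tr]

/-- comparison with the linear program -/
theorem IsS.le_lp (hc : S7_chr) {d : ℕ} {x : ℕ → ℕ → ℕ → ℝ} (h : IsS n d x)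
    {l : ℕ → ℝ} (hl : Feas n d l) : ∑ u : Fin n → Bool, x (wt u) 0 (wt u) ≤ Vl n l / l 0 := by
  rw [le_div_iff₀ hl.2.1]
  obtain ⟨Y, hY⟩ : ∃ Y : (Fin n → Bool) → (Fin n → Bool) → ℝ,
      Y = fun u v => x (hammingDist u v) 0 (hammingDist u v) := ⟨_, rfl⟩
  have hpsd : ∀ b : (Fin n → Bool) → ℝ, 0 ≤ ∑ u, ∑ v, b u * b v * Y u v := by
    intro b
    have h1 := add_nonneg (h.psd b) (h.psd' b)
    rw [← Finset.sum_add_distrib] at h1
    refine h1.trans (le_of_eq ?_)
    refine Finset.sum_congr rfl fun u _ => ?_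
    rw [← Finset.sum_add_distrib]
    refine Finset.sum_congr rfl fun v _ => ?_
    rw [hY]
    ring
  have hw0 : ∀ w : Fin n → Bool, 0 ≤ x (wt w) 0 (wt w) := by
    intro w
    have h1 := h.nonneg w (fun _ => false)
    rwa [wt_zero, dist_zero] at h1
  have hY0 : ∀ u v, 0 ≤ Y u v := by
    intro u v
    obtain ⟨w, hw⟩ := exists_wt u v
    rw [hY]
    simp only
    rw [← hw]
    exact hw0 w
  have hYd : ∀ u v, u ≠ v → hammingDist u v < d → Y u v = 0 := by
    intro u v huv hd
    obtain ⟨w, hw⟩ := exists_wt u v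
    rw [hY]
    simp only
    rw [← hw]
    have h1 := h.dist w (fun _ => false) (by
      rw [hw]
      exact hammingDist_pos.2 huv) (by rw [hw]; exact hd)
    rwa [wt_zero, dist_zero] at h1
  have hYu : ∀ u, Y u u = 1 := by
    intro u
    rw [hY]
    simp only [hammingDist_self]
    exact h.zero
  have hsum : ∑ u, ∑ v, Y u v = 2 ^ n * ∑ w : Fin n → Bool, x (wt w) 0 (wt w) := by
    rw [hY]
    simp only
    have h1 : ∀ u : Fin n → Bool, ∑ v : Fin n → Bool, x (hammingDist u v) 0 (hammingDist u v) =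
        ∑ w : Fin n → Bool, x (wt w) 0 (wt w) := fun u => sum_dist (fun c => x c 0 c) u
    simp_rw [h1]
    rw [Finset.sum_const, Finset.card_univ, nsmul_eq_mul]
    simp
  have hch : ∀ j, 0 ≤ ∑ x, ∑ z, (kr n j (hammingDist x z) : ℝ) * Y x z := by
    intro j
    have e1 : ∑ x, ∑ z, (kr n j (hammingDist x z) : ℝ) * Y x z =
        ∑ s ∈ Finset.powersetCard j (Finset.univ : Finset (Fin n)),
          ∑ x, ∑ z, PK9f.chi s x * PK9f.chi s z * Y x z := by
      rw [Finset.sum_comm (s := Finset.powersetCard j (Finset.univ : Finset (Fin n)))]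
      refine Finset.sum_congr rfl fun x _ => ?_
      rw [Finset.sum_comm (s := Finset.powersetCard j (Finset.univ : Finset (Fin n)))]
      refine Finset.sum_congr rfl fun z _ => ?_
      rw [PK9f.kr_sum hc, Finset.sum_mul]
    rw [e1]
    exact Finset.sum_nonneg fun s _ => hpsd (PK9f.chi s)
  have hk0 : ∀ w, (kr n 0 w : ℝ) = 1 := by
    intro w
    simp [kr]
  have h3 : l 0 * ∑ x, ∑ z, Y x z ≤
      ∑ j ∈ Finset.range (n + 1), l j * ∑ x, ∑ z, (kr n j (hammingDist x z) : ℝ) * Y x z := by
    rw [Finset.sum_range_succ']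
    simp only [hk0, one_mul]
    have h4 : 0 ≤ ∑ j ∈ Finset.range n, l (j + 1) *
        ∑ x, ∑ z, (kr n (j + 1) (hammingDist x z) : ℝ) * Y x z :=
      Finset.sum_nonneg fun j _ => mul_nonneg (hl.1 _) (hch _)
    linarith
  have h5 : ∑ j ∈ Finset.range (n + 1), l j * ∑ x, ∑ z, (kr n j (hammingDist x z) : ℝ) * Y x z =
      ∑ x, ∑ z, (∑ j ∈ Finset.range (n + 1), l j * (kr n j (hammingDist x z) : ℝ)) * Y x z := by
    simp_rw [Finset.mul_sum, Finset.sum_mul]
    rw [Finset.sum_comm]
    refine Finset.sum_congr rfl fun x _ => ?_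
    rw [Finset.sum_comm]
    refine Finset.sum_congr rfl fun z _ => Finset.sum_congr rfl fun j _ => ?_
    ring
  have h6 : ∑ x, ∑ z, (∑ j ∈ Finset.range (n + 1), l j * (kr n j (hammingDist x z) : ℝ)) * Y x z ≤
      2 ^ n * Vl n l := by
    have e0 : (2 : ℝ) ^ n * Vl n l = ∑ _x : Fin n → Bool, Vl n l := by
      rw [Finset.sum_const, Finset.card_univ, nsmul_eq_mul]
      simp
    rw [e0]
    refine Finset.sum_le_sum fun x _ => ?_
    rw [← Finset.add_sum_erase _ _ (Finset.mem_univ x)]
    have h7 : ∑ j ∈ Finset.range (n + 1), l j * (kr n j (hammingDist x x) : ℝ) = Vl n l := by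
      rw [FINf.Vl_eq, hammingDist_self]
    rw [h7, hYu, mul_one]
    have h8 : ∑ z ∈ Finset.univ.erase x,
        (∑ j ∈ Finset.range (n + 1), l j * (kr n j (hammingDist x z) : ℝ)) * Y x z ≤ 0 := by
      refine Finset.sum_nonpos fun z hz => ?_
      rw [Finset.mem_erase] at hz
      by_cases hd : hammingDist x z < d
      · rw [hYd x z hz.1.symm hd, mul_zero]
      · exact mul_nonpos_of_nonpos_of_nonneg
          (hl.2.2 _ (by omega) (PK9f.hd_le x z)) (hY0 x z)
    linarith
  rw [h5, hsum] at h3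
  have h9 : (2 : ℝ) ^ n * ((∑ w : Fin n → Bool, x (wt w) 0 (wt w)) * l 0) ≤ 2 ^ n * Vl n l := by
    calc (2 : ℝ) ^ n * ((∑ w : Fin n → Bool, x (wt w) 0 (wt w)) * l 0) =
        l 0 * (2 ^ n * ∑ w : Fin n → Bool, x (wt w) 0 (wt w)) := by ring
      _ ≤ 2 ^ n * Vl n l := h3.trans h6
  exact le_of_mul_le_mul_left h9 (by positivity)

/-- the solution from a radial kernel -/
noncomputable def X (ρ : ℝ) (γ : ℕ → ℝ) (a b c : ℕ) : ℝ :=
  if a = 0 then (if b = 0 then 1 else ρ * γ b) else if b = 0 then ρ * γ a else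
    if c = 0 then ρ * γ a else ρ ^ 2 * (γ a * γ b * γ c)

section

variable {ρ K L : ℝ} {γ : ℕ → ℝ}

lemma pr_single (G : (Fin n → Bool) → (Fin n → Bool) → ℝ) (u : Fin n → Bool) : pr G {u} = 1 := by
  simp [pr]

lemma yy_one (G : (Fin n → Bool) → (Fin n → Bool) → ℝ) (u : Fin n → Bool) : yy ρ G {u} = ρ := by
  unfold yy
  rw [pr_single]
  simp

lemma yy_two (hG : Good (fun u v : Fin n → Bool => γ (hammingDist u v)) K L)
    (u v : Fin n → Bool) : yy ρ (fun u v => γ (hammingDist u v)) ({u} ∪ {v}) =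
      ρ * X ρ γ (hammingDist u v) 0 (hammingDist u v) := by
  by_cases huv : u = v
  · subst huv
    rw [Finset.union_self, yy_one, hammingDist_self]
    simp [X]
  · have hd : hammingDist u v ≠ 0 := fun h => huv (hammingDist_eq_zero.1 h)
    have h1 : ({u} : Finset (Fin n → Bool)) ∪ {v} = insert u {v} := rfl
    have hu : u ∉ ({v} : Finset (Fin n → Bool)) := by simpa using huv
    unfold yy
    rw [h1, pr_insert hG hu, pr_single, Finset.card_insert_of_notMem hu, Finset.card_singleton,
      Finset.prod_singleton]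
    unfold X
    rw [if_neg hd, if_pos rfl]
    ring

lemma yy_three (hG : Good (fun u v : Fin n → Bool => γ (hammingDist u v)) K L)
    (u v : Fin n → Bool) :
    yy ρ (fun u v => γ (hammingDist u v)) ({fun _ => false} ∪ ({u} ∪ {v})) =
      ρ * X ρ γ (wt u) (wt v) (hammingDist u v) := by
  by_cases hu : u = fun _ => false
  · subst hu
    rw [← Finset.union_assoc, Finset.union_self, yy_two hG, wt_zero]
    unfold X
    change ρ * (if wt v = 0 then _ else _) = _
    by_cases hv : wt v = 0
    · rw [if_pos hv, if_pos rfl, if_pos rfl, if_pos hv]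
    · rw [if_neg hv, if_pos rfl, if_pos rfl, if_neg hv]
      rfl
  by_cases hv : v = fun _ => false
  · subst hv
    rw [Finset.union_comm {u}, ← Finset.union_assoc, Finset.union_self, yy_two hG, wt_zero,
      dist_zero]
    rfl
  have hu0 : wt u ≠ 0 := fun h => hu (wt_eq_zero.1 h)
  have hv0 : wt v ≠ 0 := fun h => hv (wt_eq_zero.1 h)
  by_cases huv : u = v
  · subst huv
    rw [Finset.union_self, yy_two hG, hammingDist_self]
    change ρ * X ρ γ (wt u) 0 (wt u) = _
    unfold X
    rw [if_neg hu0, if_pos rfl, if_neg hu0, if_neg hu0, if_pos rfl]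
  · have hd : hammingDist u v ≠ 0 := fun h => huv (hammingDist_eq_zero.1 h)
    have hu1 : u ∉ ({v} : Finset (Fin n → Bool)) := by simpa using huv
    have h1 : ({u} : Finset (Fin n → Bool)) ∪ {v} = insert u {v} := rfl
    have h2 : ({fun _ => false} : Finset (Fin n → Bool)) ∪ insert u {v} =
      insert (fun _ => false) (insert u {v}) := rfl
    have ho : (fun _ => false) ∉ (insert u {v} : Finset (Fin n → Bool)) := by
      rw [Finset.mem_insert, Finset.mem_singleton, not_or]
      exact ⟨fun h => hu h.symm, fun h => hv h.symm⟩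
    unfold yy
    rw [h1, h2, pr_insert hG ho, pr_insert hG hu1, pr_single, Finset.card_insert_of_notMem ho,
      Finset.card_insert_of_notMem hu1, Finset.card_singleton, Finset.prod_singleton,
      Finset.prod_insert hu1, Finset.prod_singleton]
    unfold X
    rw [if_neg hu0, if_neg hv0, if_neg hd]
    change ρ ^ (1 + 1 + 1) * (1 * γ (hammingDist u v) * (γ (wt u) * γ (wt v))) = _
    ring

lemma X_one (ρ : ℝ) (γ : ℕ → ℝ) : X ρ γ 0 0 0 = 1 := by simp [X]

lemma cond_singleton (y : Finset (Fin n → Bool) → ℝ) (D S : Finset (Fin n → Bool))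
    (e : Fin n → Bool) : cond y D {e} S = y (D ∪ S) - y (D ∪ {e} ∪ S) := by
  unfold Pool.Agent.Y570.KP.cond
  have hps : ({e} : Finset (Fin n → Bool)).powerset = {∅, {e}} := by
    ext F
    simp only [Finset.mem_powerset, Finset.mem_insert, Finset.mem_singleton]
    exact Finset.subset_singleton_iff
  rw [hps, Finset.sum_pair (Finset.singleton_ne_empty e).symm]
  simp only [Finset.card_empty, pow_zero, Finset.union_empty, Finset.card_singleton, pow_one]
  ring

lemma cond_pair (y : Finset (Fin n → Bool) → ℝ) (D S : Finset (Fin n → Bool))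
    {e f : Fin n → Bool} (hef : e ≠ f) : cond y D {e, f} S =
      y (D ∪ S) - y (D ∪ {e} ∪ S) - y (D ∪ {f} ∪ S) + y (D ∪ ({e} ∪ {f}) ∪ S) := by
  have he : e ∉ ({f} : Finset (Fin n → Bool)) := by simpa using hef
  have h1 := cond_singleton y D S f
  have h2 := cond_singleton y (D ∪ {e}) S f
  unfold Pool.Agent.Y570.KP.cond at h1 h2 ⊢
  rw [Finset.sum_powerset_insert he, h1]
  have h3 : ∀ F ∈ ({f} : Finset (Fin n → Bool)).powerset,
      (-1 : ℝ) ^ (insert e F).card * y (D ∪ insert e F ∪ S) =
        -((-1 : ℝ) ^ F.card * y (D ∪ {e} ∪ F ∪ S)) := by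
    intro F hF
    have heF : e ∉ F := fun h => he (Finset.mem_powerset.1 hF h)
    rw [Finset.card_insert_of_notMem heF, pow_succ]
    have : D ∪ insert e F ∪ S = D ∪ {e} ∪ F ∪ S := by
      ext z
      simp only [Finset.mem_union, Finset.mem_insert, Finset.mem_singleton]
      tauto
    rw [this]
    ring
  rw [Finset.sum_congr rfl h3, Finset.sum_neg_distrib, h2]
  have : D ∪ {e} ∪ {f} ∪ S = D ∪ ({e} ∪ {f}) ∪ S := by
    rw [Finset.union_assoc D]
  rw [this]
  ring

/-- the solution of Schrijver's program -/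
theorem isS_of {d : ℕ} (hd : 1 ≤ d) (hG : Good (fun u v : Fin n → Bool => γ (hammingDist u v)) K L)
    (hz : ∀ u v : Fin n → Bool, hammingDist u v < d → γ (hammingDist u v) = 0)
    (hS : Small K L ρ 3) : IsS n d (X ρ γ) := by
  have hP : PC n d 3 (yy ρ fun u v => γ (hammingDist u v)) := pc_of_good hG hz hS
  have hρ := hS.ρ0
  obtain ⟨y, hy⟩ : ∃ y : Finset (Fin n → Bool) → ℝ, y = yy ρ fun u v => γ (hammingDist u v) :=
    ⟨_, rfl⟩
  rw [← hy] at hP
  have y1 : ∀ u, y {u} = ρ := by
    intro u
    rw [hy]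
    exact yy_one _ u
  have y2 : ∀ u v, y ({u} ∪ {v}) = ρ * X ρ γ (hammingDist u v) 0 (hammingDist u v) := by
    intro u v
    rw [hy]
    exact yy_two hG u v
  have y3 : ∀ u v, y ({fun _ => false} ∪ ({u} ∪ {v})) =
      ρ * X ρ γ (wt u) (wt v) (hammingDist u v) := by
    intro u v
    rw [hy]
    exact yy_three hG u v
  have y20 : ∀ u, y ({fun _ => false} ∪ {u}) = ρ * X ρ γ (wt u) 0 (wt u) := fun u => y2 _ u
  have c2 : ∀ u v : Fin n → Bool, (({u} : Finset (Fin n → Bool)) ∪ {v}).card ≤ 2 := by
    intro u v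
    have := Finset.card_union_le {u} {v}
    simpa using this
  have c3 : ∀ u v w : Fin n → Bool, (({u} : Finset (Fin n → Bool)) ∪ ({v} ∪ {w})).card ≤ 3 := by
    intro u v w
    have h1 := Finset.card_union_le {u} (({v} : Finset (Fin n → Bool)) ∪ {w})
    have h2 := c2 v w
    rw [Finset.card_singleton] at h1
    omega
  have dz : ∀ u v : Fin n → Bool, wt u = 0 → hammingDist u v = wt v := by
    intro u v hu
    rw [wt_eq_zero.1 hu]
    rfl
  have dz' : ∀ u v : Fin n → Bool, wt v = 0 → hammingDist u v = wt u := by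
    intro u v hu
    rw [wt_eq_zero.1 hu, dist_zero]
  have de : ∀ u v : Fin n → Bool, hammingDist u v = 0 → wt u = wt v := by
    intro u v huv
    rw [hammingDist_eq_zero.1 huv]
  refine ⟨X_one ρ γ, ?_, ?_, ?_, ?_, ?_, ?_, ?_, ?_⟩
  · intro u v
    have h1 := dz u v
    have h2 := dz' u v
    have h3 := de u v
    unfold X
    by_cases ha : wt u = 0
    · by_cases hb : wt v = 0
      · simp [ha, hb]
      · simp [ha, hb]
    · by_cases hb : wt v = 0
      · simp [ha, hb]
      · by_cases hc : hammingDist u v = 0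
        · simp [ha, hb, hc, h3 hc]
        · simp only [ha, hb, hc, if_false]
          ring
  · intro u v
    have h1 := dz u v
    have h2 := dz' u v
    have h3 := de u v
    unfold X
    by_cases ha : wt u = 0
    · rw [h1 ha]
    · by_cases hb : wt v = 0
      · rw [h2 hb]
        simp [ha, hb]
      · by_cases hc : hammingDist u v = 0
        · simp [ha, hb, hc]
        · simp only [ha, hb, hc, if_false]
          ring
  · intro u v
    have h1 := hP.nonneg ({fun _ => false} ∪ ({u} ∪ {v})) ∅ (by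
      have := c3 (fun _ => false) u v
      simpa using this)
    rw [cond_empty, Finset.union_empty, y3] at h1
    exact nonneg_of_mul_nonneg_right h1 hρ
  · intro u v
    have h1 := hP.nonneg ({fun _ => false} ∪ {u}) {v} (by
      have := c2 (fun _ => false) u
      rw [Finset.card_singleton]
      omega)
    rw [cond_singleton, Finset.union_empty, Finset.union_empty, Finset.union_assoc, y3, y20] at h1
    have h2 : 0 ≤ ρ * (X ρ γ (wt u) 0 (wt u) - X ρ γ (wt u) (wt v) (hammingDist u v)) := by
      rw [mul_sub]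
      exact h1
    have h3 := nonneg_of_mul_nonneg_right h2 hρ
    linarith
  · intro u v
    by_cases huv : u = v
    · subst huv
      have h1 := hP.nonneg {fun _ => false} {u} (by simp)
      rw [cond_singleton, Finset.union_empty, Finset.union_empty, y20, y1] at h1
      have h2 : 0 ≤ ρ * (1 - X ρ γ (wt u) 0 (wt u)) := by
        rw [mul_sub, mul_one]
        exact h1
      have h3 := nonneg_of_mul_nonneg_right h2 hρ
      have h4 := y3 u u
      rw [Finset.union_self, y20] at h4
      have h5 := mul_left_cancel₀ hρ.ne' h4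
      rw [← h5]
      linarith
    · have h1 := hP.nonneg {fun _ => false} {u, v} (by
        rw [Finset.card_singleton]
        have : ({u, v} : Finset (Fin n → Bool)).card ≤ 2 := Finset.card_le_two
        omega)
      rw [cond_pair y _ _ huv, Finset.union_empty, Finset.union_empty, Finset.union_empty,
        Finset.union_empty, y3, y20, y20, y1] at h1
      have h2 : 0 ≤ ρ * (1 - X ρ γ (wt u) 0 (wt u) - X ρ γ (wt v) 0 (wt v) +
          X ρ γ (wt u) (wt v) (hammingDist u v)) := by
        refine h1.trans (le_of_eq ?_)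
        ring
      have h3 := nonneg_of_mul_nonneg_right h2 hρ
      linarith
  · intro u v h0 h1
    have h2 : γ (wt u) = 0 := hz (fun _ => false) u h1
    unfold X
    rw [if_neg h0.ne', h2]
    simp
  · intro a
    have h1 := hP.psd {fun _ => false} ∅ (by simp) (fun s => s.elim 0 a)
    simp only [cond_empty, Fintype.sum_option, Option.toFinset_none, Option.toFinset_some,
      Option.elim_none, Option.elim_some, zero_mul, mul_zero, Finset.sum_const_zero,
      zero_add] at h1
    have h2 : 0 ≤ ρ * ∑ u, ∑ v, a u * a v * X ρ γ (wt u) (wt v) (hammingDist u v) := by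
      refine h1.trans (le_of_eq ?_)
      rw [Finset.mul_sum]
      refine Finset.sum_congr rfl fun u _ => ?_
      rw [Finset.mul_sum]
      refine Finset.sum_congr rfl fun v _ => ?_
      rw [y3]
      ring
    exact nonneg_of_mul_nonneg_right h2 hρ
  · intro a
    have h1 := hP.psd ∅ {fun _ => false} (by simp) (fun s => s.elim 0 a)
    simp only [cond_singleton, Fintype.sum_option, Option.toFinset_none, Option.toFinset_some,
      Option.elim_none, Option.elim_some, zero_mul, mul_zero, Finset.sum_const_zero,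
      zero_add, Finset.empty_union] at h1
    have h2 : 0 ≤ ρ * ∑ u, ∑ v, a u * a v * (X ρ γ (hammingDist u v) 0 (hammingDist u v) -
        X ρ γ (wt u) (wt v) (hammingDist u v)) := by
      refine h1.trans (le_of_eq ?_)
      rw [Finset.mul_sum]
      refine Finset.sum_congr rfl fun u _ => ?_
      rw [Finset.mul_sum]
      refine Finset.sum_congr rfl fun v _ => ?_
      rw [y3, y2]
      ring
    exact nonneg_of_mul_nonneg_right h2 hρ

/-- the value of the solution -/
theorem value {d : ℕ} (hd : 1 ≤ d) (hG : Good (fun u v : Fin n → Bool => γ (hammingDist u v)) K L)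
    (hz : ∀ u v : Fin n → Bool, hammingDist u v < d → γ (hammingDist u v) = 0)
    (hρ : 0 < ρ) (hρL : ρ * L ≤ 1) :
    2 ^ n * ρ ≤ ∑ u : Fin n → Bool, X ρ γ (wt u) 0 (wt u) := by
  have hγ0 : γ 0 = 0 := by
    have h1 := hz (fun _ => false) (fun _ => false) (by rw [hammingDist_self]; omega)
    rwa [hammingDist_self] at h1
  have h1 : ∑ u : Fin n → Bool, X ρ γ (wt u) 0 (wt u) =
      1 + ρ * ∑ u : Fin n → Bool, γ (wt u) := by
    have e1 : ∀ u : Fin n → Bool, X ρ γ (wt u) 0 (wt u) =
        (if u = fun _ => false then 1 else 0) + ρ * γ (wt u) := by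
      intro u
      unfold X
      by_cases hu : u = fun _ => false
      · rw [if_pos hu, wt_eq_zero.2 hu, hγ0]
        simp
      · rw [if_neg hu, if_neg fun h => hu (wt_eq_zero.1 h)]
        simp
    simp_rw [e1]
    rw [Finset.sum_add_distrib, ← Finset.mul_sum, Finset.sum_ite_eq' Finset.univ,
      if_pos (Finset.mem_univ _)]
  have h2 := hG.quad (fun _ => 1)
  simp only [mul_one, one_pow] at h2
  have hcard : ∑ _u : Fin n → Bool, (1 : ℝ) = 2 ^ n := by simp
  have h3 : ∑ u : Fin n → Bool, ∑ v : Fin n → Bool, (γ (hammingDist u v) - 1) =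
      2 ^ n * (∑ w : Fin n → Bool, γ (wt w) - 2 ^ n) := by
    have e1 : ∀ u : Fin n → Bool, ∑ v : Fin n → Bool, (γ (hammingDist u v) - 1) =
        ∑ w : Fin n → Bool, γ (wt w) - 2 ^ n := by
      intro u
      rw [Finset.sum_sub_distrib, hcard, sum_dist γ u]
    simp_rw [e1]
    rw [Finset.sum_const, Finset.card_univ, nsmul_eq_mul]
    simp
  rw [h3, hcard, abs_mul, abs_of_pos (by positivity : (0 : ℝ) < 2 ^ n), mul_comm L] at h2
  have h4 := le_of_mul_le_mul_left h2 (by positivity)
  have h5 := (abs_le.1 h4).1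
  rw [h1]
  nlinarith

end

end Pool.Agent.X48.Sch
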