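import Mathlib

/-!
Row-deleted Hadamard matrices whose columns are not diametrically maximal.
-/

namespace Pool.Agent.X48.Hadamard

open Matrix

/-- Hadamard matrix of order `n` -/
def IsHadamard {n : ℕ} (H : Matrix (Fin n) (Fin n) ℤ) : Prop :=
  (∀ i j, H i j = 1 ∨ H i j = -1) ∧ H * Hᵀ = (n : ℤ) • 1 ∧ Hᵀ * H = (n : ℤ) • 1

/-- normalized: all entries of the first row and of the first column are `1` -/
def IsNormalized {n : ℕ} (H : Matrix (Fin n) (Fin n) ℤ) : Prop :=
  ∀ i j : Fin n, (i.val = 0 ∨ j.val = 0) → H i j = 1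

/-- the set of the columns of `H` after deleting the first `r` rows -/
def colSet {r m : ℕ} (H : Matrix (Fin (r + m)) (Fin (r + m)) ℤ) : Set (Fin m → ℤ) :=
  {x | ∃ j, x = fun i => H (Fin.natAdd r i) j}

/-- the diameter of a set in the Hamming distance -/
noncomputable def diam {m : ℕ} (A : Set (Fin m → ℤ)) : ℕ :=
  sSup {d : ℕ | ∃ x ∈ A, ∃ y ∈ A, hammingDist x y = d}

/-- `A` is diametrically maximal in `{1, -1} ^ m` -/
def DiamMax {m : ℕ} (A : Set (Fin m → ℤ)) : Prop :=
  ∀ x : Fin m → ℤ, (∀ i, x i = 1 ∨ x i = -1) → x ∉ A → diam A < diam (insert x A)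

theorem two_hamming {m : ℕ} (x y : Fin m → ℤ) (hx : ∀ i, x i = 1 ∨ x i = -1)
    (hy : ∀ i, y i = 1 ∨ y i = -1) : 2 * (hammingDist x y : ℤ) = m - ∑ i, x i * y i := by
  unfold hammingDist
  rw [Finset.card_filter]
  push_cast
  rw [Finset.mul_sum]
  have h1 : (m : ℤ) = ∑ _i : Fin m, (1 : ℤ) := by simp
  rw [h1, ← Finset.sum_sub_distrib]
  apply Finset.sum_congr rfl
  intro i _
  rcases hx i with h | h <;> rcases hy i with h' | h' <;> rw [h, h'] <;> norm_num

theorem diam_bdd {m : ℕ} (A : Set (Fin m → ℤ)) :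
    BddAbove {d : ℕ | ∃ x ∈ A, ∃ y ∈ A, hammingDist x y = d} := by
  refine ⟨m, ?_⟩
  rintro d ⟨x, -, y, -, rfl⟩
  simpa using hammingDist_le_card_fintype (x := x) (y := y)

theorem not_diamMax {m N : ℕ} (A : Set (Fin m → ℤ)) (x : Fin m → ℤ)
    (hx : ∀ i, x i = 1 ∨ x i = -1) (hxA : x ∉ A)
    (h1 : ∀ a ∈ A, ∀ b ∈ A, 2 * hammingDist a b ≤ N) (h2 : ∀ a ∈ A, 2 * hammingDist x a ≤ N)
    (h3 : ∃ a ∈ A, ∃ b ∈ A, 2 * hammingDist a b = N) : ¬ DiamMax A := by
  intro hD
  have h := hD x hx hxA
  obtain ⟨a, ha, b, hb, hab⟩ := h3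
  have h4 : hammingDist a b ≤ diam A := le_csSup (diam_bdd A) ⟨a, ha, b, hb, rfl⟩
  have h5 : diam (insert x A) ≤ hammingDist a b := by
    apply csSup_le
    · exact ⟨_, x, Set.mem_insert _ _, x, Set.mem_insert _ _, rfl⟩
    · rintro d ⟨u, hu, v, hv, rfl⟩
      rcases hu with rfl | hu <;> rcases hv with rfl | hv
      · simp
      · have := h2 v hv; omega
      · have := h2 u hu
        rw [hammingDist_comm] at this; omega
      · have := h1 u hu v hv; omega
  omega

theorem col_orth {n : ℕ} {H : Matrix (Fin n) (Fin n) ℤ} (hH : IsHadamard H) (j j' : Fin n) :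
    ∑ i, H i j * H i j' = if j = j' then (n : ℤ) else 0 := by
  have h := congrFun (congrFun hH.2.2 j) j'
  rw [Matrix.mul_apply] at h
  simp only [Matrix.transpose_apply, Matrix.smul_apply, Matrix.one_apply, smul_eq_mul, mul_ite,
    mul_one, mul_zero] at h
  exact h

theorem mul_pm {a b : ℤ} (ha : a = 1 ∨ a = -1) (hb : b = 1 ∨ b = -1) : a * b = 1 ∨ a * b = -1 := by
  rcases ha with rfl | rfl <;> rcases hb with rfl | rfl <;> simp

theorem sum_le_card {r : ℕ} (f : Fin r → ℤ) (hf : ∀ i, f i = 1 ∨ f i = -1) : ∑ i, f i ≤ r := by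
  calc ∑ i, f i ≤ ∑ _i : Fin r, (1 : ℤ) := Finset.sum_le_sum (fun i _ => by
        rcases hf i with h | h <;> rw [h]; norm_num)
    _ = r := by simp

/-- The core statement: four columns with sign product `1` exactly in the first four rows. -/
theorem core {r m : ℕ} (hr : 3 ≤ r) (hN : 2 ^ r < r + m) (hN2 : 4 * r + 8 < r + m)
    (H : Matrix (Fin (r + m)) (Fin (r + m)) ℤ) (hH : IsHadamard H) (hn : IsNormalized H)
    (c : Fin 4 → Fin (r + m)) (hc : Function.Injective c)
    (hp : ∀ i : Fin (r + m), H i (c 0) * H i (c 1) * H i (c 2) * H i (c 3) =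
      if i.val < 4 then 1 else -1) : ¬ DiamMax (colSet (r := r) (m := m) H) := by
  classical
  have hpm := hH.1
  let X : Fin (r + m) → ℤ := fun i => ∑ k, H i (c k)
  have hX : ∀ i, X i = H i (c 0) + H i (c 1) + H i (c 2) + H i (c 3) := by
    intro i; simp only [X]; exact Fin.sum_univ_four _
  have hX4 : ∀ i : Fin (r + m), 4 ≤ i.val → X i = 2 ∨ X i = -2 := by
    intro i hi
    have h := hp i
    rw [if_neg (by omega)] at h
    rw [hX]
    rcases hpm i (c 0) with h0 | h0 <;> rcases hpm i (c 1) with h1 | h1 <;>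
      rcases hpm i (c 2) with h2 | h2 <;> rcases hpm i (c 3) with h3 | h3 <;>
      rw [h0, h1, h2, h3] at h ⊢ <;> first | (norm_num at h; done) | norm_num
  -- index helpers
  have hlt : ∀ k, k < 4 → k < (r + m) := fun k hk => by omega
  let z0 : Fin (r + m) := ⟨0, hlt 0 (by norm_num)⟩
  let z1 : Fin (r + m) := ⟨1, hlt 1 (by norm_num)⟩
  let z2 : Fin (r + m) := ⟨2, hlt 2 (by norm_num)⟩
  let z3 : Fin (r + m) := ⟨3, hlt 3 (by norm_num)⟩
  have hX0 : X z0 = 4 := by
    rw [hX]
    rw [hn z0 _ (Or.inl rfl), hn z0 _ (Or.inl rfl), hn z0 _ (Or.inl rfl), hn z0 _ (Or.inl rfl)]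
    norm_num
  -- sums over ranges
  let ext : (Fin (r + m) → ℤ) → ℕ → ℤ := fun f k => if h : k < (r + m) then f ⟨k, h⟩ else 0
  have hext : ∀ (f : Fin (r + m) → ℤ), ∑ i, f i = ∑ k ∈ Finset.range (r + m), ext f k := by
    intro f
    rw [← Fin.sum_univ_eq_sum_range (ext f) (r + m)]
    apply Finset.sum_congr rfl
    intro i _
    simp only [ext, dif_pos i.2]
  have hext4 : ∀ (f : Fin (r + m) → ℤ), ∑ i, f i = f z0 + f z1 + f z2 + f z3 +
      ∑ k ∈ Finset.Ico 4 (r + m), ext f k := by
    intro f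
    rw [hext, Finset.range_eq_Ico, ← Finset.sum_Ico_consecutive (ext f) (by norm_num : 0 ≤ 4)
      (by omega : 4 ≤ (r + m))]
    congr 1
    simp only [Finset.sum_Ico_succ_top (by norm_num : 0 ≤ 3), Finset.sum_Ico_succ_top (by norm_num : 0 ≤ 2),
      Finset.sum_Ico_succ_top (by norm_num : 0 ≤ 1), Finset.sum_Ico_succ_top (by norm_num : 0 ≤ 0),
      Finset.Ico_self, Finset.sum_empty, zero_add, ext, dif_pos (hlt 0 (by norm_num)),
      dif_pos (hlt 1 (by norm_num)), dif_pos (hlt 2 (by norm_num)), dif_pos (hlt 3 (by norm_num))]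
    rfl
  have hextm : ∀ (f : Fin (r + m) → ℤ), ∑ i : Fin m, f (Fin.natAdd r i) = ∑ k ∈ Finset.Ico r (r + m), ext f k := by
    intro f
    rw [Finset.sum_Ico_eq_sum_range, show (r + m) - r = m by omega,
      ← Fin.sum_univ_eq_sum_range (fun k => ext f (r + k)) m]
    apply Finset.sum_congr rfl
    intro i _
    have : r + (i : ℕ) < (r + m) := by omega
    simp only [ext, dif_pos this]
    rfl
  -- the sum of squares of X
  have hsq : ∑ i, X i * X i = 4 * ((r + m : ℕ) : ℤ) := by
    have h1 : ∀ i, X i * X i = ∑ k, ∑ l, H i (c k) * H i (c l) := by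
      intro i
      simp only [X]
      rw [Finset.sum_mul_sum]
    rw [Finset.sum_congr rfl (fun i _ => h1 i), Finset.sum_comm]
    have h2 : ∀ k : Fin 4, ∑ i, ∑ l, H i (c k) * H i (c l) = ((r + m : ℕ) : ℤ) := by
      intro k
      rw [Finset.sum_comm]
      have h3 : ∀ l : Fin 4, ∑ i, H i (c k) * H i (c l) = if k = l then ((r + m : ℕ) : ℤ) else 0 := by
        intro l
        rw [col_orth hH]
        by_cases hkl : k = l
        · rw [if_pos hkl, if_pos (by rw [hkl])]
        · rw [if_neg hkl, if_neg (fun h => hkl (hc h))]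
      rw [Finset.sum_congr rfl (fun l _ => h3 l)]
      simp
    rw [Finset.sum_congr rfl (fun k _ => h2 k)]
    simp
  have hsq4 : ∑ k ∈ Finset.Ico 4 (r + m), ext (fun i => X i * X i) k = 4 * (((r + m : ℕ) : ℤ) - 4) := by
    have h1 : ∀ k ∈ Finset.Ico 4 (r + m), ext (fun i => X i * X i) k = 4 := by
      intro k hk
      rw [Finset.mem_Ico] at hk
      simp only [ext, dif_pos hk.2]
      rcases hX4 ⟨k, hk.2⟩ hk.1 with h | h <;> rw [h] <;> norm_num
    rw [Finset.sum_congr rfl h1]
    simp only [Finset.sum_const, Nat.card_Ico, nsmul_eq_mul]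
    have : (((r + m) - 4 : ℕ) : ℤ) = ((r + m : ℕ) : ℤ) - 4 := by omega
    rw [this]; ring
  have hzero : X z1 = 0 ∧ X z2 = 0 ∧ X z3 = 0 := by
    have h1 := hext4 (fun i => X i * X i)
    rw [hsq, hsq4, hX0] at h1
    have h2 : X z1 * X z1 + X z2 * X z2 + X z3 * X z3 = 0 := by linarith
    have e1 := mul_self_nonneg (X z1)
    have e2 := mul_self_nonneg (X z2)
    have e3 := mul_self_nonneg (X z3)
    refine ⟨?_, ?_, ?_⟩
    · exact mul_self_eq_zero.1 (by linarith)
    · exact mul_self_eq_zero.1 (by linarith)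
    · exact mul_self_eq_zero.1 (by linarith)
  -- the vector Y with entries 2 or -2
  let Y : Fin (r + m) → ℤ := fun i => if i.val < 4 then 2 else X i
  have hY : ∀ i, Y i = 2 ∨ Y i = -2 := by
    intro i
    simp only [Y]
    split_ifs with h
    · exact Or.inl rfl
    · exact hX4 i (by omega)
  -- inner products over the rows from 4 on
  have hin4 : ∀ j : Fin (r + m), ∑ k ∈ Finset.Ico 4 (r + m), ext (fun i => Y i * H i j) k =
      (∑ k : Fin 4, if c k = j then ((r + m : ℕ) : ℤ) else 0) - 4 := by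
    intro j
    have h1 : ∑ i, X i * H i j = ∑ k : Fin 4, if c k = j then ((r + m : ℕ) : ℤ) else 0 := by
      have h2 : ∀ i, X i * H i j = ∑ k, H i (c k) * H i j := by
        intro i
        simp only [X]
        rw [Finset.sum_mul]
      rw [Finset.sum_congr rfl (fun i _ => h2 i), Finset.sum_comm]
      exact Finset.sum_congr rfl (fun k _ => col_orth hH _ _)
    rw [← h1, hext4 (fun i => X i * H i j)]
    simp only [hX0, hzero.1, hzero.2.1, hzero.2.2, hn z0 j (Or.inl rfl)]
    have h3 : ∑ k ∈ Finset.Ico 4 (r + m), ext (fun i => Y i * H i j) k =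
        ∑ k ∈ Finset.Ico 4 (r + m), ext (fun i => X i * H i j) k := by
      apply Finset.sum_congr rfl
      intro k hk
      rw [Finset.mem_Ico] at hk
      simp only [ext, dif_pos hk.2, Y]
      rw [if_neg (by omega)]
    rw [h3]
    ring
  have hterm : ∀ (j : Fin (r + m)) (k : ℕ), |ext (fun i => Y i * H i j) k| ≤ 2 := by
    intro j k
    simp only [ext]
    split_ifs with h
    · rcases hY ⟨k, h⟩ with h1 | h1 <;> rcases hpm ⟨k, h⟩ j with h2 | h2 <;> rw [h1, h2] <;> norm_num
    · norm_num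
  have hin : ∀ j : Fin (r + m), |(∑ k ∈ Finset.Ico r (r + m), ext (fun i => Y i * H i j) k) -
      ((∑ k : Fin 4, if c k = j then ((r + m : ℕ) : ℤ) else 0) - 4)| ≤ 2 * r - 4 := by
    intro j
    rw [← hin4 j]
    rcases Nat.lt_or_ge r 4 with h | h
    · have hr3 : r = 3 := by omega
      have h2 : ∑ k ∈ Finset.Ico r (r + m), ext (fun i => Y i * H i j) k =
          ext (fun i => Y i * H i j) 3 + ∑ k ∈ Finset.Ico 4 (r + m), ext (fun i => Y i * H i j) k := by
        have := Finset.sum_eq_sum_Ico_succ_bot (a := 3) (b := (r + m)) (by omega) (ext (fun i => Y i * H i j))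
        have hI : Finset.Ico r (r + m) = Finset.Ico 3 (r + m) := by
          ext k
          simp only [Finset.mem_Ico]
          omega
        rw [hI]
        exact this
      rw [h2, add_sub_cancel_right]
      calc |ext (fun i => Y i * H i j) 3| ≤ 2 := hterm j 3
        _ ≤ 2 * (r : ℤ) - 4 := by rw [hr3]; norm_num
    · have h2 := Finset.sum_Ico_consecutive (ext (fun i => Y i * H i j)) h (by omega : r ≤ (r + m))
      rw [← h2, sub_add_cancel_right, abs_neg]
      calc |∑ k ∈ Finset.Ico 4 r, ext (fun i => Y i * H i j) k| ≤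
            ∑ k ∈ Finset.Ico 4 r, |ext (fun i => Y i * H i j) k| := Finset.abs_sum_le_sum_abs _ _
        _ ≤ ∑ k ∈ Finset.Ico 4 r, (2 : ℤ) := Finset.sum_le_sum (fun k _ => hterm j k)
        _ = 2 * ((r - 4 : ℕ) : ℤ) := by simp; ring
        _ ≤ 2 * (r : ℤ) - 4 := by omega
  have hcount : ∀ j : Fin (r + m), (0 : ℤ) ≤ (∑ k : Fin 4, if c k = j then ((r + m : ℕ) : ℤ) else 0) ∧
      (∑ k : Fin 4, if c k = j then ((r + m : ℕ) : ℤ) else 0) ≤ (r + m) := by
    intro j
    constructor
    · apply Finset.sum_nonneg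
      intro k _
      split_ifs <;> positivity
    · by_cases h : ∃ k, c k = j
      · obtain ⟨k, hk⟩ := h
        rw [Finset.sum_eq_single k]
        · rw [if_pos hk]; push_cast; exact le_rfl
        · intro l _ hl
          rw [if_neg]
          intro h
          exact hl (hc (h.trans hk.symm))
        · simp
      · push Not at h
        rw [Finset.sum_eq_zero]
        · positivity
        · intro k _
          rw [if_neg (h k)]
  -- the new point
  let x : Fin m → ℤ := fun i => Y (Fin.natAdd r i) / 2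
  have hx2 : ∀ i, 2 * x i = Y (Fin.natAdd r i) := by
    intro i
    simp only [x]
    rcases hY (Fin.natAdd r i) with h | h <;> rw [h] <;> norm_num
  have hxpm : ∀ i, x i = 1 ∨ x i = -1 := by
    intro i
    have := hx2 i
    rcases hY (Fin.natAdd r i) with h | h
    · left; omega
    · right; omega
  have hdist : ∀ j : Fin (r + m), 4 * (hammingDist x (fun i => H (Fin.natAdd r i) j) : ℤ) =
      2 * m - ∑ k ∈ Finset.Ico r (r + m), ext (fun i => Y i * H i j) k := by
    intro j
    rw [← hextm (fun i => Y i * H i j)]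
    have h1 := two_hamming x (fun i => H (Fin.natAdd r i) j) hxpm (fun i => hpm _ _)
    have h2 : 2 * ∑ i, x i * H (Fin.natAdd r i) j = ∑ i : Fin m, Y (Fin.natAdd r i) * H (Fin.natAdd r i) j := by
      rw [Finset.mul_sum]
      apply Finset.sum_congr rfl
      intro i _
      rw [← hx2 i]; ring
    rw [← h2]
    linarith
  apply not_diamMax (N := r + m) _ x hxpm
  · rintro ⟨j, hj⟩
    have h1 := hdist j
    rw [← hj, hammingDist_self] at h1
    have h2 := abs_le.1 (hin j)
    have h3 := hcount j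
    push_cast at h1
    have h5 : (4 * r + 8 : ℤ) < (r + m) := by exact_mod_cast hN2
    linarith [h2.1, h2.2, h3.1, h3.2]
  · rintro a ⟨j, rfl⟩ b ⟨j', rfl⟩
    have h1 := two_hamming (fun i => H (Fin.natAdd r i) j) (fun i => H (Fin.natAdd r i) j')
      (fun i => hpm _ _) (fun i => hpm _ _)
    have h2 := col_orth hH j j'
    rw [Fin.sum_univ_add] at h2
    have h3 : ∑ i : Fin r, H (Fin.castAdd m i) j * H (Fin.castAdd m i) j' ≤ r :=
      sum_le_card _ (fun i => mul_pm (hpm _ _) (hpm _ _))
    have h4 : (0 : ℤ) ≤ if j = j' then ((r + m : ℕ) : ℤ) else 0 := by split_ifs <;> positivity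
    have h5 : 2 * (hammingDist (fun i => H (Fin.natAdd r i) j) (fun i => H (Fin.natAdd r i) j') : ℤ) ≤ (r + m : ℕ) := by
      rw [h1]
      push_cast
      linarith
    exact_mod_cast h5
  · rintro a ⟨j, rfl⟩
    have h1 := hdist j
    have h2 := abs_le.1 (hin j)
    have h3 := hcount j
    have h5 : 4 * (hammingDist x (fun i => H (Fin.natAdd r i) j) : ℤ) ≤ 2 * (r + m) := by
      linarith [h2.1, h2.2, h3.1, h3.2]
    have h6 : (2 * hammingDist x (fun i => H (Fin.natAdd r i) j) : ℤ) ≤ (r + m) := by linarith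
    exact_mod_cast h6
  · -- pigeonhole
    have hcard : Fintype.card (Fin r → Bool) < Fintype.card (Fin (r + m)) := by
      simp only [Fintype.card_fun, Fintype.card_bool, Fintype.card_fin]
      exact hN
    obtain ⟨j, j', hne, hjj⟩ := Fintype.exists_ne_map_eq_of_card_lt
      (fun (j : Fin (r + m)) (i : Fin r) => decide (H (Fin.castAdd m i) j = 1)) hcard
    refine ⟨_, ⟨j, rfl⟩, _, ⟨j', rfl⟩, ?_⟩
    have heq : ∀ i : Fin r, H (Fin.castAdd m i) j * H (Fin.castAdd m i) j' = 1 := by
      intro i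
      have h1 := congrFun hjj i
      simp only [decide_eq_decide] at h1
      rcases hpm (Fin.castAdd m i) j with h2 | h2
      · rw [h2, h1.1 h2]; norm_num
      · rcases hpm (Fin.castAdd m i) j' with h3 | h3
        · rw [h1.2 h3] at h2; norm_num at h2
        · rw [h2, h3]; norm_num
    have h1 := two_hamming (fun i => H (Fin.natAdd r i) j) (fun i => H (Fin.natAdd r i) j')
      (fun i => hpm _ _) (fun i => hpm _ _)
    have h2 := col_orth hH j j'
    rw [if_neg hne, Fin.sum_univ_add] at h2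
    rw [Finset.sum_congr rfl (fun i _ => heq i)] at h2
    simp only [Finset.sum_const, Finset.card_univ, Fintype.card_fin, nsmul_eq_mul, mul_one] at h2
    have h5 : 2 * (hammingDist (fun i => H (Fin.natAdd r i) j) (fun i => H (Fin.natAdd r i) j') : ℤ) = (r + m : ℕ) := by
      rw [h1]
      push_cast
      linarith
    exact_mod_cast h5

/-- Hadamard matrices on general index types -/
def Had {ι : Type} [Fintype ι] [DecidableEq ι] (A : Matrix ι ι ℤ) : Prop :=
  (∀ i j, A i j = 1 ∨ A i j = -1) ∧ A * Aᵀ = (Fintype.card ι : ℤ) • 1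

theorem neg_pm {a : ℤ} (ha : a = 1 ∨ a = -1) : -a = 1 ∨ -a = -1 := by
  rcases ha with rfl | rfl <;> simp

theorem had_double {ι : Type} [Fintype ι] [DecidableEq ι] (A B : Matrix ι ι ℤ) (hA : Had A)
    (hB : Had B) : Had (Matrix.fromBlocks A B A (-B)) := by
  constructor
  · rintro (i | i) (j | j)
    · exact hA.1 i j
    · exact hB.1 i j
    · exact hA.1 i j
    · exact neg_pm (hB.1 i j)
  · rw [Matrix.fromBlocks_transpose, Matrix.fromBlocks_multiply]
    simp only [Matrix.transpose_neg, Matrix.mul_neg, Matrix.neg_mul, neg_neg]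
    rw [hA.2, hB.2]
    simp only [Fintype.card_sum, add_neg_cancel]
    rw [← Matrix.fromBlocks_one, Matrix.fromBlocks_smul]
    congr 1 <;> first | (push_cast; rw [add_smul]) | simp

theorem had_perm {ι : Type} [Fintype ι] [DecidableEq ι] (A : Matrix ι ι ℤ) (hA : Had A)
    (e : Equiv.Perm ι) : Had (A.submatrix e id) := by
  constructor
  · intro i j
    exact hA.1 _ _
  · ext i j
    have h := congrFun (congrFun hA.2 (e i)) (e j)
    rw [Matrix.mul_apply] at h ⊢
    simp only [Matrix.transpose_apply, Matrix.submatrix_apply, id, Matrix.smul_apply,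
      Matrix.one_apply, smul_eq_mul, EmbeddingLike.apply_eq_iff_eq] at h ⊢
    exact h

theorem exists_had (s : ℕ) : ∃ (ι : Type) (_ : Fintype ι) (_ : DecidableEq ι) (A : Matrix ι ι ℤ),
    Fintype.card ι = 2 ^ s ∧ Had A := by
  induction s with
  | zero =>
    refine ⟨Unit, inferInstance, inferInstance, 1, by simp, ?_, ?_⟩
    · intro i j
      left
      simp [Matrix.one_apply]
    · simp
  | succ s ih =>
    obtain ⟨ι, h1, h2, A, hc, hA⟩ := ih
    refine ⟨ι ⊕ ι, inferInstance, inferInstance, _, ?_, had_double A A hA hA⟩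
    rw [Fintype.card_sum, hc]; ring

theorem transpose_of {n : ℕ} (hn : 0 < n) (H : Matrix (Fin n) (Fin n) ℤ)
    (h : H * Hᵀ = (n : ℤ) • 1) : Hᵀ * H = (n : ℤ) • 1 := by
  have hq : (n : ℚ) ≠ 0 := by positivity
  let M : Matrix (Fin n) (Fin n) ℚ := H.map (Int.castRingHom ℚ)
  have hM : M * Mᵀ = (n : ℚ) • 1 := by
    have h1 := congrArg (fun K : Matrix (Fin n) (Fin n) ℤ => K.map (Int.castRingHom ℚ)) h
    simp only [Matrix.map_mul] at h1
    ext i j
    have h2 := congrFun (congrFun h1 i) j
    simp only [Matrix.map_apply, Matrix.smul_apply, Matrix.one_apply, smul_eq_mul] at h2 ⊢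
    rw [Matrix.transpose_map] at h2
    rw [h2]
    split_ifs <;> simp
  have h2 : M * ((n : ℚ)⁻¹ • Mᵀ) = 1 := by
    rw [Matrix.mul_smul, hM, smul_smul, inv_mul_cancel₀ hq, one_smul]
  have h3 : ((n : ℚ)⁻¹ • Mᵀ) * M = 1 := mul_eq_one_comm.1 h2
  have h4 : Mᵀ * M = (n : ℚ) • 1 := by
    rw [Matrix.smul_mul] at h3
    rw [← h3, smul_smul, mul_inv_cancel₀ hq, one_smul]
  ext i j
  have h5 := congrFun (congrFun h4 i) j
  simp only [Matrix.mul_apply, Matrix.transpose_apply, Matrix.smul_apply, Matrix.one_apply,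
    smul_eq_mul, M, Matrix.map_apply] at h5 ⊢
  have h6 : ((∑ x, H x i * H x j : ℤ) : ℚ) = ((n : ℤ) * (if i = j then 1 else 0) : ℤ) := by
    push_cast
    simpa using h5
  exact_mod_cast h6

theorem main {r : ℕ} (hr : 3 ≤ r) (n0 : ℕ) : ∃ m : ℕ, n0 ≤ r + m ∧
    ∃ H : Matrix (Fin (r + m)) (Fin (r + m)) ℤ, IsHadamard H ∧ IsNormalized H ∧
      ¬ DiamMax (colSet (r := r) (m := m) H) := by
  classical
  obtain ⟨ι, hι1, hι2, A, hcard, hA⟩ := exists_had (n0 + 4 * r + 8)
  have hbig : n0 + 4 * r + 8 < 2 ^ (n0 + 4 * r + 8) := Nat.lt_two_pow_self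
  have hbig2 : 2 ^ r ≤ 2 ^ (n0 + 4 * r + 8) := Nat.pow_le_pow_right (by norm_num) (by omega)
  -- two rows
  have hcard2 : 1 < Fintype.card ι := by rw [hcard]; omega
  obtain ⟨i0, i1, hne⟩ := Fintype.one_lt_card_iff.1 hcard2
  -- two columns
  have horth : ∑ j, A i0 j * A i1 j = 0 := by
    have h := congrFun (congrFun hA.2 i0) i1
    rw [Matrix.mul_apply] at h
    simpa [Matrix.one_apply, hne] using h
  have hpos : 0 < Fintype.card ι := by omega
  obtain ⟨w1, hw1⟩ : ∃ w, A i0 w * A i1 w = 1 := by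
    by_contra hcon
    push Not at hcon
    have h1 : ∀ j, A i0 j * A i1 j = -1 := fun j =>
      (mul_pm (hA.1 _ _) (hA.1 _ _)).resolve_left (hcon j)
    rw [Finset.sum_congr rfl (fun j _ => h1 j)] at horth
    simp at horth
    omega
  obtain ⟨w2, hw2⟩ : ∃ w, A i0 w * A i1 w = -1 := by
    by_contra hcon
    push Not at hcon
    have h1 : ∀ j, A i0 j * A i1 j = 1 := fun j =>
      (mul_pm (hA.1 _ _) (hA.1 _ _)).resolve_right (hcon j)
    rw [Finset.sum_congr rfl (fun j _ => h1 j)] at horth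
    simp at horth
    omega
  have hw12 : w1 ≠ w2 := by
    rintro rfl
    rw [hw1] at hw2
    norm_num at hw2
  let π : Equiv.Perm ι := Equiv.swap i0 i1
  let K : Matrix (ι ⊕ ι) (ι ⊕ ι) ℤ := Matrix.fromBlocks A (A.submatrix π id) A (-(A.submatrix π id))
  have hK : Had K := had_double _ _ hA (had_perm A hA π)
  -- sizes
  have hNc : Fintype.card (ι ⊕ ι) = 2 * 2 ^ (n0 + 4 * r + 8) := by
    rw [Fintype.card_sum, hcard]; ring
  obtain ⟨m, hm⟩ : ∃ m, r + m = 2 * 2 ^ (n0 + 4 * r + 8) := ⟨2 * 2 ^ (n0 + 4 * r + 8) - r, by omega⟩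
  refine ⟨m, by omega, ?_⟩
  have hN : Fintype.card (ι ⊕ ι) = r + m := by rw [hNc, hm]
  -- product of the four columns
  let P : ι ⊕ ι → ℤ := fun v => K v (Sum.inl w1) * K v (Sum.inl w2) * K v (Sum.inr w1) * K v (Sum.inr w2)
  have hsq : ∀ i j, A i j * A i j = 1 := by
    intro i j
    rcases hA.1 i j with h | h <;> rw [h] <;> norm_num
  have hPl : ∀ v, P (Sum.inl v) = (A v w1 * A (π v) w1) * (A v w2 * A (π v) w2) := by
    intro v
    simp only [P, K, Matrix.fromBlocks_apply₁₁, Matrix.fromBlocks_apply₁₂, Matrix.submatrix_apply, id]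
    ring
  have hPr : ∀ v, P (Sum.inr v) = (A v w1 * A (π v) w1) * (A v w2 * A (π v) w2) := by
    intro v
    simp only [P, K, Matrix.fromBlocks_apply₂₁, Matrix.fromBlocks_apply₂₂, Matrix.submatrix_apply, id,
      Matrix.neg_apply]
    ring
  have hπ0 : π i0 = i1 := Equiv.swap_apply_left _ _
  have hπ1 : π i1 = i0 := Equiv.swap_apply_right _ _
  have hval0 : (A i0 w1 * A (π i0) w1) * (A i0 w2 * A (π i0) w2) = -1 := by
    rw [hπ0, hw1, hw2]; norm_num
  have hval1 : (A i1 w1 * A (π i1) w1) * (A i1 w2 * A (π i1) w2) = -1 := by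
    rw [hπ1, mul_comm (A i1 w1), mul_comm (A i1 w2), hw1, hw2]; norm_num
  have hval : ∀ v, v ≠ i0 → v ≠ i1 → (A v w1 * A (π v) w1) * (A v w2 * A (π v) w2) = 1 := by
    intro v h0 h1
    have : π v = v := Equiv.swap_apply_of_ne_of_ne h0 h1
    rw [this, hsq, hsq]; norm_num
  -- the arrangement of the rows
  let f0 : Fin (r + m) → ι ⊕ ι := fun k =>
    if k.val = 0 then Sum.inl i0 else if k.val = 1 then Sum.inl i1 else if k.val = 2 then Sum.inr i0
      else Sum.inr i1
  have hfin : Set.InjOn f0 (Finset.univ.filter (fun k : Fin (r + m) => k.val < 4) : Finset (Fin (r + m))) := by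
    intro a ha b hb hab
    simp only [Finset.coe_filter, Finset.mem_univ, true_and, Set.mem_ofPred_eq] at ha hb
    apply Fin.ext
    simp only [f0] at hab
    have hne' : i1 ≠ i0 := fun h => hne h.symm
    split_ifs at hab with h1 h2 h3 h4 h5 h6 h7 h8 h9 h10 h11 h12 <;> first | omega | simp [hne, hne'] at hab
  obtain ⟨g, hg⟩ := Finset.exists_equiv_extend_of_card_eq (α := Fin (r + m)) (β := ι ⊕ ι)
    (t := Finset.univ) (by rw [Finset.card_univ, hN, Fintype.card_fin])
    (s := Finset.univ.filter (fun k : Fin (r + m) => k.val < 4)) (f := f0) (Finset.subset_univ _) hfin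
  let e : Fin (r + m) ≃ ι ⊕ ι := g.trans (Equiv.subtypeUnivEquiv (fun x => Finset.mem_univ x))
  have he : ∀ k : Fin (r + m), k.val < 4 → e k = f0 k := by
    intro k hk
    exact hg k (by simp [hk])
  let f : Fin (r + m) ≃ ι ⊕ ι := (Fintype.equivFinOfCardEq hN).symm
  have h0lt : 0 < r + m := by omega
  let z : Fin (r + m) := ⟨0, h0lt⟩
  have hKsq : ∀ i j, K i j * K i j = 1 := by
    intro i j
    rcases hK.1 i j with h | h <;> rw [h] <;> norm_num
  let H : Matrix (Fin (r + m)) (Fin (r + m)) ℤ := fun i j =>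
    K (e i) (f j) * K (e z) (f j) * (K (e i) (f z) * K (e z) (f z))
  have hHH : H * Hᵀ = ((r + m : ℕ) : ℤ) • 1 := by
    ext i i'
    rw [Matrix.mul_apply]
    have h1 : ∀ j, H i j * Hᵀ j i' =
        (K (e i) (f z) * K (e i') (f z)) * (K (e i) (f j) * K (e i') (f j)) := by
      intro j
      change K (e i) (f j) * K (e z) (f j) * (K (e i) (f z) * K (e z) (f z)) *
        (K (e i') (f j) * K (e z) (f j) * (K (e i') (f z) * K (e z) (f z))) = _
      have a1 := hKsq (e z) (f j)
      have a2 := hKsq (e z) (f z)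
      calc _ = (K (e z) (f j) * K (e z) (f j)) * (K (e z) (f z) * K (e z) (f z)) *
            ((K (e i) (f z) * K (e i') (f z)) * (K (e i) (f j) * K (e i') (f j))) := by ring
        _ = _ := by rw [a1, a2]; ring
    rw [Finset.sum_congr rfl (fun j _ => h1 j), ← Finset.mul_sum]
    have h2 : ∑ j, K (e i) (f j) * K (e i') (f j) = ∑ v, K (e i) v * K (e i') v :=
      Equiv.sum_comp f (fun v => K (e i) v * K (e i') v)
    have h3 : ∑ v, K (e i) v * K (e i') v = (K * Kᵀ) (e i) (e i') := by
      rw [Matrix.mul_apply]; rfl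
    rw [h2, h3, hK.2, hN]
    simp only [Matrix.smul_apply, Matrix.one_apply, smul_eq_mul]
    by_cases hii : i = i'
    · subst hii
      rw [if_pos rfl, if_pos rfl, hKsq]; ring
    · rw [if_neg hii, if_neg (fun h => hii (e.injective h))]; ring
  have hH : IsHadamard H := by
    refine ⟨?_, hHH, transpose_of h0lt H hHH⟩
    intro i j
    exact mul_pm (mul_pm (hK.1 _ _) (hK.1 _ _)) (mul_pm (hK.1 _ _) (hK.1 _ _))
  refine ⟨H, hH, ?_, ?_⟩
  · rintro i j (h | h)
    · have : i = z := Fin.ext h
      subst this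
      simp only [H]
      rw [hKsq, hKsq]; norm_num
    · have : j = z := Fin.ext h
      subst this
      simp only [H]
      have a1 := hKsq (e i) (f z)
      have a2 := hKsq (e z) (f z)
      calc _ = (K (e i) (f z) * K (e i) (f z)) * (K (e z) (f z) * K (e z) (f z)) := by ring
        _ = 1 := by rw [a1, a2]; norm_num
  · let cc : Fin 4 → Fin (r + m) := ![f.symm (Sum.inl w1), f.symm (Sum.inl w2), f.symm (Sum.inr w1),
      f.symm (Sum.inr w2)]
    apply core hr (by omega) (by omega) H hH ?_ cc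
    · intro a b hab
      have hne' : w2 ≠ w1 := fun h => hw12 h.symm
      fin_cases a <;> fin_cases b <;> simp [cc, hw12, hne'] at hab ⊢
    · intro i
      have hcc0 : f (cc 0) = Sum.inl w1 := by simp [cc]
      have hcc1 : f (cc 1) = Sum.inl w2 := by simp [cc]
      have hcc2 : f (cc 2) = Sum.inr w1 := by simp [cc]
      have hcc3 : f (cc 3) = Sum.inr w2 := by simp [cc]
      have h1 : H i (cc 0) * H i (cc 1) * H i (cc 2) * H i (cc 3) = P (e i) * P (e z) := by
        simp only [H, P, hcc0, hcc1, hcc2, hcc3]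
        have a1 := hKsq (e i) (f z)
        have a2 := hKsq (e z) (f z)
        calc _ = (K (e i) (f z) * K (e i) (f z)) * (K (e i) (f z) * K (e i) (f z)) *
              ((K (e z) (f z) * K (e z) (f z)) * (K (e z) (f z) * K (e z) (f z))) *
              ((K (e i) (Sum.inl w1) * K (e i) (Sum.inl w2) * K (e i) (Sum.inr w1) * K (e i) (Sum.inr w2)) *
              (K (e z) (Sum.inl w1) * K (e z) (Sum.inl w2) * K (e z) (Sum.inr w1) * K (e z) (Sum.inr w2))) := by
              ring
          _ = _ := by rw [a1, a2]; ring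
      have hz : e z = Sum.inl i0 := by
        rw [he z (by simp [z])]
        simp [f0, z]
      have hPz : P (e z) = -1 := by rw [hz, hPl, hval0]
      rw [h1, hPz]
      split_ifs with hi
      · have h2 := he i hi
        have h3 : P (e i) = -1 := by
          rw [h2]
          simp only [f0]
          split_ifs
          · rw [hPl, hval0]
          · rw [hPl, hval1]
          · rw [hPr, hval0]
          · rw [hPr, hval1]
        rw [h3]; norm_num
      · -- not exceptional
        have hne1 : ∀ k : Fin (r + m), k.val < 4 → e i ≠ e k := by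
          intro k hk h
          have := e.injective h
          rw [this] at hi
          exact hi hk
        have k0 : e ⟨0, by omega⟩ = Sum.inl i0 := by rw [he _ (by simp)]; simp [f0]
        have k1 : e ⟨1, by omega⟩ = Sum.inl i1 := by rw [he _ (by simp)]; simp [f0]
        have k2 : e ⟨2, by omega⟩ = Sum.inr i0 := by rw [he _ (by simp)]; simp [f0]
        have k3 : e ⟨3, by omega⟩ = Sum.inr i1 := by rw [he _ (by simp)]; simp [f0]
        have n0' := hne1 ⟨0, by omega⟩ (by simp)
        have n1' := hne1 ⟨1, by omega⟩ (by simp)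
        have n2' := hne1 ⟨2, by omega⟩ (by simp)
        have n3' := hne1 ⟨3, by omega⟩ (by simp)
        rw [k0] at n0'
        rw [k1] at n1'
        rw [k2] at n2'
        rw [k3] at n3'
        have h3 : P (e i) = 1 := by
          rcases hv : e i with v | v
          · rw [hv] at n0' n1'
            rw [hPl]
            exact hval v (fun h => n0' (by rw [h])) (fun h => n1' (by rw [h]))
          · rw [hv] at n2' n3'
            rw [hPr]
            exact hval v (fun h => n2' (by rw [h])) (fun h => n3' (by rw [h]))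
        rw [h3]; norm_num
    · rintro i j (h | h)
      · have : i = z := Fin.ext h
        subst this
        simp only [H]
        rw [hKsq, hKsq]; norm_num
      · have : j = z := Fin.ext h
        subst this
        simp only [H]
        have a1 := hKsq (e i) (f z)
        have a2 := hKsq (e z) (f z)
        calc _ = (K (e i) (f z) * K (e i) (f z)) * (K (e z) (f z) * K (e z) (f z)) := by ring
          _ = 1 := by rw [a1, a2]; norm_num

end Pool.Agent.X48.Hadamard
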