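import Mathlib

/-!
X48/DelSun (helper48, MP_2a941c_nt): the product `d_n(a) s_n(a)` as an integer combination of the
`C(n,i) C(n+i,i)`.
-/

set_option autoImplicit false

open Finset

namespace Pool.Agent.X48.DelSun

/-! ### Binomial coefficients in `ℚ` -/

lemma ch1 (n k : ℕ) : ((k : ℚ) + 1) * (n.choose (k + 1) : ℚ) = ((n : ℚ) - k) * (n.choose k : ℚ) := by
  rcases le_or_gt k n with h | h
  · have := Nat.choose_succ_right_eq n k
    have h2 : ((n.choose (k + 1) * (k + 1) : ℕ) : ℚ) = ((n.choose k * (n - k) : ℕ) : ℚ) := by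
      rw [this]
    push_cast [Nat.cast_sub h] at h2
    linarith
  · rw [Nat.choose_eq_zero_of_lt h, Nat.choose_eq_zero_of_lt (by omega)]
    simp

lemma ch2 (n k : ℕ) : ((k : ℚ) + 1) * ((n + 1).choose (k + 1) : ℚ) = ((n : ℚ) + 1) * (n.choose k : ℚ) := by
  have := Nat.add_one_mul_choose_eq n k
  have h2 : (((n + 1) * n.choose k : ℕ) : ℚ) = (((n + 1).choose (k + 1) * (k + 1) : ℕ) : ℚ) := by
    rw [this]
  push_cast at h2
  linarith

lemma ch3 (n k : ℕ) : ((n : ℚ) + 1 - k) * ((n + 1).choose k : ℚ) = ((n : ℚ) + 1) * (n.choose k : ℚ) := by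
  have h1 := ch1 (n + 1) k
  have h2 := ch2 n k
  push_cast at h1
  linarith

/-- `C(n,i) C(n+i,i)` -/
def c (i n : ℕ) : ℚ := (n.choose i : ℚ) * ((n + i).choose i : ℚ)

lemma c_zero (n : ℕ) : c 0 n = 1 := by simp [c]

lemma c_lt {i n : ℕ} (h : n < i) : c i n = 0 := by
  unfold c
  rw [Nat.choose_eq_zero_of_lt h]
  simp

lemma c_succ (i n : ℕ) : ((i : ℚ) + 1) ^ 2 * c (i + 1) n = ((n : ℚ) - i) * (n + i + 1) * c i n := by
  unfold c
  have h1 := ch1 n i
  have h2 := ch2 (n + i) i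
  rw [show n + (i + 1) = n + i + 1 by ring]
  push_cast at h2
  calc ((i : ℚ) + 1) ^ 2 * ((n.choose (i + 1) : ℚ) * ((n + i + 1).choose (i + 1) : ℚ)) =
      (((i : ℚ) + 1) * (n.choose (i + 1) : ℚ)) * (((i : ℚ) + 1) * ((n + i + 1).choose (i + 1) : ℚ)) := by
        ring
    _ = _ := by rw [h1, h2]; ring

/-- the coefficients of the product `c_k c_l` -/
def al (k l j : ℕ) : ℚ := (j.choose k : ℚ) * (j.choose l : ℚ) * ((k + l).choose j : ℚ)

lemma al_succ (k l j : ℕ) : ((k : ℚ) + 1) ^ 2 * al (k + 1) l (j + 1) =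
    al k l (j + 1) * (((j : ℚ) + 1 - k) * (j + k + 2)) + al k l j * ((j : ℚ) + 1) ^ 2 := by
  unfold al
  have h1 := ch2 j k
  have h2 := ch3 j l
  have h3 := ch2 (k + l) j
  have h4 := ch1 (k + l) j
  have h5 := ch3 j k
  rw [show k + 1 + l = k + l + 1 by ring]
  push_cast at h1 h2 h3 h4 h5
  have hj : ((j : ℚ) + 1) ≠ 0 := by positivity
  have hk : ((k : ℚ) + 1) ≠ 0 := by positivity
  obtain ⟨A, hA⟩ : ∃ A : ℚ, A = (j.choose k : ℚ) := ⟨_, rfl⟩
  obtain ⟨B, hB⟩ : ∃ B : ℚ, B = (j.choose l : ℚ) := ⟨_, rfl⟩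
  obtain ⟨D, hD⟩ : ∃ D : ℚ, D = ((k + l).choose j : ℚ) := ⟨_, rfl⟩
  obtain ⟨E, hE⟩ : ∃ E : ℚ, E = ((j + 1).choose l : ℚ) := ⟨_, rfl⟩
  rw [← hA] at h1 h5
  rw [← hB, ← hE] at h2
  rw [← hD] at h3 h4
  rw [← hA, ← hB, ← hD, ← hE]
  have e1 : ((j + 1).choose (k + 1) : ℚ) = (j + 1) * A / (k + 1) := by
    rw [eq_div_iff hk]; linarith
  have e2 : B = (j + 1 - l) * E / (j + 1) := by
    rw [eq_div_iff hj]; linarith
  have e3 : ((k + l + 1).choose (j + 1) : ℚ) = (k + l + 1) * D / (j + 1) := by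
    rw [eq_div_iff hj]; linarith
  have e4 : ((k + l).choose (j + 1) : ℚ) = (k + l - j) * D / (j + 1) := by
    rw [eq_div_iff hj]; linarith
  have e5 : ((j + 1).choose k : ℚ) * (((j : ℚ) + 1 - k)) = (j + 1) * A := by linarith
  rw [e1, e3, e4, e2]
  calc ((k : ℚ) + 1) ^ 2 * ((j + 1) * A / (k + 1) * E * ((k + l + 1) * D / (j + 1))) =
      (k + 1) * (k + l + 1) * (A * E * D) := by field_simp
    _ = (j + 1) * A * E * ((k + l - j) * D / (j + 1)) * (j + k + 2) +
        A * ((j + 1 - l) * E / (j + 1)) * D * (j + 1) ^ 2 := by field_simp; ring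
    _ = _ := by rw [← e5]; ring

lemma c_mul (k l n : ℕ) : c k n * c l n = ∑ j ∈ range (k + l + 1), al k l j * c j n := by
  induction k with
  | zero =>
    rw [c_zero, one_mul, Finset.sum_eq_single l]
    · simp [al]
    · intro j hj hjl
      have : j < l := by
        rw [mem_range] at hj
        omega
      simp [al, Nat.choose_eq_zero_of_lt this]
    · intro h
      exact absurd (mem_range.2 (by omega)) h
  | succ k ih =>
    have hk : ((k : ℚ) + 1) ^ 2 ≠ 0 := by positivity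
    apply mul_left_cancel₀ hk
    have h1 : ((k : ℚ) + 1) ^ 2 * (c (k + 1) n * c l n) =
        ∑ j ∈ range (k + l + 1), (al k l j * (((j : ℚ) - k) * (j + k + 1)) * c j n +
          al k l j * ((j : ℚ) + 1) ^ 2 * c (j + 1) n) := by
      calc ((k : ℚ) + 1) ^ 2 * (c (k + 1) n * c l n) =
          (((k : ℚ) + 1) ^ 2 * c (k + 1) n) * c l n := by ring
        _ = ((n : ℚ) - k) * (n + k + 1) * (c k n * c l n) := by rw [c_succ]; ring
        _ = _ := by
            rw [ih, Finset.mul_sum]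
            refine Finset.sum_congr rfl fun j _ => ?_
            have := c_succ j n
            have h3 : al k l j * ((j : ℚ) + 1) ^ 2 * c (j + 1) n =
              al k l j * (((j : ℚ) + 1) ^ 2 * c (j + 1) n) := by ring
            rw [h3, this]
            ring
    rw [h1, Finset.sum_add_distrib, Finset.mul_sum]
    have h0 : al k l (k + l + 1) = 0 := by
      unfold al
      rw [Nat.choose_eq_zero_of_lt (show k + l < k + l + 1 by omega)]
      simp
    have h2 : ∑ j ∈ range (k + l + 1), al k l j * (((j : ℚ) - k) * (j + k + 1)) * c j n =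
        ∑ j ∈ range (k + l + 2), al k l j * (((j : ℚ) - k) * (j + k + 1)) * c j n := by
      rw [Finset.sum_range_succ _ (k + l + 1), h0]
      ring
    rw [h2, Finset.sum_range_succ' _ (k + l + 1), show k + 1 + l + 1 = k + l + 1 + 1 by ring,
      Finset.sum_range_succ' _ (k + l + 1)]
    have h4 : al k l 0 * ((((0 : ℕ) : ℚ) - k) * (((0 : ℕ) : ℚ) + k + 1)) = 0 := by
      rcases Nat.eq_zero_or_pos k with h | h
      · subst h; simp
      · unfold al
        rw [Nat.choose_eq_zero_of_lt h]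
        simp
    have h5 : al (k + 1) l 0 = 0 := by
      unfold al
      simp
    rw [h4, h5, zero_mul, mul_zero, add_zero, add_zero, ← Finset.sum_add_distrib]
    refine Finset.sum_congr rfl fun j _ => ?_
    have := al_succ k l j
    calc _ = (al k l (j + 1) * (((j : ℚ) + 1 - k) * (j + k + 2)) + al k l j * ((j : ℚ) + 1) ^ 2) *
        c (j + 1) n := by push_cast; ring
      _ = _ := by rw [← this]; ring

/-! ### The ring of the integer combinations -/

/-- integer combinations of the functions `c_i` -/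
def S : AddSubgroup (ℕ → ℚ) := AddSubgroup.closure (Set.range c)

lemma c_mem (i : ℕ) : c i ∈ S := AddSubgroup.subset_closure ⟨i, rfl⟩

lemma int_mul_mem {F : ℕ → ℚ} (hF : F ∈ S) (z : ℤ) : (fun n => (z : ℚ) * F n) ∈ S := by
  have h := S.zsmul_mem hF z
  convert h using 1
  ext n
  simp

lemma one_mem' : (1 : ℕ → ℚ) ∈ S := by
  have : (1 : ℕ → ℚ) = c 0 := by
    ext n
    simp [c_zero]
  rw [this]
  exact c_mem 0

lemma cc_mem (k l : ℕ) : c k * c l ∈ S := by
  have h : c k * c l = ∑ j ∈ range (k + l + 1),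
      (((j.choose k * j.choose l * (k + l).choose j : ℕ) : ℤ) • c j) := by
    ext n
    rw [Pi.mul_apply, c_mul, Finset.sum_apply]
    refine Finset.sum_congr rfl fun j _ => ?_
    simp only [Pi.smul_apply, zsmul_eq_mul, al]
    push_cast
    ring
  rw [h]
  exact S.sum_mem fun j _ => S.zsmul_mem (c_mem j) _

lemma mul_mem' {F G : ℕ → ℚ} (hF : F ∈ S) (hG : G ∈ S) : F * G ∈ S := by
  unfold S at hF hG
  induction hF using AddSubgroup.closure_induction with
  | mem x hx =>
    obtain ⟨k, rfl⟩ := hx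
    induction hG using AddSubgroup.closure_induction with
    | mem y hy =>
      obtain ⟨l, rfl⟩ := hy
      exact cc_mem k l
    | zero => rw [mul_zero]; exact S.zero_mem
    | add y z _ _ h1 h2 => rw [mul_add]; exact S.add_mem h1 h2
    | neg y _ h1 => rw [mul_neg]; exact S.neg_mem h1
  | zero => rw [zero_mul]; exact S.zero_mem
  | add y z _ _ h1 h2 => rw [add_mul]; exact S.add_mem h1 h2
  | neg y _ h1 => rw [neg_mul]; exact S.neg_mem h1

lemma pow_mem' {F : ℕ → ℚ} (hF : F ∈ S) (m : ℕ) : F ^ m ∈ S := by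
  induction m with
  | zero => rw [pow_zero]; exact one_mem'
  | succ m ih => rw [pow_succ]; exact mul_mem' ih hF

lemma sum_c (j n : ℕ) : ∑ k ∈ range n, (2 * (k : ℚ) + 1) * c j k =
    n * ((n.choose (j + 1) : ℚ) * ((n + j).choose j : ℚ)) := by
  induction n with
  | zero => simp
  | succ n ih =>
    rw [Finset.sum_range_succ, ih]
    unfold c
    have h1 := ch3 (n + j) j
    have h2 : ((n + 1).choose (j + 1) : ℚ) = n.choose j + n.choose (j + 1) := by
      rw [Nat.choose_succ_succ]; push_cast; ring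
    have h3 := ch1 n j
    push_cast at h1
    rw [show n + 1 + j = n + j + 1 by ring, h2]
    push_cast
    have h4 : ((n : ℚ) + 1) * ((n + j + 1).choose j : ℚ) = (n + j + 1) * ((n + j).choose j : ℚ) := by
      linarith
    calc (n : ℚ) * ((n.choose (j + 1) : ℚ) * ((n + j).choose j : ℚ)) +
        (2 * n + 1) * ((n.choose j : ℚ) * ((n + j).choose j : ℚ)) =
        ((n : ℚ) * (n.choose (j + 1) : ℚ) + (n + j + 1) * n.choose j +
          ((n : ℚ) - j) * n.choose j) * ((n + j).choose j : ℚ) := by ring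
      _ = (n.choose j + n.choose (j + 1)) * ((n + j + 1) * ((n + j).choose j : ℚ)) := by
          rw [← h3]; ring
      _ = _ := by rw [← h4]; ring

lemma sum_c' (j n : ℕ) : ∑ k ∈ range (n + 1), (-1 : ℚ) ^ k * ((2 * (k : ℚ) + 1) * c j k) =
    (-1) ^ n * ((n + 1 : ℕ) * ((n.choose j : ℚ) * ((n + 1 + j).choose j : ℚ))) := by
  induction n with
  | zero =>
    rcases Nat.eq_zero_or_pos j with h | h
    · subst h; simp [c]
    · simp [c, Nat.choose_eq_zero_of_lt h]
  | succ n ih =>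
    rw [Finset.sum_range_succ, ih]
    unfold c
    have h1 := ch3 (n + 1 + j) j
    have h2 := ch3 n j
    push_cast at h1 h2
    rw [show n + 1 + 1 + j = n + 1 + j + 1 by ring]
    have h4 : ((n : ℚ) + 2) * ((n + 1 + j + 1).choose j : ℚ) =
        (n + 2 + j) * ((n + 1 + j).choose j : ℚ) := by linarith
    push_cast
    have e1 : (-1 : ℚ) ^ (n + 1) = - (-1) ^ n := by rw [pow_succ]; ring
    rw [e1]
    calc (-1 : ℚ) ^ n * ((n + 1) * ((n.choose j : ℚ) * ((n + 1 + j).choose j : ℚ))) +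
        -(-1) ^ n * ((2 * (n + 1) + 1) * (((n + 1).choose j : ℚ) * ((n + 1 + j).choose j : ℚ))) =
        (-1) ^ n * ((((n + 1) * (n.choose j : ℚ)) - (2 * n + 3) * ((n + 1).choose j : ℚ)) *
          ((n + 1 + j).choose j : ℚ)) := by ring
      _ = (-1) ^ n * (-((n + 1).choose j : ℚ) * ((n + 2 + j) * ((n + 1 + j).choose j : ℚ))) := by
          rw [← h2]; ring
      _ = _ := by rw [← h4]; ring

theorem sum_int {F : ℕ → ℚ} (hF : F ∈ S) (n : ℕ) :
    ∃ z : ℤ, ∑ k ∈ range n, (2 * (k : ℚ) + 1) * F k = n * z := by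
  unfold S at hF
  induction hF using AddSubgroup.closure_induction with
  | mem x hx =>
    obtain ⟨j, rfl⟩ := hx
    exact ⟨((n.choose (j + 1) * (n + j).choose j : ℕ) : ℤ), by rw [sum_c]; push_cast; ring⟩
  | zero => exact ⟨0, by simp⟩
  | add y z _ _ h1 h2 =>
    obtain ⟨a, ha⟩ := h1
    obtain ⟨b, hb⟩ := h2
    refine ⟨a + b, ?_⟩
    simp only [Pi.add_apply, mul_add, Finset.sum_add_distrib, ha, hb]
    push_cast
    ring
  | neg y _ h1 =>
    obtain ⟨a, ha⟩ := h1
    refine ⟨-a, ?_⟩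
    simp only [Pi.neg_apply, mul_neg, Finset.sum_neg_distrib, ha]
    push_cast
    ring

theorem sum_int' {F : ℕ → ℚ} (hF : F ∈ S) (n : ℕ) :
    ∃ z : ℤ, ∑ k ∈ range n, (-1 : ℚ) ^ k * ((2 * (k : ℚ) + 1) * F k) = n * z := by
  rcases n with _ | n
  · exact ⟨0, by simp⟩
  unfold S at hF
  induction hF using AddSubgroup.closure_induction with
  | mem x hx =>
    obtain ⟨j, rfl⟩ := hx
    exact ⟨(-1) ^ n * ((n.choose j * (n + 1 + j).choose j : ℕ) : ℤ), by
      rw [sum_c']; push_cast; ring⟩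
  | zero => exact ⟨0, by simp⟩
  | add y z _ _ h1 h2 =>
    obtain ⟨a, ha⟩ := h1
    obtain ⟨b, hb⟩ := h2
    refine ⟨a + b, ?_⟩
    simp only [Pi.add_apply, mul_add, Finset.sum_add_distrib, ha, hb]
    push_cast
    ring
  | neg y _ h1 =>
    obtain ⟨a, ha⟩ := h1
    refine ⟨-a, ?_⟩
    simp only [Pi.neg_apply, mul_neg, Finset.sum_neg_distrib, ha]
    push_cast
    ring

end Pool.Agent.X48.DelSun
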