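import Mathlib
import Pool.Agent.X48.DelSun

/-!
X48/DelSun2 (helper48, MP_2a941c_nt): the three families of single sums and their recurrences.
-/

set_option autoImplicit false

open Finset

namespace Pool.Agent.X48.DelSun

/-- the weights `(-1)^(i+l) 2^l C(i,l)` -/
def w (i l : ℕ) : ℚ := (-1) ^ (i + l) * 2 ^ l * (i.choose l : ℚ)

lemma w_succ (i l : ℕ) : ((l : ℚ) + 1) * w i (l + 1) = -2 * ((i : ℚ) - l) * w i l := by
  unfold w
  have h := ch1 i l
  calc ((l : ℚ) + 1) * ((-1) ^ (i + (l + 1)) * 2 ^ (l + 1) * (i.choose (l + 1) : ℚ)) =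
      (-1) ^ (i + (l + 1)) * 2 ^ (l + 1) * (((l : ℚ) + 1) * (i.choose (l + 1) : ℚ)) := by ring
    _ = _ := by rw [h]; ring

lemma w_top (i : ℕ) : w i (i + 1) = 0 := by
  unfold w
  rw [Nat.choose_eq_zero_of_lt (Nat.lt_succ_self i)]
  simp

/-- `(i+1) w_i(l) = -(i+1-l) w_(i+1)(l)` -/
lemma w_pred (i l : ℕ) : ((i : ℚ) + 1) * w i l = -((i : ℚ) + 1 - l) * w (i + 1) l := by
  unfold w
  have h := ch3 i l
  calc ((i : ℚ) + 1) * ((-1) ^ (i + l) * 2 ^ l * (i.choose l : ℚ)) =
      (-1) ^ (i + l) * 2 ^ l * (((i : ℚ) + 1) * (i.choose l : ℚ)) := by ring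
    _ = _ := by
      rw [← h, show i + 1 + l = i + l + 1 by ring, pow_succ]
      ring

def f (i a : ℕ) : ℚ := ∑ l ∈ range (i + 1),
  w i l * ((a + l).choose l : ℚ) * ((a + l).choose (2 * i) : ℚ)

def H (i a : ℕ) : ℚ := ∑ l ∈ range (i + 1),
  w i l * ((a + l).choose l : ℚ) * ((a + l + 1).choose (2 * i + 1) : ℚ)

def G (i a : ℕ) : ℚ := ∑ l ∈ range (i + 1),
  w i l * ((a + l + 1).choose l : ℚ) * ((a + l + 1).choose (2 * i + 1) : ℚ)

/-- `G` one step earlier, with the weights of `i + 1` -/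
lemma f_int (i a : ℕ) : ∃ z : ℤ, f i a = z := by
  refine ⟨∑ l ∈ range (i + 1), (-1) ^ (i + l) * 2 ^ l * (i.choose l : ℤ) * ((a + l).choose l : ℤ) *
    ((a + l).choose (2 * i) : ℤ), ?_⟩
  unfold f w
  push_cast
  rfl

lemma f_zero {i a : ℕ} (h : a < i) : f i a = 0 := by
  unfold f
  refine Finset.sum_eq_zero fun l hl => ?_
  rw [mem_range] at hl
  rw [Nat.choose_eq_zero_of_lt (show a + l < 2 * i by omega)]
  simp

lemma R1 (i a : ℕ) : H i (a + 1) = f i (a + 1) + G i a := by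
  unfold H f G
  rw [← Finset.sum_add_distrib]
  refine Finset.sum_congr rfl fun l _ => ?_
  rw [show a + 1 + l + 1 = (a + 1 + l) + 1 by ring, Nat.choose_succ_succ,
    show a + l + 1 = a + 1 + l by ring]
  push_cast
  ring

lemma base_P (a l : ℕ) : ((a + l + 1).choose l : ℚ) = (a + l + 1) / (a + 1) * ((a + l).choose l : ℚ) := by
  have h := ch3 (a + l) l
  push_cast at h
  have ha : ((a : ℚ) + 1) ≠ 0 := by positivity
  field_simp
  linarith

lemma base_P2 (a l : ℕ) : ((a + l + 2).choose l : ℚ) =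
    (a + l + 2) / (a + 2) * ((a + l + 1) / (a + 1) * ((a + l).choose l : ℚ)) := by
  have h := ch3 (a + l + 1) l
  push_cast at h
  have ha : ((a : ℚ) + 2) ≠ 0 := by positivity
  rw [← base_P]
  rw [show a + l + 2 = a + l + 1 + 1 by ring]
  field_simp
  linarith

lemma base_P3 (a l : ℕ) : ((a + l + 1).choose (l + 1) : ℚ) =
    (a + l + 1) / (l + 1) * ((a + l).choose l : ℚ) := by
  have h := ch2 (a + l) l
  push_cast at h
  have ha : ((l : ℚ) + 1) ≠ 0 := by positivity
  field_simp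
  linarith

lemma R2 (i a : ℕ) : ((a : ℚ) + 2) * G i (a + 1) =
    (2 * a + 3) * f i (a + 1) + (a + 1) * H i a := by
  obtain ⟨U, hU⟩ : ∃ U : ℕ → ℚ, U = fun l : ℕ => (l : ℚ) ^ 2 / (a + 1) * w i l *
    ((a + l).choose l : ℚ) * ((a + l + 1).choose (2 * i + 1) : ℚ) := ⟨_, rfl⟩
  have hE : ∀ l : ℕ, (a + 2) * (w i l * ((a + 1 + l + 1).choose l : ℚ) *
      ((a + 1 + l + 1).choose (2 * i + 1) : ℚ)) -
      (2 * a + 3) * (w i l * ((a + 1 + l).choose l : ℚ) * ((a + 1 + l).choose (2 * i) : ℚ)) -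
      (a + 1) * (w i l * ((a + l).choose l : ℚ) * ((a + l + 1).choose (2 * i + 1) : ℚ)) =
      U (l + 1) - U l := by
    intro l
    rw [hU]
    simp only
    have ha : ((a : ℚ) + 1) ≠ 0 := by positivity
    have ha2 : ((a : ℚ) + 2) ≠ 0 := by positivity
    have hl : ((l : ℚ) + 1) ≠ 0 := by positivity
    have hi : (2 * (i : ℚ) + 1) ≠ 0 := by positivity
    have e1 : w i (l + 1) = -2 * ((i : ℚ) - l) * w i l / (l + 1) := by
      rw [eq_div_iff hl, mul_comm]
      exact w_succ i l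
    have b1 := ch2 (a + l + 1) (2 * i)
    have b2 := ch1 (a + l + 1) (2 * i)
    push_cast at b1 b2
    have c1 : ((a + l + 1 + 1).choose (2 * i + 1) : ℚ) =
        (a + l + 2) * ((a + l + 1).choose (2 * i) : ℚ) / (2 * i + 1) := by
      rw [eq_div_iff hi]; linarith
    have c2 : ((a + l + 1).choose (2 * i + 1) : ℚ) =
        (a + l + 1 - 2 * i) * ((a + l + 1).choose (2 * i) : ℚ) / (2 * i + 1) := by
      rw [eq_div_iff hi]; linarith
    rw [show a + 1 + l + 1 = a + l + 2 by ring, show a + 1 + l = a + l + 1 by ring,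
      show a + (l + 1) + 1 = a + l + 1 + 1 by ring, show a + (l + 1) = a + l + 1 by ring,
      base_P2, base_P, base_P3, e1, show a + l + 2 = a + l + 1 + 1 by ring, c1, c2]
    push_cast
    field_simp
    ring
  have h1 : ((a : ℚ) + 2) * G i (a + 1) - (2 * a + 3) * f i (a + 1) - (a + 1) * H i a =
      ∑ l ∈ range (i + 1), (U (l + 1) - U l) := by
    unfold G f H
    rw [Finset.mul_sum, Finset.mul_sum, Finset.mul_sum, ← Finset.sum_sub_distrib,
      ← Finset.sum_sub_distrib]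
    exact Finset.sum_congr rfl fun l _ => hE l
  rw [Finset.sum_range_sub] at h1
  have h2 : U (i + 1) = 0 := by
    rw [hU]
    simp [w_top]
  have h3 : U 0 = 0 := by
    rw [hU]
    simp
  rw [h2, h3] at h1
  linarith

/-- the combination in the third recurrence -/
def Q (i a : ℕ) : ℚ := ((a : ℚ) + 2) * G i (a + 1) + (2 * a + 3) * G i a

/-- the polynomial of the certificate -/
def Sg (a i l : ℚ) : ℚ :=
  (a + 1) ^ 2 * (12 * i ^ 2 - (10 * a + 16) * i + a * (a + 2)) +
    (a + 1) * (8 * i ^ 2 - (22 + 18 * a) * i + 2 * a ^ 2 + 2 * a - 2) * l -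
    (10 * (a + 1) * i + 3 + a - a ^ 2) * l ^ 2 - (2 * i + 1) * l ^ 3

lemma cert (j a l : ℕ) (W P B : ℚ) (hW : w (j + 1) l = W) (hP : ((a + l).choose l : ℚ) = P)
    (hB : ((a + l + 1).choose (2 * j) : ℚ) = B) :
    (a + 2) ^ 3 * (w (j + 1) l * ((a + 2 + l).choose l : ℚ) *
        ((a + 2 + l).choose (2 * (j + 1)) : ℚ)) -
      (a + 1) ^ 3 * (w (j + 1) l * ((a + l).choose l : ℚ) * ((a + l).choose (2 * (j + 1)) : ℚ)) -
      (2 * ((j : ℚ) + 1) + 1) ^ 2 * ((a + 2) * (w (j + 1) l * ((a + 1 + l + 1).choose l : ℚ) *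
          ((a + 1 + l + 1).choose (2 * (j + 1) + 1) : ℚ)) +
        (2 * a + 3) * (w (j + 1) l * ((a + l + 1).choose l : ℚ) *
          ((a + l + 1).choose (2 * (j + 1) + 1) : ℚ))) +
      4 * ((j : ℚ) + 1) * ((j : ℚ) + 1 - l) * ((a + 2) * (w (j + 1) l *
          ((a + 1 + l + 1).choose l : ℚ) * ((a + 1 + l + 1).choose (2 * j + 1) : ℚ)) +
        (2 * a + 3) * (w (j + 1) l * ((a + l + 1).choose l : ℚ) *
          ((a + l + 1).choose (2 * j + 1) : ℚ))) =
    ((l : ℚ) + 1) ^ 2 * Sg a (j + 1) (l + 1) / (a + 1) * w (j + 1) (l + 1) *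
      ((a + (l + 1)).choose (l + 1) : ℚ) * ((a + (l + 1) + 2).choose (2 * (j + 1)) : ℚ) /
        ((a + l + 2) * (a + l + 3)) -
    (l : ℚ) ^ 2 * Sg a (j + 1) l / (a + 1) * w (j + 1) l *
      ((a + l).choose l : ℚ) * ((a + l + 2).choose (2 * (j + 1)) : ℚ) /
        ((a + l + 1) * (a + l + 2)) := by
  have ha : ((a : ℚ) + 1) ≠ 0 := by positivity
  have ha2 : ((a : ℚ) + 2) ≠ 0 := by positivity
  have hl : ((l : ℚ) + 1) ≠ 0 := by positivity
  have hN1 : ((a : ℚ) + l + 1) ≠ 0 := by positivity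
  have hN2 : ((a : ℚ) + l + 2) ≠ 0 := by positivity
  have hN3 : ((a : ℚ) + l + 3) ≠ 0 := by positivity
  have hj1 : (2 * (j : ℚ) + 1) ≠ 0 := by positivity
  have hj2 : (2 * (j : ℚ) + 2) ≠ 0 := by positivity
  have hj3 : (2 * (j : ℚ) + 3) ≠ 0 := by positivity
  have e1 : w (j + 1) (l + 1) = -2 * ((j : ℚ) + 1 - l) * W / (l + 1) := by
    rw [eq_div_iff hl, mul_comm, ← hW]
    have := w_succ (j + 1) l
    push_cast at this
    exact this
  -- binomials in terms of `B = C(N+1, 2j)`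
  have d1 : ((a + l + 1).choose (2 * j + 1) : ℚ) = (a + l + 1 - 2 * j) * B / (2 * j + 1) := by
    have := ch1 (a + l + 1) (2 * j)
    push_cast at this
    rw [eq_div_iff hj1, ← hB]; linarith
  have d2 : ((a + l + 1).choose (2 * j + 2) : ℚ) =
      (a + l - 2 * j) * ((a + l + 1 - 2 * j) * B / (2 * j + 1)) / (2 * j + 2) := by
    have := ch1 (a + l + 1) (2 * j + 1)
    push_cast at this
    rw [eq_div_iff hj2, ← d1]; linarith
  have d3 : ((a + l + 1).choose (2 * j + 3) : ℚ) = (a + l - 1 - 2 * j) *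
      ((a + l - 2 * j) * ((a + l + 1 - 2 * j) * B / (2 * j + 1)) / (2 * j + 2)) / (2 * j + 3) := by
    have := ch1 (a + l + 1) (2 * j + 2)
    push_cast at this
    rw [eq_div_iff hj3, ← d2]; linarith
  have d4 : ((a + l + 2).choose (2 * j + 1) : ℚ) = (a + l + 2) * B / (2 * j + 1) := by
    have := ch2 (a + l + 1) (2 * j)
    push_cast at this
    rw [eq_div_iff hj1, ← hB]; linarith
  have d5 : ((a + l + 2).choose (2 * j + 2) : ℚ) =
      (a + l + 2) * ((a + l + 1 - 2 * j) * B / (2 * j + 1)) / (2 * j + 2) := by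
    have := ch2 (a + l + 1) (2 * j + 1)
    push_cast at this
    rw [eq_div_iff hj2, ← d1]; linarith
  have d6 : ((a + l + 2).choose (2 * j + 3) : ℚ) = (a + l + 2) *
      ((a + l - 2 * j) * ((a + l + 1 - 2 * j) * B / (2 * j + 1)) / (2 * j + 2)) / (2 * j + 3) := by
    have := ch2 (a + l + 1) (2 * j + 2)
    push_cast at this
    rw [eq_div_iff hj3, ← d2]; linarith
  have d7 : ((a + l).choose (2 * j + 2) : ℚ) = (a + l - 1 - 2 * j) *
      ((a + l - 2 * j) * ((a + l + 1 - 2 * j) * B / (2 * j + 1)) / (2 * j + 2)) /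
        (a + l + 1) := by
    have := ch3 (a + l) (2 * j + 2)
    push_cast at this
    rw [eq_div_iff hN1, ← d2]; linarith
  have d8 : ((a + l + 3).choose (2 * j + 2) : ℚ) =
      (a + l + 3) * ((a + l + 2) * B / (2 * j + 1)) / (2 * j + 2) := by
    have := ch2 (a + l + 2) (2 * j + 1)
    push_cast at this
    rw [eq_div_iff hj2, ← d4]; linarith
  rw [show a + 2 + l = a + l + 2 by ring, show a + 1 + l + 1 = a + l + 2 by ring,
    show 2 * (j + 1) = 2 * j + 2 by ring, show 2 * j + 2 + 1 = 2 * j + 3 by ring,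
    show a + (l + 1) + 2 = a + l + 3 by ring, show a + (l + 1) = a + l + 1 by ring,
    base_P2, base_P, base_P3, hP, hW, e1, d3, d6, d5, d7, d8, d1, d4]
  unfold Sg
  field_simp
  ring

lemma R3_zero (a : ℕ) : ((a : ℚ) + 2) ^ 3 * f 0 (a + 2) - (a + 1) ^ 3 * f 0 a = Q 0 a := by
  simp [f, Q, G, w]
  ring

lemma R3 (j a : ℕ) : ((a : ℚ) + 2) ^ 3 * f (j + 1) (a + 2) - (a + 1) ^ 3 * f (j + 1) a =
    (2 * ((j : ℚ) + 1) + 1) ^ 2 * Q (j + 1) a + 4 * ((j : ℚ) + 1) ^ 2 * Q j a := by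
  obtain ⟨U, hU⟩ : ∃ U : ℕ → ℚ, U = fun l : ℕ => (l : ℚ) ^ 2 * Sg a (j + 1) l / (a + 1) *
    w (j + 1) l * ((a + l).choose l : ℚ) * ((a + l + 2).choose (2 * (j + 1)) : ℚ) /
        ((a + l + 1) * (a + l + 2)) := ⟨_, rfl⟩
  have hG : ∀ b : ℕ, 4 * ((j : ℚ) + 1) ^ 2 * G j b = ∑ l ∈ range (j + 1 + 1),
      (-4 * ((j : ℚ) + 1) * ((j : ℚ) + 1 - l) * (w (j + 1) l * ((b + l + 1).choose l : ℚ) *
          ((b + l + 1).choose (2 * j + 1) : ℚ))) := by
    intro b
    unfold G
    rw [Finset.sum_range_succ _ (j + 1)]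
    have : (-4 * ((j : ℚ) + 1) * ((j : ℚ) + 1 - (j + 1 : ℕ)) * (w (j + 1) (j + 1) *
        ((b + (j + 1) + 1).choose (j + 1) : ℚ) *
          ((b + (j + 1) + 1).choose (2 * j + 1) : ℚ))) = 0 := by
      push_cast
      ring
    rw [this, add_zero, Finset.mul_sum]
    refine Finset.sum_congr rfl fun l _ => ?_
    have h := w_pred j l
    calc _ = 4 * ((j : ℚ) + 1) * (((j : ℚ) + 1) * w j l) * ((b + l + 1).choose l : ℚ) *
          ((b + l + 1).choose (2 * j + 1) : ℚ) := by ring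
      _ = _ := by rw [h]; ring
  have h1 : ((a : ℚ) + 2) ^ 3 * f (j + 1) (a + 2) - (a + 1) ^ 3 * f (j + 1) a -
      (2 * ((j : ℚ) + 1) + 1) ^ 2 * Q (j + 1) a - 4 * ((j : ℚ) + 1) ^ 2 * Q j a =
      ∑ l ∈ range (j + 1 + 1), (U (l + 1) - U l) := by
    have h2 : 4 * ((j : ℚ) + 1) ^ 2 * Q j a = (a + 2) * (4 * ((j : ℚ) + 1) ^ 2 * G j (a + 1)) +
        (2 * a + 3) * (4 * ((j : ℚ) + 1) ^ 2 * G j a) := by
      unfold Q
      ring
    have E1 : ((a : ℚ) + 2) ^ 3 * f (j + 1) (a + 2) = ∑ l ∈ range (j + 1 + 1),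
        ((a : ℚ) + 2) ^ 3 * (w (j + 1) l * ((a + 2 + l).choose l : ℚ) *
          ((a + 2 + l).choose (2 * (j + 1)) : ℚ)) := by
      unfold f
      rw [Finset.mul_sum]
    have E2 : ((a : ℚ) + 1) ^ 3 * f (j + 1) a = ∑ l ∈ range (j + 1 + 1),
        ((a : ℚ) + 1) ^ 3 * (w (j + 1) l * ((a + l).choose l : ℚ) *
          ((a + l).choose (2 * (j + 1)) : ℚ)) := by
      unfold f
      rw [Finset.mul_sum]
    have E3 : (2 * ((j : ℚ) + 1) + 1) ^ 2 * Q (j + 1) a = ∑ l ∈ range (j + 1 + 1),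
        (2 * ((j : ℚ) + 1) + 1) ^ 2 * (((a : ℚ) + 2) * (w (j + 1) l *
          ((a + 1 + l + 1).choose l : ℚ) * ((a + 1 + l + 1).choose (2 * (j + 1) + 1) : ℚ)) +
        (2 * a + 3) * (w (j + 1) l * ((a + l + 1).choose l : ℚ) *
          ((a + l + 1).choose (2 * (j + 1) + 1) : ℚ))) := by
      unfold Q G
      rw [Finset.mul_sum, Finset.mul_sum, ← Finset.sum_add_distrib, Finset.mul_sum]
    rw [h2, hG, hG, E1, E2, E3, Finset.mul_sum, Finset.mul_sum, ← Finset.sum_add_distrib,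
      ← Finset.sum_sub_distrib, ← Finset.sum_sub_distrib, ← Finset.sum_sub_distrib]
    refine Finset.sum_congr rfl fun l _ => ?_
    have h3 := cert j a l _ _ _ rfl rfl rfl
    rw [hU]
    simp only
    push_cast at h3 ⊢
    have e1 : ((a : ℚ) + (l + 1) + 1) = a + l + 2 := by ring
    have e2 : ((a : ℚ) + (l + 1) + 2) = a + l + 3 := by ring
    rw [e1, e2, ← h3]
    ring
  rw [Finset.sum_range_sub] at h1
  have h2 : U (j + 1 + 1) = 0 := by
    rw [hU]
    simp [w_top]
  have h3 : U 0 = 0 := by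
    rw [hU]
    simp
  rw [h2, h3] at h1
  linarith

/-! ### The two sequences -/

def dN (n a : ℕ) : ℚ := ∑ k ∈ range (n + 1), (n.choose k : ℚ) * (2 ^ k * (a.choose k : ℚ))

def sN (n a : ℕ) : ℚ := ∑ k ∈ range (n + 1), (n.choose k : ℚ) * c k a

lemma shift (n : ℕ) (φ : ℕ → ℚ) : (n : ℚ) * ∑ k ∈ range (n + 1), (n.choose k : ℚ) * φ k =
    ∑ k ∈ range (n + 1), (n.choose k : ℚ) * (k * (φ k + φ (k - 1))) := by
  have h1 : ∑ k ∈ range (n + 1), (((k : ℚ) + 1) * (n.choose (k + 1) : ℚ)) * φ k =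
      ∑ k ∈ range (n + 1), (n.choose k : ℚ) * (k * φ (k - 1)) := by
    have h2 := Finset.sum_range_succ' (fun k => (n.choose k : ℚ) * ((k : ℚ) * φ (k - 1))) (n + 1)
    rw [Finset.sum_range_succ] at h2
    rw [Nat.choose_eq_zero_of_lt (Nat.lt_succ_self n)] at h2
    simp only [Nat.cast_zero, zero_mul, mul_zero, add_zero, Nat.add_sub_cancel] at h2
    rw [h2]
    refine Finset.sum_congr rfl fun k _ => ?_
    push_cast
    ring
  have h3 : ∀ k : ℕ, (n : ℚ) * (n.choose k : ℚ) = k * (n.choose k : ℚ) +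
      ((k : ℚ) + 1) * (n.choose (k + 1) : ℚ) := by
    intro k
    rw [ch1]
    ring
  rw [Finset.mul_sum]
  calc ∑ k ∈ range (n + 1), (n : ℚ) * ((n.choose k : ℚ) * φ k) =
      ∑ k ∈ range (n + 1), ((n.choose k : ℚ) * (k * φ k) +
        (((k : ℚ) + 1) * (n.choose (k + 1) : ℚ)) * φ k) := by
        refine Finset.sum_congr rfl fun k _ => ?_
        have := h3 k
        calc (n : ℚ) * ((n.choose k : ℚ) * φ k) = ((n : ℚ) * (n.choose k : ℚ)) * φ k := by ring
          _ = _ := by rw [this]; ring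
    _ = _ := by
        rw [Finset.sum_add_distrib, h1, ← Finset.sum_add_distrib]
        refine Finset.sum_congr rfl fun k _ => ?_
        ring

lemma dN_rec (n a : ℕ) : ((a : ℚ) + 2) * dN n (a + 2) =
    (2 * n + 1) * dN n (a + 1) + (a + 1) * dN n a := by
  have h := shift n fun k => 2 ^ k * ((a + 1).choose k : ℚ)
  have h1 : (2 * (n : ℚ) + 1) * dN n (a + 1) = 2 * ((n : ℚ) * dN n (a + 1)) + dN n (a + 1) := by
    ring
  rw [h1]
  unfold dN
  rw [h, Finset.mul_sum, Finset.mul_sum, Finset.mul_sum, ← Finset.sum_add_distrib,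
    ← Finset.sum_add_distrib]
  refine Finset.sum_congr rfl fun k _ => ?_
  rcases k with _ | j
  · simp
    ring
  · have hj : ((j : ℚ) + 1) ≠ 0 := by positivity
    have ha : ((a : ℚ) + 1) ≠ 0 := by positivity
    have b1 := ch2 (a + 1) j
    have b2 := ch1 (a + 1) j
    have b3 := ch3 a (j + 1)
    push_cast at b1 b2 b3
    have c1 : ((a + 2).choose (j + 1) : ℚ) = (a + 2) * ((a + 1).choose j : ℚ) / (j + 1) := by
      rw [eq_div_iff hj]; linarith
    have c2 : ((a + 1).choose (j + 1) : ℚ) = (a + 1 - j) * ((a + 1).choose j : ℚ) / (j + 1) := by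
      rw [eq_div_iff hj]; linarith
    have c3 : (a.choose (j + 1) : ℚ) = (a - j) * ((a + 1 - j) * ((a + 1).choose j : ℚ) / (j + 1)) /
        (a + 1) := by
      rw [eq_div_iff ha, ← c2]; linarith
    rw [c1, c2, c3, Nat.add_sub_cancel]
    push_cast
    field_simp
    ring

lemma sN_rec (n a : ℕ) : ((a : ℚ) + 2) ^ 2 * sN n (a + 2) =
    (2 * a + 3) * ((2 * n + 1) * sN n (a + 1)) + (a + 1) ^ 2 * sN n a := by
  have h := shift n fun k => c k (a + 1)
  have h1 : (2 * (n : ℚ) + 1) * sN n (a + 1) = 2 * ((n : ℚ) * sN n (a + 1)) + sN n (a + 1) := by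
    ring
  rw [h1]
  unfold sN
  rw [h, Finset.mul_sum, Finset.mul_sum, Finset.mul_sum, ← Finset.sum_add_distrib,
    Finset.mul_sum, ← Finset.sum_add_distrib]
  refine Finset.sum_congr rfl fun k _ => ?_
  rcases k with _ | j
  · simp [c_zero]
    ring
  · have hj : ((j : ℚ) + 1) ≠ 0 := by positivity
    have ha : ((a : ℚ) + 1) ≠ 0 := by positivity
    have ha2 : ((a : ℚ) + 2) ≠ 0 := by positivity
    obtain ⟨E, hE⟩ : ∃ E : ℚ, E = c j (a + 1) := ⟨_, rfl⟩
    have c1 : c (j + 1) (a + 1) = (a + 1 - j) * (a + 2 + j) * E / (j + 1) ^ 2 := by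
      have := c_succ j (a + 1)
      push_cast at this
      rw [eq_div_iff (by positivity), hE]; linarith
    have c2 : c (j + 1) (a + 2) = (a + 2 + j) * (a + 3 + j) * E / (j + 1) ^ 2 := by
      rw [hE]
      unfold c
      have b1 := ch2 (a + 1) j
      have b2 := ch2 (a + 2 + j) j
      have b3 := ch3 (a + 1 + j) j
      push_cast at b1 b2 b3
      have d1 : ((a + 2).choose (j + 1) : ℚ) = (a + 2) * ((a + 1).choose j : ℚ) / (j + 1) := by
        rw [eq_div_iff hj]; linarith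
      have d3 : ((a + 2 + j).choose j : ℚ) = (a + 2 + j) * ((a + 1 + j).choose j : ℚ) / (a + 2) := by
        rw [eq_div_iff ha2, show a + 2 + j = a + 1 + j + 1 by ring]; linarith
      have d2 : ((a + 2 + (j + 1)).choose (j + 1) : ℚ) =
          (a + 3 + j) * ((a + 2 + j) * ((a + 1 + j).choose j : ℚ) / (a + 2)) / (j + 1) := by
        rw [eq_div_iff hj, ← d3, show a + 2 + (j + 1) = a + 2 + j + 1 by ring]; linarith
      rw [d1, d2]
      field_simp
    have c3 : c (j + 1) a = (a - j) * (a + 1 - j) * E / (j + 1) ^ 2 := by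
      rw [hE]
      unfold c
      have b1 := ch1 (a + 1) j
      have b2 := ch3 a (j + 1)
      have b3 := ch1 (a + 1 + j) j
      push_cast at b1 b2 b3
      have d1 : ((a + 1).choose (j + 1) : ℚ) = (a + 1 - j) * ((a + 1).choose j : ℚ) / (j + 1) := by
        rw [eq_div_iff hj]; linarith
      have d2 : (a.choose (j + 1) : ℚ) = (a - j) * ((a + 1 - j) * ((a + 1).choose j : ℚ) /
          (j + 1)) / (a + 1) := by
        rw [eq_div_iff ha, ← d1]; linarith
      have d3 : ((a + (j + 1)).choose (j + 1) : ℚ) = (a + 1) * ((a + 1 + j).choose j : ℚ) /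
          (j + 1) := by
        rw [eq_div_iff hj, show a + (j + 1) = a + 1 + j by ring]; linarith
      rw [d2, d3]
      field_simp
    rw [c1, c2, c3, Nat.add_sub_cancel, ← hE]
    push_cast
    field_simp
    ring

/-! ### The expansion -/

/-- the sum against the basis -/
def SS (M n : ℕ) (φ : ℕ → ℚ) : ℚ := ∑ i ∈ range M, c i n * φ i

lemma SS_lin (M n : ℕ) (φ ψ : ℕ → ℚ) (x y : ℚ) :
    SS M n (fun i => x * φ i + y * ψ i) = x * SS M n φ + y * SS M n ψ := by
  unfold SS
  rw [Finset.mul_sum, Finset.mul_sum, ← Finset.sum_add_distrib]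
  exact Finset.sum_congr rfl fun i _ => by ring

lemma SS_congr (M n : ℕ) {φ ψ : ℕ → ℚ} (h : ∀ i, φ i = ψ i) : SS M n φ = SS M n ψ := by
  rw [show φ = ψ from funext h]

/-- multiplication by `(2n+1)^2` -/
lemma SS_mul (M n : ℕ) (hM : n < M) (φ : ℕ → ℚ) : (2 * (n : ℚ) + 1) ^ 2 * SS M n φ =
    SS M n (fun i => (2 * (i : ℚ) + 1) ^ 2 * φ i + 4 * (i : ℚ) ^ 2 * φ (i - 1)) := by
  have h1 : ∑ i ∈ range M, 4 * ((i : ℚ) + 1) ^ 2 * c (i + 1) n * φ i =
      ∑ i ∈ range M, c i n * (4 * (i : ℚ) ^ 2 * φ (i - 1)) := by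
    have h2 := Finset.sum_range_succ' (fun i => c i n * (4 * (i : ℚ) ^ 2 * φ (i - 1))) M
    rw [Finset.sum_range_succ, c_lt hM] at h2
    simp only [Nat.cast_zero, zero_mul, mul_zero, add_zero, Nat.add_sub_cancel, ne_eq,
      OfNat.ofNat_ne_zero, not_false_eq_true, zero_pow] at h2
    rw [h2]
    refine Finset.sum_congr rfl fun i _ => ?_
    push_cast
    ring
  unfold SS
  rw [Finset.mul_sum]
  calc ∑ i ∈ range M, (2 * (n : ℚ) + 1) ^ 2 * (c i n * φ i) =
      ∑ i ∈ range M, (c i n * ((2 * (i : ℚ) + 1) ^ 2 * φ i) +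
        4 * ((i : ℚ) + 1) ^ 2 * c (i + 1) n * φ i) := by
        refine Finset.sum_congr rfl fun i _ => ?_
        have h := c_succ i n
        calc (2 * (n : ℚ) + 1) ^ 2 * (c i n * φ i) = c i n * ((2 * (i : ℚ) + 1) ^ 2 * φ i) +
            4 * (((n : ℚ) - i) * (n + i + 1) * c i n) * φ i := by ring
          _ = _ := by rw [← h]; ring
    _ = _ := by
        rw [Finset.sum_add_distrib, h1, ← Finset.sum_add_distrib]
        exact Finset.sum_congr rfl fun i _ => by ring

lemma delta_sum (M n : ℕ) (hM : 0 < M) {φ : ℕ → ℚ} (h0 : φ 0 = 1) (h1 : ∀ i, 1 ≤ i → φ i = 0) :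
    SS M n φ = 1 := by
  unfold SS
  rw [Finset.sum_eq_single 0]
  · rw [c_zero, h0, mul_one]
  · intro i _ hi
    rw [h1 i (by omega), mul_zero]
  · intro h
    exact absurd (mem_range.2 hM) h

theorem expansion (n M : ℕ) (hM : n < M) (hM2 : 2 ≤ M) (a : ℕ) :
    dN n a * sN n a = SS M n (fun i => f i a) ∧
    dN n (a + 1) * sN n (a + 1) = SS M n (fun i => f i (a + 1)) ∧
    ((a : ℚ) + 1) * (dN n a * sN n (a + 1)) = (2 * n + 1) * SS M n (fun i => G i a) ∧
    ((a : ℚ) + 1) * (dN n (a + 1) * sN n a) = (2 * n + 1) * SS M n (fun i => H i a) := by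
  induction a with
  | zero =>
    have hd0 : dN n 0 = 1 := by
      unfold dN
      rw [Finset.sum_range_succ']
      simp
    have hs0 : sN n 0 = 1 := by
      unfold sN
      rw [Finset.sum_range_succ']
      simp [c]
    have hd1 : dN n 1 = 2 * n + 1 := by
      unfold dN
      rcases n with _ | n
      · simp
      · rw [Finset.sum_range_succ', Finset.sum_range_succ']
        simp [Nat.choose_eq_zero_of_lt (show 1 < _ + 1 + 1 by omega)]
        ring
    have hs1 : sN n 1 = 2 * n + 1 := by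
      unfold sN
      rcases n with _ | n
      · simp [c]
      · rw [Finset.sum_range_succ', Finset.sum_range_succ']
        simp [c, Nat.choose_eq_zero_of_lt (show 1 < _ + 1 + 1 by omega)]
        ring
    have hf0 : SS M n (fun i => f i 0) = 1 := by
      refine delta_sum M n (by omega) ?_ fun i hi => f_zero (by omega)
      simp [f, w]
    have hG0 : SS M n (fun i => G i 0) = 1 := by
      refine delta_sum M n (by omega) ?_ fun i hi => ?_
      · simp [G, w]
      · unfold G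
        refine Finset.sum_eq_zero fun l hl => ?_
        rw [mem_range] at hl
        rw [Nat.choose_eq_zero_of_lt (show 0 + l + 1 < 2 * i + 1 by omega)]
        simp
    have hH0 : SS M n (fun i => H i 0) = 1 := by
      refine delta_sum M n (by omega) ?_ fun i hi => ?_
      · simp [H, w]
      · unfold H
        refine Finset.sum_eq_zero fun l hl => ?_
        rw [mem_range] at hl
        rw [Nat.choose_eq_zero_of_lt (show 0 + l + 1 < 2 * i + 1 by omega)]
        simp
    have hf1 : SS M n (fun i => f i (0 + 1)) = (2 * n + 1) ^ 2 := by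
      obtain ⟨M, rfl⟩ : ∃ M', M = M' + 2 := ⟨M - 2, by omega⟩
      unfold SS
      rw [Finset.sum_range_succ', Finset.sum_range_succ', Finset.sum_eq_zero]
      · have h1 : f 0 (0 + 1) = 1 := by simp [f, w]
        have h2 : f (0 + 1) (0 + 1) = 4 := by
          simp [f, w, Finset.sum_range_succ]
          norm_num
        have h3 : c (0 + 1) n = n * (n + 1) := by
          simp [c]
        beta_reduce
        rw [h1, h2, h3, c_zero]
        ring
      · intro i _
        beta_reduce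
        rw [f_zero (by omega), mul_zero]
    rw [hf0, hf1, hG0, hH0]
    simp only [zero_add, hd0, hs0, hd1, hs1]
    refine ⟨by ring, by ring, by push_cast; ring, by push_cast; ring⟩
  | succ a ih =>
    obtain ⟨h1, h2, h3, h4⟩ := ih
    have ha : ((a : ℚ) + 2) ≠ 0 := by positivity
    have hZ : ((a : ℚ) + 2) * (dN n (a + 2) * sN n (a + 1)) =
        (2 * n + 1) * SS M n (fun i => H i (a + 1)) := by
      have e1 : SS M n (fun i => H i (a + 1)) =
          1 * SS M n (fun i => f i (a + 1)) + 1 * SS M n (fun i => G i a) := by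
        rw [← SS_lin]
        exact SS_congr M n fun i => by rw [R1]; ring
      rw [e1, ← h2]
      have e2 := dN_rec n a
      calc ((a : ℚ) + 2) * (dN n (a + 2) * sN n (a + 1)) =
          (((a : ℚ) + 2) * dN n (a + 2)) * sN n (a + 1) := by ring
        _ = (2 * n + 1) * (dN n (a + 1) * sN n (a + 1)) +
            ((a : ℚ) + 1) * (dN n a * sN n (a + 1)) := by rw [e2]; ring
        _ = _ := by rw [h3]; ring
    have hY : ((a : ℚ) + 2) * (dN n (a + 1) * sN n (a + 2)) =
        (2 * n + 1) * SS M n (fun i => G i (a + 1)) := by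
      apply mul_left_cancel₀ ha
      have e1 : ((a : ℚ) + 2) * SS M n (fun i => G i (a + 1)) + 0 * SS M n (fun i => G i a) =
          (2 * a + 3) * SS M n (fun i => f i (a + 1)) + (a + 1) * SS M n (fun i => H i a) := by
        rw [← SS_lin, ← SS_lin]
        exact SS_congr M n fun i => by rw [R2]; ring
      have e2 := sN_rec n a
      calc ((a : ℚ) + 2) * (((a : ℚ) + 2) * (dN n (a + 1) * sN n (a + 2))) =
          dN n (a + 1) * (((a : ℚ) + 2) ^ 2 * sN n (a + 2)) := by ring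
        _ = (2 * n + 1) * ((2 * a + 3) * (dN n (a + 1) * sN n (a + 1))) +
            (a + 1) * (((a : ℚ) + 1) * (dN n (a + 1) * sN n a)) := by rw [e2]; ring
        _ = (2 * n + 1) * ((2 * a + 3) * SS M n (fun i => f i (a + 1)) +
            (a + 1) * SS M n (fun i => H i a)) := by rw [h2, h4]; ring
        _ = _ := by rw [← e1]; ring
    have hX : dN n (a + 2) * sN n (a + 2) = SS M n (fun i => f i (a + 2)) := by
      apply mul_left_cancel₀ (pow_ne_zero 3 ha)
      have e1 : ((a : ℚ) + 2) ^ 3 * SS M n (fun i => f i (a + 2)) +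
          (-(a + 1) ^ 3) * SS M n (fun i => f i a) =
          (2 * (n : ℚ) + 1) ^ 2 * SS M n (fun i => Q i a) := by
        rw [← SS_lin, SS_mul M n hM]
        refine SS_congr M n fun i => ?_
        rcases i with _ | j
        · have := R3_zero a
          simp
          linarith
        · have := R3 j a
          push_cast
          linarith
      have e2 : SS M n (fun i => Q i a) = ((a : ℚ) + 2) * SS M n (fun i => G i (a + 1)) +
          (2 * a + 3) * SS M n (fun i => G i a) := by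
        rw [← SS_lin]
        rfl
      have e3 := dN_rec n a
      have e4 := sN_rec n a
      calc ((a : ℚ) + 2) ^ 3 * (dN n (a + 2) * sN n (a + 2)) =
          (((a : ℚ) + 2) * dN n (a + 2)) * (((a : ℚ) + 2) ^ 2 * sN n (a + 2)) := by ring
        _ = (2 * n + 1) * dN n (a + 1) * (((a : ℚ) + 2) ^ 2 * sN n (a + 2)) +
            (a + 1) * dN n a * (((a : ℚ) + 2) ^ 2 * sN n (a + 2)) := by rw [e3]; ring
        _ = (2 * n + 1) * (a + 2) * (((a : ℚ) + 2) * (dN n (a + 1) * sN n (a + 2))) +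
            (a + 1) * dN n a * ((2 * a + 3) * ((2 * n + 1) * sN n (a + 1)) +
              (a + 1) ^ 2 * sN n a) := by rw [← e4]; ring
        _ = (2 * n + 1) * (a + 2) * ((2 * n + 1) * SS M n (fun i => G i (a + 1))) +
            (2 * a + 3) * (2 * n + 1) * (((a : ℚ) + 1) * (dN n a * sN n (a + 1))) +
              (a + 1) ^ 3 * (dN n a * sN n a) := by rw [hY]; ring
        _ = (2 * (n : ℚ) + 1) ^ 2 * (((a : ℚ) + 2) * SS M n (fun i => G i (a + 1)) +
          (2 * a + 3) * SS M n (fun i => G i a)) + (a + 1) ^ 3 * SS M n (fun i => f i a) := by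
            rw [h3, h1]; ring
        _ = _ := by rw [← e2, ← e1]; ring
    refine ⟨h2, hX, ?_, ?_⟩
    · push_cast
      rw [show (a : ℚ) + 1 + 1 = a + 2 by ring]
      exact hY
    · push_cast
      rw [show (a : ℚ) + 1 + 1 = a + 2 by ring]
      exact hZ

/-- the product belongs to the ring -/
theorem prod_mem (a : ℕ) : (fun n => dN n a * sN n a) ∈ S := by
  have h : (fun n => dN n a * sN n a) = ∑ i ∈ range (a + 1), (fun n => f i a * c i n) := by
    ext n
    rw [(expansion n (n + a + 2) (by omega) (by omega) a).1, Finset.sum_apply]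
    unfold SS
    have h1 : range (a + 1) ⊆ range (n + a + 2) := fun x hx => by
      rw [mem_range] at hx ⊢
      omega
    rw [← Finset.sum_subset h1]
    · exact Finset.sum_congr rfl fun i _ => by ring
    · intro i _ hi
      rw [mem_range] at hi
      beta_reduce
      rw [f_zero (by omega), mul_zero]
  rw [h]
  refine S.sum_mem fun i _ => ?_
  obtain ⟨z, hz⟩ := f_int i a
  have := int_mul_mem (c_mem i) z
  rw [← hz] at this
  exact this

end Pool.Agent.X48.DelSun
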