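import Mathlib

/-!
Odd independent sets in hypercubes of even dimension.
-/

namespace Pool.Agent.X48.OddIndep

/-- `S` is an odd independent set of `G`. -/
def OddIndep {V : Type} (G : SimpleGraph V) (S : Set V) : Prop :=
  (∀ u ∈ S, ∀ v ∈ S, ¬ G.Adj u v) ∧
    ∀ v, v ∉ S → G.neighborSet v ∩ S = ∅ ∨ Odd (G.neighborSet v ∩ S).ncard

/-- The odd independence number (the largest size of an odd independent set). -/
noncomputable def alphaOdd {V : Type} (G : SimpleGraph V) : ℕ :=
  sSup {n : ℕ | ∃ S : Set V, OddIndep G S ∧ S.ncard = n}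

/-- The `d`-dimensional hypercube: vertices are the vectors with entries `0, 1`, adjacent when they
differ in exactly one coordinate. -/
def cube (d : ℕ) : SimpleGraph (Fin d → ZMod 2) where
  Adj x y := hammingDist x y = 1
  symm := ⟨fun x y h => by rw [hammingDist_comm]; exact h⟩
  loopless := ⟨fun x h => by simp at h⟩

theorem hd_single {d : ℕ} (x : Fin d → ZMod 2) (i : Fin d) :
    hammingDist x (x + Pi.single i 1) = 1 := by
  classical
  unfold hammingDist
  have : (Finset.univ.filter fun j => x j ≠ (x + Pi.single i (1 : ZMod 2) : Fin d → ZMod 2) j) = {i} := by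
    ext j
    simp only [Finset.mem_filter, Finset.mem_univ, true_and, Finset.mem_singleton, Pi.add_apply]
    constructor
    · intro h
      by_contra hne
      apply h
      simp [hne]
    · rintro rfl
      simp
  rw [this, Finset.card_singleton]

theorem adj_iff {d : ℕ} (x y : Fin d → ZMod 2) :
    (cube d).Adj x y ↔ ∃ i, y = x + Pi.single i 1 := by
  classical
  constructor
  · intro h
    change hammingDist x y = 1 at h
    unfold hammingDist at h
    obtain ⟨i, hi⟩ := Finset.card_eq_one.1 h
    refine ⟨i, ?_⟩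
    funext j
    have hj : x j ≠ y j ↔ j = i := by
      have := congrArg (fun s => j ∈ s) hi
      simpa using this
    simp only [Pi.add_apply]
    by_cases hji : j = i
    · subst hji
      have h1 : x j ≠ y j := hj.2 rfl
      simp only [Pi.single_eq_same]
      generalize x j = a at h1 ⊢
      generalize y j = b at h1 ⊢
      revert a b
      decide
    · have h1 : x j = y j := by
        by_contra hne
        exact hji (hj.1 hne)
      rw [← h1]
      simp [hji]
  · rintro ⟨i, rfl⟩
    exact hd_single x i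

/-- the parity of the weight -/
def par {d : ℕ} : (Fin d → ZMod 2) →+ ZMod 2 where
  toFun x := ∑ i, x i
  map_zero' := by simp
  map_add' x y := by simp [Finset.sum_add_distrib]

/-- the weighted sum of colours -/
def phi {d k : ℕ} (c : Fin d → (Fin k → ZMod 2)) : (Fin d → ZMod 2) →+ (Fin k → ZMod 2) where
  toFun x := ∑ i, x i • c i
  map_zero' := by simp
  map_add' x y := by simp [Finset.sum_add_distrib, add_smul]

theorem par_single {d : ℕ} (x : Fin d → ZMod 2) (i : Fin d) : par (x + Pi.single i 1) = par x + 1 := by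
  rw [map_add]
  congr 1
  simp [par]

theorem phi_single {d k : ℕ} (c : Fin d → (Fin k → ZMod 2)) (x : Fin d → ZMod 2) (i : Fin d) :
    phi c (x + Pi.single i 1) = phi c x + c i := by
  rw [map_add]
  congr 1
  simp only [phi, AddMonoidHom.coe_mk, ZeroHom.coe_mk]
  rw [Finset.sum_eq_single i]
  · simp
  · intro j _ hj
    simp [hj]
  · simp

/-- the odd independent set -/
def SS {d k : ℕ} (c : Fin d → (Fin k → ZMod 2)) : Set (Fin d → ZMod 2) :=
  {x | par x = 0 ∧ phi c x ≠ 0}

theorem single_inj {d : ℕ} (v : Fin d → ZMod 2) :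
    Function.Injective (fun i : Fin d => v + Pi.single i (1 : ZMod 2)) := by
  intro i j h
  simp only [add_right_inj] at h
  have := congrFun h i
  by_contra hne
  simp [hne] at this

theorem two_cases (a : ZMod 2) : a = 0 ∨ a = 1 := by
  revert a; decide

theorem oddIndep_SS {d k : ℕ} (hd : Even d) (c : Fin d → (Fin k → ZMod 2))
    (hc : ∀ w, Odd (Finset.univ.filter (fun i => c i = w)).card) : OddIndep (cube d) (SS c) := by
  classical
  constructor
  · rintro u ⟨hu, -⟩ v ⟨hv, -⟩ h
    obtain ⟨i, rfl⟩ := (adj_iff u v).1 h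
    rw [par_single, hu] at hv
    revert hv; decide
  · intro v hv
    rcases two_cases (par v) with h0 | h1
    · left
      ext x
      simp only [Set.mem_inter_iff, SimpleGraph.mem_neighborSet, Set.mem_empty_iff_false, iff_false,
        not_and]
      intro hx hxS
      obtain ⟨i, rfl⟩ := (adj_iff v x).1 hx
      have := hxS.1
      rw [par_single, h0] at this
      revert this; decide
    · right
      have hset : (cube d).neighborSet v ∩ SS c =
          (fun i : Fin d => v + Pi.single i (1 : ZMod 2)) '' {i | c i ≠ phi c v} := by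
        ext x
        constructor
        · rintro ⟨hx, hxS⟩
          obtain ⟨i, rfl⟩ := (adj_iff v x).1 hx
          refine ⟨i, ?_, rfl⟩
          intro hci
          apply hxS.2
          rw [phi_single, hci]
          funext j
          simp only [Pi.add_apply, Pi.zero_apply]
          generalize phi c v j = a
          revert a; decide
        · rintro ⟨i, hi, rfl⟩
          refine ⟨(adj_iff _ _).2 ⟨i, rfl⟩, ?_, ?_⟩
          · change par (v + Pi.single i 1) = 0
            rw [par_single, h1]; decide
          · change phi c (v + Pi.single i 1) ≠ 0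
            rw [phi_single]
            intro h
            apply hi
            funext j
            have := congrFun h j
            simp only [Pi.add_apply, Pi.zero_apply] at this
            generalize phi c v j = a at this ⊢
            generalize c i j = b at this ⊢
            revert a b; decide
      rw [hset, Set.ncard_image_of_injective _ (single_inj v)]
      have h2 : ({i | c i ≠ phi c v} : Set (Fin d)).ncard =
          (Finset.univ.filter (fun i => ¬ c i = phi c v)).card := by
        rw [Set.ncard_eq_toFinset_card']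
        congr 1
        ext i
        simp
      rw [h2]
      have h3 := Finset.card_filter_add_card_filter_not (s := (Finset.univ : Finset (Fin d)))
        (fun i => c i = phi c v)
      rw [Finset.card_univ, Fintype.card_fin] at h3
      have h4 := hc (phi c v)
      rw [← h3] at hd
      exact (Nat.even_add'.1 hd).1 h4

theorem exists_c {d k : ℕ} (hd : Even d) (hk : 1 ≤ k) (hkd : 2 ^ k ≤ d) :
    ∃ c : Fin d → (Fin k → ZMod 2), ∀ w, Odd (Finset.univ.filter (fun i => c i = w)).card := by
  classical
  have hcard : Fintype.card (Fin k → ZMod 2) = 2 ^ k := by simp [ZMod.card]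
  let e : Fin (2 ^ k) ≃ (Fin k → ZMod 2) := (Fintype.equivFinOfCardEq hcard).symm
  let c : Fin d → (Fin k → ZMod 2) := fun i => if h : (i : ℕ) < 2 ^ k then e ⟨i, h⟩ else 0
  refine ⟨c, fun w => ?_⟩
  -- split the indices
  have hsplit : (Finset.univ.filter (fun i : Fin d => c i = w)) =
      (Finset.univ.filter (fun i : Fin d => (i : ℕ) < 2 ^ k ∧ c i = w)) ∪
      (Finset.univ.filter (fun i : Fin d => ¬ (i : ℕ) < 2 ^ k ∧ c i = w)) := by
    ext i
    simp only [Finset.mem_filter, Finset.mem_univ, true_and, Finset.mem_union]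
    tauto
  have hdis : Disjoint (Finset.univ.filter (fun i : Fin d => (i : ℕ) < 2 ^ k ∧ c i = w))
      (Finset.univ.filter (fun i : Fin d => ¬ (i : ℕ) < 2 ^ k ∧ c i = w)) := by
    rw [Finset.disjoint_left]
    intro i hi hi'
    simp only [Finset.mem_filter, Finset.mem_univ, true_and] at hi hi'
    exact hi'.1 hi.1
  rw [hsplit, Finset.card_union_of_disjoint hdis]
  have h1 : (Finset.univ.filter (fun i : Fin d => (i : ℕ) < 2 ^ k ∧ c i = w)).card = 1 := by
    rw [Finset.card_eq_one]
    refine ⟨⟨(e.symm w : ℕ), lt_of_lt_of_le (e.symm w).2 hkd⟩, ?_⟩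
    ext i
    simp only [Finset.mem_filter, Finset.mem_univ, true_and, Finset.mem_singleton]
    constructor
    · rintro ⟨hi, hci⟩
      simp only [c, dif_pos hi] at hci
      apply Fin.ext
      simp only
      rw [← hci, Equiv.symm_apply_apply]
    · rintro rfl
      refine ⟨(e.symm w).2, ?_⟩
      simp [c]
  have h2 : Even (Finset.univ.filter (fun i : Fin d => ¬ (i : ℕ) < 2 ^ k ∧ c i = w)).card := by
    by_cases hw : w = 0
    · have : (Finset.univ.filter (fun i : Fin d => ¬ (i : ℕ) < 2 ^ k ∧ c i = w)) =
          (Finset.univ.filter (fun i : Fin d => ¬ (i : ℕ) < 2 ^ k)) := by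
        ext i
        simp only [Finset.mem_filter, Finset.mem_univ, true_and]
        constructor
        · exact fun h => h.1
        · intro h
          refine ⟨h, ?_⟩
          simp only [c, dif_neg h, hw]
      rw [this]
      have h3 := Finset.card_filter_add_card_filter_not (s := (Finset.univ : Finset (Fin d)))
        (fun i : Fin d => (i : ℕ) < 2 ^ k)
      rw [Finset.card_univ, Fintype.card_fin] at h3
      have h4 : (Finset.univ.filter (fun i : Fin d => (i : ℕ) < 2 ^ k)).card = 2 ^ k := by
        have h6 : (Finset.univ : Finset (Fin (2 ^ k))).card = 2 ^ k := by simp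
        refine Eq.trans (Eq.symm ?_) h6
        apply Finset.card_bij (fun (j : Fin (2 ^ k)) _ => (⟨(j : ℕ), lt_of_lt_of_le j.2 hkd⟩ : Fin d))
        · intro j _
          simp
        · intro j _ j' _ h
          simpa [Fin.ext_iff] using h
        · intro i hi
          simp only [Finset.mem_filter, Finset.mem_univ, true_and] at hi
          exact ⟨⟨i, hi⟩, Finset.mem_univ _, rfl⟩
      have h5 : Even (2 ^ k : ℕ) := (Nat.even_pow.2 ⟨even_two, by omega⟩)
      rw [h4] at h3
      rw [← h3] at hd
      exact (Nat.even_add.1 hd).1 h5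
    · have : (Finset.univ.filter (fun i : Fin d => ¬ (i : ℕ) < 2 ^ k ∧ c i = w)) = ∅ := by
        ext i
        simp only [Finset.mem_filter, Finset.mem_univ, true_and, Finset.notMem_empty, iff_false,
          not_and]
        intro h hc
        simp only [c, dif_neg h] at hc
        exact hw hc.symm
      rw [this]
      simp
  rw [h1]
  exact Odd.add_even odd_one h2

/-- kernel sizes -/
theorem card_ker {G H : Type} [AddCommGroup G] [Finite G] [AddCommGroup H] [Finite H] (f : G →+ H)
    (hf : Function.Surjective f) : Nat.card f.ker * Nat.card H = Nat.card G := by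
  have h1 := AddSubgroup.card_mul_index f.ker
  rw [AddSubgroup.index_ker] at h1
  have h2 : Nat.card f.range = Nat.card H := by
    rw [AddMonoidHom.range_eq_top.2 hf]
    exact Nat.card_congr AddSubgroup.topEquiv.toEquiv
  rw [h2] at h1
  exact h1

theorem par_surj {d : ℕ} (hd : 0 < d) : Function.Surjective (par (d := d)) := by
  intro a
  refine ⟨Pi.single ⟨0, hd⟩ a, ?_⟩
  simp [par]

theorem psi_surj {d k : ℕ} (c : Fin d → (Fin k → ZMod 2)) (hc : ∀ w, ∃ i, c i = w) :
    Function.Surjective ((par (d := d)).prod (phi c)) := by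
  have h1 : ∀ w, ∃ x : Fin d → ZMod 2, par x = 1 ∧ phi c x = w := by
    intro w
    obtain ⟨i, hi⟩ := hc w
    refine ⟨0 + Pi.single i 1, ?_, ?_⟩
    · rw [par_single]; simp
    · rw [phi_single]; simp [hi]
  rintro ⟨a, w⟩
  rcases two_cases a with rfl | rfl
  · obtain ⟨x, hx1, hx2⟩ := h1 w
    obtain ⟨z, hz1, hz2⟩ := h1 0
    refine ⟨x + z, ?_⟩
    ext
    · simp [hx1, hz1]; decide
    · simp [hx2, hz2]
  · obtain ⟨x, hx1, hx2⟩ := h1 w
    exact ⟨x, by ext <;> simp [hx1, hx2]⟩

theorem card_SS {d k : ℕ} (hd : 0 < d) (c : Fin d → (Fin k → ZMod 2)) (hc : ∀ w, ∃ i, c i = w) :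
    (SS c).ncard * 2 ^ (k + 1) + 2 ^ d = 2 ^ (d + k) := by
  classical
  have h1 : Nat.card (par (d := d)).ker * 2 = 2 ^ d := by
    have := card_ker (par (d := d)) (par_surj hd)
    simpa [Nat.card_eq_fintype_card, ZMod.card] using this
  have h2 : Nat.card ((par (d := d)).prod (phi c)).ker * (2 * 2 ^ k) = 2 ^ d := by
    have := card_ker ((par (d := d)).prod (phi c)) (psi_surj c hc)
    simpa [Nat.card_eq_fintype_card, ZMod.card] using this
  have h3 : (SS c).ncard + Nat.card ((par (d := d)).prod (phi c)).ker = Nat.card (par (d := d)).ker := by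
    have e1 : Nat.card (par (d := d)).ker = ({x : Fin d → ZMod 2 | par x = 0}).ncard := rfl
    have e2 : Nat.card ((par (d := d)).prod (phi c)).ker =
        ({x : Fin d → ZMod 2 | par x = 0 ∧ phi c x = 0}).ncard := by
      have : ({x : Fin d → ZMod 2 | par x = 0 ∧ phi c x = 0}) =
          ((((par (d := d)).prod (phi c)).ker : AddSubgroup _) : Set (Fin d → ZMod 2)) := by
        ext x
        simp [AddMonoidHom.mem_ker, Prod.ext_iff]
      rw [this]
      rfl
    rw [e1, e2, ← Set.ncard_union_eq _ (Set.toFinite _) (Set.toFinite _)]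
    · congr 1
      ext x
      simp only [SS, Set.mem_union, Set.mem_ofPred_eq]
      tauto
    · rw [Set.disjoint_left]
      rintro x hx hx'
      exact hx.2 hx'.2
  have h4 : 2 ^ (d + k) = Nat.card (par (d := d)).ker * 2 * 2 ^ k := by
    rw [h1, pow_add]
  rw [h4, ← h3, ← h2, pow_succ]
  ring

theorem indep_le {d : ℕ} (hd : 0 < d) (S : Set (Fin d → ZMod 2))
    (hS : ∀ u ∈ S, ∀ v ∈ S, ¬ (cube d).Adj u v) : 2 * S.ncard ≤ 2 ^ d := by
  classical
  let i0 : Fin d := ⟨0, hd⟩
  let g : (Fin d → ZMod 2) → (Fin d → ZMod 2) := fun x => x + Pi.single i0 1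
  have hg : Function.Injective g := add_left_injective _
  have h1 : (g '' S).ncard = S.ncard := Set.ncard_image_of_injective _ hg
  have h2 : Disjoint S (g '' S) := by
    rw [Set.disjoint_left]
    rintro x hx ⟨y, hy, rfl⟩
    exact hS y hy _ hx ((adj_iff _ _).2 ⟨i0, rfl⟩)
  have h3 : (S ∪ g '' S).ncard = 2 * S.ncard := by
    rw [Set.ncard_union_eq h2 (Set.toFinite _) (Set.toFinite _), h1]; ring
  rw [← h3]
  calc (S ∪ g '' S).ncard ≤ (Set.univ : Set (Fin d → ZMod 2)).ncard :=
        Set.ncard_le_ncard (Set.subset_univ _) (Set.toFinite _)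
    _ = 2 ^ d := by rw [Set.ncard_univ]; simp [ZMod.card]

theorem bdd (d : ℕ) : BddAbove {n : ℕ | ∃ S : Set (Fin d → ZMod 2), OddIndep (cube d) S ∧ S.ncard = n} := by
  refine ⟨2 ^ d, ?_⟩
  rintro n ⟨S, -, rfl⟩
  calc S.ncard ≤ (Set.univ : Set (Fin d → ZMod 2)).ncard :=
        Set.ncard_le_ncard (Set.subset_univ _) (Set.toFinite _)
    _ = 2 ^ d := by rw [Set.ncard_univ]; simp [ZMod.card]

theorem alpha_le {d : ℕ} (hd : 0 < d) : 2 * alphaOdd (cube d) ≤ 2 ^ d := by
  have hne : {n : ℕ | ∃ S : Set (Fin d → ZMod 2), OddIndep (cube d) S ∧ S.ncard = n}.Nonempty :=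
    ⟨0, ∅, ⟨by simp, by simp⟩, by simp⟩
  obtain ⟨S, hS, hc⟩ := Nat.sSup_mem hne (bdd d)
  unfold alphaOdd
  rw [← hc]
  exact indep_le hd S hS.1

/-- The lower bound. -/
theorem alpha_ge {d k : ℕ} (hd : Even d) (hk : 1 ≤ k) (hkd : 2 ^ k ≤ d) :
    2 ^ (d + k) ≤ alphaOdd (cube d) * 2 ^ (k + 1) + 2 ^ d := by
  obtain ⟨c, hc⟩ := exists_c hd hk hkd
  have hd0 : 0 < d := lt_of_lt_of_le (by positivity) hkd
  have hc' : ∀ w, ∃ i, c i = w := by
    intro w
    have h1 := (hc w).pos
    obtain ⟨i, hi⟩ := Finset.card_pos.1 h1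
    exact ⟨i, (Finset.mem_filter.1 hi).2⟩
  have h1 := card_SS hd0 c hc'
  have h2 : (SS c).ncard ≤ alphaOdd (cube d) := le_csSup (bdd d) ⟨SS c, oddIndep_SS hd c hc, rfl⟩
  calc 2 ^ (d + k) = (SS c).ncard * 2 ^ (k + 1) + 2 ^ d := h1.symm
    _ ≤ _ := Nat.add_le_add_right (Nat.mul_le_mul_right _ h2) _

end Pool.Agent.X48.OddIndep
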