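import Mathlib

/-!
Always winnable graphs in the neighborhood Lights Out game with few missing edges.
-/

namespace Pool.Agent.X48.LightsOut

open scoped Classical in
/-- The neighborhood Lights Out game with labels mod `l` on the graph `G` can be won from every
initial labelling: `t u` is the number of times that `u` is toggled. -/
def AlwaysWinnable {V : Type} [Fintype V] (G : SimpleGraph V) (l : ℕ) : Prop :=
  ∀ lam : V → ZMod l, ∃ t : V → ℕ, ∀ v : V,
    lam v + ∑ u ∈ Finset.univ.filter (fun u => u = v ∨ G.Adj v u), (t u : ZMod l) = 0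

/-- The largest number of edges of an always winnable graph on `n` vertices. -/
noncomputable def maxEdges (n l : ℕ) : ℕ :=
  sSup {e : ℕ | ∃ G : SimpleGraph (Fin n), AlwaysWinnable G l ∧ G.edgeSet.ncard = e}

/-- The least nonnegative integer `k` with `gcd (n - 2 k - 1, l) = 1`. -/
noncomputable def kk (n l : ℕ) : ℕ :=
  sInf {k : ℕ | Int.gcd ((n : ℤ) - 2 * k - 1) l = 1}

/-- adjacency in a tree with twelve vertices -/
def adj12 (a b : Fin 12) : Bool :=
  decide ((a.val, b.val) ∈ [(0,1),(1,0),(0,2),(2,0),(0,3),(3,0),(1,4),(4,1),(1,5),(5,1),(1,6),(6,1),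
    (2,7),(7,2),(3,8),(8,3),(4,9),(9,4),(5,10),(10,5),(6,11),(11,6)])

theorem adj12_symm : ∀ a b, adj12 a b = true → adj12 b a = true := by decide

theorem adj12_irrefl : ∀ a, adj12 a a = false := by decide

/-- vertices -/
abbrev W (t : ℕ) := Fin 12 ⊕ (Fin t × Bool)

/-- the tree together with `t` disjoint edges -/
def H (t : ℕ) : SimpleGraph (W t) where
  Adj x y := match x, y with
    | Sum.inl a, Sum.inl b => adj12 a b = true
    | Sum.inr p, Sum.inr q => p.1 = q.1 ∧ p.2 ≠ q.2
    | _, _ => False
  symm := ⟨by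
    rintro (a | p) (b | q) h
    · exact adj12_symm a b h
    · exact h
    · exact h
    · exact ⟨h.1.symm, h.2.symm⟩⟩
  loopless := ⟨by
    rintro (a | p) h
    · simp [adj12_irrefl] at h
    · exact h.2 rfl⟩

instance (t : ℕ) : DecidableRel (H t).Adj := fun x y => by
  rcases x with a | p <;> rcases y with b | q
  · exact inferInstanceAs (Decidable (adj12 a b = true))
  · exact inferInstanceAs (Decidable False)
  · exact inferInstanceAs (Decidable False)
  · exact inferInstanceAs (Decidable (p.1 = q.1 ∧ p.2 ≠ q.2))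

/-- the neighbourhood sums of `H` -/
theorem nsum_inl {R : Type} [AddCommMonoid R] {t : ℕ} (x : W t → R) (a : Fin 12) :
    (∑ u, if (H t).Adj (Sum.inl a) u then x u else 0) =
      ∑ b, if adj12 a b = true then x (Sum.inl b) else 0 := by
  rw [Fintype.sum_sum_type]
  have h2 : (∑ q : Fin t × Bool, if (H t).Adj (Sum.inl a) (Sum.inr q) then x (Sum.inr q) else 0) = 0 := by
    apply Finset.sum_eq_zero
    intro q _
    exact if_neg (fun h => h)
  rw [h2, add_zero]
  rfl

theorem nsum_inr {R : Type} [AddCommMonoid R] {t : ℕ} (x : W t → R) (p : Fin t × Bool) :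
    (∑ u, if (H t).Adj (Sum.inr p) u then x u else 0) = x (Sum.inr (p.1, !p.2)) := by
  rw [Fintype.sum_sum_type]
  have h2 : (∑ q : Fin 12, if (H t).Adj (Sum.inr p) (Sum.inl q) then x (Sum.inl q) else 0) = 0 := by
    apply Finset.sum_eq_zero
    intro q _
    exact if_neg (fun h => h)
  rw [h2, zero_add]
  rw [Finset.sum_eq_single (p.1, !p.2)]
  · have : (H t).Adj (Sum.inr p) (Sum.inr (p.1, !p.2)) := ⟨rfl, by simp⟩
    rw [if_pos this]
  · rintro ⟨i, b⟩ _ hne
    apply if_neg
    rintro ⟨h1, h2⟩
    apply hne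
    simp only at h1 h2
    rw [← h1]
    congr 1
    cases hb : b <;> cases hp : p.2 <;> simp_all
  · simp

theorem unique_sol {l : ℕ} [NeZero l] {t : ℕ} (hco : Nat.Coprime (2 * t + 13) l)
    (x : W t → ZMod l)
    (hx : ∀ v, (∑ u, x u) - (∑ u, if (H t).Adj v u then x u else 0) = 0) : x = 0 := by
  set σ : ZMod l := ∑ u, x u with hσ
  have e : ∀ a : Fin 12, (∑ b, if adj12 a b = true then x (Sum.inl b) else 0) = σ := by
    intro a
    have := hx (Sum.inl a)
    rw [nsum_inl] at this
    exact (sub_eq_zero.1 this).symm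
  have e' : ∀ p : Fin t × Bool, x (Sum.inr p) = σ := by
    intro p
    have := hx (Sum.inr (p.1, !p.2))
    rw [nsum_inr] at this
    simpa using (sub_eq_zero.1 this).symm
  have e0 := e 0
  have e1 := e 1
  have e2 := e 2
  have e3 := e 3
  have e4 := e 4
  have e5 := e 5
  have e6 := e 6
  have e7 := e 7
  have e8 := e 8
  have e9 := e 9
  have e10 := e 10
  have e11 := e 11
  have hred : ∀ a : Fin 12, (∑ b, if adj12 a b = true then x (Sum.inl b) else 0) =
      ∑ b ∈ Finset.univ.filter (fun b => adj12 a b = true), x (Sum.inl b) := by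
    intro a
    rw [Finset.sum_filter]
  rw [hred] at e0 e1 e2 e3 e4 e5 e6 e7 e8 e9 e10 e11
  have f0 : Finset.univ.filter (fun b => adj12 0 b = true) = {1, 2, 3} := by decide
  have f1 : Finset.univ.filter (fun b => adj12 1 b = true) = {0, 4, 5, 6} := by decide
  have f2 : Finset.univ.filter (fun b => adj12 2 b = true) = {0, 7} := by decide
  have f3 : Finset.univ.filter (fun b => adj12 3 b = true) = {0, 8} := by decide
  have f4 : Finset.univ.filter (fun b => adj12 4 b = true) = {1, 9} := by decide
  have f5 : Finset.univ.filter (fun b => adj12 5 b = true) = {1, 10} := by decide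
  have f6 : Finset.univ.filter (fun b => adj12 6 b = true) = {1, 11} := by decide
  have f7 : Finset.univ.filter (fun b => adj12 7 b = true) = {2} := by decide
  have f8 : Finset.univ.filter (fun b => adj12 8 b = true) = {3} := by decide
  have f9 : Finset.univ.filter (fun b => adj12 9 b = true) = {4} := by decide
  have f10 : Finset.univ.filter (fun b => adj12 10 b = true) = {5} := by decide
  have f11 : Finset.univ.filter (fun b => adj12 11 b = true) = {6} := by decide
  rw [f0] at e0; rw [f1] at e1; rw [f2] at e2; rw [f3] at e3; rw [f4] at e4; rw [f5] at e5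
  rw [f6] at e6; rw [f7] at e7; rw [f8] at e8; rw [f9] at e9; rw [f10] at e10; rw [f11] at e11
  rw [Finset.sum_insert (by decide), Finset.sum_insert (by decide), Finset.sum_singleton] at e0
  rw [Finset.sum_insert (by decide), Finset.sum_insert (by decide), Finset.sum_insert (by decide),
    Finset.sum_singleton] at e1
  rw [Finset.sum_insert (by decide), Finset.sum_singleton] at e2 e3 e4 e5 e6
  rw [Finset.sum_singleton] at e7 e8 e9 e10 e11
  have y1 : x (Sum.inl 1) = -σ := by linear_combination e0 - e7 - e8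
  have y0 : x (Sum.inl 0) = -2 * σ := by linear_combination e1 - e9 - e10 - e11
  have y7 : x (Sum.inl 7) = 3 * σ := by linear_combination e2 - y0
  have y8 : x (Sum.inl 8) = 3 * σ := by linear_combination e3 - y0
  have y9 : x (Sum.inl 9) = 2 * σ := by linear_combination e4 - y1
  have y10 : x (Sum.inl 10) = 2 * σ := by linear_combination e5 - y1
  have y11 : x (Sum.inl 11) = 2 * σ := by linear_combination e6 - y1
  have htot : σ = 14 * σ + (2 * t : ℕ) * σ := by
    conv_lhs => rw [hσ, Fintype.sum_sum_type]
    have h2 : ∑ p : Fin t × Bool, x (Sum.inr p) = (2 * t : ℕ) * σ := by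
      rw [Finset.sum_congr rfl (fun p _ => e' p)]
      simp only [Finset.sum_const, Finset.card_univ, Fintype.card_prod, Fintype.card_fin,
        Fintype.card_bool, nsmul_eq_mul]
      push_cast
      ring
    rw [h2]
    congr 1
    simp only [Fin.sum_univ_succ, Fin.sum_univ_zero]
    change x (Sum.inl 0) + (x (Sum.inl 1) + (x (Sum.inl 2) + (x (Sum.inl 3) + (x (Sum.inl 4) +
      (x (Sum.inl 5) + (x (Sum.inl 6) + (x (Sum.inl 7) + (x (Sum.inl 8) + (x (Sum.inl 9) +
      (x (Sum.inl 10) + (x (Sum.inl 11) + 0))))))))))) = 14 * σ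
    rw [y0, y1, e7, e8, e9, e10, e11, y7, y8, y9, y10, y11]
    ring
  have hσ0 : ((2 * t + 13 : ℕ) : ZMod l) * σ = 0 := by
    push_cast at htot ⊢
    linear_combination -htot
  have hu : IsUnit ((2 * t + 13 : ℕ) : ZMod l) := (ZMod.isUnit_iff_coprime _ _).2 hco
  have hs : σ = 0 := (hu.mul_right_eq_zero).1 hσ0
  funext v
  rcases v with a | p
  · fin_cases a
    · change x (Sum.inl 0) = 0; rw [y0, hs]; ring
    · change x (Sum.inl 1) = 0; rw [y1, hs]; ring
    · change x (Sum.inl 2) = 0; rw [e7, hs]
    · change x (Sum.inl 3) = 0; rw [e8, hs]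
    · change x (Sum.inl 4) = 0; rw [e9, hs]
    · change x (Sum.inl 5) = 0; rw [e10, hs]
    · change x (Sum.inl 6) = 0; rw [e11, hs]
    · change x (Sum.inl 7) = 0; rw [y7, hs]; ring
    · change x (Sum.inl 8) = 0; rw [y8, hs]; ring
    · change x (Sum.inl 9) = 0; rw [y9, hs]; ring
    · change x (Sum.inl 10) = 0; rw [y10, hs]; ring
    · change x (Sum.inl 11) = 0; rw [y11, hs]; ring
  · rw [e', hs]; rfl

theorem winnable {l : ℕ} [NeZero l] {t : ℕ} (hco : Nat.Coprime (2 * t + 13) l) :
    AlwaysWinnable (H t)ᶜ l := by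
  classical
  intro lam
  let L : (W t → ZMod l) →ₗ[ZMod l] (W t → ZMod l) :=
    { toFun := fun x v => (∑ u, x u) - (∑ u, if (H t).Adj v u then x u else 0)
      map_add' := by
        intro x y
        funext v
        simp only [Pi.add_apply]
        have : ∀ u, (if (H t).Adj v u then x u + y u else 0) =
            (if (H t).Adj v u then x u else 0) + (if (H t).Adj v u then y u else 0) := by
          intro u; split_ifs <;> simp
        rw [Finset.sum_congr rfl (fun u _ => this u), Finset.sum_add_distrib,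
          Finset.sum_add_distrib]
        ring
      map_smul' := by
        intro c x
        funext v
        simp only [Pi.smul_apply, smul_eq_mul, RingHom.id_apply]
        have : ∀ u, (if (H t).Adj v u then c * x u else 0) =
            c * (if (H t).Adj v u then x u else 0) := by
          intro u; split_ifs <;> simp
        rw [Finset.sum_congr rfl (fun u _ => this u), ← Finset.mul_sum, ← Finset.mul_sum]
        ring }
  have hinj : Function.Injective L := by
    rw [← LinearMap.ker_eq_bot, LinearMap.ker_eq_bot']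
    intro x hx
    exact unique_sol hco x (fun v => congrFun hx v)
  have hsurj : Function.Surjective L := Finite.injective_iff_surjective.1 hinj
  obtain ⟨x, hx⟩ := hsurj (-lam)
  refine ⟨fun u => (x u).val, fun v => ?_⟩
  have h1 : ∀ u, (((x u).val : ℕ) : ZMod l) = x u := fun u => ZMod.natCast_zmod_val _
  simp only [h1]
  have h2 : (∑ u ∈ Finset.univ.filter (fun u => u = v ∨ (H t)ᶜ.Adj v u), x u) = L x v := by
    change _ = (∑ u, x u) - (∑ u, if (H t).Adj v u then x u else 0)
    rw [← Finset.sum_filter, eq_sub_iff_add_eq]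
    have h3 := Finset.sum_filter_add_sum_filter_not (Finset.univ : Finset (W t))
      (fun u => (H t).Adj v u) x
    rw [← h3, add_comm]
    congr 1
    apply Finset.sum_congr _ (fun _ _ => rfl)
    ext u
    simp only [Finset.mem_filter, Finset.mem_univ, true_and, SimpleGraph.compl_adj]
    constructor
    · rintro (rfl | h)
      · exact (H t).loopless.irrefl u
      · exact h.2
    · intro h
      by_cases huv : u = v
      · exact Or.inl huv
      · exact Or.inr ⟨fun h' => huv h'.symm, h⟩
  have h4 := congrFun hx v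
  rw [Pi.neg_apply] at h4
  convert add_neg_cancel (lam v) using 2
  rw [← h4, ← h2]
  apply Finset.sum_congr _ (fun _ _ => rfl)
  ext u
  simp only [Finset.mem_filter, Finset.mem_univ, true_and]

theorem card_W (t : ℕ) : Fintype.card (W t) = 12 + 2 * t := by
  simp only [Fintype.card_sum, Fintype.card_fin, Fintype.card_prod, Fintype.card_bool]
  ring

theorem sum_deg (t : ℕ) : ∑ v, (H t).degree v = 22 + 2 * t := by
  classical
  have h0 : ∀ v, (H t).degree v = ∑ u, if (H t).Adj v u then 1 else 0 := by
    intro v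
    rw [← SimpleGraph.card_neighborFinset_eq_degree, SimpleGraph.neighborFinset_eq_filter,
      Finset.card_filter]
  rw [Finset.sum_congr rfl (fun v _ => h0 v), Fintype.sum_sum_type]
  have h1 : ∀ a : Fin 12, (∑ u, if (H t).Adj (Sum.inl a) u then 1 else 0) =
      ∑ b, if adj12 a b = true then 1 else 0 := fun a => nsum_inl (fun _ => 1) a
  have h2 : ∀ p : Fin t × Bool, (∑ u, if (H t).Adj (Sum.inr p) u then 1 else 0) = 1 :=
    fun p => nsum_inr (fun _ => 1) p
  rw [Finset.sum_congr rfl (fun a _ => h1 a), Finset.sum_congr rfl (fun p _ => h2 p)]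
  have h3 : ∑ a : Fin 12, ∑ b : Fin 12, (if adj12 a b = true then 1 else 0) = 22 := by decide
  rw [h3]
  simp only [Finset.sum_const, Finset.card_univ, Fintype.card_prod, Fintype.card_fin,
    Fintype.card_bool, smul_eq_mul]
  ring

theorem card_edges (t : ℕ) [DecidableRel (H t)ᶜ.Adj] :
    (12 + 2 * t).choose 2 = ((H t)ᶜ).edgeFinset.card + ((12 + 2 * t) / 2 + 5) := by
  classical
  have h1 := SimpleGraph.sum_degrees_eq_twice_card_edges (H t)ᶜ
  have h2 : ∑ v, ((H t)ᶜ).degree v + ∑ v, (H t).degree v = (12 + 2 * t) * (12 + 2 * t - 1) := by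
    rw [← Finset.sum_add_distrib]
    have : ∀ v : W t, ((H t)ᶜ).degree v + (H t).degree v = 12 + 2 * t - 1 := by
      intro v
      rw [SimpleGraph.degree_compl, card_W]
      have h3 : (H t).degree v < Fintype.card (W t) := SimpleGraph.degree_lt_card_verts _
      rw [card_W] at h3
      omega
    rw [Finset.sum_congr rfl (fun v _ => this v)]
    simp only [Finset.sum_const, Finset.card_univ, smul_eq_mul]
    rw [card_W]
  rw [sum_deg, h1] at h2
  have h4 : (12 + 2 * t).choose 2 * 2 = (12 + 2 * t) * (12 + 2 * t - 1) := by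
    have := Nat.triangle_succ (12 + 2 * t - 1)
    rw [Nat.choose_two_right]
    exact Nat.div_mul_cancel (Nat.even_mul_pred_self _).two_dvd
  omega

/-- moving to `Fin n` -/
theorem winnable_comap {V W' : Type} [Fintype V] [Fintype W'] (e : V ≃ W') (G : SimpleGraph W')
    (l : ℕ) (h : AlwaysWinnable G l) : AlwaysWinnable (G.comap e) l := by
  classical
  intro lam
  obtain ⟨t, ht⟩ := h (lam ∘ e.symm)
  refine ⟨t ∘ e, fun v => ?_⟩
  have := ht (e v)
  simp only [Function.comp, Equiv.symm_apply_apply] at this ⊢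
  rw [← this]
  congr 1
  apply Finset.sum_equiv e
  · intro u
    simp
  · intro u _
    rfl

theorem main_aux {l : ℕ} [NeZero l] {t : ℕ} (hco : Nat.Coprime (2 * t + 13) l) :
    (12 + 2 * t).choose 2 ≤ maxEdges (12 + 2 * t) l + ((12 + 2 * t) / 2 + 5) := by
  classical
  let e : Fin (12 + 2 * t) ≃ W t := (Fintype.equivFinOfCardEq (card_W t)).symm
  have h1 := winnable_comap e _ l (winnable hco)
  have h2 : (((H t)ᶜ).comap e).edgeSet.ncard = ((H t)ᶜ).edgeFinset.card := by
    rw [Set.ncard_eq_toFinset_card']
    have h3 := SimpleGraph.Iso.card_edgeFinset_eq (SimpleGraph.Iso.comap e (H t)ᶜ)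
    rw [← h3]
    rfl
  have hb : BddAbove {e : ℕ | ∃ G : SimpleGraph (Fin (12 + 2 * t)),
      AlwaysWinnable G l ∧ G.edgeSet.ncard = e} := by
    refine ⟨(Set.univ : Set (Sym2 (Fin (12 + 2 * t)))).ncard, ?_⟩
    rintro n ⟨G, -, rfl⟩
    exact Set.ncard_le_ncard (Set.subset_univ _) (Set.toFinite _)
  have h4 : ((H t)ᶜ).edgeFinset.card ≤ maxEdges (12 + 2 * t) l := by
    rw [← h2]
    exact le_csSup hb ⟨_, h1, rfl⟩
  rw [card_edges]
  exact Nat.add_le_add_right h4 _

end Pool.Agent.X48.LightsOut
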