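import Mathlib

/-!
Broadcast dimension and adjacency dimension: an exponential gap.
-/

namespace Pool.Agent.X48.Broadcast

/-- `d_k (x, y) = min (d (x, y), k + 1)`, with value infinity for `d` in different components -/
noncomputable def dk {V : Type} (G : SimpleGraph V) (k : ℕ) (x y : V) : ℕ∞ :=
  min (G.edist x y) ((k : ℕ∞) + 1)

/-- resolving broadcasts -/
def IsResolving {V : Type} (G : SimpleGraph V) (f : V → ℕ) : Prop :=
  ∀ x y : V, x ≠ y → ∃ z : V, 0 < f z ∧ dk G (f z) x z ≠ dk G (f z) y z

/-- the broadcast dimension -/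
noncomputable def bdim {V : Type} [Fintype V] (G : SimpleGraph V) : ℕ :=
  sInf {n : ℕ | ∃ f : V → ℕ, IsResolving G f ∧ ∑ v, f v = n}

/-- the adjacency dimension -/
noncomputable def adim {V : Type} [Fintype V] (G : SimpleGraph V) : ℕ :=
  sInf {n : ℕ | ∃ f : V → ℕ, IsResolving G f ∧ (∀ v, f v ≤ 1) ∧ ∑ v, f v = n}

theorem dk_self {V : Type} (G : SimpleGraph V) (k : ℕ) (x : V) : dk G k x x = 0 := by
  unfold dk
  rw [SimpleGraph.edist_self]
  simp

theorem dk_ne_zero {V : Type} (G : SimpleGraph V) (k : ℕ) {x y : V} (h : x ≠ y) : dk G k x y ≠ 0 := by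
  unfold dk
  intro h0
  rcases min_eq_iff.1 h0 with ⟨h1, -⟩ | ⟨h1, -⟩
  · exact h (SimpleGraph.edist_eq_zero_iff.1 h1)
  · exact absurd h1 (by simp)

/-- a vertex with positive value separates itself from all the others -/
theorem sep_self {V : Type} (G : SimpleGraph V) (f : V → ℕ) {x y : V} (hxy : x ≠ y) (hf : 0 < f x) :
    ∃ z : V, 0 < f z ∧ dk G (f z) x z ≠ dk G (f z) y z :=
  ⟨x, hf, by rw [dk_self]; exact (dk_ne_zero G _ (Ne.symm hxy)).symm⟩

theorem sep_self' {V : Type} (G : SimpleGraph V) (f : V → ℕ) {x y : V} (hxy : x ≠ y) (hf : 0 < f y) :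
    ∃ z : V, 0 < f z ∧ dk G (f z) x z ≠ dk G (f z) y z :=
  ⟨y, hf, by rw [dk_self]; exact dk_ne_zero G _ hxy⟩

theorem exists_resolving {V : Type} [Fintype V] (G : SimpleGraph V) :
    ∃ n, ∃ f : V → ℕ, IsResolving G f ∧ ∑ v, f v = n :=
  ⟨_, fun _ => 1, fun _ _ h => sep_self G _ h one_pos, rfl⟩

theorem bdim_spec {V : Type} [Fintype V] (G : SimpleGraph V) :
    ∃ f : V → ℕ, IsResolving G f ∧ ∑ v, f v = bdim G :=
  Nat.sInf_mem (s := {n : ℕ | ∃ f : V → ℕ, IsResolving G f ∧ ∑ v, f v = n}) (exists_resolving G)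

theorem bdim_le {V : Type} [Fintype V] (G : SimpleGraph V) (f : V → ℕ) (hf : IsResolving G f) :
    bdim G ≤ ∑ v, f v := Nat.sInf_le ⟨f, hf, rfl⟩

theorem adim_spec {V : Type} [Fintype V] (G : SimpleGraph V) :
    ∃ f : V → ℕ, IsResolving G f ∧ (∀ v, f v ≤ 1) ∧ ∑ v, f v = adim G :=
  Nat.sInf_mem (s := {n : ℕ | ∃ f : V → ℕ, IsResolving G f ∧ (∀ v, f v ≤ 1) ∧ ∑ v, f v = n})
    ⟨_, fun _ => 1, fun _ _ h => sep_self G _ h one_pos, fun _ => le_rfl, rfl⟩

theorem edist_hom_le {V W : Type} {G : SimpleGraph V} {H : SimpleGraph W} (φ : G →g H) (u v : V) :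
    H.edist (φ u) (φ v) ≤ G.edist u v := by
  by_cases h : G.edist u v = ⊤
  · rw [h]; exact le_top
  · obtain ⟨w, hw⟩ := SimpleGraph.exists_walk_of_edist_ne_top h
    rw [← hw, ← SimpleGraph.Walk.length_map φ w]
    exact SimpleGraph.edist_le _

/-- a retract has the same distances -/
theorem edist_retract {V W : Type} {G : SimpleGraph V} {H : SimpleGraph W} (φ : G →g H) (ρ : H →g G)
    (hρ : ∀ v, ρ (φ v) = v) (u v : V) : H.edist (φ u) (φ v) = G.edist u v := by
  apply le_antisymm (edist_hom_le φ u v)
  have := edist_hom_le ρ (φ u) (φ v)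
  rwa [hρ, hρ] at this

/-- adding one vertex `w` to a retract raises the broadcast dimension by at most one -/
theorem bdim_step {V W : Type} [Fintype V] [Fintype W] {G : SimpleGraph V} {H : SimpleGraph W}
    (φ : G →g H) (ρ : H →g G) (hρ : ∀ v, ρ (φ v) = v) (w : W)
    (hw : ∀ x, x = w ∨ ∃ v, φ v = x) : bdim H ≤ bdim G + 1 := by
  classical
  obtain ⟨f, hf, hsum⟩ := bdim_spec G
  have hinj : Function.Injective φ := fun a b h => by rw [← hρ a, ← hρ b, h]
  let g : W → ℕ := fun x => if ∃ v, φ v = x then f (ρ x) else 1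
  have hg1 : ∀ v, g (φ v) = f v := by
    intro v
    simp only [g]
    rw [if_pos ⟨v, rfl⟩, hρ]
  have hg : IsResolving H g := by
    intro x y hxy
    by_cases hx : ∃ v, φ v = x
    · by_cases hy : ∃ v, φ v = y
      · obtain ⟨a, rfl⟩ := hx
        obtain ⟨b, rfl⟩ := hy
        have hab : a ≠ b := fun h => hxy (by rw [h])
        obtain ⟨z, hz, hz2⟩ := hf a b hab
        refine ⟨φ z, by rw [hg1]; exact hz, ?_⟩
        rw [hg1]
        unfold dk at hz2 ⊢
        rw [edist_retract φ ρ hρ, edist_retract φ ρ hρ]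
        exact hz2
      · apply sep_self' H g hxy
        simp only [g]
        rw [if_neg hy]
        exact one_pos
    · apply sep_self H g hxy
      simp only [g]
      rw [if_neg hx]
      exact one_pos
  refine le_trans (bdim_le H g hg) ?_
  have h1 : (Finset.univ : Finset W) ⊆ insert w (Finset.univ.image φ) := by
    intro x _
    rw [Finset.mem_insert, Finset.mem_image]
    rcases hw x with h | ⟨v, hv⟩
    · exact Or.inl h
    · exact Or.inr ⟨v, Finset.mem_univ _, hv⟩
  by_cases hwr : ∃ v, φ v = w
  · have h2 : (Finset.univ : Finset W) = Finset.univ.image φ := by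
      ext x
      simp only [Finset.mem_univ, Finset.mem_image, true_and, true_iff]
      rcases hw x with h | h
      · rw [h]; exact hwr
      · exact h
    rw [h2, Finset.sum_image (fun a _ b _ h => hinj h)]
    rw [Finset.sum_congr rfl (fun v _ => hg1 v), hsum]
    omega
  · have h2 : (Finset.univ : Finset W) = insert w (Finset.univ.image φ) :=
      Finset.Subset.antisymm h1 (Finset.subset_univ _)
    have h3 : w ∉ Finset.univ.image φ := by
      rw [Finset.mem_image]
      rintro ⟨v, -, hv⟩
      exact hwr ⟨v, hv⟩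
    rw [h2, Finset.sum_insert h3, Finset.sum_image (fun a _ b _ h => hinj h)]
    rw [Finset.sum_congr rfl (fun v _ => hg1 v), hsum]
    have : g w = 1 := by simp only [g]; rw [if_neg hwr]
    omega

/-- `G` together with `t` isolated vertices -/
def ext {V : Type} (G : SimpleGraph V) (t : ℕ) : SimpleGraph (V ⊕ Fin t) where
  Adj x y := match x, y with
    | Sum.inl u, Sum.inl v => G.Adj u v
    | _, _ => False
  symm := ⟨by
    rintro (a | a) (b | b) h
    · exact G.symm.symm _ _ h
    · exact h
    · exact h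
    · exact h⟩
  loopless := ⟨by
    rintro (a | a) h
    · exact G.loopless.irrefl a h
    · exact h⟩

def inlHom {V : Type} (G : SimpleGraph V) (t : ℕ) : G →g ext G t where
  toFun := Sum.inl
  map_rel' := fun h => h

theorem edist_isolated {V : Type} (G : SimpleGraph V) {u v : V} (hu : ∀ w, ¬ G.Adj u w) (h : u ≠ v) :
    G.edist u v = ⊤ := by
  apply SimpleGraph.edist_eq_top_of_not_reachable
  rintro ⟨p⟩
  cases p with
  | nil => exact h rfl
  | cons hadj _ => exact hu _ hadj

theorem iso_adj {V : Type} (G : SimpleGraph V) (t : ℕ) (i : Fin t) (w : V ⊕ Fin t) :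
    ¬ (ext G t).Adj (Sum.inr i) w := by
  rcases w with w | w
  · exact fun h => h
  · exact fun h => h

theorem bdim_ext_ge {V : Type} [Fintype V] (G : SimpleGraph V) (t : ℕ) : t ≤ bdim (ext G t) + 1 := by
  classical
  obtain ⟨f, hf, hsum⟩ := bdim_spec (ext G t)
  have h1 : ∀ i j : Fin t, f (Sum.inr i) = 0 → f (Sum.inr j) = 0 → i = j := by
    intro i j hi hj
    by_contra hij
    obtain ⟨z, hz, hz2⟩ := hf (Sum.inr i) (Sum.inr j) (fun h => hij (Sum.inr_injective h))
    apply hz2
    unfold dk
    have hzi : (Sum.inr i : V ⊕ Fin t) ≠ z := by rintro rfl; omega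
    have hzj : (Sum.inr j : V ⊕ Fin t) ≠ z := by rintro rfl; omega
    rw [edist_isolated _ (iso_adj G t i) hzi, edist_isolated _ (iso_adj G t j) hzj]
  have h2 : (Finset.univ.filter (fun i : Fin t => f (Sum.inr i) = 0)).card ≤ 1 := by
    rw [Finset.card_le_one]
    intro i hi j hj
    exact h1 i j (Finset.mem_filter.1 hi).2 (Finset.mem_filter.1 hj).2
  have h3 : ∑ i : Fin t, (f (Sum.inr i) + if f (Sum.inr i) = 0 then 1 else 0) ≥ ∑ i : Fin t, 1 := by
    apply Finset.sum_le_sum
    intro i _
    split_ifs with h <;> omega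
  rw [Finset.sum_add_distrib, ← Finset.card_filter] at h3
  simp only [Finset.sum_const, Finset.card_univ, Fintype.card_fin, smul_eq_mul, mul_one] at h3
  have h4 : ∑ v, f v = ∑ v : V, f (Sum.inl v) + ∑ i : Fin t, f (Sum.inr i) := Fintype.sum_sum_type _
  omega

theorem bdim_ext_zero {V : Type} [Fintype V] [Nonempty V] (G : SimpleGraph V) :
    bdim (ext G 0) ≤ bdim G + 1 := by
  let ρ : ext G 0 →g G :=
    { toFun := Sum.elim id (fun i => i.elim0)
      map_rel' := by
        rintro (a | a) (b | b) h
        · exact h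
        · exact b.elim0
        · exact a.elim0
        · exact a.elim0 }
  apply bdim_step (inlHom G 0) ρ (fun v => rfl) (Sum.inl (Classical.arbitrary V))
  rintro (x | x)
  · exact Or.inr ⟨x, rfl⟩
  · exact x.elim0

theorem bdim_ext_succ {V : Type} [Fintype V] [Nonempty V] (G : SimpleGraph V) (t : ℕ) :
    bdim (ext G (t + 1)) ≤ bdim (ext G t) + 1 := by
  let φ : ext G t →g ext G (t + 1) :=
    { toFun := Sum.map id Fin.castSucc
      map_rel' := by
        rintro (a | a) (b | b) h
        · exact h
        · exact absurd h (fun h => h)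
        · exact absurd h (fun h => h)
        · exact absurd h (fun h => h) }
  let ρ : ext G (t + 1) →g ext G t :=
    { toFun := Sum.elim Sum.inl (fun i => if h : i.val < t then Sum.inr ⟨i.val, h⟩
        else Sum.inl (Classical.arbitrary V))
      map_rel' := by
        rintro (a | a) (b | b) h
        · exact h
        · exact absurd h (fun h => h)
        · exact absurd h (fun h => h)
        · exact absurd h (fun h => h) }
  apply bdim_step φ ρ _ (Sum.inr (Fin.last t))
  · rintro (x | x)
    · exact Or.inr ⟨Sum.inl x, rfl⟩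
    · by_cases hx : x.val < t
      · right
        exact ⟨Sum.inr ⟨x.val, hx⟩, by
          change Sum.inr (Fin.castSucc ⟨x.val, hx⟩) = Sum.inr x
          congr 1⟩
      · left
        congr 1
        apply Fin.ext
        have := x.2
        simp only [Fin.val_last]
        omega
  · rintro (v | v)
    · rfl
    · change (if h : (Fin.castSucc v).val < t then (Sum.inr ⟨(Fin.castSucc v).val, h⟩ : V ⊕ Fin t)
        else Sum.inl (Classical.arbitrary V)) = Sum.inr v
      rw [dif_pos (by simp)]
      congr 1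

/-- discrete intermediate value -/
theorem exists_exact {V : Type} [Fintype V] [Nonempty V] (G : SimpleGraph V) (k : ℕ)
    (hk : bdim G + 1 ≤ k) : ∃ t, bdim (ext G t) = k := by
  classical
  have hex : ∃ t, k ≤ bdim (ext G t) := ⟨k + 1, by have := bdim_ext_ge G (k + 1); omega⟩
  have h1 := Nat.find_spec hex
  set t := Nat.find hex with ht
  refine ⟨t, ?_⟩
  rcases Nat.eq_zero_or_pos t with h0 | hpos
  · have := bdim_ext_zero G
    rw [h0] at h1 ⊢
    omega
  · have h2 := Nat.find_min hex (m := t - 1) (by omega)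
    have h3 := bdim_ext_succ G (t - 1)
    rw [Nat.sub_add_cancel hpos] at h3
    omega

/-- lower bound for the adjacency dimension by the sizes of closed neighbourhoods -/
theorem adim_lower {V : Type} [Fintype V] (G : SimpleGraph V) (D : ℕ) (N : V → Finset V)
    (hN : ∀ z v, v = z ∨ G.Adj v z → v ∈ N z) (hD : ∀ z, (N z).card ≤ D) :
    Fintype.card V ≤ 1 + adim G * D := by
  classical
  obtain ⟨f, hf, hf1, hsum⟩ := adim_spec G
  let S : Finset V := Finset.univ.filter (fun z => 0 < f z)
  let U : Finset V := Finset.univ \ S.biUnion N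
  have hU : U.card ≤ 1 := by
    rw [Finset.card_le_one]
    intro x hx y hy
    by_contra hxy
    obtain ⟨z, hz, hz2⟩ := hf x y hxy
    have hzS : z ∈ S := by simp [S, hz]
    have hfar : ∀ v ∈ U, 2 ≤ G.edist v z := by
      intro v hv
      simp only [U, Finset.mem_sdiff, Finset.mem_univ, true_and, Finset.mem_biUnion, not_exists,
        not_and] at hv
      have h1 := hv z hzS
      have h2 : ¬ (G.edist v z ≤ 1) := by
        rw [SimpleGraph.edist_le_one_iff_adj_or_eq]
        rintro (h | h)
        · exact h1 (hN z v (Or.inr h))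
        · exact h1 (hN z v (Or.inl h))
      have h3 : (1 : ℕ∞) < G.edist v z := not_le.1 h2
      have h4 := Order.add_one_le_of_lt h3
      rwa [one_add_one_eq_two] at h4
    have hfz : f z = 1 := le_antisymm (hf1 z) hz
    apply hz2
    unfold dk
    rw [hfz, Nat.cast_one, one_add_one_eq_two, min_eq_right (hfar x hx), min_eq_right (hfar y hy)]
  have hS : S.card ≤ adim G := by
    rw [← hsum, Finset.card_eq_sum_ones]
    calc ∑ _z ∈ S, 1 ≤ ∑ z ∈ S, f z := Finset.sum_le_sum (fun z hz => (Finset.mem_filter.1 hz).2)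
      _ ≤ ∑ z, f z := Finset.sum_le_sum_of_subset (Finset.subset_univ _)
  have h1 : Fintype.card V ≤ U.card + (S.biUnion N).card := by
    rw [← Finset.card_univ]
    have := Finset.card_le_card_sdiff_add_card (s := Finset.univ) (t := S.biUnion N)
    exact this
  have h2 : (S.biUnion N).card ≤ S.card * D :=
    Finset.card_biUnion_le_card_mul _ _ _ (fun z _ => hD z)
  have h3 : S.card * D ≤ adim G * D := Nat.mul_le_mul_right _ hS
  omega

/-! The graphs. -/

/-- indices of coordinates -/
abbrev J (h : ℕ) := Fin h ⊕ Fin h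
/-- first or second half of a bit string -/
abbrev Bits (h : ℕ) := Fin h → Bool
/-- middle vertices -/
abbrev Y (h : ℕ) := J h × Bits h
/-- the others: strings, coordinates, bits -/
abbrev R (h : ℕ) := (Bits h × Bits h) ⊕ (J h ⊕ Fin h)

/-- the adjacency of middle vertices with the others -/
def nr {h : ℕ} (y : Y h) : R h → Prop
  | Sum.inl (p, q) => y.2 = p ∧ Sum.elim p q y.1 = true
  | Sum.inr (Sum.inl j) => y.1 = j
  | Sum.inr (Sum.inr b) => y.2 b = true

/-- the graph -/
def GG (h : ℕ) : SimpleGraph (Y h ⊕ R h) where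
  Adj u v := match u, v with
    | Sum.inl y, Sum.inr r => nr y r
    | Sum.inr r, Sum.inl y => nr y r
    | _, _ => False
  symm := ⟨by
    rintro (a | a) (b | b) h
    · exact h
    · exact h
    · exact h
    · exact h⟩
  loopless := ⟨by
    rintro (a | a) h
    · exact h
    · exact h⟩

/-- the cheap broadcast -/
def ff (h : ℕ) : Y h ⊕ R h → ℕ
  | Sum.inl _ => 0
  | Sum.inr (Sum.inl _) => 0
  | Sum.inr (Sum.inr (Sum.inl _)) => 2
  | Sum.inr (Sum.inr (Sum.inr _)) => 1

theorem ff_sum (h : ℕ) : ∑ v, ff h v = 5 * h := by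
  have hJ : Fintype.card (J h) = h + h := by simp [J]
  simp only [Fintype.sum_sum_type, ff, Finset.sum_const, Finset.card_univ, smul_eq_mul, mul_zero,
    zero_add, Fintype.card_fin, mul_one, hJ]
  ring

theorem not_two_lt {V : Type} {G : SimpleGraph V} {u v w : V} (h1 : G.Adj u w) (h2 : G.Adj w v) :
    G.edist u v ≤ 2 := by
  have h := SimpleGraph.edist_le (SimpleGraph.Walk.cons h1 (SimpleGraph.Walk.cons h2 SimpleGraph.Walk.nil))
  exact h

theorem ff_resolving (h : ℕ) : IsResolving (GG h) (ff h) := by
  classical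
  intro x y hxy
  by_cases hx : 0 < ff h x
  · exact sep_self _ _ hxy hx
  by_cases hy : 0 < ff h y
  · exact sep_self' _ _ hxy hy
  -- both have value zero
  have hZ : ∀ j : J h, 0 < ff h (Sum.inr (Sum.inr (Sum.inl j))) := fun j => by simp [ff]
  -- separation by a coordinate vertex, distances one and at least two
  have key1 : ∀ (a : Y h) (r : Bits h × Bits h),
      dk (GG h) (ff h (Sum.inr (Sum.inr (Sum.inl a.1)))) (Sum.inl a) (Sum.inr (Sum.inr (Sum.inl a.1))) ≠
      dk (GG h) (ff h (Sum.inr (Sum.inr (Sum.inl a.1)))) (Sum.inr (Sum.inl r)) (Sum.inr (Sum.inr (Sum.inl a.1))) := by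
    intro a r heq
    have h1 : (GG h).edist (Sum.inl a) (Sum.inr (Sum.inr (Sum.inl a.1))) = 1 := by
      rw [SimpleGraph.edist_eq_one_iff_adj]
      exact (rfl : a.1 = a.1)
    have h2 : ¬ ((GG h).edist (Sum.inr (Sum.inl r)) (Sum.inr (Sum.inr (Sum.inl a.1))) ≤ 1) := by
      rw [SimpleGraph.edist_le_one_iff_adj_or_eq]
      rintro (h | h)
      · exact h
      · simp at h
    unfold dk at heq
    rw [h1] at heq
    have h3 : min (1 : ℕ∞) ((ff h (Sum.inr (Sum.inr (Sum.inl a.1))) : ℕ∞) + 1) = 1 := by
      simp [ff]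
    rw [h3] at heq
    have h4 : min ((GG h).edist (Sum.inr (Sum.inl r)) (Sum.inr (Sum.inr (Sum.inl a.1))))
        ((ff h (Sum.inr (Sum.inr (Sum.inl a.1))) : ℕ∞) + 1) ≤ 1 := le_of_eq heq.symm
    rcases min_le_iff.1 h4 with h5 | h5
    · exact h2 h5
    · simp only [ff] at h5
      exact absurd h5 (by decide)
  rcases x with ⟨j, s⟩ | (⟨p, q⟩ | (j | b))
  · rcases y with ⟨j', s'⟩ | (⟨p', q'⟩ | (j' | b'))
    · -- two middle vertices
      by_cases hj : j = j'
      · subst hj
        have hs : s ≠ s' := fun h => hxy (by rw [h])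
        obtain ⟨b, hb⟩ := Function.ne_iff.1 hs
        refine ⟨Sum.inr (Sum.inr (Sum.inr b)), by simp [ff], ?_⟩
        have key : ∀ t : Bits h, t b = true →
            dk (GG h) 1 (Sum.inl (j, t)) (Sum.inr (Sum.inr (Sum.inr b))) = 1 := by
          intro t ht
          unfold dk
          have h1 : (GG h).edist (Sum.inl (j, t)) (Sum.inr (Sum.inr (Sum.inr b))) = 1 := by
            rw [SimpleGraph.edist_eq_one_iff_adj]; exact ht
          rw [h1]
          simp
        have key' : ∀ t : Bits h, t b = false →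
            dk (GG h) 1 (Sum.inl (j, t)) (Sum.inr (Sum.inr (Sum.inr b))) ≠ 1 := by
          intro t ht heq
          unfold dk at heq
          have h4 := min_le_iff.1 (le_of_eq heq)
          rcases h4 with h5 | h5
          · rw [SimpleGraph.edist_le_one_iff_adj_or_eq] at h5
            rcases h5 with h6 | h6
            · have h7 : t b = true := h6
              rw [ht] at h7
              exact Bool.false_ne_true h7
            · simp at h6
          · exact absurd h5 (by decide)
        change dk (GG h) 1 _ _ ≠ dk (GG h) 1 _ _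
        cases hsb : s b <;> cases hsb' : s' b
        · rw [hsb, hsb'] at hb; exact absurd rfl hb
        · rw [key s' hsb']; exact key' s hsb
        · rw [key s hsb]; exact (key' s' hsb').symm
        · rw [hsb, hsb'] at hb; exact absurd rfl hb
      · refine ⟨Sum.inr (Sum.inr (Sum.inl j)), hZ j, ?_⟩
        have h1 : (GG h).edist (Sum.inl (j, s)) (Sum.inr (Sum.inr (Sum.inl j))) = 1 := by
          rw [SimpleGraph.edist_eq_one_iff_adj]
          exact (rfl : j = j)
        intro heq
        unfold dk at heq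
        rw [h1] at heq
        have h3 : min (1 : ℕ∞) ((ff h (Sum.inr (Sum.inr (Sum.inl j))) : ℕ∞) + 1) = 1 := by
          simp [ff]
        rw [h3] at heq
        rcases min_le_iff.1 (le_of_eq heq.symm) with h5 | h5
        · rw [SimpleGraph.edist_le_one_iff_adj_or_eq] at h5
          rcases h5 with h6 | h6
          · have h7 : j' = j := h6
            exact hj h7.symm
          · simp at h6
        · simp only [ff] at h5
          exact absurd h5 (by decide)
    · exact ⟨_, hZ j, key1 (j, s) (p', q')⟩
    · exact absurd (by simp [ff]) hy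
    · exact absurd (by simp [ff]) hy
  · rcases y with ⟨j', s'⟩ | (⟨p', q'⟩ | (j' | b'))
    · exact ⟨_, hZ j', (key1 (j', s') (p, q)).symm⟩
    · -- two strings
      have hne : ∃ j : J h, Sum.elim p q j ≠ Sum.elim p' q' j := by
        by_contra hcon
        push Not at hcon
        apply hxy
        have h1 : p = p' := funext (fun i => hcon (Sum.inl i))
        have h2 : q = q' := funext (fun i => hcon (Sum.inr i))
        rw [h1, h2]
      obtain ⟨j, hj⟩ := hne
      refine ⟨Sum.inr (Sum.inr (Sum.inl j)), hZ j, ?_⟩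
      have key : ∀ p q : Bits h, Sum.elim p q j = true →
          dk (GG h) 2 (Sum.inr (Sum.inl (p, q))) (Sum.inr (Sum.inr (Sum.inl j))) ≤ 2 := by
        intro p q hpq
        unfold dk
        apply le_trans (min_le_left _ _)
        apply not_two_lt (w := Sum.inl (j, p))
        · exact ⟨rfl, hpq⟩
        · exact (rfl : j = j)
      have key' : ∀ p q : Bits h, Sum.elim p q j = false →
          ¬ dk (GG h) 2 (Sum.inr (Sum.inl (p, q))) (Sum.inr (Sum.inr (Sum.inl j))) ≤ 2 := by
        intro p q hpq hle
        unfold dk at hle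
        rcases min_le_iff.1 hle with h5 | h5
        · have h6 : ¬ (2 < (GG h).edist (Sum.inr (Sum.inl (p, q))) (Sum.inr (Sum.inr (Sum.inl j)))) :=
            not_lt.2 h5
          apply h6
          rw [SimpleGraph.two_lt_edist_iff]
          refine ⟨by simp, fun h => h, ?_⟩
          rw [Set.eq_empty_iff_forall_notMem]
          rintro (⟨j', t⟩ | r) hr
          · rw [SimpleGraph.mem_commonNeighbors] at hr
            have h7 : t = p ∧ Sum.elim p q j' = true := hr.1
            have h8 : j' = j := hr.2
            rw [h8, hpq] at h7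
            exact Bool.false_ne_true h7.2
          · rw [SimpleGraph.mem_commonNeighbors] at hr
            exact hr.1
        · exact absurd h5 (by decide)
      change dk (GG h) 2 _ _ ≠ dk (GG h) 2 _ _
      cases hsb : Sum.elim p q j <;> cases hsb' : Sum.elim p' q' j
      · rw [hsb, hsb'] at hj; exact absurd rfl hj
      · intro heq
        exact key' p q hsb (by rw [heq]; exact key p' q' hsb')
      · intro heq
        exact key' p' q' hsb' (by rw [← heq]; exact key p q hsb)
      · rw [hsb, hsb'] at hj; exact absurd rfl hj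
    · exact absurd (by simp [ff]) hy
    · exact absurd (by simp [ff]) hy
  · exact absurd (by simp [ff]) hx
  · exact absurd (by simp [ff]) hx

theorem bdim_GG (h : ℕ) : bdim (GG h) ≤ 5 * h := by
  rw [← ff_sum]
  exact bdim_le _ _ (ff_resolving h)

/-- neighbourhoods are small -/
theorem adim_GG (h t : ℕ) : 4 ^ h ≤ 1 + adim (ext (GG h) t) * (1 + 2 * h * 2 ^ h + 2 ^ h + 3 * h) := by
  classical
  let Yall : Finset ((Y h ⊕ R h) ⊕ Fin t) := Finset.univ.image (fun y : Y h => Sum.inl (Sum.inl y))
  let Rall : Finset ((Y h ⊕ R h) ⊕ Fin t) :=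
    Finset.univ.image (fun r : J h ⊕ Fin h => Sum.inl (Sum.inr (Sum.inr r)))
  let N : (Y h ⊕ R h) ⊕ Fin t → Finset ((Y h ⊕ R h) ⊕ Fin t) := fun z => match z with
    | Sum.inl (Sum.inl y) => insert z (Rall ∪
        Finset.univ.image (fun q : Bits h => Sum.inl (Sum.inr (Sum.inl (y.2, q)))))
    | Sum.inl (Sum.inr _) => insert z Yall
    | Sum.inr _ => {z}
  have hY : Yall.card ≤ 2 * h * 2 ^ h := by
    refine le_trans Finset.card_image_le ?_
    rw [Finset.card_univ]
    simp only [Fintype.card_prod, Fintype.card_sum, Fintype.card_fin, Fintype.card_fun,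
      Fintype.card_bool]
    rw [two_mul]
  have hR : Rall.card ≤ 3 * h := by
    refine le_trans Finset.card_image_le ?_
    rw [Finset.card_univ]
    simp only [Fintype.card_sum, Fintype.card_fin]
    omega
  have hcard := adim_lower (ext (GG h) t) (1 + 2 * h * 2 ^ h + 2 ^ h + 3 * h) N ?_ ?_
  · refine le_trans ?_ hcard
    have h1 : Fintype.card ((Y h ⊕ R h) ⊕ Fin t) ≥ Fintype.card (Bits h × Bits h) := by
      apply Fintype.card_le_of_injective (fun r => Sum.inl (Sum.inr (Sum.inl r)))
      intro a b hab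
      simpa using hab
    refine le_trans (le_of_eq ?_) h1
    simp only [Fintype.card_prod, Fintype.card_fun, Fintype.card_bool, Fintype.card_fin]
    rw [show (4 : ℕ) = 2 * 2 by norm_num, mul_pow]
  · rintro z v (rfl | hv)
    · rcases v with (y | r) | i
      · exact Finset.mem_insert_self _ _
      · exact Finset.mem_insert_self _ _
      · exact Finset.mem_singleton_self _
    · rcases z with (y | r) | i
      · rcases v with (y' | r') | i'
        · exact absurd hv (fun h => h)
        · have h1 : nr y r' := hv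
          apply Finset.mem_insert_of_mem
          rcases r' with ⟨p, q⟩ | r'
          · apply Finset.mem_union_right
            rw [Finset.mem_image]
            refine ⟨q, Finset.mem_univ _, ?_⟩
            have h2 : y.2 = p := h1.1
            rw [h2]
          · apply Finset.mem_union_left
            rw [Finset.mem_image]
            exact ⟨r', Finset.mem_univ _, rfl⟩
        · exact absurd hv (fun h => h)
      · rcases v with (y' | r') | i'
        · apply Finset.mem_insert_of_mem
          rw [Finset.mem_image]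
          exact ⟨y', Finset.mem_univ _, rfl⟩
        · exact absurd hv (fun h => h)
        · exact absurd hv (fun h => h)
      · rcases v with (y' | r') | i'
        · exact absurd hv (fun h => h)
        · exact absurd hv (fun h => h)
        · exact absurd hv (fun h => h)
  · rintro ((y | r) | i)
    · refine le_trans (Finset.card_insert_le _ _) ?_
      have h1 : (Finset.univ.image (fun q : Bits h => (Sum.inl (Sum.inr (Sum.inl (y.2, q))) :
          (Y h ⊕ R h) ⊕ Fin t))).card ≤ 2 ^ h := by
        refine le_trans Finset.card_image_le ?_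
        rw [Finset.card_univ]
        simp
      have h2 := Finset.card_union_le Rall (Finset.univ.image (fun q : Bits h =>
        (Sum.inl (Sum.inr (Sum.inl (y.2, q))) : (Y h ⊕ R h) ⊕ Fin t)))
      have h3 : 0 ≤ 2 * h * 2 ^ h := Nat.zero_le _
      linarith
    · refine le_trans (Finset.card_insert_le _ _) ?_
      have h3 : 0 ≤ 2 ^ h := Nat.zero_le _
      linarith
    · simp only [N, Finset.card_singleton]
      have h3 : 0 ≤ 2 * h * 2 ^ h + 2 ^ h + 3 * h := Nat.zero_le _
      linarith

theorem pow_bound {h : ℕ} (hh : 12 ≤ h) : 2 * h + 5 ≤ 2 ^ (h / 2) := by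
  obtain ⟨a, ha⟩ : ∃ a, a = h / 2 := ⟨_, rfl⟩
  have h1 : 2 * h + 5 ≤ 4 * a + 7 := by omega
  have h2 : 6 ≤ a := by omega
  rw [← ha]
  refine le_trans h1 ?_
  clear h1 ha hh
  induction a, h2 using Nat.le_induction with
  | base => norm_num
  | succ n hn ih => rw [pow_succ]; omega

/-- the adjacency dimension is large -/
theorem adim_big {h : ℕ} (hh : 12 ≤ h) (t : ℕ) : 2 ^ (h - h / 2) ≤ 1 + adim (ext (GG h) t) := by
  have h1 := adim_GG h t
  set A := adim (ext (GG h) t)
  have hlt : h < 2 ^ h := Nat.lt_two_pow_self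
  have h2 : 1 + 2 * h * 2 ^ h + 2 ^ h + 3 * h ≤ (2 * h + 5) * 2 ^ h := by
    have : (2 * h + 5) * 2 ^ h = 2 * h * 2 ^ h + 5 * 2 ^ h := by ring
    rw [this]
    omega
  have h3 : 1 + 2 * h * 2 ^ h + 2 ^ h + 3 * h ≤ 2 ^ (h / 2) * 2 ^ h :=
    le_trans h2 (Nat.mul_le_mul_right _ (pow_bound hh))
  have h4 : 4 ^ h ≤ (1 + A) * (2 ^ (h / 2) * 2 ^ h) := by
    calc 4 ^ h ≤ 1 + A * (1 + 2 * h * 2 ^ h + 2 ^ h + 3 * h) := h1
      _ ≤ 1 * (2 ^ (h / 2) * 2 ^ h) + A * (2 ^ (h / 2) * 2 ^ h) := by
          apply Nat.add_le_add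
          · rw [one_mul]; exact Nat.one_le_iff_ne_zero.2 (by positivity)
          · exact Nat.mul_le_mul_left _ h3
      _ = _ := by ring
  have h5 : 4 ^ h = 2 ^ (h - h / 2) * (2 ^ (h / 2) * 2 ^ h) := by
    rw [← pow_add, ← pow_add, show (4 : ℕ) = 2 ^ 2 by norm_num, ← pow_mul]
    congr 1
    omega
  rw [h5] at h4
  exact Nat.le_of_mul_le_mul_right h4 (by positivity)

end Pool.Agent.X48.Broadcast
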