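import Mathlib

/-!
Trees given by a parent function, distances in them, and Wiener polynomials.
-/

namespace Pool.Agent.X48.Wiener

open Finset

/-- The Wiener polynomial of `G`, as a function of the complex number `z`: the sum of
`z ^ d (u, v)` over the unordered pairs of distinct vertices. -/
noncomputable def W {V : Type} [Fintype V] (G : SimpleGraph V) (z : ℂ) : ℂ :=
  open Classical in
  ∑ e ∈ (Finset.univ : Finset (Sym2 V)).filter (fun e => ¬ e.IsDiag),
    z ^ (Sym2.lift ⟨fun u v => G.dist u v, fun _ _ => SimpleGraph.dist_comm⟩ e)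

/-- twice the Wiener polynomial, as a polynomial -/
noncomputable def Q {V : Type} [Fintype V] (G : SimpleGraph V) : Polynomial ℂ :=
  open Classical in
  ∑ p ∈ (Finset.univ : Finset (V × V)).filter (fun p => p.1 ≠ p.2), Polynomial.X ^ (G.dist p.1 p.2)

theorem two_W {V : Type} [Fintype V] (G : SimpleGraph V) (z : ℂ) :
    2 * W G z = (Q G).eval z := by
  classical
  unfold W Q
  rw [Polynomial.eval_finsetSum]
  simp only [Polynomial.eval_pow, Polynomial.eval_X]
  rw [Finset.mul_sum]
  symm
  have h := Finset.sum_fiberwise_of_maps_to (s := (Finset.univ : Finset (V × V)).filter (fun p => p.1 ≠ p.2))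
    (t := (Finset.univ : Finset (Sym2 V)).filter (fun e => ¬ e.IsDiag)) (g := fun p => s(p.1, p.2))
    (by
      intro p hp
      simp only [Finset.mem_filter, Finset.mem_univ, true_and, Sym2.mk_isDiag_iff] at hp ⊢
      exact hp) (fun p => z ^ (G.dist p.1 p.2))
  rw [← h]
  apply Finset.sum_congr rfl
  intro e he
  induction e using Sym2.ind with
  | _ a b =>
    have hab : a ≠ b := by simpa using (Finset.mem_filter.1 he).2
    have hfib : ((Finset.univ : Finset (V × V)).filter (fun p => p.1 ≠ p.2)).filter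
        (fun p => s(p.1, p.2) = s(a, b)) = {(a, b), (b, a)} := by
      ext ⟨x, y⟩
      simp only [Finset.mem_filter, Finset.mem_univ, true_and, Sym2.eq_iff, Finset.mem_insert,
        Finset.mem_singleton, Prod.mk.injEq]
      constructor
      · rintro ⟨-, h⟩; exact h
      · rintro (⟨rfl, rfl⟩ | ⟨rfl, rfl⟩)
        · exact ⟨hab, Or.inl ⟨rfl, rfl⟩⟩
        · exact ⟨hab.symm, Or.inr ⟨rfl, rfl⟩⟩
    rw [hfib, Finset.sum_pair (by
      intro h
      exact hab (Prod.mk.inj h).1)]
    simp only [Sym2.lift_mk]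
    rw [SimpleGraph.dist_comm (u := b) (v := a)]
    ring

/-! Rooted trees. -/

section tree

variable {V : Type} (r : V) (p : V → V) (δ : V → ℕ)

/-- the graph of a parent function -/
def tg (h : ∀ v, v ≠ r → δ v = δ (p v) + 1) : SimpleGraph V where
  Adj u v := (u ≠ r ∧ p u = v) ∨ (v ≠ r ∧ p v = u)
  symm := ⟨fun _ _ h => h.symm⟩
  loopless := ⟨by
    rintro u (⟨h1, h2⟩ | ⟨h1, h2⟩) <;>
    · have := h u h1
      rw [h2] at this
      omega⟩

variable {r p δ}
variable (h0 : δ r = 0) (h : ∀ v, v ≠ r → δ v = δ (p v) + 1)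

include h0 in
theorem walk_root : ∀ (n : ℕ) (v : V), δ v = n → ∃ w : (tg r p δ h).Walk v r, w.length = n := by
  intro n
  induction n with
  | zero =>
    intro v hv
    have hvr : v = r := by
      by_contra hne
      have := h v hne
      omega
    subst hvr
    exact ⟨SimpleGraph.Walk.nil, rfl⟩
  | succ n ih =>
    intro v hv
    have hvr : v ≠ r := by rintro rfl; omega
    have h1 := h v hvr
    obtain ⟨w, hw⟩ := ih (p v) (by omega)
    have hadj : (tg r p δ h).Adj v (p v) := Or.inl ⟨hvr, rfl⟩
    exact ⟨SimpleGraph.Walk.cons hadj w, by rw [SimpleGraph.Walk.length_cons, hw]⟩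

include h0 in
theorem conn : (tg r p δ h).Connected := by
  have : ∀ v, (tg r p δ h).Reachable v r := fun v => ⟨(walk_root h0 h _ v rfl).choose⟩
  have hne : Nonempty V := ⟨r⟩
  exact ⟨fun u v => (this u).trans (this v).symm⟩

include h0 in
theorem dist_le_add (u v : V) : (tg r p δ h).dist u v ≤ δ u + δ v := by
  obtain ⟨w1, hw1⟩ := walk_root h0 h _ u rfl
  obtain ⟨w2, hw2⟩ := walk_root h0 h _ v rfl
  have := SimpleGraph.dist_le (w1.append w2.reverse)
  rw [SimpleGraph.Walk.length_append, SimpleGraph.Walk.length_reverse, hw1, hw2] at this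
  exact this

theorem lip {G : SimpleGraph V} (φ : V → ℤ) (hφ : ∀ u v, G.Adj u v → φ u - φ v ≤ 1) {u v : V}
    (w : G.Walk u v) : φ u - φ v ≤ w.length := by
  induction w with
  | nil => simp
  | cons hadj _ ih =>
    rw [SimpleGraph.Walk.length_cons]
    have := hφ _ _ hadj
    push_cast
    linarith

include h0 in
theorem dist_eq_add {ι : Type} (leg : V → ι) (hr : ∀ v, v ≠ r → p v ≠ r → leg (p v) = leg v)
    {u v : V} (hv : leg u ≠ leg v) : (tg r p δ h).dist u v = δ u + δ v := by
  classical
  apply le_antisymm (dist_le_add h0 h u v)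
  obtain ⟨w, hw⟩ := (conn h0 h).exists_walk_length_eq_dist u v
  let φ : V → ℤ := fun x => if leg x = leg u then (δ x : ℤ) else -(δ x : ℤ)
  have h1 : ∀ x, x ≠ r → |φ x - φ (p x)| ≤ 1 := by
    intro x hx
    have h2 := h x hx
    by_cases h3 : p x = r
    · have h4 : φ (p x) = 0 := by
        simp only [φ, h3, h0]
        split_ifs <;> simp
      rw [h4]
      have h5 : δ x = 1 := by rw [h2, h3, h0]
      simp only [φ, h5]
      split_ifs <;> simp
    · have h4 := hr x hx h3
      simp only [φ, h4, h2]
      split_ifs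
      · push_cast
        rw [show ((δ (p x) : ℤ) + 1 - δ (p x)) = 1 by ring]
        simp
      · push_cast
        rw [show (-((δ (p x) : ℤ) + 1) - -(δ (p x) : ℤ)) = -1 by ring]
        simp
  have h2 : φ u - φ v ≤ w.length := by
    apply lip φ _ w
    rintro x y (⟨hx, hy⟩ | ⟨hx, hy⟩)
    · have := h1 x hx
      rw [hy] at this
      exact (abs_le.1 this).2
    · have := h1 y hx
      rw [hy] at this
      have := (abs_le.1 this).1
      linarith
  rw [hw] at h2
  have h3 : φ u = δ u := by simp [φ]
  have h4 : φ v = -(δ v : ℤ) := by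
    simp only [φ]
    rw [if_neg (fun h => hv h.symm)]
  rw [h3, h4] at h2
  omega

include h0 in
theorem isTree [Finite V] : (tg r p δ h).IsTree := by
  classical
  rw [SimpleGraph.isTree_iff_connected_and_card]
  refine ⟨conn h0 h, ?_⟩
  have hF : Fintype V := Fintype.ofFinite V
  let f : {v : V // v ≠ r} → (tg r p δ h).edgeSet := fun v =>
    ⟨s(v.1, p v.1), Or.inl ⟨v.2, rfl⟩⟩
  have hf : Function.Bijective f := by
    constructor
    · rintro ⟨u, hu⟩ ⟨v, hv⟩ huv
      have huv' : s(u, p u) = s(v, p v) := congrArg Subtype.val huv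
      rw [Sym2.eq_iff] at huv'
      rcases huv' with ⟨h1, -⟩ | ⟨h1, h2⟩
      · exact Subtype.ext h1
      · exfalso
        have a1 := h u hu
        have a2 := h v hv
        rw [h2] at a1
        rw [← h1] at a2
        omega
    · rintro ⟨e, he⟩
      induction e using Sym2.ind with
      | _ a b =>
        have he' : (a ≠ r ∧ p a = b) ∨ (b ≠ r ∧ p b = a) := he
        rcases he' with ⟨h1, h2⟩ | ⟨h1, h2⟩
        · exact ⟨⟨a, h1⟩, Subtype.ext (by simp only [f, h2])⟩
        · exact ⟨⟨b, h1⟩, Subtype.ext (by simp only [f, h2]; exact Sym2.eq_swap)⟩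
  rw [← Nat.card_congr (Equiv.ofBijective f hf)]
  rw [Nat.card_eq_fintype_card, Nat.card_eq_fintype_card, Fintype.card_subtype_compl,
    Fintype.card_subtype_eq]
  have : 0 < Fintype.card V := Fintype.card_pos_iff.2 ⟨r⟩
  omega

end tree

/-- small value relative to the leading coefficient gives a close root -/
theorem close_root (q : Polynomial ℂ) (D : ℕ) (hq : q.natDegree ≤ D) (z : ℂ) (ε : ℝ) (hε : 0 < ε)
    (h : ‖q.eval z‖ < ‖q.coeff D‖ * ε ^ D) : ∃ w, q.eval w = 0 ∧ ‖z - w‖ < ε := by
  have hc : q.coeff D ≠ 0 := by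
    intro h0
    rw [h0] at h
    simp at h
    exact absurd h (not_lt.2 (norm_nonneg _))
  have hdeg : q.natDegree = D := le_antisymm hq (Polynomial.le_natDegree_of_ne_zero hc)
  have hsplit : q.Splits := IsAlgClosed.splits q
  by_contra hcon
  push Not at hcon
  have h1 := hsplit.eval_eq_prod_roots z
  have h2 : q.leadingCoeff = q.coeff D := by rw [Polynomial.leadingCoeff, hdeg]
  have hq0 : q ≠ 0 := by
    rintro rfl
    simp at hc
  have h3 : ∀ s : Multiset ℂ, (∀ w ∈ s, ε ≤ ‖z - w‖) → ε ^ s.card ≤ ‖(s.map (fun w => z - w)).prod‖ := by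
    intro s
    induction s using Multiset.induction_on with
    | empty => intro _; simp
    | cons a s ih =>
      intro hs
      rw [Multiset.map_cons, Multiset.prod_cons, Multiset.card_cons, pow_succ, norm_mul, mul_comm]
      exact mul_le_mul (hs a (Multiset.mem_cons_self a s))
        (ih (fun w hw => hs w (Multiset.mem_cons_of_mem hw))) (by positivity) (norm_nonneg _)
  have h4 := h3 q.roots (fun w hw => hcon w ((Polynomial.mem_roots hq0).1 hw))
  have h5 : q.roots.card = D := by
    rw [← hdeg]
    exact hsplit.natDegree_eq_card_roots.symm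
  rw [h5] at h4
  rw [h1, h2, norm_mul] at h
  exact absurd h (not_lt.2 (mul_le_mul_of_nonneg_left h4 (norm_nonneg _)))

end Pool.Agent.X48.Wiener
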