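import Mathlib
import Pool.Agent.X48.WienerTree

/-!
Trees with many legs and the density of their Wiener roots.
-/

namespace Pool.Agent.X48.Wiener

open Finset

abbrev PathV (N : ℕ) (l : Fin 3 → ℕ) := Σ τ : Fin 3, Fin N × Fin (l τ + 1)
abbrev LeafV (N : ℕ) (c : Fin 3 → ℕ) := Σ τ : Fin 3, Fin N × Fin (c τ)
/-- inner vertices -/
abbrev AV (N : ℕ) (l : Fin 3 → ℕ) := Unit ⊕ PathV N l
/-- all vertices -/
abbrev VV (N : ℕ) (l c : Fin 3 → ℕ) := AV N l ⊕ LeafV N c

variable {N : ℕ} {l c : Fin 3 → ℕ}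

def root : VV N l c := Sum.inl (Sum.inl ())

def par : VV N l c → VV N l c
  | Sum.inl (Sum.inl _) => root
  | Sum.inl (Sum.inr ⟨τ, i, k⟩) =>
      if k.val = 0 then root else Sum.inl (Sum.inr ⟨τ, i, ⟨k.val - 1, by omega⟩⟩)
  | Sum.inr ⟨τ, i, _⟩ => Sum.inl (Sum.inr ⟨τ, i, Fin.last _⟩)

def dep : VV N l c → ℕ
  | Sum.inl (Sum.inl _) => 0
  | Sum.inl (Sum.inr ⟨_, _, k⟩) => k.val + 1
  | Sum.inr ⟨τ, _, _⟩ => l τ + 2

def leg : VV N l c → Option (Fin 3 × Fin N)
  | Sum.inl (Sum.inl _) => none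
  | Sum.inl (Sum.inr ⟨τ, i, _⟩) => some (τ, i)
  | Sum.inr ⟨τ, i, _⟩ => some (τ, i)

theorem dep_root : dep (root : VV N l c) = 0 := rfl

theorem dep_par : ∀ v : VV N l c, v ≠ root → dep v = dep (par v) + 1 := by
  rintro ((_ | ⟨τ, i, k⟩) | ⟨τ, i, k⟩) hv
  · exact absurd rfl hv
  · simp only [par]
    split_ifs with h
    · rw [dep_root]; simp only [dep, h]
    · simp only [dep]; omega
  · rfl

theorem leg_par : ∀ v : VV N l c, v ≠ root → par v ≠ root → leg (par v) = leg v := by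
  rintro ((_ | ⟨τ, i, k⟩) | ⟨τ, i, k⟩) hv hp
  · exact absurd rfl hv
  · simp only [par] at hp ⊢
    split_ifs at hp ⊢ with h
    · exact absurd rfl hp
    · rfl
  · rfl

/-- the tree -/
def TT (N : ℕ) (l c : Fin 3 → ℕ) : SimpleGraph (VV N l c) := tg root par dep dep_par

theorem TT_tree : (TT N l c).IsTree := isTree dep_root dep_par

theorem TT_dist_le (u v : VV N l c) : (TT N l c).dist u v ≤ dep u + dep v :=
  dist_le_add dep_root dep_par u v

theorem TT_dist {u v : VV N l c} (h : leg u ≠ leg v) : (TT N l c).dist u v = dep u + dep v :=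
  dist_eq_add dep_root dep_par leg leg_par h

/-- the values at the leaves -/
noncomputable def g (z : ℂ) : VV N l c → ℂ
  | Sum.inl _ => 0
  | Sum.inr ⟨τ, _, _⟩ => z ^ (l τ + 2)

theorem sum_g (z : ℂ) : ∑ u : VV N l c, g z u =
    (N : ℂ) * ((c 0 : ℂ) * z ^ (l 0 + 2) + (c 1 : ℂ) * z ^ (l 1 + 2) + (c 2 : ℂ) * z ^ (l 2 + 2)) := by
  rw [Fintype.sum_sum_type]
  have h1 : ∑ a : AV N l, g (c := c) z (Sum.inl a) = 0 := Finset.sum_eq_zero (fun _ _ => rfl)
  rw [h1, zero_add, Fintype.sum_sigma, Fin.sum_univ_three]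
  simp only [g, Finset.sum_const, Finset.card_univ, Fintype.card_prod, Fintype.card_fin, nsmul_eq_mul]
  push_cast
  ring

/-- bad pairs of vertices -/
def bad (u v : VV N l c) : Prop :=
  match u, v with
  | Sum.inr a, Sum.inr b => (a.1, a.2.1) = (b.1, b.2.1)
  | _, _ => True

open Classical in
theorem bad_count_inr (a : LeafV N c) : (Finset.univ.filter (fun v : VV N l c => bad (Sum.inr a) v)).card ≤
    Fintype.card (AV N l) + c a.1 := by
  have h1 : (Finset.univ.filter (fun v : VV N l c => bad (Sum.inr a) v)) ⊆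
      (Finset.univ.image (fun x : AV N l => (Sum.inl x : VV N l c))) ∪
      (Finset.univ.image (fun x : Fin (c a.1) => (Sum.inr ⟨a.1, a.2.1, x⟩ : VV N l c))) := by
    intro v hv
    rw [Finset.mem_union, Finset.mem_image, Finset.mem_image]
    rcases v with x | ⟨τ, i, k⟩
    · exact Or.inl ⟨x, Finset.mem_univ _, rfl⟩
    · right
      have h2 : (a.1, a.2.1) = (τ, i) := (Finset.mem_filter.1 hv).2
      obtain ⟨τ', i', k'⟩ := a
      simp only [Prod.mk.injEq] at h2
      obtain ⟨rfl, rfl⟩ := h2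
      exact ⟨k, Finset.mem_univ _, rfl⟩
  refine le_trans (Finset.card_le_card h1) (le_trans (Finset.card_union_le _ _) ?_)
  apply Nat.add_le_add
  · exact le_trans Finset.card_image_le (by rw [Finset.card_univ])
  · exact le_trans Finset.card_image_le (by rw [Finset.card_univ, Fintype.card_fin])

open Classical in
theorem bad_count (C : ℕ) (hC : ∀ τ, c τ ≤ C) :
    ∑ u : VV N l c, (Finset.univ.filter (fun v : VV N l c => bad u v)).card ≤
      Fintype.card (AV N l) * Fintype.card (VV N l c) +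
      Fintype.card (LeafV N c) * (Fintype.card (AV N l) + C) := by
  rw [Fintype.sum_sum_type]
  apply Nat.add_le_add
  · calc _ ≤ ∑ _a : AV N l, Fintype.card (VV N l c) := Finset.sum_le_sum (fun a _ => Finset.card_le_univ _)
      _ = _ := by rw [Finset.sum_const, Finset.card_univ, smul_eq_mul]
  · calc _ ≤ ∑ _a : LeafV N c, (Fintype.card (AV N l) + C) := Finset.sum_le_sum (fun a _ =>
          le_trans (bad_count_inr a) (Nat.add_le_add_left (hC _) _))
      _ = _ := by rw [Finset.sum_const, Finset.card_univ, smul_eq_mul]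

/-- main error estimate -/
theorem error (z : ℂ) (D C : ℕ) (hD : ∀ τ, 2 * (l τ + 2) ≤ D) (hC : ∀ τ, c τ ≤ C) :
    ‖(Q (TT N l c)).eval z‖ ≤ ‖∑ u : VV N l c, g z u‖ ^ 2 +
      2 * (max 1 ‖z‖) ^ D * ((Fintype.card (AV N l) * Fintype.card (VV N l c) +
      Fintype.card (LeafV N c) * (Fintype.card (AV N l) + C) : ℕ) : ℝ) + Fintype.card (VV N l c) := by
  classical
  set M := max 1 ‖z‖ with hM
  have hM1 : 1 ≤ M := le_max_left _ _
  have hMz : ‖z‖ ≤ M := le_max_right _ _
  have hpow : ∀ k, k ≤ D → ‖z ^ k‖ ≤ M ^ D := by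
    intro k hk
    rw [norm_pow]
    calc ‖z‖ ^ k ≤ M ^ k := pow_le_pow_left₀ (norm_nonneg _) hMz k
      _ ≤ M ^ D := pow_le_pow_right₀ hM1 hk
  have hdep : ∀ u : VV N l c, 2 * dep u ≤ D := by
    rintro ((_ | ⟨τ, i, k⟩) | ⟨τ, i, k⟩)
    · simp [dep]
    · have := hD τ
      have := k.2
      simp only [dep]; omega
    · exact hD τ
  have hdist : ∀ u v : VV N l c, (TT N l c).dist u v ≤ D := by
    intro u v
    have h1 := TT_dist_le u v
    have h2 := hdep u
    have h3 := hdep v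
    omega
  -- evaluation
  have hQ : (Q (TT N l c)).eval z = (∑ u : VV N l c, ∑ v : VV N l c, z ^ ((TT N l c).dist u v)) -
      Fintype.card (VV N l c) := by
    unfold Q
    rw [Polynomial.eval_finsetSum]
    simp only [Polynomial.eval_pow, Polynomial.eval_X]
    rw [Finset.sum_filter, Fintype.sum_prod_type, eq_sub_iff_add_eq]
    have h1 : (Fintype.card (VV N l c) : ℂ) = ∑ _u : VV N l c, (1 : ℂ) := by simp
    rw [h1, ← Finset.sum_add_distrib]
    apply Finset.sum_congr rfl
    intro u _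
    have h2 : (1 : ℂ) = ∑ v : VV N l c, if u = v then (1 : ℂ) else 0 := by simp
    conv_lhs => rw [h2]
    rw [← Finset.sum_add_distrib]
    apply Finset.sum_congr rfl
    intro v _
    by_cases huv : u = v
    · subst huv
      simp
    · simp [huv]
  have hdiff : ∀ u v : VV N l c, ‖z ^ ((TT N l c).dist u v) - g z u * g z v‖ ≤
      if bad u v then 2 * M ^ D else 0 := by
    intro u v
    have hb1 : ‖z ^ ((TT N l c).dist u v)‖ ≤ M ^ D := hpow _ (hdist u v)
    have hM0 : (0 : ℝ) ≤ M ^ D := by positivity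
    rcases u with u | ⟨τ, i, k⟩
    · rw [if_pos (by trivial)]
      simp only [g, zero_mul, sub_zero]
      linarith
    · rcases v with v | ⟨τ', i', k'⟩
      · rw [if_pos (by trivial)]
        simp only [g, mul_zero, sub_zero]
        linarith
      · simp only [g]
        rw [← pow_add]
        have h1 : ‖z ^ (l τ + 2 + (l τ' + 2))‖ ≤ M ^ D := by
          apply hpow
          have := hD τ
          have := hD τ'
          omega
        split_ifs with hb
        · calc _ ≤ ‖z ^ ((TT N l c).dist (Sum.inr ⟨τ, i, k⟩) (Sum.inr ⟨τ', i', k'⟩))‖ +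
                ‖z ^ (l τ + 2 + (l τ' + 2))‖ := norm_sub_le _ _
            _ ≤ 2 * M ^ D := by linarith
        · have h2 : leg (Sum.inr ⟨τ, i, k⟩ : VV N l c) ≠ leg (Sum.inr ⟨τ', i', k'⟩ : VV N l c) := by
            intro h
            apply hb
            exact Option.some.inj h
          rw [TT_dist h2]
          simp [dep]
  have hsum : ‖(∑ u : VV N l c, ∑ v : VV N l c, z ^ ((TT N l c).dist u v)) - (∑ u : VV N l c, g z u) ^ 2‖ ≤
      2 * M ^ D * ((Fintype.card (AV N l) * Fintype.card (VV N l c) +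
      Fintype.card (LeafV N c) * (Fintype.card (AV N l) + C) : ℕ) : ℝ) := by
    rw [sq, Finset.sum_mul_sum, ← Finset.sum_sub_distrib]
    have h1 : ∀ u : VV N l c, ‖(∑ v : VV N l c, z ^ ((TT N l c).dist u v)) - ∑ v : VV N l c, g z u * g z v‖ ≤
        2 * M ^ D * (((Finset.univ.filter (fun v : VV N l c => bad u v)).card : ℕ) : ℝ) := by
      intro u
      rw [← Finset.sum_sub_distrib]
      refine le_trans (norm_sum_le _ _) ?_
      refine le_trans (Finset.sum_le_sum (fun v _ => hdiff u v)) ?_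
      rw [← Finset.sum_filter, Finset.sum_const, nsmul_eq_mul, mul_comm]
    refine le_trans (norm_sum_le _ _) ?_
    refine le_trans (Finset.sum_le_sum (fun u _ => h1 u)) ?_
    rw [← Finset.mul_sum]
    apply mul_le_mul_of_nonneg_left _ (by positivity)
    rw [← Nat.cast_sum]
    exact_mod_cast bad_count C hC
  rw [hQ]
  set S := ∑ u : VV N l c, ∑ v : VV N l c, z ^ ((TT N l c).dist u v)
  set G := ∑ u : VV N l c, g z u
  calc ‖S - (Fintype.card (VV N l c) : ℂ)‖ = ‖(S - G ^ 2) + G ^ 2 - (Fintype.card (VV N l c) : ℂ)‖ := by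
        congr 1; ring
    _ ≤ ‖(S - G ^ 2) + G ^ 2‖ + ‖(Fintype.card (VV N l c) : ℂ)‖ := norm_sub_le _ _
    _ ≤ ‖S - G ^ 2‖ + ‖G ^ 2‖ + ‖(Fintype.card (VV N l c) : ℂ)‖ := by
        have := norm_add_le (S - G ^ 2) (G ^ 2)
        linarith
    _ ≤ _ := by
        rw [norm_pow, Complex.norm_natCast]
        linarith

/-- the leading coefficient -/
theorem lead (D : ℕ) (hD : D = 2 * (l 0 + 2)) :
    (((N * (N - 1)) * (c 0 * c 0) : ℕ) : ℝ) ≤ ‖(Q (TT N l c)).coeff D‖ := by
  classical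
  have h1 : (Q (TT N l c)).coeff D =
      (((Finset.univ : Finset (VV N l c × VV N l c)).filter (fun p => p.1 ≠ p.2 ∧ (TT N l c).dist p.1 p.2 = D)).card : ℂ) := by
    unfold Q
    rw [Polynomial.finsetSum_coeff]
    simp only [Polynomial.coeff_X_pow]
    rw [← Finset.sum_filter, Finset.filter_filter, Finset.sum_const, nsmul_eq_mul, mul_one]
    congr 2
    ext p
    simp only [Finset.mem_filter, Finset.mem_univ, true_and]
    constructor
    · rintro ⟨a, b⟩; exact ⟨a, b.symm⟩
    · rintro ⟨a, b⟩; exact ⟨a, b.symm⟩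
  rw [h1, Complex.norm_natCast]
  have h2 : ((Finset.univ : Finset (Fin N)).offDiag ×ˢ (Finset.univ : Finset (Fin (c 0) × Fin (c 0)))).card ≤
      ((Finset.univ : Finset (VV N l c × VV N l c)).filter (fun p => p.1 ≠ p.2 ∧ (TT N l c).dist p.1 p.2 = D)).card := by
    apply Finset.card_le_card_of_injOn
      (fun q => ((Sum.inr ⟨0, q.1.1, q.2.1⟩ : VV N l c), (Sum.inr ⟨0, q.1.2, q.2.2⟩ : VV N l c)))
    · rintro ⟨⟨i, j⟩, ⟨a, b⟩⟩ hq
      have hij : i ≠ j := by simpa using hq
      simp only [Finset.coe_filter, Finset.mem_univ, true_and, Set.mem_ofPred_eq]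
      have hleg : leg (Sum.inr ⟨0, i, a⟩ : VV N l c) ≠ leg (Sum.inr ⟨0, j, b⟩ : VV N l c) := by
        intro h
        apply hij
        have := Option.some.inj h
        exact (Prod.mk.inj this).2
      refine ⟨?_, ?_⟩
      · intro h
        exact hleg (by rw [h])
      · rw [TT_dist hleg]
        simp only [dep]
        omega
    · rintro ⟨⟨i, j⟩, ⟨a, b⟩⟩ _ ⟨⟨i', j'⟩, ⟨a', b'⟩⟩ _ heq
      have h5 : (i = i' ∧ a = a') ∧ j = j' ∧ b = b' := by simpa using heq
      rw [h5.1.1, h5.1.2, h5.2.1, h5.2.2]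
  rw [Finset.card_product, Finset.offDiag_card] at h2
  simp only [Finset.card_univ, Fintype.card_prod, Fintype.card_fin] at h2
  have h3 : N * (N - 1) = N * N - N := by rw [Nat.mul_sub, mul_one]
  rw [h3]
  exact_mod_cast h2

theorem natDegree_le (D : ℕ) (hD : ∀ τ, 2 * (l τ + 2) ≤ D) : (Q (TT N l c)).natDegree ≤ D := by
  classical
  unfold Q
  apply Polynomial.natDegree_sum_le_of_forall_le
  rintro ⟨u, v⟩ _
  rw [Polynomial.natDegree_X_pow]
  have hdep : ∀ u : VV N l c, 2 * dep u ≤ D := by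
    rintro ((_ | ⟨τ, i, k⟩) | ⟨τ, i, k⟩)
    · simp [dep]
    · have := hD τ
      have := k.2
      simp only [dep]; omega
    · exact hD τ
  have h1 := TT_dist_le u v
  have h2 := hdep u
  have h3 := hdep v
  simp only
  omega

end Pool.Agent.X48.Wiener
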