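import Mathlib

/-!
Sum index and difference index of graphs; the double star tree `T m`.
-/

namespace Pool.Agent.X48.SumDiff

/-- Number of distinct edge sums of a labelling. -/
noncomputable def sumCount {V : Type} (G : SimpleGraph V) (f : V → ℤ) : ℕ :=
  {s : ℤ | ∃ u v, G.Adj u v ∧ f u + f v = s}.ncard

/-- Number of distinct edge differences of a labelling. -/
noncomputable def diffCount {V : Type} (G : SimpleGraph V) (f : V → ℤ) : ℕ :=
  {s : ℤ | ∃ u v, G.Adj u v ∧ |f u - f v| = s}.ncard

/-- The sum index. -/
noncomputable def sumIndex {V : Type} (G : SimpleGraph V) : ℕ :=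
  sInf {n : ℕ | ∃ f : V → ℤ, Function.Injective f ∧ sumCount G f = n}

/-- The difference index. -/
noncomputable def diffIndex {V : Type} (G : SimpleGraph V) : ℕ :=
  sInf {n : ℕ | ∃ f : V → ℤ, Function.Injective f ∧ diffCount G f = n}

/-- The tree: root `none`, joined to the vertices `some (i, i)`; the vertex `some (i, i)` has the
leaves `some (i, j)` with `j ≠ i`. -/
def T (m : ℕ) : SimpleGraph (Option (Fin m × Fin m)) where
  Adj u v := (∃ i, (u = none ∧ v = some (i, i)) ∨ (v = none ∧ u = some (i, i))) ∨
    (∃ i j, i ≠ j ∧ ((u = some (i, i) ∧ v = some (i, j)) ∨ (v = some (i, i) ∧ u = some (i, j))))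
  symm := by
    constructor
    intro u v h
    rcases h with ⟨i, h⟩ | ⟨i, j, hij, h⟩
    · exact Or.inl ⟨i, h.symm⟩
    · exact Or.inr ⟨i, j, hij, h.symm⟩
  loopless := by
    constructor
    intro u h
    rcases h with ⟨i, h⟩ | ⟨i, j, hij, h⟩
    · rcases h with ⟨h1, h2⟩ | ⟨h1, h2⟩ <;> simp [h1] at h2
    · rcases h with ⟨h1, h2⟩ | ⟨h1, h2⟩
      · rw [h1] at h2; simp at h2; exact hij h2
      · rw [h1] at h2; simp at h2; exact hij h2

theorem adj_root {m : ℕ} (i : Fin m) : (T m).Adj none (some (i, i)) :=
  Or.inl ⟨i, Or.inl ⟨rfl, rfl⟩⟩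

theorem adj_leaf {m : ℕ} {i j : Fin m} (h : i ≠ j) : (T m).Adj (some (i, i)) (some (i, j)) :=
  Or.inr ⟨i, j, h, Or.inl ⟨rfl, rfl⟩⟩

/-- The neighbour of the hub `i` numbered `j`: the leaf `(i, j)`, or the root for `j = i`. -/
def nb {m : ℕ} (i j : Fin m) : Option (Fin m × Fin m) := if i = j then none else some (i, j)

theorem adj_nb {m : ℕ} (i j : Fin m) : (T m).Adj (some (i, i)) (nb i j) := by
  unfold nb
  split_ifs with h
  · exact (adj_root i).symm
  · exact adj_leaf h

theorem nb_inj {m : ℕ} (i : Fin m) : Function.Injective (nb i) := by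
  intro j j' h
  unfold nb at h
  split_ifs at h with h1 h2 h2
  · rw [← h1, ← h2]
  · simpa using h

/-- Two different hubs share only the root as a neighbour. -/
theorem nb_common {m : ℕ} {i i' j j' : Fin m} (hi : i ≠ i') (h : nb i j = nb i' j') :
    nb i j = none := by
  unfold nb at h ⊢
  split_ifs at h ⊢ with h1 h2 h2
  · rfl
  · exact absurd (by simpa using h : i = i' ∧ j = j').1 hi

theorem edges_eq {m : ℕ} {α : Type} (F : Option (Fin m × Fin m) → Option (Fin m × Fin m) → α)
    (hF : ∀ u v, F u v = F v u) :
    {s : α | ∃ u v, (T m).Adj u v ∧ F u v = s} =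
      Set.range (fun p : Fin m × Fin m => F (some (p.1, p.1)) (nb p.1 p.2)) := by
  ext s
  constructor
  · rintro ⟨u, v, h, rfl⟩
    rcases h with ⟨i, h⟩ | ⟨i, j, hij, h⟩
    · rcases h with ⟨rfl, rfl⟩ | ⟨rfl, rfl⟩
      · refine ⟨(i, i), ?_⟩
        simp only [nb, if_true]
        exact hF _ _
      · refine ⟨(i, i), ?_⟩
        simp only [nb, if_true]
    · rcases h with ⟨rfl, rfl⟩ | ⟨rfl, rfl⟩
      · refine ⟨(i, j), ?_⟩
        simp only [nb, if_neg hij]
      · refine ⟨(i, j), ?_⟩
        simp only [nb, if_neg hij]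
        exact hF _ _
  · rintro ⟨⟨i, j⟩, rfl⟩
    exact ⟨_, _, adj_nb i j, rfl⟩

theorem finite_edges {m : ℕ} {α : Type} (F : Option (Fin m × Fin m) → Option (Fin m × Fin m) → α) :
    {s : α | ∃ u v, (T m).Adj u v ∧ F u v = s}.Finite := by
  apply Set.Finite.subset (Set.finite_range (fun p : Option (Fin m × Fin m) × Option (Fin m × Fin m) => F p.1 p.2))
  rintro s ⟨u, v, -, rfl⟩
  exact ⟨(u, v), rfl⟩

theorem bip (m : ℕ) : (T m).Colorable 2 := by
  refine ⟨⟨fun u => match u with
    | none => (0 : Fin 2)
    | some (i, j) => if i = j then 1 else 0, ?_⟩⟩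
  intro u v h
  rcases h with ⟨i, h⟩ | ⟨i, j, hij, h⟩
  · rcases h with ⟨rfl, rfl⟩ | ⟨rfl, rfl⟩ <;> simp
  · rcases h with ⟨rfl, rfl⟩ | ⟨rfl, rfl⟩ <;> simp [hij]

/-- the labelling with few sums -/
def lab (m : ℕ) : Option (Fin m × Fin m) → ℤ
  | none => 2 ^ (m + 1)
  | some (i, j) => if i = j then 2 ^ (i : ℕ) - 2 ^ (m + 1) else 2 ^ (j : ℕ) - 2 ^ (i : ℕ) + 2 ^ (m + 1)

theorem pow_sidon {a b c d : ℕ} (hab : a ≠ b) (h : (2 : ℤ) ^ a - 2 ^ b = 2 ^ c - 2 ^ d) :
    a = c ∧ b = d := by
  have hp : ∀ x y : ℕ, x < y → (2 : ℤ) ^ x < 2 ^ y := fun x y hxy => pow_lt_pow_right₀ (by norm_num) hxy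
  have hpos : ∀ x : ℕ, (0 : ℤ) < 2 ^ x := fun x => by positivity
  have hs : ∀ x y : ℕ, x < y → (2 : ℤ) * 2 ^ x ≤ 2 ^ y := by
    intro x y hxy
    have : (2 : ℤ) ^ (x + 1) ≤ 2 ^ y := pow_le_pow_right₀ (by norm_num) hxy
    rw [pow_succ] at this
    linarith
  rcases lt_trichotomy a c with hac | hac | hac
  · -- 2^a < 2^c so 2^b < 2^d
    exfalso
    rcases lt_trichotomy b d with hbd | hbd | hbd
    · have h1 := hs a c hac
      have h2 := hs b d hbd
      rcases lt_trichotomy a b with h3 | h3 | h3
      · -- a<b: lhs negative ; 2^c<2^d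
        rcases lt_trichotomy c d with h4 | h4 | h4
        · have := hs c d h4
          have h6 := hs a b h3
          have := hpos a
          have := hpos b
          nlinarith
        · subst h4
          have := hp a b h3
          linarith
        · have := hp d c h4
          have := hp a b h3
          linarith
      · exact hab h3
      · rcases lt_trichotomy c d with h4 | h4 | h4
        · have := hp c d h4
          have := hp b a h3
          linarith
        · subst h4
          have := hp b a h3
          linarith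
        · have := hs d c h4
          have h6 := hs b a h3
          have := hpos a
          have := hpos b
          nlinarith
    · subst hbd
      have := hp a c hac
      linarith
    · have := hp a c hac
      have := hp d b hbd
      linarith
  · subst hac
    refine ⟨rfl, ?_⟩
    have : (2 : ℤ) ^ b = 2 ^ d := by linarith
    exact Int.pow_right_injective (by norm_num) this
  · exfalso
    rcases lt_trichotomy b d with hbd | hbd | hbd
    · have := hp c a hac
      have := hp b d hbd
      linarith
    · subst hbd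
      have := hp c a hac
      linarith
    · have h1 := hs c a hac
      have h2 := hs d b hbd
      rcases lt_trichotomy a b with h3 | h3 | h3
      · rcases lt_trichotomy c d with h4 | h4 | h4
        · have := hs c d h4
          have h6 := hs a b h3
          have := hpos c
          have := hpos d
          nlinarith
        · subst h4
          have := hp a b h3
          linarith
        · have := hp d c h4
          have := hp a b h3
          linarith
      · exact hab h3
      · rcases lt_trichotomy c d with h4 | h4 | h4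
        · have := hp c d h4
          have := hp b a h3
          linarith
        · subst h4
          have := hp b a h3
          linarith
        · have := hs d c h4
          have h6 := hs b a h3
          have := hpos c
          have := hpos d
          nlinarith

theorem lab_inj (m : ℕ) : Function.Injective (lab m) := by
  have hlt : ∀ i : Fin m, (2 : ℤ) ^ (i : ℕ) < 2 ^ m := fun i => pow_lt_pow_right₀ (by norm_num) i.2
  have hpos : ∀ i : Fin m, (0 : ℤ) < 2 ^ (i : ℕ) := fun i => by positivity
  have hm : (2 : ℤ) ^ (m + 1) = 2 * 2 ^ m := by ring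
  have hpow : ∀ i j : Fin m, (2 : ℤ) ^ (i : ℕ) = 2 ^ (j : ℕ) → i = j := fun i j h =>
    Fin.ext (Int.pow_right_injective (by norm_num) h)
  intro u v h
  rcases u with _ | ⟨i, j⟩ <;> rcases v with _ | ⟨i', j'⟩
  · rfl
  · exfalso
    simp only [lab] at h
    split_ifs at h with h1
    · have := hlt i'
      have := hpos i'
      linarith
    · exact h1 (hpow _ _ (by linarith))
  · exfalso
    simp only [lab] at h
    split_ifs at h with h1
    · have := hlt i
      have := hpos i
      linarith
    · exact h1 (hpow _ _ (by linarith))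
  · simp only [lab] at h
    split_ifs at h with h1 h2 h2
    · have := hpow i i' (by linarith)
      rw [← h1, ← h2, this]
    · exfalso
      have := hlt i
      have := hpos i
      have := hlt i'
      have := hpos i'
      have := hpos j'
      linarith
    · exfalso
      have := hlt i
      have := hpos i
      have := hlt i'
      have := hpos i'
      have := hpos j
      linarith
    · have h3 : (2 : ℤ) ^ (j : ℕ) - 2 ^ (i : ℕ) = 2 ^ (j' : ℕ) - 2 ^ (i' : ℕ) := by linarith
      have h4 := pow_sidon (fun hh => h1 (Fin.ext hh.symm)) h3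
      have h5 : j = j' := Fin.ext h4.1
      have h6 : i = i' := Fin.ext h4.2
      rw [h5, h6]

theorem sum_le (m : ℕ) : sumIndex (T m) ≤ m := by
  have h1 : sumCount (T m) (lab m) ≤ m := by
    unfold sumCount
    rw [edges_eq (fun u v => lab m u + lab m v) (fun u v => add_comm _ _)]
    have hsub : Set.range (fun p : Fin m × Fin m => lab m (some (p.1, p.1)) + lab m (nb p.1 p.2)) ⊆
        Set.range (fun j : Fin m => (2 : ℤ) ^ (j : ℕ)) := by
      rintro _ ⟨⟨i, j⟩, rfl⟩
      refine ⟨j, ?_⟩
      simp only [nb]
      split_ifs with h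
      · subst h
        simp [lab]
      · simp only [lab, if_true, if_neg h]
        ring
    calc (Set.range (fun p : Fin m × Fin m => lab m (some (p.1, p.1)) + lab m (nb p.1 p.2))).ncard
        ≤ (Set.range (fun j : Fin m => (2 : ℤ) ^ (j : ℕ))).ncard :=
          Set.ncard_le_ncard hsub (Set.finite_range _)
      _ ≤ Nat.card (Fin m) := by
          rw [← Set.image_univ, ← Set.ncard_univ]
          exact Set.ncard_image_le (Set.finite_univ)
      _ = m := by simp
  exact le_trans (Nat.sInf_le ⟨lab m, lab_inj m, rfl⟩) h1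

theorem sumCount_ge {m : ℕ} (hm : 0 < m) (f : Option (Fin m × Fin m) → ℤ)
    (hf : Function.Injective f) : m ≤ sumCount (T m) f := by
  unfold sumCount
  have hsub : Set.range (fun j : Fin m => f (some (⟨0, hm⟩, ⟨0, hm⟩)) + f (nb ⟨0, hm⟩ j)) ⊆
      {s : ℤ | ∃ u v, (T m).Adj u v ∧ f u + f v = s} := by
    rintro _ ⟨j, rfl⟩
    exact ⟨_, _, adj_nb _ _, rfl⟩
  have hc : (Set.range (fun j : Fin m => f (some (⟨0, hm⟩, ⟨0, hm⟩)) + f (nb ⟨0, hm⟩ j))).ncard = m := by
    rw [← Set.image_univ, Set.ncard_image_of_injective]
    · simp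
    · intro j j' h
      exact nb_inj _ (hf (by simpa using h))
  calc m = _ := hc.symm
    _ ≤ _ := Set.ncard_le_ncard hsub (finite_edges (fun u v => f u + f v))

theorem exists_inj (m : ℕ) : ∃ f : Option (Fin m × Fin m) → ℤ, Function.Injective f :=
  ⟨lab m, lab_inj m⟩

theorem sum_eq {m : ℕ} (hm : 0 < m) : sumIndex (T m) = m := by
  apply le_antisymm (sum_le m)
  obtain ⟨f, hf⟩ := exists_inj m
  have hne : {n : ℕ | ∃ f : Option (Fin m × Fin m) → ℤ, Function.Injective f ∧ sumCount (T m) f = n}.Nonempty :=
    ⟨_, f, hf, rfl⟩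
  obtain ⟨g, hg, hgn⟩ := Nat.sInf_mem hne
  unfold sumIndex
  rw [← hgn]
  exact sumCount_ge hm g hg

/-- The main counting: a labelling with `d` differences satisfies `3 m ≤ 4 d + 2`. -/
theorem diffCount_ge {m : ℕ} (hm : 0 < m) (f : Option (Fin m × Fin m) → ℤ)
    (hf : Function.Injective f) : 3 * m ≤ 4 * diffCount (T m) f + 2 := by
  classical
  have hfin : {s : ℤ | ∃ u v, (T m).Adj u v ∧ |f u - f v| = s}.Finite :=
    finite_edges (fun u v => |f u - f v|)
  set D : Finset ℤ := hfin.toFinset with hD
  have hd : diffCount (T m) f = D.card := by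
    unfold diffCount
    rw [Set.ncard_eq_toFinset_card _ hfin]
  rw [hd]
  have hmem : ∀ u v, (T m).Adj u v → |f u - f v| ∈ D := by
    intro u v h
    rw [hD, Set.Finite.mem_toFinset]
    exact ⟨u, v, h, rfl⟩
  -- hub labels
  let a : Fin m → ℤ := fun i => f (some (i, i))
  let β : ℤ := f none
  have ha : ∀ i, a i = f (some (i, i)) := fun i => rfl
  have hainj : Function.Injective a := by
    intro i j h
    have := hf h
    simpa using this
  -- the allowed labels around hub i
  let S : Fin m → Finset ℤ := fun i => (D.image (fun x => a i + x)) ∪ (D.image (fun x => a i - x))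
  let N : Fin m → Finset ℤ := fun i => Finset.univ.image (fun j => f (nb i j))
  have hScard : ∀ i, (S i).card ≤ 2 * D.card := by
    intro i
    calc (S i).card ≤ (D.image (fun x => a i + x)).card + (D.image (fun x => a i - x)).card :=
          Finset.card_union_le _ _
      _ ≤ D.card + D.card := Nat.add_le_add Finset.card_image_le Finset.card_image_le
      _ = 2 * D.card := by ring
  have hmemS : ∀ i y, |y - a i| ∈ D → y ∈ S i := by
    intro i y h
    simp only [S, Finset.mem_union, Finset.mem_image]
    rcases abs_cases (y - a i) with ⟨h1, -⟩ | ⟨h1, -⟩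
    · left; exact ⟨_, h, by rw [h1]; ring⟩
    · right; exact ⟨_, h, by rw [h1]; ring⟩
  have hNS : ∀ i, N i ⊆ S i := by
    intro i y hy
    simp only [N, Finset.mem_image, Finset.mem_univ, true_and] at hy
    obtain ⟨j, rfl⟩ := hy
    apply hmemS
    exact hmem _ _ (adj_nb i j).symm
  have hNcard : ∀ i, (N i).card = m := by
    intro i
    simp only [N]
    rw [Finset.card_image_of_injective _ (show Function.Injective (fun j => f (nb i j)) from
      hf.comp (nb_inj i))]
    simp
  have hMcard : ∀ i, (S i \ N i).card + m ≤ 2 * D.card := by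
    intro i
    have h1 : (S i \ N i).card = (S i).card - (N i).card := Finset.card_sdiff_of_subset (hNS i)
    have h2 := Finset.card_le_card (hNS i)
    have h3 := hScard i
    have h4 := hNcard i
    omega
  -- the key labels
  let y : Fin m → Fin m → ℤ := fun i j => a i + a j - β
  have hβ : ∀ i, |β - a i| ∈ D := fun i => hmem _ _ (adj_root i)
  have hyS : ∀ i j, y i j ∈ S i := by
    intro i j
    apply hmemS
    have : y i j - a i = -(β - a j) := by simp only [y]; ring
    rw [this, abs_neg]
    exact hβ j
  have hyS' : ∀ i j, y i j ∈ S j := by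
    intro i j
    apply hmemS
    have : y i j - a j = -(β - a i) := by simp only [y]; ring
    rw [this, abs_neg]
    exact hβ i
  have key : ∀ i j, i ≠ j → y i j = β ∨ y i j ∈ S i \ N i ∨ y i j ∈ S j \ N j := by
    intro i j hij
    by_contra hcon
    push Not at hcon
    obtain ⟨h1, h2, h3⟩ := hcon
    rw [Finset.mem_sdiff] at h2 h3
    push Not at h2 h3
    have h4 := h2 (hyS i j)
    have h5 := h3 (hyS' i j)
    simp only [N, Finset.mem_image, Finset.mem_univ, true_and] at h4 h5
    obtain ⟨p, hp⟩ := h4
    obtain ⟨q, hq⟩ := h5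
    have h6 : nb i p = nb j q := hf (by rw [hp, hq])
    have h7 := nb_common hij h6
    rw [h7] at hp
    exact h1 hp.symm
  -- count ordered pairs
  let P : Finset (Fin m × Fin m) := Finset.univ.filter (fun p => p.1 ≠ p.2)
  let A : Finset (Fin m × Fin m) := Finset.univ.filter (fun p => y p.1 p.2 = β)
  let B : Finset (Fin m × Fin m) := Finset.univ.filter (fun p => y p.1 p.2 ∈ S p.1 \ N p.1)
  let C : Finset (Fin m × Fin m) := Finset.univ.filter (fun p => y p.1 p.2 ∈ S p.2 \ N p.2)
  have hsub : P ⊆ A ∪ (B ∪ C) := by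
    intro p hp
    simp only [P, Finset.mem_filter, Finset.mem_univ, true_and] at hp
    simp only [A, B, C, Finset.mem_union, Finset.mem_filter, Finset.mem_univ, true_and]
    exact key _ _ hp
  have hP : P.card + m = m * m := by
    have h1 : P = Finset.univ.offDiag := by
      ext ⟨i, j⟩
      simp [P]
    rw [h1, Finset.offDiag_card]
    simp only [Finset.card_univ, Fintype.card_fin]
    have : m ≤ m * m := Nat.le_mul_self m
    omega
  have hA : A.card ≤ m := by
    have h1 : A.card ≤ (Finset.univ : Finset (Fin m)).card := by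
      apply Finset.card_le_card_of_injOn (fun p => p.1) (fun _ _ => Finset.mem_coe.2 (Finset.mem_univ _))
      rintro ⟨i, j⟩ h ⟨i', j'⟩ h' hh
      simp only [A, Finset.coe_filter, Finset.mem_univ, true_and, Set.mem_ofPred_eq, y] at h h'
      simp only at hh
      subst hh
      have : a j = a j' := by linarith
      rw [hainj this]
    simpa using h1
  have hfib : ∀ i, (Finset.univ.filter (fun j => y i j ∈ S i \ N i)).card ≤ (S i \ N i).card := by
    intro i
    apply Finset.card_le_card_of_injOn (fun j => y i j)
    · intro j hj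
      simpa using hj
    · intro j _ j' _ h
      simp only [y] at h
      exact hainj (by linarith)
  have hB : B.card + m * m ≤ m * (2 * D.card) := by
    have h1 : B.card = ∑ i : Fin m, (Finset.univ.filter (fun j => y i j ∈ S i \ N i)).card := by
      simp only [B, Finset.card_filter]
      rw [Fintype.sum_prod_type]
    have h2 : ∑ i : Fin m, ((Finset.univ.filter (fun j => y i j ∈ S i \ N i)).card + m) ≤
        ∑ i : Fin m, 2 * D.card := by
      apply Finset.sum_le_sum
      intro i _
      exact le_trans (Nat.add_le_add_right (hfib i) m) (hMcard i)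
    rw [Finset.sum_add_distrib] at h2
    simp only [Finset.sum_const, Finset.card_univ, Fintype.card_fin, smul_eq_mul] at h2
    rw [h1]
    exact h2
  have hC : C.card = B.card := by
    apply Finset.card_bij (fun p _ => (p.2, p.1))
    · intro p hp
      simp only [C, B, Finset.mem_filter, Finset.mem_univ, true_and] at hp ⊢
      have : y p.2 p.1 = y p.1 p.2 := by simp only [y]; ring
      rw [this]
      exact hp
    · rintro ⟨i, j⟩ _ ⟨i', j'⟩ _ h
      simp only [Prod.mk.injEq] at h
      rw [h.1, h.2]
    · intro p hp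
      refine ⟨(p.2, p.1), ?_, rfl⟩
      simp only [C, B, Finset.mem_filter, Finset.mem_univ, true_and] at hp ⊢
      have : y p.2 p.1 = y p.1 p.2 := by simp only [y]; ring
      rw [this]
      exact hp
  have h1 : P.card ≤ A.card + (B.card + C.card) :=
    le_trans (Finset.card_le_card hsub) (le_trans (Finset.card_union_le _ _)
      (Nat.add_le_add_left (Finset.card_union_le _ _) _))
  -- m*m - m ≤ m + 2 B, B ≤ m (2 d - m)
  have h2 : 3 * (m * m) ≤ 2 * m + m * (4 * D.card) := by
    have e1 : m * (4 * D.card) = 2 * (m * (2 * D.card)) := by ring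
    rw [e1]
    omega
  have h3 : m * (3 * m) ≤ m * (4 * D.card + 2) := by
    calc m * (3 * m) = 3 * (m * m) := by ring
      _ ≤ _ := h2
      _ = _ := by ring
  exact Nat.le_of_mul_le_mul_left h3 hm

theorem diff_ge {m : ℕ} (hm : 0 < m) : 3 * m ≤ 4 * diffIndex (T m) + 2 := by
  obtain ⟨f, hf⟩ := exists_inj m
  have hne : {n : ℕ | ∃ f : Option (Fin m × Fin m) → ℤ, Function.Injective f ∧ diffCount (T m) f = n}.Nonempty :=
    ⟨_, f, hf, rfl⟩
  obtain ⟨g, hg, hgn⟩ := Nat.sInf_mem hne
  unfold diffIndex
  rw [← hgn]
  exact diffCount_ge hm g hg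

end Pool.Agent.X48.SumDiff
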