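import Mathlib

/-!
Configurations of rows and columns avoiding the alternation `upper lower upper lower`, with many
entries in each row (a superlinear lower bound for a forbidden 0-1 matrix).
-/

namespace Pool.Agent.X48.ZConf

open Finset

/-- a configuration: `s` special columns, `m` new rows in each of them, each row with at least `d`
entries -/
structure Conf (d m K : ℕ) where
  s : ℕ
  M : ℕ
  B : ℕ
  cols : Finset ℕ
  sp : ℕ → ℕ
  inc : ℕ → ℕ → Finset ℕ
  rk : ℕ → ℕ → ℕ
  cols_lt : ∀ c ∈ cols, c < M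
  sp_mono : ∀ k l, k < l → l < s → sp k < sp l
  sp_cols : ∀ k, k < s → sp k ∈ cols
  inc_cols : ∀ k i, k < s → i < m → inc k i ⊆ cols
  sp_inc : ∀ k i, k < s → i < m → sp k ∈ inc k i
  inc_ge : ∀ k i, k < s → i < m → ∀ c ∈ inc k i, sp k ≤ c
  card_inc : ∀ k i, k < s → i < m → d ≤ (inc k i).card
  own : ∀ k l i, k < s → l < s → i < m → sp l ∈ inc k i → l = k
  rk_lt : ∀ k i, k < s → i < m → rk k i < B
  rk_inj : ∀ k i l j, k < s → i < m → l < s → j < m → rk k i = rk l j → k = l ∧ i = j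
  rk_mono : ∀ k i j, k < s → j < i → i < m → rk k i < rk k j
  avoid : ∀ k i l j, k < s → i < m → l < s → j < m → rk k i < rk l j →
    ∀ c1 c2 c3 c4, c1 < c2 → c2 < c3 → c3 < c4 → c1 ∈ inc k i → c2 ∈ inc l j → c3 ∈ inc k i →
      c4 ∈ inc l j → False
  pair : ∀ k i j, k < s → j < i → i < m → ∀ c ∈ inc k i, ∀ c' ∈ inc k j, sp k < c → c' ≤ c
  count : K * cols.card ≤ (K + 1) * s
  s_ge : K ≤ s
  s_pos : 0 < s

/-- level one: only special columns -/
def base1 (m K : ℕ) : Conf 1 m K where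
  s := K + 1
  M := K + 1
  B := (K + 1) * m
  cols := range (K + 1)
  sp := fun k => k
  inc := fun k _ => {k}
  rk := fun k i => k * m + (m - 1 - i)
  cols_lt := fun c hc => mem_range.1 hc
  sp_mono := fun k l h _ => h
  sp_cols := fun k hk => mem_range.2 hk
  inc_cols := fun k i hk _ => by
    intro c hc
    rw [mem_singleton] at hc
    rw [hc]; exact mem_range.2 hk
  sp_inc := fun k i _ _ => mem_singleton_self k
  inc_ge := fun k i _ _ c hc => by rw [mem_singleton] at hc; exact hc.ge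
  card_inc := fun k i _ _ => by simp
  own := fun k l i _ _ _ h => mem_singleton.1 h
  rk_lt := fun k i hk hi => by
    have h1 : (k + 1) * m ≤ (K + 1) * m := Nat.mul_le_mul_right _ hk
    have h2 : (k + 1) * m = k * m + m := by ring
    omega
  rk_inj := fun k i l j hk hi hl hj h => by
    rcases lt_trichotomy k l with h1 | h1 | h1
    · exfalso
      have h2 : (k + 1) * m ≤ l * m := Nat.mul_le_mul_right _ h1
      have h3 : (k + 1) * m = k * m + m := by ring
      omega
    · subst h1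
      exact ⟨rfl, by omega⟩
    · exfalso
      have h2 : (l + 1) * m ≤ k * m := Nat.mul_le_mul_right _ h1
      have h3 : (l + 1) * m = l * m + m := by ring
      omega
  rk_mono := fun k i j _ hij hi => by omega
  avoid := fun k i l j _ _ _ _ _ c1 c2 c3 c4 h12 h23 _ h1 _ h3 _ => by
    rw [mem_singleton] at h1 h3
    omega
  pair := fun k i j _ _ _ c hc c' hc' h => by
    rw [mem_singleton] at hc hc'
    omega
  count := by
    rw [card_range]
    exact Nat.mul_le_mul_right _ (Nat.le_succ K)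
  s_ge := Nat.le_succ K
  s_pos := Nat.succ_pos K

/-- no rows at all -/
def base0 (d K : ℕ) : Conf d 0 K where
  s := K + 1
  M := K + 1
  B := 0
  cols := range (K + 1)
  sp := fun k => k
  inc := fun k _ => {k}
  rk := fun _ _ => 0
  cols_lt := fun c hc => mem_range.1 hc
  sp_mono := fun k l h _ => h
  sp_cols := fun k hk => mem_range.2 hk
  inc_cols := fun k i _ hi => absurd hi (Nat.not_lt_zero i)
  sp_inc := fun k i _ hi => absurd hi (Nat.not_lt_zero i)
  inc_ge := fun k i _ hi => absurd hi (Nat.not_lt_zero i)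
  card_inc := fun k i _ hi => absurd hi (Nat.not_lt_zero i)
  own := fun k l i _ _ hi => absurd hi (Nat.not_lt_zero i)
  rk_lt := fun k i _ hi => absurd hi (Nat.not_lt_zero i)
  rk_inj := fun k i l j _ hi => absurd hi (Nat.not_lt_zero i)
  rk_mono := fun k i j _ _ hi => absurd hi (Nat.not_lt_zero i)
  avoid := fun k i l j _ hi => absurd hi (Nat.not_lt_zero i)
  pair := fun k i j _ _ hi => absurd hi (Nat.not_lt_zero i)
  count := by
    rw [card_range]
    exact Nat.mul_le_mul_right _ (Nat.le_succ K)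
  s_ge := Nat.le_succ K
  s_pos := Nat.succ_pos K

section step

variable {d m K : ℕ} (Z : Conf (d + 1) m (3 * K + 3)) (Y : Conf d Z.s 1)

/-- the new special columns -/
def nsp (k : ℕ) : ℕ := Y.sp (k / Z.s) * (Z.M + 1) + Z.sp (k % Z.s)

/-- the new incidences -/
def ninc (k i : ℕ) : Finset ℕ :=
  if i < m then (Z.inc (k % Z.s) i).image (fun x => Y.sp (k / Z.s) * (Z.M + 1) + x)
  else insert (nsp Z Y k) ((Y.inc (k / Z.s) (k % Z.s)).image (fun q => q * (Z.M + 1) + Z.M))

/-- the new ranks -/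
def nrk (k i : ℕ) : ℕ :=
  if i < m then Y.B + (k / Z.s) * Z.B + Z.rk (k % Z.s) i else Y.rk (k / Z.s) (k % Z.s)

/-- the new columns -/
def ncols : Finset ℕ :=
  ((range Y.s) ×ˢ Z.cols).image (fun p => Y.sp p.1 * (Z.M + 1) + p.2) ∪
    Y.cols.image (fun q => q * (Z.M + 1) + Z.M)

theorem div_eq {q M x : ℕ} (hx : x < M + 1) : (q * (M + 1) + x) / (M + 1) = q := by
  rw [Nat.add_comm, Nat.add_mul_div_right _ _ (Nat.succ_pos M), Nat.div_eq_of_lt hx, Nat.zero_add]

theorem mod_eq {q M x : ℕ} (hx : x < M + 1) : (q * (M + 1) + x) % (M + 1) = x := by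
  rw [Nat.add_comm, Nat.add_mul_mod_self_right, Nat.mod_eq_of_lt hx]

theorem split_inj {q q' M x x' : ℕ} (hx : x < M + 1) (hx' : x' < M + 1)
    (h : q * (M + 1) + x = q' * (M + 1) + x') : q = q' ∧ x = x' := by
  constructor
  · have := congrArg (fun y => y / (M + 1)) h
    rwa [div_eq hx, div_eq hx'] at this
  · have := congrArg (fun y => y % (M + 1)) h
    rwa [mod_eq hx, mod_eq hx'] at this

theorem Zinc_lt {k i x : ℕ} (hk : k < Z.s) (hi : i < m) (hx : x ∈ Z.inc k i) : x < Z.M :=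
  Z.cols_lt x (Z.inc_cols k i hk hi hx)

theorem Zsp_lt {k : ℕ} (hk : k < Z.s) : Z.sp k < Z.M := Z.cols_lt _ (Z.sp_cols k hk)

theorem idx {k : ℕ} (hk : k < Y.s * Z.s) : k / Z.s < Y.s ∧ k % Z.s < Z.s :=
  ⟨Nat.div_lt_of_lt_mul (by rwa [Nat.mul_comm]), Nat.mod_lt _ Z.s_pos⟩

theorem idx_inj {k l s : ℕ} (h1 : k / s = l / s) (h2 : k % s = l % s) : k = l := by
  rw [← Nat.div_add_mod k s, ← Nat.div_add_mod l s, h1, h2]

theorem Zsp_inj {k l : ℕ} (hk : k < Z.s) (hl : l < Z.s) (h : Z.sp k = Z.sp l) : k = l := by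
  rcases lt_trichotomy k l with h1 | h1 | h1
  · exact absurd h (Z.sp_mono k l h1 hl).ne
  · exact h1
  · exact absurd h (Z.sp_mono l k h1 hk).ne'

theorem Ysp_inj {k l : ℕ} (hk : k < Y.s) (hl : l < Y.s) (h : Y.sp k = Y.sp l) : k = l := by
  rcases lt_trichotomy k l with h1 | h1 | h1
  · exact absurd h (Y.sp_mono k l h1 hl).ne
  · exact h1
  · exact absurd h (Y.sp_mono l k h1 hk).ne'

theorem nsp_mono {k l : ℕ} (hkl : k < l) (hl : l < Y.s * Z.s) : nsp Z Y k < nsp Z Y l := by
  have hk : k < Y.s * Z.s := lt_trans hkl hl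
  obtain ⟨k1, k2⟩ := idx Z Y hk
  obtain ⟨l1, l2⟩ := idx Z Y hl
  unfold nsp
  have h1 : k / Z.s ≤ l / Z.s := Nat.div_le_div_right hkl.le
  rcases h1.lt_or_eq with h2 | h2
  · have h3 := Y.sp_mono _ _ h2 l1
    have h4 : (Y.sp (k / Z.s) + 1) * (Z.M + 1) ≤ Y.sp (l / Z.s) * (Z.M + 1) := Nat.mul_le_mul_right _ h3
    have h5 := Zsp_lt Z k2
    have h6 : (Y.sp (k / Z.s) + 1) * (Z.M + 1) = Y.sp (k / Z.s) * (Z.M + 1) + (Z.M + 1) := by ring
    omega
  · rw [h2]
    have h3 : k % Z.s < l % Z.s := by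
      have e1 := Nat.div_add_mod k Z.s
      have e2 := Nat.div_add_mod l Z.s
      rw [h2] at e1
      omega
    exact Nat.add_lt_add_left (Z.sp_mono _ _ h3 l2) _

theorem mem_ninc_low {k i c : ℕ} (hi : i < m) :
    c ∈ ninc Z Y k i ↔ ∃ x ∈ Z.inc (k % Z.s) i, Y.sp (k / Z.s) * (Z.M + 1) + x = c := by
  unfold ninc
  rw [if_pos hi, mem_image]

theorem mem_ninc_top {k i c : ℕ} (hi : ¬ i < m) :
    c ∈ ninc Z Y k i ↔ c = nsp Z Y k ∨ ∃ q ∈ Y.inc (k / Z.s) (k % Z.s), q * (Z.M + 1) + Z.M = c := by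
  unfold ninc
  rw [if_neg hi, mem_insert, mem_image]

/-- the quotient of a column of a top row is one of its old columns -/
theorem top_div {k i c : ℕ} (hk : k < Y.s * Z.s) (hi : ¬ i < m) (hc : c ∈ ninc Z Y k i) :
    c / (Z.M + 1) ∈ Y.inc (k / Z.s) (k % Z.s) ∧
      (c = nsp Z Y k ∨ c = c / (Z.M + 1) * (Z.M + 1) + Z.M) := by
  obtain ⟨k1, k2⟩ := idx Z Y hk
  rcases (mem_ninc_top Z Y hi).1 hc with h | ⟨q, hq, h⟩
  · subst h
    refine ⟨?_, Or.inl rfl⟩
    unfold nsp
    rw [div_eq (lt_trans (Zsp_lt Z k2) (Nat.lt_succ_self _))]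
    exact Y.sp_inc _ _ k1 k2
  · subst h
    rw [div_eq (Nat.lt_succ_self _)]
    exact ⟨hq, Or.inr rfl⟩

theorem low_div {k i c : ℕ} (hk : k < Y.s * Z.s) (hi : i < m) (hc : c ∈ ninc Z Y k i) :
    c / (Z.M + 1) = Y.sp (k / Z.s) ∧ c % (Z.M + 1) ∈ Z.inc (k % Z.s) i ∧ c % (Z.M + 1) < Z.M := by
  obtain ⟨k1, k2⟩ := idx Z Y hk
  obtain ⟨x, hx, rfl⟩ := (mem_ninc_low Z Y hi).1 hc
  have h1 := Zinc_lt Z k2 hi hx
  rw [div_eq (lt_trans h1 (Nat.lt_succ_self _)), mod_eq (lt_trans h1 (Nat.lt_succ_self _))]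
  exact ⟨rfl, hx, h1⟩

theorem nsp_div {k : ℕ} (hk : k < Y.s * Z.s) :
    nsp Z Y k / (Z.M + 1) = Y.sp (k / Z.s) ∧ nsp Z Y k % (Z.M + 1) = Z.sp (k % Z.s) ∧
      Z.sp (k % Z.s) < Z.M := by
  obtain ⟨k1, k2⟩ := idx Z Y hk
  have h1 := Zsp_lt Z k2
  unfold nsp
  exact ⟨div_eq (lt_trans h1 (Nat.lt_succ_self _)), mod_eq (lt_trans h1 (Nat.lt_succ_self _)), h1⟩

theorem ninc_ge {k i c : ℕ} (hk : k < Y.s * Z.s) (hc : c ∈ ninc Z Y k i) : nsp Z Y k ≤ c := by
  obtain ⟨k1, k2⟩ := idx Z Y hk
  by_cases hi : i < m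
  · obtain ⟨x, hx, rfl⟩ := (mem_ninc_low Z Y hi).1 hc
    unfold nsp
    exact Nat.add_le_add_left (Z.inc_ge _ _ k2 hi x hx) _
  · rcases (mem_ninc_top Z Y hi).1 hc with h | ⟨q, hq, h⟩
    · exact h.ge
    · rw [← h]
      unfold nsp
      have h1 := Y.inc_ge _ _ k1 k2 q hq
      have h2 := Zsp_lt Z k2
      have h3 : Y.sp (k / Z.s) * (Z.M + 1) ≤ q * (Z.M + 1) := Nat.mul_le_mul_right _ h1
      omega

theorem navoid {k i l j : ℕ} (hk : k < Y.s * Z.s) (hi : i < m + 1) (hl : l < Y.s * Z.s)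
    (hj : j < m + 1) (hr : nrk Z Y k i < nrk Z Y l j) {c1 c2 c3 c4 : ℕ} (h12 : c1 < c2)
    (h23 : c2 < c3) (h34 : c3 < c4) (h1 : c1 ∈ ninc Z Y k i) (h2 : c2 ∈ ninc Z Y l j)
    (h3 : c3 ∈ ninc Z Y k i) (h4 : c4 ∈ ninc Z Y l j) : False := by
  obtain ⟨k1, k2⟩ := idx Z Y hk
  obtain ⟨l1, l2⟩ := idx Z Y hl
  have q12 : c1 / (Z.M + 1) ≤ c2 / (Z.M + 1) := Nat.div_le_div_right h12.le
  have q23 : c2 / (Z.M + 1) ≤ c3 / (Z.M + 1) := Nat.div_le_div_right h23.le
  have q34 : c3 / (Z.M + 1) ≤ c4 / (Z.M + 1) := Nat.div_le_div_right h34.le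
  have e1 := Nat.div_add_mod c1 (Z.M + 1)
  have e2 := Nat.div_add_mod c2 (Z.M + 1)
  have e3 := Nat.div_add_mod c3 (Z.M + 1)
  have e4 := Nat.div_add_mod c4 (Z.M + 1)
  by_cases hjm : j < m
  · -- lower row in a copy
    obtain ⟨a2, b2, d2⟩ := low_div Z Y hl hjm h2
    obtain ⟨a4, b4, d4⟩ := low_div Z Y hl hjm h4
    have a3 : c3 / (Z.M + 1) = Y.sp (l / Z.s) := by omega
    by_cases him : i < m
    · obtain ⟨a1, b1, d1⟩ := low_div Z Y hk him h1
      obtain ⟨a3', b3, d3⟩ := low_div Z Y hk him h3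
      have ht : k / Z.s = l / Z.s := Ysp_inj Z Y k1 l1 (by rw [← a3', a3])
      have hr' : Z.rk (k % Z.s) i < Z.rk (l % Z.s) j := by
        unfold nrk at hr
        rw [if_pos him, if_pos hjm, ht] at hr
        omega
      have a12 : c1 / (Z.M + 1) = c2 / (Z.M + 1) := by rw [a1, a2, ht]
      have a23 : c2 / (Z.M + 1) = c3 / (Z.M + 1) := by rw [a3, a2]
      have a34 : c3 / (Z.M + 1) = c4 / (Z.M + 1) := by rw [a3, a4]
      rw [a12] at e1
      rw [← a23] at e3
      rw [← a34, ← a23] at e4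
      exact Z.avoid _ _ _ _ k2 him l2 hjm hr' (c1 % (Z.M + 1)) (c2 % (Z.M + 1)) (c3 % (Z.M + 1))
        (c4 % (Z.M + 1)) (by omega) (by omega) (by omega) b1 b2 b3 b4
    · -- upper row is old
      rcases (top_div Z Y hk him h3).2 with h | h
      · have := ninc_ge Z Y hk h1
        omega
      · -- c3 has remainder Z.M but lies below c4
        have h5 : c3 % (Z.M + 1) = Z.M := by rw [h]; exact mod_eq (Nat.lt_succ_self _)
        rw [a3, h5] at e3
        rw [a4] at e4
        omega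
  · by_cases him : i < m
    · -- impossible ranks
      unfold nrk at hr
      rw [if_pos him, if_neg hjm] at hr
      have := Y.rk_lt _ _ l1 l2
      omega
    · -- both old
      obtain ⟨p1, o1⟩ := top_div Z Y hk him h1
      obtain ⟨p2, o2⟩ := top_div Z Y hl hjm h2
      obtain ⟨p3, o3⟩ := top_div Z Y hk him h3
      obtain ⟨p4, o4⟩ := top_div Z Y hl hjm h4
      have hr' : Y.rk (k / Z.s) (k % Z.s) < Y.rk (l / Z.s) (l % Z.s) := by
        unfold nrk at hr
        rwa [if_neg him, if_neg hjm] at hr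
      have g1 := ninc_ge Z Y hk h1
      have g2 := ninc_ge Z Y hl h2
      have o3' : c3 = c3 / (Z.M + 1) * (Z.M + 1) + Z.M := by
        rcases o3 with h | h
        · omega
        · exact h
      have o4' : c4 = c4 / (Z.M + 1) * (Z.M + 1) + Z.M := by
        rcases o4 with h | h
        · omega
        · exact h
      have q34' : c3 / (Z.M + 1) < c4 / (Z.M + 1) := by
        rcases q34.lt_or_eq with h | h
        · exact h
        · rw [← h] at o4'; omega
      obtain ⟨nk1, nk2, nk3⟩ := nsp_div Z Y hk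
      obtain ⟨nl1, nl2, nl3⟩ := nsp_div Z Y hl
      -- the same special column is impossible with c1 < c2 both first
      have key : l / Z.s = k / Z.s → c1 = nsp Z Y k → c2 = nsp Z Y l → False := by
        intro ht hc1 hc2
        rw [hc1, hc2] at h12
        have h5 : k % Z.s < l % Z.s := by
          by_contra hcon
          push Not at hcon
          unfold nsp at h12
          rw [ht] at h12
          rcases hcon.lt_or_eq with h | h
          · have := Z.sp_mono _ _ h k2
            omega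
          · rw [h] at h12
            omega
        have h6 := Y.rk_mono (k / Z.s) (l % Z.s) (k % Z.s) k1 h5 l2
        rw [ht] at hr'
        omega
      rcases q23.lt_or_eq with h23' | h23'
      · rcases q12.lt_or_eq with h12' | h12'
        · exact Y.avoid _ _ _ _ k1 k2 l1 l2 hr' _ _ _ _ h12' h23' q34' p1 p2 p3 p4
        · -- the first two columns have the same quotient
          rcases o2 with o2 | o2
          · have ht : l / Z.s = k / Z.s := by
              apply Y.own (k / Z.s) (l / Z.s) (k % Z.s) k1 l1 k2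
              rw [← nl1, ← o2, ← h12']
              exact p1
            rcases o1 with o1 | o1
            · exact key ht o1 o2
            · have : c2 % (Z.M + 1) < Z.M := by rw [o2, nl2]; exact nl3
              rw [h12'] at o1
              have e2' : (Z.M + 1) * (c2 / (Z.M + 1)) = c2 / (Z.M + 1) * (Z.M + 1) := Nat.mul_comm _ _
              omega
          · rcases o1 with o1 | o1
            · have ht : k / Z.s = l / Z.s := by
                apply Y.own (l / Z.s) (k / Z.s) (l % Z.s) l1 k1 l2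
                rw [← nk1, ← o1, h12']
                exact p2
              have hr'' := hr'
              rw [ht] at hr''
              have h5 : l % Z.s < k % Z.s := by
                by_contra hcon
                push Not at hcon
                rcases hcon.lt_or_eq with h | h
                · have := Y.rk_mono (l / Z.s) (l % Z.s) (k % Z.s) l1 h l2
                  omega
                · rw [h] at hr''
                  omega
              have h6 := Y.pair (k / Z.s) (k % Z.s) (l % Z.s) k1 h5 k2 _ p3 _ (by rw [ht]; exact p4) (by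
                rw [← nk1, ← o1, h12']; exact h23')
              omega
            · rw [h12'] at o1
              omega
      · -- the second and third columns have the same quotient
        have o2' : c2 = nsp Z Y l := by
          rcases o2 with h | h
          · exact h
          · rw [h23'] at h; omega
        have ht : l / Z.s = k / Z.s := by
          apply Y.own (k / Z.s) (l / Z.s) (k % Z.s) k1 l1 k2
          rw [← nl1, ← o2', h23']
          exact p3
        have h5 := Y.inc_ge _ _ k1 k2 _ p1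
        have h6 : c3 / (Z.M + 1) = Y.sp (k / Z.s) := by
          rw [← h23', o2', nl1, ht]
        have h7 : c1 / (Z.M + 1) = c3 / (Z.M + 1) := by omega
        have o1' : c1 = nsp Z Y k := by
          rcases o1 with h | h
          · exact h
          · rw [h7] at h; omega
        exact key ht o1' o2'

/-- the step -/
def step : Conf (d + 1) (m + 1) K where
  s := Y.s * Z.s
  M := Y.M * (Z.M + 1)
  B := Y.B + Y.s * Z.B
  cols := ncols Z Y
  sp := nsp Z Y
  inc := ninc Z Y
  rk := nrk Z Y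
  cols_lt := by
    intro c hc
    unfold ncols at hc
    rw [mem_union, mem_image, mem_image] at hc
    have key : ∀ q x, q < Y.M → x < Z.M + 1 → q * (Z.M + 1) + x < Y.M * (Z.M + 1) := by
      intro q x hq hx
      have h1 : (q + 1) * (Z.M + 1) ≤ Y.M * (Z.M + 1) := Nat.mul_le_mul_right _ hq
      have h2 : (q + 1) * (Z.M + 1) = q * (Z.M + 1) + (Z.M + 1) := by ring
      omega
    rcases hc with ⟨⟨t, x⟩, hp, rfl⟩ | ⟨q, hq, rfl⟩
    · rw [mem_product, mem_range] at hp
      exact key _ _ (Y.cols_lt _ (Y.sp_cols _ hp.1)) (lt_trans (Z.cols_lt _ hp.2) (Nat.lt_succ_self _))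
    · exact key _ _ (Y.cols_lt _ hq) (Nat.lt_succ_self _)
  sp_mono := fun k l hkl hl => nsp_mono Z Y hkl hl
  sp_cols := by
    intro k hk
    obtain ⟨k1, k2⟩ := idx Z Y hk
    unfold ncols
    rw [mem_union, mem_image]
    exact Or.inl ⟨(k / Z.s, Z.sp (k % Z.s)), mem_product.2 ⟨mem_range.2 k1, Z.sp_cols _ k2⟩, rfl⟩
  inc_cols := by
    intro k i hk _ c hc
    obtain ⟨k1, k2⟩ := idx Z Y hk
    unfold ncols
    rw [mem_union, mem_image, mem_image]
    by_cases hi : i < m
    · obtain ⟨x, hx, rfl⟩ := (mem_ninc_low Z Y hi).1 hc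
      exact Or.inl ⟨(k / Z.s, x), mem_product.2 ⟨mem_range.2 k1, Z.inc_cols _ _ k2 hi hx⟩, rfl⟩
    · rcases (mem_ninc_top Z Y hi).1 hc with h | ⟨q, hq, h⟩
      · rw [h]
        exact Or.inl ⟨(k / Z.s, Z.sp (k % Z.s)), mem_product.2 ⟨mem_range.2 k1, Z.sp_cols _ k2⟩, rfl⟩
      · exact Or.inr ⟨q, Y.inc_cols _ _ k1 k2 hq, h⟩
  sp_inc := by
    intro k i hk _
    obtain ⟨k1, k2⟩ := idx Z Y hk
    by_cases hi : i < m
    · exact (mem_ninc_low Z Y hi).2 ⟨_, Z.sp_inc _ _ k2 hi, rfl⟩
    · exact (mem_ninc_top Z Y hi).2 (Or.inl rfl)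
  inc_ge := fun k i hk _ c hc => ninc_ge Z Y hk hc
  card_inc := by
    intro k i hk _
    obtain ⟨k1, k2⟩ := idx Z Y hk
    unfold ninc
    split_ifs with hi
    · rw [card_image_of_injective _ (fun a b h => Nat.add_left_cancel h)]
      exact Z.card_inc _ _ k2 hi
    · rw [card_insert_of_notMem, card_image_of_injective]
      · exact Nat.succ_le_succ (Y.card_inc _ _ k1 k2)
      · intro a b h
        exact (split_inj (Nat.lt_succ_self _) (Nat.lt_succ_self _) h).1
      · rw [mem_image]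
        rintro ⟨q, -, hq⟩
        unfold nsp at hq
        have h1 := Zsp_lt Z k2
        have h2 := split_inj (Nat.lt_succ_self _) (lt_trans h1 (Nat.lt_succ_self _)) hq
        omega
  own := by
    intro k l i hk hl _ h
    obtain ⟨k1, k2⟩ := idx Z Y hk
    obtain ⟨l1, l2⟩ := idx Z Y hl
    obtain ⟨nl1, nl2, nl3⟩ := nsp_div Z Y hl
    by_cases hi : i < m
    · obtain ⟨a, b, _⟩ := low_div Z Y hk hi h
      have ht : l / Z.s = k / Z.s := Ysp_inj Z Y l1 k1 (by rw [← nl1, a])
      have hu : l % Z.s = k % Z.s := Z.own _ _ _ k2 l2 hi (by rw [← nl2]; exact b)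
      exact idx_inj ht hu
    · rcases (mem_ninc_top Z Y hi).1 h with h | ⟨q, hq, h⟩
      · rcases lt_trichotomy l k with h1 | h1 | h1
        · exact absurd h (nsp_mono Z Y h1 hk).ne
        · exact h1
        · exact absurd h (nsp_mono Z Y h1 hl).ne'
      · exfalso
        have := congrArg (fun y => y % (Z.M + 1)) h
        rw [mod_eq (Nat.lt_succ_self _), nl2] at this
        omega
  rk_lt := by
    intro k i hk _
    obtain ⟨k1, k2⟩ := idx Z Y hk
    unfold nrk
    split_ifs with hi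
    · have h1 := Z.rk_lt _ _ k2 hi
      have h2 : (k / Z.s + 1) * Z.B ≤ Y.s * Z.B := Nat.mul_le_mul_right _ k1
      have h3 : (k / Z.s + 1) * Z.B = k / Z.s * Z.B + Z.B := by ring
      omega
    · have := Y.rk_lt _ _ k1 k2
      omega
  rk_inj := by
    intro k i l j hk hi hl hj h
    obtain ⟨k1, k2⟩ := idx Z Y hk
    obtain ⟨l1, l2⟩ := idx Z Y hl
    unfold nrk at h
    split_ifs at h with hi' hj' hj'
    · have h1 := Z.rk_lt _ _ k2 hi'
      have h2 := Z.rk_lt _ _ l2 hj'
      have ht : k / Z.s = l / Z.s := by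
        rcases lt_trichotomy (k / Z.s) (l / Z.s) with h3 | h3 | h3
        · exfalso
          have h4 : (k / Z.s + 1) * Z.B ≤ l / Z.s * Z.B := Nat.mul_le_mul_right _ h3
          have h5 : (k / Z.s + 1) * Z.B = k / Z.s * Z.B + Z.B := by ring
          omega
        · exact h3
        · exfalso
          have h4 : (l / Z.s + 1) * Z.B ≤ k / Z.s * Z.B := Nat.mul_le_mul_right _ h3
          have h5 : (l / Z.s + 1) * Z.B = l / Z.s * Z.B + Z.B := by ring
          omega
      rw [ht] at h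
      have h3 := Z.rk_inj _ _ _ _ k2 hi' l2 hj' (by omega)
      exact ⟨idx_inj ht h3.1, h3.2⟩
    · exfalso
      have := Y.rk_lt _ _ l1 l2
      omega
    · exfalso
      have := Y.rk_lt _ _ k1 k2
      omega
    · have h3 := Y.rk_inj _ _ _ _ k1 k2 l1 l2 h
      exact ⟨idx_inj h3.1 h3.2, by omega⟩
  rk_mono := by
    intro k i j hk hji hi
    obtain ⟨k1, k2⟩ := idx Z Y hk
    unfold nrk
    have hj' : j < m := by omega
    rw [if_pos hj']
    split_ifs with hi'
    · have := Z.rk_mono _ _ _ k2 hji hi'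
      omega
    · have := Y.rk_lt _ _ k1 k2
      omega
  avoid := fun k i l j hk hi hl hj hr c1 c2 c3 c4 h12 h23 h34 h1 h2 h3 h4 =>
    navoid Z Y hk hi hl hj hr h12 h23 h34 h1 h2 h3 h4
  pair := by
    intro k i j hk hji hi c hc c' hc' h
    obtain ⟨k1, k2⟩ := idx Z Y hk
    have hj' : j < m := by omega
    by_cases hi' : i < m
    · obtain ⟨x, hx, rfl⟩ := (mem_ninc_low Z Y hi').1 hc
      obtain ⟨x', hx', rfl⟩ := (mem_ninc_low Z Y hj').1 hc'
      unfold nsp at h
      have := Z.pair _ _ _ k2 hji hi' x hx x' hx' (by omega)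
      omega
    · obtain ⟨x', hx', rfl⟩ := (mem_ninc_low Z Y hj').1 hc'
      have h1 := Zinc_lt Z k2 hj' hx'
      rcases (mem_ninc_top Z Y hi').1 hc with h2 | ⟨q, hq, h2⟩
      · omega
      · have h3 := Y.inc_ge _ _ k1 k2 q hq
        have h4 : Y.sp (k / Z.s) * (Z.M + 1) ≤ q * (Z.M + 1) := Nat.mul_le_mul_right _ h3
        omega
  count := by
    have h1 : (ncols Z Y).card ≤ Y.s * Z.cols.card + Y.cols.card := by
      unfold ncols
      refine le_trans (card_union_le _ _) (Nat.add_le_add ?_ card_image_le)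
      refine le_trans card_image_le ?_
      rw [card_product, card_range]
    have h2 := Z.count
    have h3 := Y.count
    have h4 := Z.s_ge
    have h5 := Y.s_pos
    -- K * (T c' + c*) ≤ (K+1) T S
    have h6 : K * (ncols Z Y).card ≤ K * (Y.s * Z.cols.card + Y.cols.card) := Nat.mul_le_mul_left _ h1
    have h7 : Y.cols.card ≤ 2 * Y.s := by omega
    have h8 : (3 * K + 3) * (K * (Y.s * Z.cols.card + Y.cols.card)) ≤
        (3 * K + 3) * ((K + 1) * (Y.s * Z.s)) := by
      have e1 : (3 * K + 3) * (K * (Y.s * Z.cols.card + Y.cols.card)) =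
          K * Y.s * ((3 * K + 3) * Z.cols.card) + (3 * K + 3) * K * Y.cols.card := by ring
      have e2 : K * Y.s * ((3 * K + 3) * Z.cols.card) ≤ K * Y.s * ((3 * K + 3 + 1) * Z.s) :=
        Nat.mul_le_mul_left _ h2
      have e3 : (3 * K + 3) * K * Y.cols.card ≤ (3 * K + 3) * K * (2 * Y.s) :=
        Nat.mul_le_mul_left _ h7
      have e4 : (3 * K + 3) * K * (2 * Y.s) ≤ Z.s * K * (2 * Y.s) :=
        Nat.mul_le_mul_right _ (Nat.mul_le_mul_right _ h4)
      have e5 : K * Y.s * ((3 * K + 3 + 1) * Z.s) + Z.s * K * (2 * Y.s) ≤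
          (3 * K + 3) * ((K + 1) * (Y.s * Z.s)) := by
        have : (3 * K + 3) * ((K + 1) * (Y.s * Z.s)) = K * Y.s * ((3 * K + 3 + 1) * Z.s) +
            Z.s * K * (2 * Y.s) + (3 * (Y.s * Z.s)) := by ring
        omega
      omega
    exact le_trans h6 (Nat.le_of_mul_le_mul_left h8 (by omega))
  s_ge := by
    have h4 := Z.s_ge
    have h5 := Y.s_pos
    have : Z.s ≤ Y.s * Z.s := Nat.le_mul_of_pos_left _ h5
    omega
  s_pos := Nat.mul_pos Y.s_pos Z.s_pos

end step

theorem exists_conf (d : ℕ) : ∀ m K, Nonempty (Conf (d + 1) m K) := by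
  induction d with
  | zero => exact fun m K => ⟨base1 m K⟩
  | succ d ih =>
    intro m
    induction m with
    | zero => exact fun K => ⟨base0 _ K⟩
    | succ m ihm =>
      intro K
      obtain ⟨Z⟩ := ihm (3 * K + 3)
      obtain ⟨Y⟩ := ih Z.s 1
      exact ⟨step Z Y⟩

end Pool.Agent.X48.ZConf
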