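import Mathlib

/-!
# Ky Fan norms and the partial trace: a Hermitian pair of size 15

Definitions for MP_03f9bf_an and MP_30f82a_an, and the example which disproves both inequalities.
-/

set_option autoImplicit false

open Finset Matrix
open scoped Kronecker

namespace Pool.Agent.X48.KyFan

variable {n : ℕ}

/-- The partial trace over the first tensor factor: `Tr₁ (X ⊗ Y) = Tr(X) Y`. -/
def ptrace (X : Matrix (Fin n × Fin n) (Fin n × Fin n) ℂ) : Matrix (Fin n) (Fin n) ℂ :=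
  Matrix.of fun i j => ∑ k, X (k, i) (k, j)

/-- The Kronecker sum `S_A = A ⊗ I + I ⊗ A`. -/
def S (A : Matrix (Fin n) (Fin n) ℂ) : Matrix (Fin n × Fin n) (Fin n × Fin n) ℂ :=
  A ⊗ₖ (1 : Matrix (Fin n) (Fin n) ℂ) + (1 : Matrix (Fin n) (Fin n) ℂ) ⊗ₖ A

/-- The difference `D_B = B ⊗ I - I ⊗ B`. -/
def D (B : Matrix (Fin n) (Fin n) ℂ) : Matrix (Fin n × Fin n) (Fin n × Fin n) ℂ :=
  B ⊗ₖ (1 : Matrix (Fin n) (Fin n) ℂ) - (1 : Matrix (Fin n) (Fin n) ℂ) ⊗ₖ B

/-- `L(A, B) = Tr₁ (S_A D_B)`. -/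
def L (A B : Matrix (Fin n) (Fin n) ℂ) : Matrix (Fin n) (Fin n) ℂ := ptrace (S A * D B)

/-- `R(B) = Tr₁ (D_B)`. -/
def R (B : Matrix (Fin n) (Fin n) ℂ) : Matrix (Fin n) (Fin n) ℂ := ptrace (D B)

/-- The singular values of `M` in decreasing order, `sv M 0 ≥ sv M 1 ≥ …` (Mathlib's
`LinearMap.singularValues` of the linear map of `M` on `ℂⁿ`; they are indexed from `0`). -/
noncomputable def sv (M : Matrix (Fin n) (Fin n) ℂ) (i : ℕ) : ℝ :=
  (Matrix.toEuclideanLin M).singularValues i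

/-- The Ky Fan `k`-norm: the sum of the `k` largest singular values. -/
noncomputable def kyFan (k : ℕ) (M : Matrix (Fin n) (Fin n) ℂ) : ℝ := ∑ i ∈ range k, sv M i

/-! ### The partial traces -/

lemma ptrace_kron (X Y : Matrix (Fin n) (Fin n) ℂ) : ptrace (X ⊗ₖ Y) = X.trace • Y := by
  ext i j
  simp [ptrace, Matrix.trace, Finset.sum_mul]

lemma ptrace_add (X Y : Matrix (Fin n × Fin n) (Fin n × Fin n) ℂ) :
    ptrace (X + Y) = ptrace X + ptrace Y := by
  ext i j
  simp [ptrace, Finset.sum_add_distrib]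

lemma ptrace_sub (X Y : Matrix (Fin n × Fin n) (Fin n × Fin n) ℂ) :
    ptrace (X - Y) = ptrace X - ptrace Y := by
  ext i j
  simp [ptrace, Finset.sum_sub_distrib]

lemma R_eq (B : Matrix (Fin n) (Fin n) ℂ) : R B = B.trace • (1 : Matrix (Fin n) (Fin n) ℂ) -
    (n : ℂ) • B := by
  unfold R D
  rw [ptrace_sub, ptrace_kron, ptrace_kron]
  simp

lemma L_eq (A B : Matrix (Fin n) (Fin n) ℂ) : L A B =
    (A * B).trace • (1 : Matrix (Fin n) (Fin n) ℂ) - A.trace • B + B.trace • A -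
      (n : ℂ) • (A * B) := by
  unfold L S D
  rw [add_mul, mul_sub, mul_sub, ← Matrix.mul_kronecker_mul, ← Matrix.mul_kronecker_mul,
    ← Matrix.mul_kronecker_mul, ← Matrix.mul_kronecker_mul, ptrace_add, ptrace_sub, ptrace_sub,
    ptrace_kron, ptrace_kron, ptrace_kron, ptrace_kron]
  simp
  abel

/-! ### Singular values -/

section sv

variable (M W : Matrix (Fin n) (Fin n) ℂ)

lemma norm_apply_eq (i : Fin n) :
    ‖Matrix.toEuclideanLin M ((Matrix.toEuclideanLin M).isSymmetric_adjoint_comp_self.eigenvectorBasis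
      finrank_euclideanSpace_fin i)‖ = sv M i := by
  set T := Matrix.toEuclideanLin M with hT
  set b := T.isSymmetric_adjoint_comp_self.eigenvectorBasis
    (finrank_euclideanSpace_fin (𝕜 := ℂ) (n := n)) with hb
  have h1 : ‖T (b i)‖ ^ 2 = sv M i ^ 2 := by
    unfold sv
    rw [← hT, T.sq_singularValues_fin (finrank_euclideanSpace_fin (𝕜 := ℂ) (n := n)) i]
    have h2 := T.isSymmetric_adjoint_comp_self.apply_eigenvectorBasis
      (finrank_euclideanSpace_fin (𝕜 := ℂ) (n := n)) i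
    have h3 : inner ℂ (b i) ((LinearMap.adjoint T ∘ₗ T) (b i)) = inner ℂ (T (b i)) (T (b i)) := by
      rw [LinearMap.comp_apply, LinearMap.adjoint_inner_right]
    rw [h2, inner_smul_right, ← hb, inner_self_eq_norm_sq_to_K, inner_self_eq_norm_sq_to_K,
      b.orthonormal.1 i] at h3
    simp only [Complex.coe_algebraMap, RCLike.ofReal_one, one_pow, mul_one] at h3
    exact_mod_cast h3.symm
  have h4 : 0 ≤ sv M i := T.singularValues_nonneg i
  exact (pow_left_inj₀ (norm_nonneg _) h4 two_ne_zero).1 h1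

lemma lin_mul (N K : Matrix (Fin n) (Fin n) ℂ) (x : EuclideanSpace ℂ (Fin n)) :
    Matrix.toEuclideanLin (N * K) x = Matrix.toEuclideanLin N (Matrix.toEuclideanLin K x) := by
  ext j
  simp [Matrix.toLpLin_apply, Matrix.mulVec_mulVec]

lemma trace_lin (N : Matrix (Fin n) (Fin n) ℂ) :
    LinearMap.trace ℂ _ (Matrix.toEuclideanLin N) = N.trace := by
  rw [Matrix.toEuclideanLin_eq_toLin_orthonormal]
  exact Matrix.trace_toLin_eq N _

/-- The trace norm is at least `Re Tr(W* M)` for every contraction `W`. -/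
lemma re_trace_le (hW : ∀ x, ‖Matrix.toEuclideanLin W x‖ ≤ ‖x‖) :
    ((Wᴴ * M).trace).re ≤ kyFan n M := by
  set b := (Matrix.toEuclideanLin M).isSymmetric_adjoint_comp_self.eigenvectorBasis
    (finrank_euclideanSpace_fin (𝕜 := ℂ) (n := n)) with hb
  rw [← trace_lin, LinearMap.trace_eq_sum_inner _ b, Complex.re_sum]
  unfold kyFan
  rw [Finset.sum_range]
  apply Finset.sum_le_sum
  intro i _
  rw [lin_mul, Matrix.toEuclideanLin_conjTranspose_eq_adjoint, LinearMap.adjoint_inner_right]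
  calc (inner ℂ (Matrix.toEuclideanLin W (b i)) (Matrix.toEuclideanLin M (b i))).re
      ≤ ‖inner ℂ (Matrix.toEuclideanLin W (b i)) (Matrix.toEuclideanLin M (b i))‖ :=
        Complex.re_le_norm _
    _ ≤ ‖Matrix.toEuclideanLin W (b i)‖ * ‖Matrix.toEuclideanLin M (b i)‖ := norm_inner_le_norm _ _
    _ ≤ 1 * ‖Matrix.toEuclideanLin M (b i)‖ := by
        apply mul_le_mul_of_nonneg_right _ (norm_nonneg _)
        refine (hW (b i)).trans ?_
        rw [b.orthonormal.1 i]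
    _ = sv M i := by rw [one_mul, hb, norm_apply_eq]

/-- If `(M* M)² = a² M* M` then all singular values are `0` or `a`. -/
lemma sq_sv (a : ℝ) (ha : 0 ≤ a) (h : (Mᴴ * M) * (Mᴴ * M) = ((a : ℂ) ^ 2) • (Mᴴ * M)) (i : ℕ)
    (hi : i < n) : sv M i ^ 2 = a * sv M i := by
  set T := Matrix.toEuclideanLin M with hT
  set b := T.isSymmetric_adjoint_comp_self.eigenvectorBasis
    (finrank_euclideanSpace_fin (𝕜 := ℂ) (n := n)) with hb
  have h2 := T.isSymmetric_adjoint_comp_self.apply_eigenvectorBasis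
      (finrank_euclideanSpace_fin (𝕜 := ℂ) (n := n)) ⟨i, hi⟩
  rw [← T.sq_singularValues_fin (finrank_euclideanSpace_fin (𝕜 := ℂ) (n := n)) ⟨i, hi⟩,
    ← hb] at h2
  have h3 : ∀ x, (LinearMap.adjoint T ∘ₗ T) x = Matrix.toEuclideanLin (Mᴴ * M) x := by
    intro x
    rw [lin_mul, Matrix.toEuclideanLin_conjTranspose_eq_adjoint, LinearMap.comp_apply]
  have h4 : T.singularValues i = sv M i := rfl
  rw [h4, h3] at h2
  have h5 := congrArg (fun N => Matrix.toEuclideanLin N (b ⟨i, hi⟩)) h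
  rw [lin_mul, h2, map_smul, map_smul, h2, LinearMap.smul_apply, h2, smul_smul, smul_smul] at h5
  have hne : b ⟨i, hi⟩ ≠ 0 := b.orthonormal.ne_zero _
  have h6 := smul_left_injective ℂ hne h5
  have h6' : (((sv M i ^ 2) * (sv M i ^ 2) : ℝ) : ℂ) = ((a ^ 2 * sv M i ^ 2 : ℝ) : ℂ) := by
    push_cast
    simpa using h6
  have h7 : (sv M i ^ 2) * (sv M i ^ 2) = a ^ 2 * sv M i ^ 2 := Complex.ofReal_injective h6'
  have h8 : 0 ≤ sv M i := T.singularValues_nonneg i
  have h9 : (sv M i * sv M i) * ((sv M i - a) * (sv M i + a)) = 0 := by linarith [h7]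
  rcases mul_eq_zero.1 h9 with h | h
  · have : sv M i = 0 := by simpa using h
    rw [this]; ring
  · rcases mul_eq_zero.1 h with h | h
    · have : sv M i = a := by linarith
      rw [this]; ring
    · have h10 : sv M i = 0 := by linarith
      rw [h10]; ring

lemma sum_sq_sv : ∑ i ∈ range n, sv M i ^ 2 = ((Mᴴ * M).trace).re := by
  set T := Matrix.toEuclideanLin M with hT
  have h1 := LinearMap.IsSymmetric.re_trace_eq_sum_eigenvalues
    (finrank_euclideanSpace_fin (𝕜 := ℂ) (n := n)) T.isSymmetric_adjoint_comp_self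
  have h3 : (LinearMap.adjoint T ∘ₗ T) = Matrix.toEuclideanLin (Mᴴ * M) := by
    ext1 x
    rw [lin_mul, Matrix.toEuclideanLin_conjTranspose_eq_adjoint, LinearMap.comp_apply]
  rw [Finset.sum_range]
  have h4 : ∀ i : Fin n, sv M i ^ 2 = T.isSymmetric_adjoint_comp_self.eigenvalues
      (finrank_euclideanSpace_fin (𝕜 := ℂ) (n := n)) i :=
    fun i => T.sq_singularValues_fin (finrank_euclideanSpace_fin (𝕜 := ℂ) (n := n)) i
  rw [Finset.sum_congr rfl fun i _ => h4 i, ← h1]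
  rw [← trace_lin, ← h3]
  rfl

end sv

/-! ### The example: `A = I - 2 w w*` with `w = (4/5) e₁ + (3/5) e₂`, `B = e₀ e₀* - e₁ e₁*` -/

/-- `A` with rational entries. -/
def Aq : Matrix (Fin 15) (Fin 15) ℚ := Matrix.of fun i j =>
  if i = 1 ∧ j = 1 then -7 / 25 else if i = 2 ∧ j = 2 then 7 / 25 else
  if (i = 1 ∧ j = 2) ∨ (i = 2 ∧ j = 1) then -24 / 25 else if i = j then 1 else 0

/-- `B` with rational entries. -/
def Bq : Matrix (Fin 15) (Fin 15) ℚ := Matrix.of fun i j =>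
  if i = 0 ∧ j = 0 then 1 else if i = 1 ∧ j = 1 then -1 else 0

/-- The orthogonal matrix which tests the trace norm of `L(A, B)`. -/
def Wq : Matrix (Fin 15) (Fin 15) ℚ := Matrix.of fun i j =>
  if i = 0 ∧ j = 0 then -1 else if i = 1 ∧ j = 1 then 3 / 5 else if i = 2 ∧ j = 2 then 3 / 5 else
  if i = 2 ∧ j = 1 then -4 / 5 else if i = 1 ∧ j = 2 then 4 / 5 else if i = j then 1 else 0

def Lq : Matrix (Fin 15) (Fin 15) ℚ :=
  (Aq * Bq).trace • (1 : Matrix (Fin 15) (Fin 15) ℚ) - Aq.trace • Bq + Bq.trace • Aq -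
    (15 : ℚ) • (Aq * Bq)

/-- The inclusion of rational matrices. -/
noncomputable def toC (M : Matrix (Fin 15) (Fin 15) ℚ) : Matrix (Fin 15) (Fin 15) ℂ :=
  M.map (algebraMap ℚ ℂ)

lemma toC_mul (M N : Matrix (Fin 15) (Fin 15) ℚ) : toC (M * N) = toC M * toC N :=
  Matrix.map_mul

lemma toC_one : toC 1 = 1 := by
  unfold toC
  exact Matrix.map_one _ (map_zero _) (map_one _)

lemma toC_trace (M : Matrix (Fin 15) (Fin 15) ℚ) : (toC M).trace = algebraMap ℚ ℂ M.trace := by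
  simp [toC, Matrix.trace]

lemma toC_adj (M : Matrix (Fin 15) (Fin 15) ℚ) : (toC M)ᴴ = toC Mᵀ := by
  ext i j
  simp [toC, Matrix.conjTranspose_apply]

lemma toC_smul (q : ℚ) (M : Matrix (Fin 15) (Fin 15) ℚ) :
    toC (q • M) = (algebraMap ℚ ℂ q) • toC M := by
  ext i j
  simp [toC]

lemma toC_add (M N : Matrix (Fin 15) (Fin 15) ℚ) : toC (M + N) = toC M + toC N := by
  ext i j; simp [toC]

lemma toC_sub (M N : Matrix (Fin 15) (Fin 15) ℚ) : toC (M - N) = toC M - toC N := by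
  ext i j; simp [toC]

lemma A_herm : (toC Aq).IsHermitian := by
  rw [Matrix.IsHermitian, toC_adj]
  congr 1
  decide +kernel

lemma B_herm : (toC Bq).IsHermitian := by
  rw [Matrix.IsHermitian, toC_adj]
  congr 1
  decide +kernel

lemma L_toC : L (toC Aq) (toC Bq) = toC Lq := by
  rw [L_eq]
  unfold Lq
  rw [toC_sub, toC_add, toC_sub, toC_smul, toC_smul, toC_smul, toC_smul, toC_mul, toC_one,
    ← toC_mul, toC_trace, toC_trace, toC_trace]
  simp

lemma W_contr (x : EuclideanSpace ℂ (Fin 15)) : ‖Matrix.toEuclideanLin (toC Wq) x‖ ≤ ‖x‖ := by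
  have h1 : (toC Wq)ᴴ * toC Wq = 1 := by
    rw [toC_adj, ← toC_mul, show Wqᵀ * Wq = 1 by decide +kernel, toC_one]
  have h2 : inner ℂ (Matrix.toEuclideanLin (toC Wq) x) (Matrix.toEuclideanLin (toC Wq) x) =
      inner ℂ x x := by
    rw [← LinearMap.adjoint_inner_right, ← Matrix.toEuclideanLin_conjTranspose_eq_adjoint,
      ← lin_mul, h1]
    congr 1
    ext j
    simp [Matrix.toLpLin_apply]
  rw [inner_self_eq_norm_sq_to_K, inner_self_eq_norm_sq_to_K] at h2
  have h3 : ‖Matrix.toEuclideanLin (toC Wq) x‖ ^ 2 = ‖x‖ ^ 2 := by exact_mod_cast h2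
  exact ((pow_left_inj₀ (norm_nonneg _) (norm_nonneg _) two_ne_zero).1 h3).le

lemma L_big : (7552 / 125 : ℝ) ≤ kyFan 15 (L (toC Aq) (toC Bq)) := by
  have h := re_trace_le (L (toC Aq) (toC Bq)) (toC Wq) W_contr
  rw [L_toC, toC_adj, ← toC_mul, toC_trace, show (Wqᵀ * Lq).trace = 7552 / 125 by decide +kernel] at h
  rw [L_toC]
  refine le_trans (le_of_eq ?_) h
  norm_num

lemma sv_A (i : ℕ) (hi : i < 15) : sv (toC Aq) i ≤ 1 := by
  have h1 : (toC Aq)ᴴ * toC Aq = 1 := by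
    rw [toC_adj, ← toC_mul, show Aqᵀ * Aq = 1 by decide +kernel, toC_one]
  have h := sq_sv (toC Aq) 1 zero_le_one (by rw [h1]; simp) i hi
  nlinarith [sq_nonneg (sv (toC Aq) i - 1)]

lemma R_sum : kyFan 15 (R (toC Bq)) = 30 := by
  have hR : R (toC Bq) = toC ((-15 : ℚ) • Bq) := by
    rw [R_eq, toC_smul, toC_trace, show Bq.trace = 0 by decide +kernel]
    simp
  have h2 : (toC ((-15 : ℚ) • Bq))ᴴ * toC ((-15 : ℚ) • Bq) =
      toC (((-15 : ℚ) • Bq)ᵀ * ((-15 : ℚ) • Bq)) := by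
    rw [toC_adj, toC_mul]
  have hs : ∀ i < 15, sv (R (toC Bq)) i ^ 2 = 15 * sv (R (toC Bq)) i := by
    intro i hi
    apply sq_sv (R (toC Bq)) 15 (by norm_num) _ i hi
    rw [hR, h2, ← toC_mul]
    have h3 : (((-15 : ℚ) • Bq)ᵀ * ((-15 : ℚ) • Bq)) * (((-15 : ℚ) • Bq)ᵀ * ((-15 : ℚ) • Bq)) =
        (225 : ℚ) • (((-15 : ℚ) • Bq)ᵀ * ((-15 : ℚ) • Bq)) := by decide +kernel
    rw [h3, toC_smul]
    norm_num
  have h4 := sum_sq_sv (R (toC Bq))
  rw [Finset.sum_congr rfl fun i hi => hs i (Finset.mem_range.1 hi), ← Finset.mul_sum, hR, h2,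
    toC_trace, show ((((-15 : ℚ) • Bq)ᵀ * ((-15 : ℚ) • Bq)).trace) = 450 by decide +kernel, ← hR] at h4
  have h5 : ((algebraMap ℚ ℂ) 450).re = 450 := by norm_num
  rw [h5] at h4
  unfold kyFan
  linarith

end Pool.Agent.X48.KyFan
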