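import Pool.Agent.Y570.LS.Fin

/-!
# Sum-of-squares bounds with exponentially many conditionings
-/

set_option autoImplicit false
set_option linter.unusedSectionVars false

open Filter Topology

namespace Pool.Agent.X48.LSE

open Finset Pool.Agent.Y570 Pool.Agent.Y570.LS Pool.Agent.TH41.BL

section

variable {X : Type} [Fintype X] [DecidableEq X] {g : X → X → ℝ} {K Λ σ ρ : ℝ}
variable {Y : Finset X → ℝ} {t : ℕ} {B : ℝ}

/-- the conditions on the parameters -/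
structure Sml2 (K Λ σ ρ η m : ℝ) (s t : ℕ) : Prop where
  hΛσ : Λ ≤ σ ^ 2
  hρ : 0 < ρ
  hρ1 : ρ ≤ 1
  hm : 1 ≤ m
  hη : ∀ u w : ℕ, 1 ≤ u → u ≤ t → 1 ≤ w → w ≤ t → Nuw K Λ σ t u w * √ρ ^ (u + w) ≤ η
  hη0 : 0 ≤ η
  hη1 : η * t * (2 ^ t * (K ^ (t ^ 2) * (K ^ s) ^ t)) ≤ 1 / 2
  hτ : (K ^ s * s * σ) ^ 2 * ρ ≤ m
  hF : ((1 + ρ) ^ s - 1) * K ^ (s ^ 2) * (3 * ((K ^ s) ^ t * (t + 1) * (m ^ t * (2 ^ t *
    (K ^ (t ^ 2) * (K ^ s) ^ t))))) ≤ 1

/-- the form of a link -/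
lemma link_main2 {η m : ℝ} {s : ℕ} (hk : KK g K Λ σ) (hsym : ∀ x y, g x y = g y x)
    (hg0 : ∀ x, g x x = 0) (hS : Sml2 K Λ σ ρ η m s t) {A : Finset X} (hA : A.card ≤ s)
    (f : Finset X → ℝ) (hf : ∀ S, t < S.card → f S = 0) :
    |∑ S, ∑ T, f S * f T * yp ρ g (gs g A) (S ∪ T) - MM (yp ρ g (gs g A)) f| ≤
      1 / 2 * MM (yp ρ g (gs g A)) f := by
  have hK := hk.K1
  have hK0 : 0 ≤ K := by linarith
  have hY := yp_pm hk hsym hS.hρ.le t (gs g A) (K ^ s) (one_le_pow₀ hK) (gs_nonneg hk A)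
    (gs_le hk hA)
  refine (psd_main hk hY hg0 hS.hΛσ hS.hρ (by positivity) η hS.hη hS.hη0 f hf).trans ?_
  exact mul_le_mul_of_nonneg_right hS.hη1 (MM_nonneg hY f)

/-- **The conditioned moment matrices of the product ansatz are positive semidefinite.** -/
theorem psd_cond2 {η m : ℝ} {s : ℕ} (hk : KK g K Λ σ) (hsym : ∀ x y, g x y = g y x)
    (hg0 : ∀ x, g x x = 0) (hS : Sml2 K Λ σ ρ η m s t) (D E : Finset X)
    (hDE : D.card + E.card ≤ s) (f : Finset X → ℝ) (hf : ∀ S, t < S.card → f S = 0) :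
    0 ≤ ∑ S, ∑ T, f S * f T * KP.cond (yy ρ g) D E (S ∪ T) := by
  have hK := hk.K1
  have hK0 : 0 ≤ K := by linarith
  have hn := hk.nonneg
  have hm0 : 0 ≤ m := by linarith [hS.hm]
  by_cases hDEd : Disjoint D E
  swap
  · obtain ⟨x, hx1, hx2⟩ := Finset.not_disjoint_iff.1 hDEd
    refine le_of_eq ?_
    symm
    refine Finset.sum_eq_zero fun S _ => Finset.sum_eq_zero fun T _ => ?_
    rw [KP.cond_zero (yy ρ g) hx2 (Finset.mem_union_left _ hx1), mul_zero]
  rw [cond_reduce]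
  obtain ⟨φ, hφ⟩ : ∃ φ : Finset X → ℝ, φ = rd f D E := ⟨_, rfl⟩
  rw [← hφ]
  have hφc : ∀ S, t < S.card → φ S = 0 := by
    rw [hφ]
    exact rd_card hf D E
  have hφd : ∀ S, ¬ (Disjoint D S ∧ Disjoint E S) → φ S = 0 := by
    rw [hφ]
    exact rd_disj f D E
  obtain ⟨Q, hQ⟩ : ∃ Q : Finset X → ℝ, Q = fun F => ∑ S, ∑ T, φ S * φ T *
      yp ρ g (gs g (D ∪ F)) (S ∪ T) := ⟨_, rfl⟩
  have h1 : ∑ S, ∑ T, φ S * φ T * KP.cond (yy ρ g) D E (S ∪ T) =
      ∑ F ∈ E.powerset, (-1) ^ F.card * (yy ρ g (D ∪ F) * Q F) := by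
    have e1 : ∀ S T : Finset X, φ S * φ T * KP.cond (yy ρ g) D E (S ∪ T) =
        ∑ F ∈ E.powerset, (-1) ^ F.card * (yy ρ g (D ∪ F) * (φ S * φ T *
          yp ρ g (gs g (D ∪ F)) (S ∪ T))) := by
      intro S T
      by_cases h2 : Disjoint D S ∧ Disjoint E S
      · by_cases h3 : Disjoint D T ∧ Disjoint E T
        · unfold KP.cond
          rw [Finset.mul_sum]
          refine Finset.sum_congr rfl fun F hF => ?_
          have hF' := Finset.mem_powerset.1 hF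
          have hd : Disjoint (D ∪ F) (S ∪ T) := by
            rw [Finset.disjoint_union_left, Finset.disjoint_union_right,
              Finset.disjoint_union_right]
            exact ⟨⟨h2.1, h3.1⟩, Finset.disjoint_of_subset_left hF' h2.2,
              Finset.disjoint_of_subset_left hF' h3.2⟩
          rw [yy_link hsym hn hd]
          ring
        · rw [hφd T h3]
          simp
      · rw [hφd S h2]
        simp
    rw [Finset.sum_congr rfl fun S _ => Finset.sum_congr rfl fun T _ => e1 S T]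
    rw [Finset.sum_congr rfl fun S _ => Finset.sum_comm, Finset.sum_comm]
    refine Finset.sum_congr rfl fun F _ => ?_
    rw [hQ, Finset.mul_sum, Finset.mul_sum]
    refine Finset.sum_congr rfl fun S _ => ?_
    rw [Finset.mul_sum, Finset.mul_sum]
  rw [h1]
  have hDc : D.card ≤ s := by omega
  have hcard : ∀ F ∈ E.powerset, (D ∪ F).card ≤ s := by
    intro F hF
    have h2 := Finset.card_le_card (Finset.mem_powerset.1 hF)
    have h3 := Finset.card_union_le D F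
    omega
  obtain ⟨M, hM⟩ : ∃ M : ℝ, M = MM (yp ρ g (gs g D)) φ := ⟨_, rfl⟩
  have hYD := yp_pm hk hsym hS.hρ.le t (gs g D) (K ^ s) (one_le_pow₀ hK) (gs_nonneg hk D)
    (gs_le hk hDc)
  have hM0 : 0 ≤ M := by
    rw [hM]
    exact MM_nonneg hYD φ
  obtain ⟨C, hC⟩ : ∃ C : ℝ, C = (K ^ s) ^ t * (t + 1) * (m ^ t * (2 ^ t *
      (K ^ (t ^ 2) * (K ^ s) ^ t))) := ⟨_, rfl⟩
  have hC0 : 0 ≤ C := by
    rw [hC]
    positivity
  have h2 : ∀ F ∈ E.powerset, |Q F| ≤ 3 / 2 * (C * M) := by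
    intro F hF
    have hFs : F.card ≤ s := by
      have := Finset.card_le_card (Finset.mem_powerset.1 hF)
      omega
    have e1 := link_main2 hk hsym hg0 hS (hcard F hF) φ hφc
    have e2 : MM (yp ρ g (gs g (D ∪ F))) φ ≤ C * M := by
      have hd : Disjoint D F := Finset.disjoint_of_subset_right (Finset.mem_powerset.1 hF) hDEd
      have e3 : yp ρ g (gs g (D ∪ F)) = fun S => yp ρ g (gs g D) S * pq (gs g F) S := by
        funext S
        unfold yp pq
        have : ∀ x, gs g (D ∪ F) x = gs g D x * gs g F x := by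
          intro x
          unfold gs
          rw [Finset.prod_union hd]
        simp_rw [this]
        rw [Finset.prod_mul_distrib]
        ring
      rw [e3, hM, hC]
      exact MM_weight hYD hS.hρ (by positivity) (gs g F) (gs_nonneg hk F) (K ^ s)
        (K ^ s * s * σ) m (one_le_pow₀ hK) (gs_le hk hFs) hS.hm hS.hτ (gs_row hk hsym hFs) φ hφc
    have e4 := MM_nonneg (yp_pm hk hsym hS.hρ.le t (gs g (D ∪ F)) (K ^ s) (one_le_pow₀ hK)
      (gs_nonneg hk (D ∪ F)) (gs_le hk (hcard F hF))) φ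
    have e5 : ∑ S, ∑ T, φ S * φ T * yp ρ g (gs g (D ∪ F)) (S ∪ T) = Q F := by rw [hQ]
    rw [e5, abs_le] at e1
    rw [abs_le]
    constructor <;> linarith [e1.1, e1.2]
  have h3 : 1 / 2 * M ≤ Q ∅ := by
    have e1 := link_main2 hk hsym hg0 hS hDc φ hφc
    have e2 : Q ∅ = ∑ S, ∑ T, φ S * φ T * yp ρ g (gs g D) (S ∪ T) := by
      rw [hQ]
      simp only [Finset.union_empty]
    rw [e2]
    rw [← hM] at e1
    linarith [(abs_le.1 e1).1]
  have hyD := yy_nonneg hS.hρ.le g D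
  have h4 : ∀ F ∈ E.powerset.erase ∅, |(-1) ^ F.card * (yy ρ g (D ∪ F) * Q F)| ≤
      ρ ^ F.card * (yy ρ g D * (K ^ (s ^ 2) * (3 / 2 * (C * M)))) := by
    intro F hF
    have hF1 := Finset.mem_of_mem_erase hF
    have hF2 : F ≠ ∅ := Finset.ne_of_mem_erase hF
    have hd : Disjoint D F := Finset.disjoint_of_subset_right (Finset.mem_powerset.1 hF1) hDEd
    have e6 := hS.hρ.le
    have e1 : yy ρ g (D ∪ F) ≤ ρ ^ F.card * (yy ρ g D * K ^ (s ^ 2)) := by
      unfold yy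
      have e2 := pr_sub hk hsym hd (hcard F hF1)
      rw [Finset.card_union_of_disjoint hd, pow_add]
      have e4 : 0 ≤ ρ ^ D.card := pow_nonneg hS.hρ.le _
      have e5 := pr_nonneg g D
      calc ρ ^ D.card * ρ ^ F.card * pr g (D ∪ F)
          ≤ ρ ^ D.card * ρ ^ F.card * (K ^ (s ^ 2) * pr g D) :=
            mul_le_mul_of_nonneg_left e2 (by positivity)
        _ = _ := by ring
    rw [abs_mul, abs_pow, abs_neg, abs_one, one_pow, one_mul, abs_mul,
      abs_of_nonneg (yy_nonneg hS.hρ.le g _)]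
    calc yy ρ g (D ∪ F) * |Q F| ≤ ρ ^ F.card * (yy ρ g D * K ^ (s ^ 2)) * (3 / 2 * (C * M)) :=
          mul_le_mul e1 (h2 F hF1) (abs_nonneg _) (by positivity)
      _ = _ := by ring
  have h5 : ∑ F ∈ E.powerset, (-1) ^ F.card * (yy ρ g (D ∪ F) * Q F) =
      yy ρ g D * Q ∅ + ∑ F ∈ E.powerset.erase ∅, (-1) ^ F.card * (yy ρ g (D ∪ F) * Q F) := by
    rw [← Finset.add_sum_erase _ _ (Finset.empty_mem_powerset E)]
    simp
  have h6 : |∑ F ∈ E.powerset.erase ∅, (-1) ^ F.card * (yy ρ g (D ∪ F) * Q F)| ≤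
      yy ρ g D * (1 / 2 * M) := by
    refine (Finset.abs_sum_le_sum_abs _ _).trans ((Finset.sum_le_sum h4).trans ?_)
    have e6 := hS.hρ.le
    have e1 : ∑ F ∈ E.powerset.erase ∅, ρ ^ F.card ≤ (1 + ρ) ^ s - 1 := by
      have e2 : ∑ F ∈ E.powerset, ρ ^ F.card = (1 + ρ) ^ E.card := by
        have e3 := Finset.sum_pow_mul_eq_add_pow ρ 1 E
        simp only [one_pow, mul_one] at e3
        rw [e3, add_comm]
      have e4 := Finset.add_sum_erase E.powerset (fun F => ρ ^ F.card)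
        (Finset.empty_mem_powerset E)
      simp only [Finset.card_empty, pow_zero] at e4
      have e5 : (1 + ρ) ^ E.card ≤ (1 + ρ) ^ s :=
        pow_le_pow_right₀ (by linarith) (by omega)
      linarith
    rw [← Finset.sum_mul]
    have e3 := hS.hF
    rw [← hC] at e3
    calc (∑ F ∈ E.powerset.erase ∅, ρ ^ F.card) * (yy ρ g D * (K ^ (s ^ 2) * (3 / 2 * (C * M))))
        ≤ ((1 + ρ) ^ s - 1) * (yy ρ g D * (K ^ (s ^ 2) * (3 / 2 * (C * M)))) :=
          mul_le_mul_of_nonneg_right e1 (by positivity)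
      _ = 1 / 2 * (yy ρ g D * M) * (((1 + ρ) ^ s - 1) * K ^ (s ^ 2) * (3 * C)) := by ring
      _ ≤ 1 / 2 * (yy ρ g D * M) * 1 := mul_le_mul_of_nonneg_left e3 (by positivity)
      _ = yy ρ g D * (1 / 2 * M) := by ring
  rw [h5]
  have h7 := mul_le_mul_of_nonneg_left h3 hyD
  linarith [(abs_le.1 h6).1]

end

/-- **The kernel on the cube.** -/
theorem cube_kernel2 (hc : S7_chr) (n d m j₀ : ℕ) (hd1 : 1 ≤ d) (hd : d ≤ m) (hm : 2 * m ≤ n)
    (hj : 2 * j₀ ≤ n) (q : ℝ)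
    (hq : 4 * ((m : ℝ) * ((n : ℝ) - m + 1)) ≤ q * ((n : ℝ) + 2 - 2 * j₀) ^ 2) (hq1 : q < 1)
    (h0 : ℝ) (hh0 : 0 ≤ h0) (hh1 : h0 ≤ 1) (hC : vol n d / (1 - q) ^ 2 ≤ n.choose m * h0 ^ 2) (Λ σ : ℝ) (hΛ : 0 < Λ) (hσ : 0 ≤ σ)
    (h1 : vol n d / (1 - q) ^ 2 ≤ σ ^ 2)
    (h2 : 2 ^ n * (vol n d / (1 - q) ^ 2) ≤ n.choose j₀ * Λ ^ 2) :
    ∃ g : (Fin n → Bool) → (Fin n → Bool) → ℝ, KK g (1 + h0) Λ σ ∧ (∀ x y, g x y = g y x) ∧
      ∀ x y, hammingDist x y < d → g x y = 0 := by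
  obtain ⟨e, s, he1, he2, he3, he4, he5⟩ := radial n d m j₀ hd hm hj q hq hq1
  have hcm : (0 : ℝ) < n.choose m := by
    exact_mod_cast Nat.choose_pos (by omega)
  have hcj : (0 : ℝ) < n.choose j₀ := by
    exact_mod_cast Nat.choose_pos (by omega)
  have hle : ∀ w ≤ n, e w ≤ h0 ∧ -1 ≤ e w ∨ e w = -1 := by
    intro w hw
    by_cases hwd : w < d
    · exact Or.inr (he1 w hwd)
    · have h3 := (he2 w hw (not_lt.1 hwd)).trans hC
      have h4 : e w ^ 2 ≤ h0 ^ 2 := le_of_mul_le_mul_left h3 hcm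
      have h5 := abs_le.1 (abs_le_of_sq_le_sq h4 hh0)
      exact Or.inl ⟨h5.2, by linarith [h5.1]⟩
  have hrow : ∀ a : Fin n → Bool, ∑ c, (1 + e (hammingDist a c) - 1) ^ 2 ≤ σ ^ 2 := by
    intro a
    have h3 := sum_dist a fun w => (1 + e w - 1) ^ 2
    rw [h3]
    refine le_trans (le_of_eq ?_) (he3.trans h1)
    unfold ipr
    exact Finset.sum_congr rfl fun w _ => by ring
  refine ⟨fun x y => 1 + e (hammingDist x y), ⟨by linarith, hΛ.le, hσ, fun x y => ?_,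
    fun x y => ?_, hrow, fun c => ?_, fun h => ?_⟩, fun x y => ?_, fun x y hxy => ?_⟩
  · rcases hle _ (PK9f.hd_le x y) with h | h
    · linarith [h.2]
    · linarith
  · rcases hle _ (PK9f.hd_le x y) with h | h
    · linarith [h.1]
    · linarith
  · refine le_trans (le_of_eq ?_) (hrow c)
    refine Finset.sum_congr rfl fun a _ => ?_
    rw [hammingDist_comm]
  · have h3 := spec_radial hc e s hΛ (fun j hj => ?_) he5 h
    · refine le_trans (le_of_eq ?_) h3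
      refine Finset.sum_congr rfl fun a _ => ?_
      congr 1
      exact Finset.sum_congr rfl fun c _ => by ring
    · have h4 := (he4 j hj).trans h2
      exact le_of_mul_le_mul_left h4 hcj
  · change 1 + e (hammingDist x y) = 1 + e (hammingDist y x)
    rw [hammingDist_comm]
  · change 1 + e (hammingDist x y) = 0
    rw [he1 _ hxy]
    ring

end Pool.Agent.X48.LSE
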