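import Pool.Agent.X48.LSE

/-!
# Sum-of-squares bounds with exponentially many conditionings: the asymptotic lower bound
-/

set_option autoImplicit false
set_option linter.unusedSectionVars false

open Filter Topology

namespace Pool.Agent.X48.LSE

open Finset Pool.Agent.Y570 Pool.Agent.Y570.LS Pool.Agent.TH41.BL

/-- the parameters -/
lemma sml_of2 {K κ V E Λ : ℝ} {s t : ℕ} (hK : 1 ≤ K) (hV : 0 < V) (hE : 1 ≤ E) (hκ : 1 ≤ κ)
    (hρ1 : E / V ≤ 1) (hΛ0 : 0 ≤ Λ) (hΛ : Λ ≤ κ * V)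
    (hA : cc K t ^ t * (κ ^ t * (Λ / V * E ^ t)) * t * (2 ^ t * (K ^ (t ^ 2) * (K ^ s) ^ t)) ≤
      1 / 2)
    (hB : ((1 + E / V) ^ s - 1) * K ^ (s ^ 2) * (3 * ((K ^ s) ^ t * (t + 1) *
      (((K ^ s * (s + 1)) ^ 2 * κ * E) ^ t * (2 ^ t * (K ^ (t ^ 2) * (K ^ s) ^ t))))) ≤ 1) :
    Sml2 K Λ √(κ * V) (E / V) (cc K t ^ t * (κ ^ t * (Λ / V * E ^ t)))
      ((K ^ s * (s + 1)) ^ 2 * κ * E) s t := by
  have hK0 : 0 < K := by linarith
  have hcc : 1 ≤ cc K t := cc_pos hK t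
  have hκV : 0 ≤ κ * V := by positivity
  have hEp : 0 < E := by linarith
  have hκp : 0 < κ := by linarith
  have hs1 : (1 : ℝ) ≤ (K ^ s * (s + 1)) ^ 2 := by
    have h1 : (1 : ℝ) ≤ K ^ s := one_le_pow₀ hK
    have h2 : (1 : ℝ) ≤ s + 1 := by
      have : (0 : ℝ) ≤ s := Nat.cast_nonneg _
      linarith
    exact one_le_pow₀ (one_le_mul_of_one_le_of_one_le h1 h2)
  refine ⟨?_, by positivity, hρ1, ?_, ?_, by positivity, hA, ?_, hB⟩
  · rw [Real.sq_sqrt hκV]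
    exact hΛ
  · exact one_le_mul_of_one_le_of_one_le (one_le_mul_of_one_le_of_one_le hs1 hκ) hE
  · intro u w hu hut hw hwt
    unfold Nuw
    rw [if_neg (by omega)]
    obtain ⟨k, hk⟩ : ∃ k : ℕ, k = (u - 1) + (w - 1) := ⟨_, rfl⟩
    have hk2 : u + w = k + 2 := by omega
    have hk3 : k ≤ 2 * (t - 1) := by omega
    rw [← hk, hk2, pow_add, Real.sq_sqrt (by positivity)]
    have e1 : √(κ * V) ^ k * √(E / V) ^ k = √(κ * E) ^ k := by
      rw [← mul_pow, ← Real.sqrt_mul hκV]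
      congr 2
      field_simp
    have h1 : 1 ≤ √(κ * E) := by
      rw [Real.one_le_sqrt]
      exact one_le_mul_of_one_le_of_one_le hκ hE
    have e2 : √(κ * E) ^ k ≤ (κ * E) ^ (t - 1) := by
      calc √(κ * E) ^ k ≤ √(κ * E) ^ (2 * (t - 1)) := pow_le_pow_right₀ h1 hk3
        _ = (κ * E) ^ (t - 1) := by rw [pow_mul, Real.sq_sqrt (by positivity)]
    have e3 : cc K t ^ u ≤ cc K t ^ t := pow_le_pow_right₀ hcc hut
    have e4 : κ ^ (t - 1) ≤ κ ^ t := pow_le_pow_right₀ hκ (by omega)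
    have e5 : E ^ t = E ^ (t - 1) * E := by
      rw [← pow_succ]
      congr 1
      omega
    calc cc K t ^ u * Λ * √(κ * V) ^ k * (√(E / V) ^ k * (E / V))
        = cc K t ^ u * (Λ * (E / V)) * (√(κ * V) ^ k * √(E / V) ^ k) := by ring
      _ ≤ cc K t ^ t * (Λ * (E / V)) * (κ * E) ^ (t - 1) := by
          rw [e1]
          have : 0 ≤ cc K t := by linarith
          gcongr
      _ = cc K t ^ t * (κ ^ (t - 1) * (Λ / V * E ^ t)) := by
          rw [mul_pow, e5]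
          ring
      _ ≤ cc K t ^ t * (κ ^ t * (Λ / V * E ^ t)) := by
          have : 0 ≤ cc K t := by linarith
          gcongr
  · have e1 : (K ^ s * (s : ℝ) * √(κ * V)) ^ 2 * (E / V) = (K ^ s * (s : ℝ)) ^ 2 * κ * E := by
      rw [mul_pow, Real.sq_sqrt hκV]
      field_simp
    rw [e1]
    gcongr
    linarith

lemma bnd_A2 {s t K1 : ℕ} {K κ x : ℝ} (hK : 1 ≤ K) (hKt : K ^ t ≤ 2) (hKt2 : K ^ (t ^ 2) ≤ 2)
    (hKst : (K ^ s) ^ t ≤ 2) (ht : 1 ≤ t) (hκ0 : 0 ≤ κ) (hκ : κ ≤ 2 ^ K1) (hx : 0 ≤ x) :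
    cc K t ^ t * (κ ^ t * x) * t * (2 ^ t * (K ^ (t ^ 2) * (K ^ s) ^ t)) ≤
      2 ^ ((K1 + 18) * t ^ 2) * x := by
  have hK0 : 0 < K := by linarith
  have hcc0 : 0 ≤ cc K t := by linarith [cc_pos hK t]
  have h0 : cc K t ≤ 2 ^ (4 * t) := by
    refine le_trans ?_ (cc_two t)
    unfold cc
    have : K ^ t ≤ 2 ^ t := hKt.trans (le_self_pow₀ (by norm_num) (by omega))
    have h0 : (0 : ℝ) ≤ t := Nat.cast_nonneg _
    gcongr
  have h1 : cc K t ^ t ≤ 2 ^ (4 * t * t) := by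
    rw [pow_mul]
    exact pow_le_pow_left₀ hcc0 h0 t
  have h2 : κ ^ t ≤ 2 ^ (K1 * t) := by
    rw [pow_mul]
    exact pow_le_pow_left₀ hκ0 hκ t
  have h3 : (t : ℝ) ≤ 2 ^ t := by linarith [two_le t]
  have hexp : 4 * t * t + K1 * t + t + (t + (1 + 1)) ≤ (K1 + 18) * t ^ 2 := by
    have a1 : t ≤ t ^ 2 := by nlinarith
    have a3 : K1 * t ≤ K1 * t ^ 2 := Nat.mul_le_mul_left _ a1
    nlinarith
  calc cc K t ^ t * (κ ^ t * x) * t * (2 ^ t * (K ^ (t ^ 2) * (K ^ s) ^ t))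
      ≤ 2 ^ (4 * t * t) * (2 ^ (K1 * t) * x) * 2 ^ t * (2 ^ t * (2 * 2)) := by
        gcongr
    _ = 2 ^ (4 * t * t + K1 * t + t + (t + (1 + 1))) * x := by
        simp only [pow_add, pow_one]
        ring
    _ ≤ 2 ^ ((K1 + 18) * t ^ 2) * x :=
        mul_le_mul_of_nonneg_right (pow_le_pow_right₀ (by norm_num) hexp) hx

lemma bnd_B2 {s t K1 : ℕ} {K κ E V : ℝ} (hK : 1 ≤ K) (hKs : K ^ s ≤ 2) (hKs2 : K ^ (s ^ 2) ≤ 2)
    (hKt2 : K ^ (t ^ 2) ≤ 2) (hKst : (K ^ s) ^ t ≤ 2) (ht : 1 ≤ t) (hκ0 : 0 ≤ κ)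
    (hκ : κ ≤ 2 ^ K1) (hE : 0 ≤ E) (hV : 0 < V) (hρ : E / V * s ≤ 1) :
    ((1 + E / V) ^ s - 1) * K ^ (s ^ 2) * (3 * ((K ^ s) ^ t * (t + 1) *
      (((K ^ s * (s + 1)) ^ 2 * κ * E) ^ t * (2 ^ t * (K ^ (t ^ 2) * (K ^ s) ^ t))))) ≤
      2 ^ ((K1 + 15) * t ^ 2) * ((s + 1) ^ (2 * t + 1) * (E / V * E ^ t)) := by
  have hK0 : 0 < K := by linarith
  have h1 := two_le t
  have hs0 : (0 : ℝ) ≤ s := Nat.cast_nonneg _
  have ht0 : (0 : ℝ) ≤ t := Nat.cast_nonneg _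
  have hρ0 : 0 ≤ E / V := by positivity
  have h3 : (K ^ s * ((s : ℝ) + 1)) ^ 2 * κ ≤ 2 ^ (2 + K1) * ((s : ℝ) + 1) ^ 2 := by
    calc (K ^ s * ((s : ℝ) + 1)) ^ 2 * κ ≤ (2 * ((s : ℝ) + 1)) ^ 2 * 2 ^ K1 := by gcongr
      _ = 2 ^ (2 + K1) * ((s : ℝ) + 1) ^ 2 := by
          rw [pow_add]
          ring
  have h4 : ((K ^ s * ((s : ℝ) + 1)) ^ 2 * κ * E) ^ t ≤
      2 ^ ((2 + K1) * t) * ((s : ℝ) + 1) ^ (2 * t) * E ^ t := by
    calc ((K ^ s * ((s : ℝ) + 1)) ^ 2 * κ * E) ^ t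
        = ((K ^ s * ((s : ℝ) + 1)) ^ 2 * κ) ^ t * E ^ t := mul_pow _ _ _
      _ ≤ (2 ^ (2 + K1) * ((s : ℝ) + 1) ^ 2) ^ t * E ^ t := by gcongr
      _ = 2 ^ ((2 + K1) * t) * ((s : ℝ) + 1) ^ (2 * t) * E ^ t := by
          rw [mul_pow, ← pow_mul, ← pow_mul]
  have h5 : (1 + E / V) ^ s - 1 ≤ 2 * (E / V * (s + 1)) := by
    have a1 : (1 + E / V) ^ s ≤ Real.exp (E / V * s) := by
      calc (1 + E / V) ^ s ≤ (Real.exp (E / V)) ^ s := by
            refine pow_le_pow_left₀ (by linarith) ?_ s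
            linarith [Real.add_one_le_exp (E / V)]
        _ = Real.exp (E / V * s) := by
            rw [← Real.exp_nat_mul]
            congr 1
            ring
    have a2 : 0 ≤ E / V * s := by positivity
    have a3 : Real.exp (E / V * s) ≤ 1 + 2 * (E / V * s) := by
      have b1 := Real.abs_exp_sub_one_le (x := E / V * s) (by rw [abs_of_nonneg a2]; exact hρ)
      rw [abs_of_nonneg a2] at b1
      linarith [(abs_le.1 b1).2]
    nlinarith
  have h6 : 0 ≤ (1 + E / V) ^ s - 1 := by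
    have := one_le_pow₀ (by linarith : 1 ≤ 1 + E / V) (n := s)
    linarith
  have hexp : 1 + (1 + (2 + (1 + (t + ((2 + K1) * t + (t + (1 + 1))))))) ≤
      (K1 + 15) * t ^ 2 := by
    have a1 : t ≤ t ^ 2 := by nlinarith
    have a3 : K1 * t ≤ K1 * t ^ 2 := Nat.mul_le_mul_left _ a1
    nlinarith
  have h34 : (3 : ℝ) ≤ 2 ^ 2 := by norm_num
  calc ((1 + E / V) ^ s - 1) * K ^ (s ^ 2) * (3 * ((K ^ s) ^ t * (t + 1) *
      (((K ^ s * (s + 1)) ^ 2 * κ * E) ^ t * (2 ^ t * (K ^ (t ^ 2) * (K ^ s) ^ t)))))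
      ≤ (2 * (E / V * (s + 1))) * 2 * (2 ^ 2 * (2 * 2 ^ t *
      (2 ^ ((2 + K1) * t) * (s + 1) ^ (2 * t) * E ^ t * (2 ^ t * (2 * 2))))) := by
        gcongr
    _ = 2 ^ (1 + (1 + (2 + (1 + (t + ((2 + K1) * t + (t + (1 + 1)))))))) *
        ((s + 1) ^ (2 * t + 1) * (E / V * E ^ t)) := by
        simp only [pow_add, pow_one]
        ring
    _ ≤ 2 ^ ((K1 + 15) * t ^ 2) * ((s + 1) ^ (2 * t + 1) * (E / V * E ^ t)) :=
        mul_le_mul_of_nonneg_right (pow_le_pow_right₀ (by norm_num) hexp) (by positivity)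

/-- **The lower bound.** -/
theorem lower2 (hc : S7_chr) {δ γ : ℝ} (h0 : 0 < δ) (h1 : δ < 1 / 2) (hγ0 : 0 ≤ γ)
    (hγ : 2 * γ < Real.binEntropy (1 / 2 - √(δ * (1 - δ))) + Real.binEntropy δ - Real.log 2) :
    ∃ c : ℝ, 0 < c ∧ ∃ n₀ : ℕ, ∀ n ≥ n₀, ∀ s t : ℕ, 1 ≤ t → (s : ℝ) ≤ Real.exp (c * n / t) →
      (t : ℝ) ≤ c * √n → ∃ y, PC s t n ⌈δ * n⌉₊ y ∧
        ∑ x, y {x} = 2 ^ n * Real.exp (γ * n / t - n * Real.binEntropy δ) := by
  obtain ⟨β, β', μ, q, hβ'0, hβ', hβ1, hδμ, hμ, hq0, hq1, hqq, hgain⟩ := params h0 h1 hγ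
  obtain ⟨κ, hκ⟩ : ∃ κ : ℝ, κ = 1 / (1 - q) ^ 2 := ⟨_, rfl⟩
  have hq2 : 0 < 1 - q := by linarith
  have hκ1 : 1 ≤ κ := by
    rw [hκ, one_le_div (by positivity)]
    exact pow_le_one₀ hq2.le (by linarith)
  have hκ0 : 0 < κ := by linarith
  obtain ⟨K1, hK1⟩ : ∃ K1 : ℕ, κ ≤ 2 ^ K1 := by
    obtain ⟨k, hk⟩ := pow_unbounded_of_one_lt κ (by norm_num : (1 : ℝ) < 2)
    exact ⟨k, hk.le⟩
  obtain ⟨hd, hhd⟩ : ∃ hd : ℝ, hd = Real.binEntropy δ := ⟨_, rfl⟩
  obtain ⟨hb, hhb⟩ : ∃ hb : ℝ, hb = Real.binEntropy β' := ⟨_, rfl⟩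
  obtain ⟨hm, hhm⟩ : ∃ hm : ℝ, hm = Real.binEntropy μ := ⟨_, rfl⟩
  rw [← hhd, ← hhb] at hgain
  rw [← hhd]
  have hl2 : 0 < Real.log 2 := Real.log_pos (by norm_num)
  have hb2 : hb ≤ Real.log 2 := by
    rw [hhb]
    exact Real.binEntropy_le_log_two
  obtain ⟨θ, hθ⟩ : ∃ θ : ℝ, θ = (hd + hb - Real.log 2) / 2 - γ := ⟨_, rfl⟩
  have hθ0 : 0 < θ := by linarith
  have hdm : hd < hm := by
    rw [hhd, hhm]
    refine Real.binEntropy_strictMonoOn ⟨h0.le, ?_⟩ ⟨by linarith, ?_⟩ hδμ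
    · norm_num
      linarith
    · norm_num
      linarith
  obtain ⟨c₁, hcd⟩ : ∃ c₁ : ℝ, c₁ = √(θ / 4 / ((K1 + 18) * Real.log 2)) := ⟨_, rfl⟩
  have hc₁0 : 0 < c₁ := by
    rw [hcd]
    exact Real.sqrt_pos.2 (by positivity)
  have hcc : ((K1 : ℝ) + 18) * Real.log 2 * c₁ ^ 2 = θ / 4 := by
    rw [hcd, Real.sq_sqrt (by positivity)]
    field_simp
  obtain ⟨c, hcdef⟩ : ∃ c : ℝ, c = min (min c₁ 1) (min (θ / 12) ((hm - hd) / 8)) := ⟨_, rfl⟩
  have hc0 : 0 < c := by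
    rw [hcdef]
    exact lt_min (lt_min hc₁0 one_pos) (lt_min (by linarith) (by linarith))
  have hcl1 : c ≤ c₁ := by rw [hcdef]; exact (min_le_left _ _).trans (min_le_left _ _)
  have hcl2 : c ≤ 1 := by rw [hcdef]; exact (min_le_left _ _).trans (min_le_right _ _)
  have hcl3 : c ≤ θ / 12 := by rw [hcdef]; exact (min_le_right _ _).trans (min_le_left _ _)
  have hcl4 : c ≤ (hm - hd) / 8 := by rw [hcdef]; exact (min_le_right _ _).trans (min_le_right _ _)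
  have hε : 0 < q * (1 - 2 * β) ^ 2 - 4 * (μ * (1 - μ)) := by linarith
  refine ⟨c, hc0, ?_⟩
  have hN : ∀ C : ℝ, ∀ᶠ n : ℕ in atTop, C ≤ (n : ℝ) := fun C =>
    tendsto_natCast_atTop_atTop.eventually_ge_atTop C
  have hall := ((((hN 1).and (hN (2 / (1 - 2 * μ)))).and
    ((hN (8 / (q * (1 - 2 * β) ^ 2 - 4 * (μ * (1 - μ))))).and (hN (1 / (β - β'))))).and
    (((ev1 (16 * κ) ((hm - hd) / 2) (by positivity) (by linarith)).and
      (ev1 1 (hd + hb - Real.log 2) one_pos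
      (by linarith))).and (ev1 (8 * κ) (θ / 2) (by positivity) (by linarith))))
  obtain ⟨n₀, hn₀⟩ := eventually_atTop.1 hall
  refine ⟨n₀, fun n hn s t ht hsc htc => ?_⟩
  obtain ⟨⟨⟨E1, E2⟩, E3, E4⟩, ⟨E5, E6⟩, E7⟩ := hn₀ n hn
  have hn0 : (0 : ℝ) < n := by linarith
  have hμ0 : 0 < μ := by linarith
  have hβ0 : 0 < β := by linarith
  have hμ3 : 0 < 1 - μ := by linarith
  -- the integers
  obtain ⟨d, hdd⟩ : ∃ d : ℕ, d = ⌈δ * n⌉₊ := ⟨_, rfl⟩
  obtain ⟨m, hmd⟩ : ∃ m : ℕ, m = ⌈μ * n⌉₊ := ⟨_, rfl⟩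
  obtain ⟨j₀, hjd⟩ : ∃ j₀ : ℕ, j₀ = ⌊β * n⌋₊ := ⟨_, rfl⟩
  have hd1 : 1 ≤ d := by
    rw [hdd]
    exact Nat.one_le_iff_ne_zero.2 (Nat.ceil_pos.2 (by positivity)).ne'
  have hdm' : d ≤ m := by
    rw [hdd, hmd]
    exact Nat.ceil_mono (mul_le_mul_of_nonneg_right hδμ.le hn0.le)
  have hm1 : (m : ℝ) ≤ μ * n + 1 := by
    rw [hmd]
    exact (Nat.ceil_lt_add_one (by positivity)).le
  have hm2 : μ * n ≤ m := by
    rw [hmd]
    exact Nat.le_ceil _
  have hj1 : (j₀ : ℝ) ≤ β * n := by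
    rw [hjd]
    exact Nat.floor_le (by positivity)
  have hj2 : β * n - 1 ≤ j₀ := by
    rw [hjd]
    exact (Nat.sub_one_lt_floor _).le
  have E2' : 2 * (μ * n + 1) ≤ n := by
    rw [div_le_iff₀ (by linarith)] at E2
    linarith
  have E4' : β' * n ≤ β * n - 1 := by
    rw [div_le_iff₀ (by linarith)] at E4
    linarith
  have hmn' : (2 : ℝ) * m ≤ n := by linarith
  have hmn : 2 * m ≤ n := by exact_mod_cast hmn'
  have hjn' : (2 : ℝ) * j₀ ≤ n := by
    have b1 : β * n ≤ 1 / 2 * n := mul_le_mul_of_nonneg_right hβ1.le hn0.le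
    linarith
  have hjn : 2 * j₀ ≤ n := by exact_mod_cast hjn'
  have hβn : β' * n ≤ j₀ := by linarith
  have hj01 : 1 ≤ j₀ := by
    have : (0 : ℝ) < j₀ := lt_of_lt_of_le (by positivity) hβn
    exact_mod_cast this
  have hj0n : j₀ < n := by omega
  have hm0n : m < n := by omega
  have hqn : 4 * ((m : ℝ) * ((n : ℝ) - m + 1)) ≤ q * ((n : ℝ) + 2 - 2 * j₀) ^ 2 := by
    have a1 : (m : ℝ) * ((n : ℝ) - m + 1) ≤ (μ * n + 1) * ((1 - μ) * n + 1) := by
      have a3 : (n : ℝ) - m + 1 ≤ (1 - μ) * n + 1 := by linarith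
      have a4 : (0 : ℝ) ≤ (n : ℝ) - m + 1 := by linarith
      exact mul_le_mul hm1 a3 a4 (by positivity)
    have a2 : ((1 - 2 * β) * n) ^ 2 ≤ ((n : ℝ) + 2 - 2 * j₀) ^ 2 := by
      refine pow_le_pow_left₀ ?_ ?_ 2
      · exact mul_nonneg (by linarith) hn0.le
      · linarith
    have a5 : 4 * ((μ * n + 1) * ((1 - μ) * n + 1)) ≤ q * ((1 - 2 * β) * n) ^ 2 := by
      have a6 : 8 ≤ (q * (1 - 2 * β) ^ 2 - 4 * (μ * (1 - μ))) * n := by
        rwa [div_le_iff₀' hε] at E3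
      have a7 : 8 * n ≤ (q * (1 - 2 * β) ^ 2 - 4 * (μ * (1 - μ))) * n * n :=
        mul_le_mul_of_nonneg_right a6 hn0.le
      have a8 : 4 * ((μ * n + 1) * ((1 - μ) * n + 1)) = 4 * (μ * (1 - μ)) * n * n + 4 * n + 4 := by
        ring
      have a10 : q * ((1 - 2 * β) * n) ^ 2 = q * (1 - 2 * β) ^ 2 * n * n := by ring
      have a11 : (q * (1 - 2 * β) ^ 2 - 4 * (μ * (1 - μ))) * n * n =
        q * (1 - 2 * β) ^ 2 * n * n - 4 * (μ * (1 - μ)) * n * n := by ring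
      rw [a8, a10]
      linarith
    have a9 := mul_le_mul_of_nonneg_left a2 hq0.le
    linarith
  -- the volumes
  obtain ⟨V, hV⟩ : ∃ V : ℝ, V = Real.exp (n * hd) := ⟨_, rfl⟩
  have hV0 : 0 < V := by
    rw [hV]
    exact Real.exp_pos _
  have hvol : vol n d ≤ V := by
    rw [hV, hhd]
    refine vol_le h0 h1.le n d (by omega) fun w hw => ?_
    rw [hdd, Nat.lt_ceil] at hw
    linarith
  have hvol0 : 0 ≤ vol n d := Finset.sum_nonneg fun w _ => Nat.cast_nonneg _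
  have hcm : Real.exp (n * hm) ≤ (n + 1) * (n.choose m : ℝ) := by
    refine le_trans (Real.exp_le_exp.2 ?_) (choose_ge (by omega) hm0n)
    refine mul_le_mul_of_nonneg_left ?_ hn0.le
    rw [hhm]
    refine binEntropy_mono (by linarith) ?_ ?_
    · rw [le_div_iff₀ hn0]
      exact hm2
    · rw [div_le_iff₀ hn0]
      linarith
  have hcj : Real.exp (n * hb) ≤ (n + 1) * (n.choose j₀ : ℝ) := by
    refine le_trans (Real.exp_le_exp.2 ?_) (choose_ge hj01 hj0n)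
    refine mul_le_mul_of_nonneg_left ?_ hn0.le
    rw [hhb]
    refine binEntropy_mono hβ'0.le ?_ ?_
    · rw [le_div_iff₀ hn0]
      exact hβn
    · rw [div_le_iff₀ hn0]
      linarith
  have hn1 : (0 : ℝ) < n + 1 := by linarith
  have hκv : vol n d / (1 - q) ^ 2 ≤ κ * V := by
    rw [hκ, div_mul_eq_mul_div, one_mul]
    exact div_le_div_of_nonneg_right hvol (by positivity)
  obtain ⟨η₀, hη₀⟩ : ∃ η₀ : ℝ, η₀ = Real.exp (-(n * ((hm - hd) / 4))) / 4 := ⟨_, rfl⟩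
  have hη₀p : 0 < η₀ := by
    rw [hη₀]
    have := Real.exp_pos (-(n * ((hm - hd) / 4)))
    positivity
  have hη₀1 : η₀ ≤ 1 := by
    have : Real.exp (-(n * ((hm - hd) / 4))) ≤ 1 := by
      rw [Real.exp_le_one_iff]
      have : 0 ≤ n * ((hm - hd) / 4) := mul_nonneg hn0.le (by linarith)
      linarith
    rw [hη₀]
    linarith
  have hη₀2 : 16 * η₀ ^ 2 = Real.exp (-(n * ((hm - hd) / 2))) := by
    rw [hη₀, div_pow, ← Real.exp_nat_mul]
    have : ((2 : ℕ) : ℝ) * -(n * ((hm - hd) / 4)) = -(n * ((hm - hd) / 2)) := by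
      push_cast
      ring
    rw [this]
    ring
  have hC : vol n d / (1 - q) ^ 2 ≤ n.choose m * η₀ ^ 2 := by
    refine hκv.trans ?_
    have b1 : 16 * (κ * ((n : ℝ) + 1) * V) ≤ Real.exp (n * hm) * (16 * η₀ ^ 2) := by
      rw [hη₀2, ← Real.exp_add]
      calc 16 * (κ * ((n : ℝ) + 1) * V) = 16 * κ * ((n : ℝ) + 1) * V := by ring
        _ ≤ Real.exp (n * ((hm - hd) / 2)) * V := mul_le_mul_of_nonneg_right E5 hV0.le
        _ = Real.exp (n * hm + -(n * ((hm - hd) / 2))) := by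
            rw [hV, ← Real.exp_add]
            congr 1
            ring
    have b2 : ((n : ℝ) + 1) * (κ * V) ≤ (n + 1) * ((n.choose m : ℝ) * η₀ ^ 2) := by
      calc ((n : ℝ) + 1) * (κ * V) = κ * ((n : ℝ) + 1) * V := by ring
        _ ≤ Real.exp (n * hm) * η₀ ^ 2 := by linarith
        _ ≤ (n + 1) * (n.choose m : ℝ) * η₀ ^ 2 :=
            mul_le_mul_of_nonneg_right hcm (sq_nonneg _)
        _ = _ := by ring
    exact le_of_mul_le_mul_left b2 hn1
  obtain ⟨Λ, hΛ⟩ : ∃ Λ : ℝ, Λ = √(κ * (n + 1)) * Real.exp (n * (Real.log 2 + hd - hb) / 2) :=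
    ⟨_, rfl⟩
  have hΛ0 : 0 < Λ := by
    rw [hΛ]
    have : 0 < √(κ * (n + 1)) := Real.sqrt_pos.2 (by positivity)
    have := Real.exp_pos (n * (Real.log 2 + hd - hb) / 2)
    positivity
  have hΛ2 : Λ ^ 2 = κ * (n + 1) * Real.exp (n * (Real.log 2 + hd - hb)) := by
    rw [hΛ, mul_pow, Real.sq_sqrt (by positivity), ← Real.exp_nat_mul]
    congr 2
    push_cast
    ring
  have h2n : (2 : ℝ) ^ n = Real.exp (n * Real.log 2) := by
    rw [mul_comm, Real.exp_mul, Real.exp_log (by norm_num), Real.rpow_natCast]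
  have hspec : 2 ^ n * (vol n d / (1 - q) ^ 2) ≤ n.choose j₀ * Λ ^ 2 := by
    calc 2 ^ n * (vol n d / (1 - q) ^ 2) ≤ 2 ^ n * (κ * V) :=
          mul_le_mul_of_nonneg_left hκv (by positivity)
      _ = κ * Real.exp (n * (Real.log 2 + hd - hb)) * Real.exp (n * hb) := by
          rw [h2n, hV]
          have : Real.exp (n * (Real.log 2 + hd - hb)) * Real.exp (n * hb) =
              Real.exp (n * Real.log 2) * Real.exp (n * hd) := by
            rw [← Real.exp_add, ← Real.exp_add]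
            congr 1
            ring
          rw [mul_assoc κ, this]
          ring
      _ ≤ κ * Real.exp (n * (Real.log 2 + hd - hb)) * ((n + 1) * (n.choose j₀ : ℝ)) :=
          mul_le_mul_of_nonneg_left hcj (by positivity)
      _ = n.choose j₀ * Λ ^ 2 := by
          rw [hΛ2]
          ring
  have hκV : 0 ≤ κ * V := by positivity
  obtain ⟨g, hg1, hg2, hg3⟩ := cube_kernel2 hc n d m j₀ hd1 hdm' hmn hjn q hqn hq1
    η₀ hη₀p.le hη₀1 hC Λ
    √(κ * V) hΛ0 (Real.sqrt_nonneg _) (by rw [Real.sq_sqrt hκV]; exact hκv) hspec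
  -- the smallness
  have ht0 : (0 : ℝ) < t := by exact_mod_cast ht
  obtain ⟨E, hE⟩ : ∃ E : ℝ, E = Real.exp (γ * n / t) := ⟨_, rfl⟩
  have hE1 : 1 ≤ E := by
    rw [hE]
    exact Real.one_le_exp (by positivity)
  have hEt : E ^ t = Real.exp (γ * n) := by
    rw [hE, ← Real.exp_nat_mul]
    congr 1
    field_simp
  have hΛκ : Λ ≤ κ * V := by
    refine (sq_le_sq₀ hΛ0.le hκV).1 ?_
    rw [hΛ2]
    calc κ * (n + 1) * Real.exp (n * (Real.log 2 + hd - hb))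
        ≤ κ * Real.exp (n * (hd + hb - Real.log 2)) * Real.exp (n * (Real.log 2 + hd - hb)) := by
          refine mul_le_mul_of_nonneg_right ?_ (Real.exp_pos _).le
          rw [one_mul] at E6
          exact mul_le_mul_of_nonneg_left E6 hκ0.le
      _ = κ * V ^ 2 := by
          rw [hV, mul_assoc, ← Real.exp_add, ← Real.exp_nat_mul]
          congr 2
          push_cast
          ring
      _ ≤ κ ^ 2 * V ^ 2 := by
          refine mul_le_mul_of_nonneg_right ?_ (by positivity)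
          exact le_self_pow₀ hκ1 (by norm_num)
      _ = (κ * V) ^ 2 := by ring
  have ht1 : (1 : ℝ) ≤ t := by exact_mod_cast ht
  have htc1 : (t : ℝ) ≤ c₁ * √n := htc.trans (mul_le_mul_of_nonneg_right hcl1 (Real.sqrt_nonneg _))
  have ht2 : ((t : ℝ)) ^ 2 ≤ c₁ ^ 2 * n := by
    calc ((t : ℝ)) ^ 2 ≤ (c₁ * √n) ^ 2 := pow_le_pow_left₀ (Nat.cast_nonneg _) htc1 2
      _ = c₁ ^ 2 * n := by rw [mul_pow, Real.sq_sqrt hn0.le]
  have hpow : (2 : ℝ) ^ ((K1 + 18) * t ^ 2) ≤ Real.exp (n * (θ / 4)) := by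
    have b2 : (2 : ℝ) ^ ((K1 + 18) * t ^ 2) =
        Real.exp (Real.log 2 * (((K1 : ℝ) + 18) * (t : ℝ) ^ 2)) := by
      rw [Real.exp_mul, Real.exp_log (by norm_num)]
      have : ((K1 : ℝ) + 18) * (t : ℝ) ^ 2 = (((K1 + 18) * t ^ 2 : ℕ) : ℝ) := by push_cast; ring
      rw [this, Real.rpow_natCast]
    rw [b2, Real.exp_le_exp, ← hcc]
    calc Real.log 2 * (((K1 : ℝ) + 18) * (t : ℝ) ^ 2)
        ≤ Real.log 2 * (((K1 : ℝ) + 18) * (c₁ ^ 2 * n)) := by
          refine mul_le_mul_of_nonneg_left (mul_le_mul_of_nonneg_left ht2 ?_) hl2.le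
          positivity
      _ = _ := by ring
  -- the powers of `1 + η₀`
  have hKp : (1 : ℝ) ≤ 1 + η₀ := by linarith
  have hsn : (s : ℝ) ≤ Real.exp (c * n) := by
    refine hsc.trans (Real.exp_le_exp.2 ?_)
    exact div_le_self (by positivity) ht1
  have htn : (t : ℝ) ≤ Real.exp (c * n) := by
    have a1 : √n ≤ n := Real.sqrt_le_iff.2 ⟨hn0.le, le_self_pow₀ E1 (by norm_num)⟩
    have a2 : (t : ℝ) ≤ c * n := htc.trans (mul_le_mul_of_nonneg_left a1 hc0.le)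
    linarith [Real.add_one_le_exp (c * n)]
  have hKpow : ∀ a b : ℕ, (a : ℝ) ≤ Real.exp (c * n) → (b : ℝ) ≤ Real.exp (c * n) →
      (1 + η₀) ^ (a * b) ≤ 2 := by
    intro a b ha hb
    have a1 : (1 + η₀) ^ (a * b) ≤ Real.exp (η₀ * (a * b)) := by
      have := Real.add_one_le_exp η₀
      calc (1 + η₀) ^ (a * b) ≤ (Real.exp η₀) ^ (a * b) :=
            pow_le_pow_left₀ (by linarith) (by linarith) _
        _ = Real.exp (η₀ * (a * b)) := by
            rw [← Real.exp_nat_mul]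
            congr 1
            push_cast
            ring
    have a2 : (a : ℝ) * b ≤ Real.exp (n * ((hm - hd) / 4)) := by
      calc (a : ℝ) * b ≤ Real.exp (c * n) * Real.exp (c * n) :=
            mul_le_mul ha hb (Nat.cast_nonneg _) (Real.exp_pos _).le
        _ = Real.exp (2 * c * n) := by
            rw [← Real.exp_add]
            congr 1
            ring
        _ ≤ Real.exp (n * ((hm - hd) / 4)) := by
            rw [Real.exp_le_exp]
            have := mul_le_mul_of_nonneg_right hcl4 hn0.le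
            linarith
    have a3 : η₀ * (a * b) ≤ 1 / 4 := by
      calc η₀ * ((a : ℝ) * b) ≤ η₀ * Real.exp (n * ((hm - hd) / 4)) :=
            mul_le_mul_of_nonneg_left a2 hη₀p.le
        _ = 1 / 4 := by
            rw [hη₀, div_mul_eq_mul_div, ← Real.exp_add]
            simp
    refine a1.trans ?_
    have a4 : η₀ * ((a : ℝ) * b) ≤ Real.log 2 := by
      have := Real.log_two_gt_d9
      linarith
    calc Real.exp (η₀ * (a * b)) ≤ Real.exp (Real.log 2) := Real.exp_le_exp.2 a4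
      _ = 2 := Real.exp_log (by norm_num)
  have h1n : ((1 : ℕ) : ℝ) ≤ Real.exp (c * n) := by
    rw [Nat.cast_one]
    exact Real.one_le_exp (by positivity)
  have hKt2 : (1 + η₀) ^ (t ^ 2) ≤ 2 := by
    rw [pow_two]
    exact hKpow t t htn htn
  have hKs2 : (1 + η₀) ^ (s ^ 2) ≤ 2 := by
    rw [pow_two]
    exact hKpow s s hsn hsn
  have hKst : ((1 + η₀) ^ s) ^ t ≤ 2 := by
    rw [← pow_mul]
    exact hKpow s t hsn htn
  have hKs : (1 + η₀) ^ s ≤ 2 := by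
    have := hKpow s 1 hsn h1n
    rwa [mul_one] at this
  have hKt : (1 + η₀) ^ t ≤ 2 := by
    have := hKpow t 1 htn h1n
    rwa [mul_one] at this
  have hx1 : Λ / V * E ^ t = √(κ * (n + 1)) * Real.exp (-(n * θ)) := by
    rw [hEt, hΛ, hV, div_eq_mul_inv, ← Real.exp_neg, mul_assoc, mul_assoc, ← Real.exp_add,
      ← Real.exp_add]
    congr 2
    rw [hθ]
    ring
  have hx2 : E / V * E ^ t ≤ Real.exp (-(n * θ)) := by
    rw [hEt, hE, hV, div_eq_mul_inv, ← Real.exp_neg, ← Real.exp_add, ← Real.exp_add,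
      Real.exp_le_exp]
    have b1 : γ * n / t ≤ γ * n := by
      refine div_le_self (by positivity) ?_
      exact_mod_cast ht
    have b2 : 0 ≤ n * (Real.log 2 - hb) := mul_nonneg hn0.le (by linarith)
    have b3 : -(n * θ) = γ * n + γ * n - n * hd + n * (Real.log 2 - hb) + n * θ := by
      rw [hθ]
      ring
    have b4 : 0 < n * θ := by positivity
    linarith
  have hsq1 : 1 ≤ κ * ((n : ℝ) + 1) := one_le_mul_of_one_le_of_one_le hκ1 (by linarith)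
  have hsq : √(κ * (n + 1)) ≤ κ * (n + 1) :=
    Real.sqrt_le_iff.2 ⟨by positivity, le_self_pow₀ hsq1 (by norm_num)⟩
  have hfin : 8 * (κ * ((n : ℝ) + 1)) * Real.exp (n * (θ / 2)) * Real.exp (-(n * θ)) ≤ 1 := by
    calc 8 * (κ * ((n : ℝ) + 1)) * Real.exp (n * (θ / 2)) * Real.exp (-(n * θ))
        = 8 * κ * ((n : ℝ) + 1) * (Real.exp (n * (θ / 2)) * Real.exp (-(n * θ))) := by ring
      _ ≤ Real.exp (n * (θ / 2)) * (Real.exp (n * (θ / 2)) * Real.exp (-(n * θ))) :=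
          mul_le_mul_of_nonneg_right E7 (by positivity)
      _ = 1 := by
          rw [← Real.exp_add, ← Real.exp_add, ← Real.exp_zero]
          congr 1
          ring
  have hq4 : Real.exp (n * (θ / 4)) * Real.exp (n * (θ / 4)) = Real.exp (n * (θ / 2)) := by
    rw [← Real.exp_add]
    congr 1
    ring
  have hq41 : 1 ≤ Real.exp (n * (θ / 4)) := Real.one_le_exp (by positivity)
  have hρ1 : E / V ≤ 1 := by
    have b1 : E / V ≤ E / V * E ^ t := le_mul_of_one_le_right (by positivity) (one_le_pow₀ hE1)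
    refine b1.trans (hx2.trans ?_)
    rw [Real.exp_le_one_iff]
    have : 0 < n * θ := by positivity
    linarith
  have hA : cc (1 + η₀) t ^ t * (κ ^ t * (Λ / V * E ^ t)) * t *
      (2 ^ t * ((1 + η₀) ^ (t ^ 2) * ((1 + η₀) ^ s) ^ t)) ≤ 1 / 2 := by
    refine (bnd_A2 hKp hKt hKt2 hKst ht hκ0.le hK1 (by positivity)).trans ?_
    rw [hx1]
    calc (2 : ℝ) ^ ((K1 + 18) * t ^ 2) * (√(κ * (n + 1)) * Real.exp (-(n * θ)))
        ≤ Real.exp (n * (θ / 4)) * (κ * (n + 1) * Real.exp (-(n * θ))) :=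
          mul_le_mul hpow (mul_le_mul_of_nonneg_right hsq (Real.exp_pos _).le)
            (by positivity) (by positivity)
      _ ≤ (Real.exp (n * (θ / 4)) * Real.exp (n * (θ / 4))) *
          (κ * (n + 1) * Real.exp (-(n * θ))) := by
          refine mul_le_mul_of_nonneg_right ?_ (by positivity)
          exact le_mul_of_one_le_left (by positivity) hq41
      _ = 1 / 8 * (8 * (κ * ((n : ℝ) + 1)) * Real.exp (n * (θ / 2)) * Real.exp (-(n * θ))) := by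
          rw [hq4]
          ring
      _ ≤ 1 / 2 := by linarith
  have hs3 : ((s : ℝ) + 1) ^ (2 * t + 1) ≤ 2 ^ (3 * t) * Real.exp (n * (θ / 4)) := by
    have a0 : 1 ≤ Real.exp (c * n / t) := Real.one_le_exp (by positivity)
    have a1 : (s : ℝ) + 1 ≤ 2 * Real.exp (c * n / t) := by linarith
    have hs0 : (0 : ℝ) ≤ s := Nat.cast_nonneg _
    calc ((s : ℝ) + 1) ^ (2 * t + 1) ≤ (2 * Real.exp (c * n / t)) ^ (2 * t + 1) :=
          pow_le_pow_left₀ (by positivity) a1 _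
      _ ≤ (2 * Real.exp (c * n / t)) ^ (3 * t) := by
          refine pow_le_pow_right₀ (by linarith) (by omega)
      _ = 2 ^ (3 * t) * Real.exp (3 * c * n) := by
          rw [mul_pow, ← Real.exp_nat_mul]
          congr 2
          push_cast
          field_simp
      _ ≤ 2 ^ (3 * t) * Real.exp (n * (θ / 4)) := by
          refine mul_le_mul_of_nonneg_left ?_ (by positivity)
          rw [Real.exp_le_exp]
          have := mul_le_mul_of_nonneg_right hcl3 hn0.le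
          linarith
  have htt : t ≤ t ^ 2 := Nat.le_self_pow (by norm_num) t
  have hρs : E / V * s ≤ 1 := by
    have a1 : (s : ℝ) ≤ ((s : ℝ) + 1) ^ (2 * t + 1) := by
      have hs0 : (0 : ℝ) ≤ s := Nat.cast_nonneg _
      have := le_self_pow₀ (by linarith : (1 : ℝ) ≤ (s : ℝ) + 1) (by omega : 2 * t + 1 ≠ 0)
      linarith
    have a2 : (2 : ℝ) ^ (3 * t) ≤ Real.exp (n * (θ / 4)) := by
      refine le_trans ?_ hpow
      exact pow_le_pow_right₀ (by norm_num) (Nat.mul_le_mul (by omega) htt)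
    have a3 : E / V ≤ Real.exp (-(n * θ)) := by
      refine le_trans ?_ hx2
      exact le_mul_of_one_le_right (by positivity) (one_le_pow₀ hE1)
    calc E / V * s ≤ Real.exp (-(n * θ)) * (Real.exp (n * (θ / 4)) * Real.exp (n * (θ / 4))) :=
          mul_le_mul a3 (a1.trans (hs3.trans (mul_le_mul_of_nonneg_right a2 (Real.exp_pos _).le)))
            (Nat.cast_nonneg _) (Real.exp_pos _).le
      _ = Real.exp (-(n * (θ / 2))) := by
          rw [← Real.exp_add, ← Real.exp_add]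
          congr 1
          ring
      _ ≤ 1 := by
          rw [Real.exp_le_one_iff]
          have : 0 ≤ n * (θ / 2) := by positivity
          linarith
  have hB : ((1 + E / V) ^ s - 1) * (1 + η₀) ^ (s ^ 2) * (3 * (((1 + η₀) ^ s) ^ t * (t + 1) *
      ((((1 + η₀) ^ s * (s + 1)) ^ 2 * κ * E) ^ t *
        (2 ^ t * ((1 + η₀) ^ (t ^ 2) * ((1 + η₀) ^ s) ^ t))))) ≤ 1 := by
    refine (bnd_B2 hKp hKs hKs2 hKt2 hKst ht hκ0.le hK1 (by linarith) hV0 hρs).trans ?_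
    calc (2 : ℝ) ^ ((K1 + 15) * t ^ 2) * ((s + 1) ^ (2 * t + 1) * (E / V * E ^ t))
        ≤ 2 ^ ((K1 + 15) * t ^ 2) * (2 ^ (3 * t) * Real.exp (n * (θ / 4)) *
          Real.exp (-(n * θ))) := by
          refine mul_le_mul_of_nonneg_left ?_ (by positivity)
          exact mul_le_mul hs3 hx2 (by positivity) (by positivity)
      _ = 2 ^ ((K1 + 15) * t ^ 2 + 3 * t) * (Real.exp (n * (θ / 4)) * Real.exp (-(n * θ))) := by
          rw [pow_add]
          ring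
      _ ≤ 2 ^ ((K1 + 18) * t ^ 2) * (Real.exp (n * (θ / 4)) * Real.exp (-(n * θ))) := by
          refine mul_le_mul_of_nonneg_right ?_ (by positivity)
          refine pow_le_pow_right₀ (by norm_num) ?_
          have z1 := Nat.mul_le_mul_left 3 htt
          have z2 : (K1 + 18) * t ^ 2 = (K1 + 15) * t ^ 2 + 3 * t ^ 2 := by ring
          omega
      _ ≤ Real.exp (n * (θ / 4)) * (Real.exp (n * (θ / 4)) * Real.exp (-(n * θ))) :=
          mul_le_mul_of_nonneg_right hpow (by positivity)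
      _ = Real.exp (-(n * (θ / 2))) := by
          rw [← Real.exp_add, ← Real.exp_add]
          congr 1
          ring
      _ ≤ 1 := by
          rw [Real.exp_le_one_iff]
          have : 0 ≤ n * (θ / 2) := by positivity
          linarith
  have hSml := sml_of2 hKp hV0 hE1 hκ1 hρ1 hΛ0.le hΛκ hA hB
  have hg0 : ∀ x, g x x = 0 := by
    intro x
    refine hg3 x x ?_
    rw [hammingDist_self]
    omega
  refine ⟨yy (E / V) g, ⟨?_, ?_, ?_⟩, ?_⟩
  · unfold yy pr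
    simp
  · intro S u hu v hv huv hd'
    rw [← hdd] at hd'
    unfold yy pr
    rw [Finset.prod_eq_zero (i := (u, v)), mul_zero]
    · exact Finset.mem_offDiag.2 ⟨hu, hv, huv⟩
    · rw [hg3 u v hd', Real.sqrt_zero]
  · intro D E' hDE f hf
    exact psd_cond2 hg1 hg2 hg0 hSml D E' hDE f hf
  · have hy : ∀ x : Fin n → Bool, yy (E / V) g {x} = E / V := by
      intro x
      unfold yy pr
      simp
    simp_rw [hy]
    rw [Finset.sum_const, Finset.card_univ, Fintype.card_fun, Fintype.card_bool, Fintype.card_fin,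
      nsmul_eq_mul, Nat.cast_pow, Nat.cast_ofNat, Real.exp_sub, ← hE, ← hV]

end Pool.Agent.X48.LSE
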