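import Pool.Agent.Y570.KP.Main

/-!
# Radial kernels on the cube (for the bound of Schrijver)
-/

set_option autoImplicit false

open Filter Topology

namespace Pool.Agent.X48.Rad

open Finset Pool.Agent.Y570.KP

variable {n : ℕ}

/-- the isometries of the cube -/
abbrev Gp (n : ℕ) := Equiv.Perm (Fin n) × (Fin n → Bool)

/-- the action -/
def T (g : Gp n) : (Fin n → Bool) ≃ (Fin n → Bool) where
  toFun u := fun i => xor (u (g.1 i)) (g.2 i)
  invFun w := fun j => xor (w (g.1.symm j)) (g.2 (g.1.symm j))
  left_inv u := by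
    funext j
    simp
  right_inv w := by
    funext j
    simp

lemma T_apply (g : Gp n) (u : Fin n → Bool) (i : Fin n) : T g u i = xor (u (g.1 i)) (g.2 i) := rfl

lemma T_dist (g : Gp n) (u v : Fin n → Bool) : hammingDist (T g u) (T g v) = hammingDist u v := by
  unfold hammingDist
  refine Finset.card_equiv g.1 fun i => ?_
  simp [T_apply]

/-- transitivity on the pairs of words at the same distance -/
lemma exists_T {u v u' v' : Fin n → Bool} (h : hammingDist u v = hammingDist u' v') :
    ∃ g : Gp n, T g u = u' ∧ T g v = v' := by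
  classical
  have hc : Fintype.card {i // u' i ≠ v' i} = Fintype.card {i // u i ≠ v i} := by
    rw [Fintype.card_subtype, Fintype.card_subtype]
    exact h.symm
  obtain ⟨e⟩ := Fintype.card_eq.1 hc
  refine ⟨(e.extendSubtype, fun i => xor (u (e.extendSubtype i)) (u' i)), ?_, ?_⟩
  · funext i
    simp [T_apply]
  · funext i
    rw [T_apply]
    by_cases hi : u' i ≠ v' i
    · have h1 := e.extendSubtype_mem i hi
      simp only at h1 ⊢
      revert h1 hi
      cases u (e.extendSubtype i) <;> cases v (e.extendSubtype i) <;> cases u' i <;>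
        cases v' i <;> simp
    · have h1 := e.extendSubtype_not_mem i hi
      simp only at h1 ⊢
      revert h1 hi
      cases u (e.extendSubtype i) <;> cases v (e.extendSubtype i) <;> cases u' i <;>
        cases v' i <;> simp

/-- composition with a fixed isometry -/
def comp (g₀ : Gp n) : Gp n ≃ Gp n where
  toFun g := (g.1.trans g₀.1, fun i => xor (g₀.2 (g.1 i)) (g.2 i))
  invFun g := (g.1.trans g₀.1.symm, fun i => xor (g₀.2 (g₀.1.symm (g.1 i))) (g.2 i))
  left_inv g := by
    refine Prod.ext ?_ ?_
    · ext i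
      simp
    · funext i
      simp
  right_inv g := by
    refine Prod.ext ?_ ?_
    · ext i
      simp
    · funext i
      simp

lemma T_comp (g₀ g : Gp n) (u : Fin n → Bool) : T (comp g₀ g) u = T g (T g₀ u) := by
  funext i
  simp only [T_apply, comp, Equiv.coe_fn_mk, Equiv.trans_apply, Bool.xor_assoc]

/-- the average of a kernel over the isometries -/
noncomputable def av (G : (Fin n → Bool) → (Fin n → Bool) → ℝ) (u v : Fin n → Bool) : ℝ :=
  (Fintype.card (Gp n) : ℝ)⁻¹ * ∑ g : Gp n, G (T g u) (T g v)

lemma card_pos : (0 : ℝ) < Fintype.card (Gp n) := by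
  have : 0 < Fintype.card (Gp n) := Fintype.card_pos
  exact_mod_cast this

lemma av_eq (G : (Fin n → Bool) → (Fin n → Bool) → ℝ) {u v u' v' : Fin n → Bool}
    (h : hammingDist u v = hammingDist u' v') : av G u v = av G u' v' := by
  obtain ⟨g₀, h1, h2⟩ := exists_T h
  unfold av
  congr 1
  rw [← h1, ← h2]
  simp_rw [← T_comp]
  exact ((comp g₀).sum_comp fun g => G (T g u) (T g v)).symm

lemma good_av {G : (Fin n → Bool) → (Fin n → Bool) → ℝ} {K L : ℝ} (h : Good G K L) :
    Good (av G) K L := by
  have hN := card_pos (n := n)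
  refine ⟨?_, ?_, ?_, ?_, ?_⟩
  · intro u v
    unfold av
    congr 1
    exact Finset.sum_congr rfl fun g _ => h.symm _ _
  · intro u
    unfold av
    simp [h.diag]
  · intro u v
    unfold av
    exact mul_nonneg (inv_nonneg.2 hN.le) (Finset.sum_nonneg fun g _ => h.nonneg _ _)
  · intro u v
    unfold av
    rw [inv_mul_le_iff₀ hN]
    refine (Finset.sum_le_card_nsmul _ _ K fun g _ => h.le _ _).trans (le_of_eq ?_)
    rw [nsmul_eq_mul, Finset.card_univ]
  · intro a
    have e1 : ∑ u, ∑ v, (av G u v - 1) * a u * a v =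
        (Fintype.card (Gp n) : ℝ)⁻¹ * ∑ g : Gp n, ∑ u, ∑ v,
          (G u v - 1) * a ((T g).symm u) * a ((T g).symm v) := by
      have e2 : ∀ g : Gp n, ∑ u, ∑ v, (G u v - 1) * a ((T g).symm u) * a ((T g).symm v) =
          ∑ u, ∑ v, (G (T g u) (T g v) - 1) * a u * a v := by
        intro g
        rw [← (T g).sum_comp]
        refine Finset.sum_congr rfl fun u _ => ?_
        rw [← (T g).sum_comp]
        refine Finset.sum_congr rfl fun v _ => ?_
        rw [Equiv.symm_apply_apply, Equiv.symm_apply_apply]
      simp_rw [e2]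
      have e3 : ∑ g : Gp n, ∑ u : Fin n → Bool, ∑ v : Fin n → Bool,
            (G (T g u) (T g v) - 1) * a u * a v =
          ∑ u : Fin n → Bool, ∑ v : Fin n → Bool, ∑ g : Gp n,
            (G (T g u) (T g v) - 1) * a u * a v := by
        rw [Finset.sum_comm]
        refine Finset.sum_congr rfl fun u _ => ?_
        rw [Finset.sum_comm]
      rw [e3, Finset.mul_sum]
      refine Finset.sum_congr rfl fun u _ => ?_
      rw [Finset.mul_sum]
      refine Finset.sum_congr rfl fun v _ => ?_
      rw [← Finset.sum_mul, ← Finset.sum_mul, Finset.sum_sub_distrib, Finset.sum_const,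
        Finset.card_univ, nsmul_eq_mul, mul_one]
      unfold av
      field_simp
    rw [e1, abs_mul, abs_of_pos (inv_pos.2 hN), inv_mul_le_iff₀ hN]
    refine (Finset.abs_sum_le_sum_abs _ _).trans ?_
    refine (Finset.sum_le_card_nsmul _ _ (L * ∑ u : Fin n → Bool, a u ^ 2) fun g _ => ?_).trans
      (le_of_eq ?_)
    · refine (h.quad fun u => a ((T g).symm u)).trans (le_of_eq ?_)
      congr 1
      exact (T g).symm.sum_comp fun u => a u ^ 2
    · rw [nsmul_eq_mul, Finset.card_univ]

lemma av_zero {G : (Fin n → Bool) → (Fin n → Bool) → ℝ} {d : ℕ}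
    (h : ∀ u v, hammingDist u v < d → G u v = 0) (u v : Fin n → Bool) (hd : hammingDist u v < d) :
    av G u v = 0 := by
  unfold av
  rw [Finset.sum_eq_zero, mul_zero]
  intro g _
  exact h _ _ (by rwa [T_dist])

/-- radial kernels -/
theorem exists_radial {G : (Fin n → Bool) → (Fin n → Bool) → ℝ} {K L : ℝ} {d : ℕ} (hG : Good G K L)
    (h : ∀ u v, hammingDist u v < d → G u v = 0) :
    ∃ γ : ℕ → ℝ, Good (fun u v : Fin n → Bool => γ (hammingDist u v)) K L ∧
      ∀ u v : Fin n → Bool, hammingDist u v < d → γ (hammingDist u v) = 0 := by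
  classical
  let γ : ℕ → ℝ := fun c => if h : ∃ p : (Fin n → Bool) × (Fin n → Bool), hammingDist p.1 p.2 = c
    then av G h.choose.1 h.choose.2 else 0
  have hγ : (fun u v : Fin n → Bool => γ (hammingDist u v)) = av G := by
    funext u v
    have h1 : ∃ p : (Fin n → Bool) × (Fin n → Bool), hammingDist p.1 p.2 = hammingDist u v :=
      ⟨(u, v), rfl⟩
    simp only [γ]
    rw [dif_pos h1]
    exact av_eq G h1.choose_spec
  refine ⟨γ, ?_, fun u v hd => ?_⟩
  · rw [hγ]
    exact good_av hG
  · have h2 : γ (hammingDist u v) = av G u v := congrFun (congrFun hγ u) v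
    rw [h2]
    exact av_zero h u v hd

end Pool.Agent.X48.Rad
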