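import Mathlib

open Matrix Finset
open scoped BigOperators

namespace Pool.Agent.X48.StochRank

variable {ι : Type*} [Fintype ι] [DecidableEq ι]

/-- The set of real matrices of rank at most `k` is closed. -/
theorem isClosed_rank_le (k : ℕ) : IsClosed {A : Matrix ι ι ℝ | A.rank ≤ k} := by
  have hopen : IsOpen {A : Matrix ι ι ℝ | k + 1 ≤ A.rank} := by
    let φ : Matrix ι ι ℝ →ₗ[ℝ] ((ι → ℝ) →L[ℝ] (ι → ℝ)) :=
      (LinearMap.toContinuousLinearMap :
        ((ι → ℝ) →ₗ[ℝ] (ι → ℝ)) ≃ₗ[ℝ] _).toLinearMap ∘ₗ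
        (Matrix.toLin' : Matrix ι ι ℝ ≃ₗ[ℝ] _).toLinearMap
    have hφ : Continuous φ := LinearMap.continuous_of_finiteDimensional φ
    have h := (isOpen_setOfPred_nat_le_rank (𝕜 := ℝ) (E := ι → ℝ) (F := ι → ℝ) (k+1)).preimage hφ
    convert h using 1
    ext A
    simp only [Set.mem_setOf_eq, Set.mem_preimage]
    have h2 : ((φ A : (ι → ℝ) →L[ℝ] (ι → ℝ)) : (ι → ℝ) →ₗ[ℝ] (ι → ℝ)) = Matrix.toLin' A := by
      ext; simp [φ]
    rw [h2]
    have h3 : (LinearMap.rank (Matrix.toLin' A)) = ((A.rank : ℕ) : Cardinal) := by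
      rw [Matrix.rank, LinearMap.rank, ← Module.finrank_eq_rank]
      rfl
    rw [h3]
    exact_mod_cast Iff.rfl
  have : {A : Matrix ι ι ℝ | A.rank ≤ k} = {A : Matrix ι ι ℝ | k + 1 ≤ A.rank}ᶜ := by
    ext A; simp [Nat.lt_succ_iff]
  rw [this]
  exact hopen.isClosed_compl

/-- Orthogonal projection onto the column space. -/
theorem exists_proj (B : Matrix ι ι ℝ) :
    ∃ P : Matrix ι ι ℝ, Pᵀ = P ∧ P * P = P ∧ P * B = B ∧ P.trace = (B.rank : ℝ) := by
  classical
  let e := (WithLp.linearEquiv 2 ℝ (ι → ℝ)).symm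
  let V : Submodule ℝ (EuclideanSpace ℝ ι) :=
    Submodule.map (e : (ι → ℝ) →ₗ[ℝ] EuclideanSpace ℝ ι) (LinearMap.range B.mulVecLin)
  let b := stdOrthonormalBasis ℝ V
  let w : Fin (Module.finrank ℝ V) → ι → ℝ := fun l i => (b l : EuclideanSpace ℝ ι) i
  have hinner : ∀ l l', ∑ i, w l i * w l' i = if l = l' then 1 else 0 := by
    intro l l'
    have h := orthonormal_iff_ite.mp b.orthonormal l' l
    rw [Submodule.coe_inner, PiLp.inner_apply] at h
    simp only [RCLike.inner_apply, conj_trivial] at h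
    rw [show (∑ i, w l i * w l' i) = ∑ i, ((b l : EuclideanSpace ℝ ι) i) * ((b l' : EuclideanSpace ℝ ι) i) from rfl, h]
    by_cases hh : l = l'
    · simp [hh]
    · simp [hh, Ne.symm hh]
  refine ⟨Matrix.of fun i j => ∑ l, w l i * w l j, ?_, ?_, ?_, ?_⟩
  · ext i j
    simp only [Matrix.transpose_apply, Matrix.of_apply]
    exact Finset.sum_congr rfl fun l _ => mul_comm _ _
  · ext i j
    simp only [Matrix.mul_apply, Matrix.of_apply]
    calc ∑ m, (∑ l, w l i * w l m) * (∑ l', w l' m * w l' j)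
        = ∑ m, ∑ l, ∑ l', (w l i * w l' j) * (w l m * w l' m) := by
          refine Finset.sum_congr rfl fun m _ => ?_
          rw [Finset.sum_mul_sum]
          refine Finset.sum_congr rfl fun l _ => Finset.sum_congr rfl fun l' _ => by ring
      _ = ∑ l, ∑ l', (w l i * w l' j) * ∑ m, (w l m * w l' m) := by
          rw [Finset.sum_comm]
          refine Finset.sum_congr rfl fun l _ => ?_
          rw [Finset.sum_comm]
          refine Finset.sum_congr rfl fun l' _ => ?_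
          rw [Finset.mul_sum]
      _ = ∑ l, w l i * w l j := by
          refine Finset.sum_congr rfl fun l _ => ?_
          simp [hinner]
  · ext i j
    simp only [Matrix.mul_apply, Matrix.of_apply]
    have hc : e (fun m => B m j) ∈ V := by
      refine Submodule.mem_map_of_mem ?_
      refine ⟨Pi.single j 1, ?_⟩
      ext m
      simp [Matrix.mulVecLin_apply]
    have h := b.sum_repr ⟨_, hc⟩
    have h2 := congrArg (fun v : V => (v : EuclideanSpace ℝ ι) i) h
    simp only [Submodule.coe_sum, Submodule.coe_smul] at h2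
    have h3 : (∑ l, (b.repr ⟨_, hc⟩).ofLp l • (b l : EuclideanSpace ℝ ι)) i
        = ∑ l, (b.repr ⟨_, hc⟩).ofLp l * w l i := by
      rw [show (∑ l, (b.repr ⟨_, hc⟩).ofLp l • (b l : EuclideanSpace ℝ ι)) i = ∑ l, ((b.repr ⟨_, hc⟩).ofLp l • (b l : EuclideanSpace ℝ ι)) i by simp]
      rfl
    rw [h3] at h2
    have h4 : ∀ l, (b.repr ⟨_, hc⟩).ofLp l = ∑ m, w l m * B m j := by
      intro l
      rw [b.repr_apply_apply, Submodule.coe_inner, PiLp.inner_apply]
      simp only [RCLike.inner_apply, conj_trivial]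
      refine Finset.sum_congr rfl fun m _ => ?_
      rw [mul_comm]; rfl
    calc ∑ m, (∑ l, w l i * w l m) * B m j = ∑ l, (∑ m, w l m * B m j) * w l i := by
          simp_rw [Finset.sum_mul]
          rw [Finset.sum_comm]
          refine Finset.sum_congr rfl fun l _ => Finset.sum_congr rfl fun m _ => by ring
      _ = ∑ l, (b.repr ⟨_, hc⟩).ofLp l * w l i := by
          refine Finset.sum_congr rfl fun l _ => by rw [h4]
      _ = B i j := by rw [h2]; rfl
  · simp only [Matrix.trace, Matrix.diag_apply, Matrix.of_apply]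
    rw [Finset.sum_comm]
    simp only [hinner]
    simp only [if_true, Finset.sum_const, Finset.card_univ, Fintype.card_fin, nsmul_eq_mul, mul_one]
    have : Module.finrank ℝ V = B.rank := by
      rw [Matrix.rank]
      exact LinearEquiv.finrank_map_eq e _
    exact_mod_cast this

/-- `‖B - P‖² = ‖B‖² - 2 tr B + rank B`. -/
theorem exists_proj_norm (B : Matrix ι ι ℝ) :
    ∃ P : Matrix ι ι ℝ, Pᵀ = P ∧ P * P = P ∧
      ∑ i, ∑ j, (B i j - P i j) ^ 2 = ∑ i, ∑ j, B i j ^ 2 - 2 * B.trace + B.rank := by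
  obtain ⟨P, h1, h2, h3, h4⟩ := exists_proj B
  refine ⟨P, h1, h2, ?_⟩
  have hsym : ∀ i j, P i j = P j i := fun i j => by
    conv_lhs => rw [← h1]
    rfl
  have hPP : ∑ i, ∑ j, P i j ^ 2 = B.rank := by
    rw [← h4, Matrix.trace]
    refine Finset.sum_congr rfl fun i _ => ?_
    have := congrFun (congrFun h2 i) i
    rw [Matrix.mul_apply] at this
    rw [Matrix.diag_apply, ← this]
    refine Finset.sum_congr rfl fun j _ => ?_
    rw [hsym j i]; ring
  have hBP : ∑ i, ∑ j, B i j * P i j = B.trace := by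
    rw [Finset.sum_comm, Matrix.trace]
    refine Finset.sum_congr rfl fun j _ => ?_
    have := congrFun (congrFun h3 j) j
    rw [Matrix.mul_apply] at this
    rw [Matrix.diag_apply, ← this]
    refine Finset.sum_congr rfl fun i _ => ?_
    rw [hsym i j]; ring
  have : ∀ i j, (B i j - P i j) ^ 2 = B i j ^ 2 - 2 * (B i j * P i j) + P i j ^ 2 := fun i j => by ring
  simp_rw [this, Finset.sum_add_distrib, Finset.sum_sub_distrib, ← Finset.mul_sum]
  rw [hPP, hBP]

theorem rank_ineq (B : Matrix ι ι ℝ) (k : ℕ) (hk : B.rank ≤ k) :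
    2 * B.trace - ∑ i, ∑ j, B i j ^ 2 ≤ k := by
  obtain ⟨P, _, _, h⟩ := exists_proj_norm B
  have h0 : 0 ≤ ∑ i, ∑ j, (B i j - P i j) ^ 2 :=
    Finset.sum_nonneg fun i _ => Finset.sum_nonneg fun j _ => sq_nonneg _
  have : (B.rank : ℝ) ≤ k := by exact_mod_cast hk
  linarith

/-- Sum of squares with a cap on the entries. -/
theorem sum_sq_le {α : Type*} [DecidableEq α] (x : α → ℝ) (d : ℝ) (s : Finset α) :
    (∀ a ∈ s, 0 ≤ x a) → (∀ a ∈ s, x a ≤ d) →
    ∀ (m : ℕ) (ρ : ℝ), 0 ≤ ρ → ρ ≤ d → ∑ a ∈ s, x a = m * d + ρ →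
      ∑ a ∈ s, x a ^ 2 ≤ m * d ^ 2 + ρ ^ 2 := by
  induction s using Finset.induction_on with
  | empty =>
    intro _ _ m ρ _ _ _
    simp only [Finset.sum_empty]
    positivity
  | insert a s ha ih =>
    intro h0 h1 m ρ hρ0 hρd hs
    rw [Finset.sum_insert ha] at hs ⊢
    have h0' : ∀ b ∈ s, 0 ≤ x b := fun b hb => h0 b (Finset.mem_insert_of_mem hb)
    have h1' : ∀ b ∈ s, x b ≤ d := fun b hb => h1 b (Finset.mem_insert_of_mem hb)
    have hy0 := h0 a (Finset.mem_insert_self _ _)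
    have hyd := h1 a (Finset.mem_insert_self _ _)
    have hsn : 0 ≤ ∑ b ∈ s, x b := Finset.sum_nonneg h0'
    by_cases hy : x a ≤ ρ
    · have := ih h0' h1' m (ρ - x a) (by linarith) (by linarith) (by linarith)
      nlinarith
    · push Not at hy
      rcases Nat.eq_zero_or_pos m with hm | hm
      · subst hm
        simp only [Nat.cast_zero, zero_mul, zero_add] at hs
        linarith
      · obtain ⟨m', rfl⟩ : ∃ m', m = m' + 1 := ⟨m - 1, by omega⟩
        push_cast at hs ⊢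
        have := ih h0' h1' m' (d + ρ - x a) (by linarith) (by linarith) (by linarith)
        nlinarith [mul_nonneg (sub_nonneg.2 hyd) (sub_nonneg.2 hy.le)]

/-- Piecewise linear interpolation of `1/u` at the positive integers. -/
noncomputable def L (u : ℝ) : ℝ := (2 * (⌊u⌋₊ : ℝ) + 1 - u) / ((⌊u⌋₊ : ℝ) * (⌊u⌋₊ + 1))

theorem L_pos {u : ℝ} (hu : 1 ≤ u) : 0 < L u := by
  have hm : 1 ≤ ⌊u⌋₊ := Nat.le_floor (by simpa using hu)
  have hm' : (1 : ℝ) ≤ ⌊u⌋₊ := by exact_mod_cast hm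
  have h2 : u < ⌊u⌋₊ + 1 := Nat.lt_floor_add_one u
  unfold L
  apply div_pos <;> nlinarith

theorem L_key {u : ℝ} (hu : 1 ≤ u) : L u * (⌊u⌋₊ + (u - ⌊u⌋₊) ^ 2) ≤ 1 := by
  have hm : 1 ≤ ⌊u⌋₊ := Nat.le_floor (by simpa using hu)
  have hm' : (1 : ℝ) ≤ ⌊u⌋₊ := by exact_mod_cast hm
  have h1 : (⌊u⌋₊ : ℝ) ≤ u := Nat.floor_le (by linarith)
  have h2 : u < ⌊u⌋₊ + 1 := Nat.lt_floor_add_one u
  unfold L
  clear hm
  generalize (⌊u⌋₊ : ℝ) = m at hm' h1 h2 ⊢
  rw [div_mul_eq_mul_div, div_le_one (by nlinarith)]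
  obtain ⟨t, rfl⟩ : ∃ t, u = m + t := ⟨u - m, by ring⟩
  have ht0 : 0 ≤ t := by linarith
  have ht1 : t ≤ 1 := by linarith
  have : 0 ≤ t * ((1 - t) * (m - t)) := by
    apply mul_nonneg ht0 (mul_nonneg (by linarith) (by linarith))
  nlinarith

theorem L_natCast {m : ℕ} (hm : 1 ≤ m) : L (m : ℝ) = 1 / m := by
  unfold L
  rw [Nat.floor_natCast]
  have : (0 : ℝ) < m := by exact_mod_cast hm
  field_simp
  ring

/-- The rank inequality for normalised matrices. -/
theorem sum_L_le (A : Matrix ι ι ℝ) (k : ℕ) (hk : A.rank ≤ k) (h0 : ∀ i j, 0 ≤ A i j)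
    (hrow : ∀ i, ∑ j, A i j = 1) (hcol : ∀ j, ∑ i, A i j = 1) (hpos : ∀ i, 0 < A i i)
    (hmr : ∀ i j, A i j ≤ A i i) (hmc : ∀ i j, A j i ≤ A i i) :
    ∑ i, L (1 / A i i) ≤ k := by
  set d : ι → ℝ := fun i => A i i with hd
  set u : ι → ℝ := fun i => 1 / A i i with hu
  have hd1 : ∀ i, d i ≤ 1 := fun i => by
    rw [← hrow i]
    exact Finset.single_le_sum (f := fun j => A i j) (fun j _ => h0 i j) (Finset.mem_univ i)
  have hu1 : ∀ i, 1 ≤ u i := fun i => by
    rw [hu]; exact (one_le_div (hpos i)).2 (hd1 i)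
  have hud : ∀ i, u i * d i = 1 := fun i => by
    simp only [hu, hd]; field_simp [(hpos i).ne']
  -- the key bound on sums of squares
  have key : ∀ i, ∀ x : ι → ℝ, (∀ j, 0 ≤ x j) → (∀ j, x j ≤ d i) → ∑ j, x j = 1 →
      L (u i) * u i ^ 2 * ∑ j, x j ^ 2 ≤ 1 := by
    intro i x hx0 hx1 hxs
    have hfl : (⌊u i⌋₊ : ℝ) ≤ u i := Nat.floor_le (by linarith [hu1 i])
    have hfl2 : u i < ⌊u i⌋₊ + 1 := Nat.lt_floor_add_one (u i)
    have hdi : 0 < d i := hpos i
    have h := sum_sq_le x (d i) Finset.univ (fun j _ => hx0 j) (fun j _ => hx1 j) ⌊u i⌋₊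
      (1 - ⌊u i⌋₊ * d i) (by nlinarith [hud i]) (by nlinarith [hud i]) (by rw [hxs]; ring)
    have h2 : u i ^ 2 * ∑ j, x j ^ 2 ≤ ⌊u i⌋₊ + (u i - ⌊u i⌋₊) ^ 2 := by
      calc u i ^ 2 * ∑ j, x j ^ 2 ≤ u i ^ 2 * (⌊u i⌋₊ * d i ^ 2 + (1 - ⌊u i⌋₊ * d i) ^ 2) :=
            mul_le_mul_of_nonneg_left h (sq_nonneg _)
        _ = ⌊u i⌋₊ * (u i * d i) ^ 2 + (u i - ⌊u i⌋₊ * (u i * d i)) ^ 2 := by ring
        _ = ⌊u i⌋₊ + (u i - ⌊u i⌋₊) ^ 2 := by rw [hud]; ring
    calc L (u i) * u i ^ 2 * ∑ j, x j ^ 2 = L (u i) * (u i ^ 2 * ∑ j, x j ^ 2) := by ring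
      _ ≤ L (u i) * (⌊u i⌋₊ + (u i - ⌊u i⌋₊) ^ 2) :=
          mul_le_mul_of_nonneg_left h2 (L_pos (hu1 i)).le
      _ ≤ 1 := L_key (hu1 i)
  set w : ι → ℝ := fun i => L (u i) * u i with hw
  have hw0 : ∀ i, 0 < w i := fun i => mul_pos (L_pos (hu1 i)) (by linarith [hu1 i])
  let S : Matrix ι ι ℝ := Matrix.diagonal fun i => Real.sqrt (w i)
  let B : Matrix ι ι ℝ := S * A * S
  have hB : ∀ i j, B i j = Real.sqrt (w i) * A i j * Real.sqrt (w j) := by
    intro i j
    simp only [B, S]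
    rw [Matrix.mul_diagonal, Matrix.diagonal_mul]
  have hBr : B.rank ≤ k :=
    (Matrix.rank_mul_le_left _ _).trans ((Matrix.rank_mul_le_right _ _).trans hk)
  have h := rank_ineq B k hBr
  have htr : B.trace = ∑ i, L (u i) := by
    rw [Matrix.trace]
    refine Finset.sum_congr rfl fun i _ => ?_
    rw [Matrix.diag_apply, hB]
    have := Real.mul_self_sqrt (hw0 i).le
    calc Real.sqrt (w i) * A i i * Real.sqrt (w i) = (Real.sqrt (w i) * Real.sqrt (w i)) * d i := by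
          simp only [hd]; ring
      _ = w i * d i := by rw [this]
      _ = L (u i) * (u i * d i) := by simp only [hw]; ring
      _ = L (u i) := by rw [hud, mul_one]
  have hsq : ∑ i, ∑ j, B i j ^ 2 ≤ ∑ i, L (u i) := by
    have e1 : ∀ i j, B i j ^ 2 ≤ (w i ^ 2 * A i j ^ 2) / 2 + (w j ^ 2 * A i j ^ 2) / 2 := by
      intro i j
      rw [hB]
      have h1 := Real.sq_sqrt (hw0 i).le
      have h2 := Real.sq_sqrt (hw0 j).le
      calc (Real.sqrt (w i) * A i j * Real.sqrt (w j)) ^ 2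
          = (Real.sqrt (w i) ^ 2) * (Real.sqrt (w j) ^ 2) * A i j ^ 2 := by ring
        _ = w i * w j * A i j ^ 2 := by rw [h1, h2]
        _ ≤ _ := by nlinarith [mul_nonneg (sq_nonneg (w i - w j)) (sq_nonneg (A i j))]
    have e2 : ∀ i, ∑ j, (w i ^ 2 * A i j ^ 2) ≤ L (u i) := by
      intro i
      rw [← Finset.mul_sum]
      have := key i (fun j => A i j) (fun j => h0 i j) (fun j => hmr i j) (hrow i)
      calc w i ^ 2 * ∑ j, A i j ^ 2 = L (u i) * (L (u i) * u i ^ 2 * ∑ j, A i j ^ 2) := by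
            simp only [hw]; ring
        _ ≤ L (u i) * 1 := mul_le_mul_of_nonneg_left this (L_pos (hu1 i)).le
        _ = L (u i) := mul_one _
    have e3 : ∀ j, ∑ i, (w j ^ 2 * A i j ^ 2) ≤ L (u j) := by
      intro j
      rw [← Finset.mul_sum]
      have := key j (fun i => A i j) (fun i => h0 i j) (fun i => hmc j i) (hcol j)
      calc w j ^ 2 * ∑ i, A i j ^ 2 = L (u j) * (L (u j) * u j ^ 2 * ∑ i, A i j ^ 2) := by
            simp only [hw]; ring
        _ ≤ L (u j) * 1 := mul_le_mul_of_nonneg_left this (L_pos (hu1 j)).le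
        _ = L (u j) := mul_one _
    calc ∑ i, ∑ j, B i j ^ 2
        ≤ ∑ i, ∑ j, ((w i ^ 2 * A i j ^ 2) / 2 + (w j ^ 2 * A i j ^ 2) / 2) :=
          Finset.sum_le_sum fun i _ => Finset.sum_le_sum fun j _ => e1 i j
      _ = (∑ i, ∑ j, (w i ^ 2 * A i j ^ 2)) / 2 + (∑ j, ∑ i, (w j ^ 2 * A i j ^ 2)) / 2 := by
          simp_rw [Finset.sum_add_distrib, ← Finset.sum_div]
          congr 2
          rw [Finset.sum_comm]
      _ ≤ (∑ i, L (u i)) / 2 + (∑ j, L (u j)) / 2 := by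
          have a1 := Finset.sum_le_sum (s := Finset.univ) fun i _ => e2 i
          have a2 := Finset.sum_le_sum (s := Finset.univ) fun i _ => e3 i
          linarith
      _ = ∑ i, L (u i) := by ring
  rw [htr] at h
  linarith

end Pool.Agent.X48.StochRank
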