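import Pool.Agent.X48.StochRank

open Matrix Finset
open scoped BigOperators

namespace Pool.Agent.X48.StochRank

/-- slope constant -/
noncomputable def beta (q : ℕ) : ℝ := 1 / (q * (q + 1) * Real.log (1 + 1 / q))

/-- Tangent function -/
noncomputable def T (q : ℕ) (u : ℝ) : ℝ := 1 / q - beta q * (Real.log u - Real.log q)

theorem log_pos' {q : ℕ} (hq : 1 ≤ q) : 0 < Real.log (1 + 1 / (q : ℝ)) := by
  apply Real.log_pos
  have : (0 : ℝ) < q := by exact_mod_cast hq
  have : 0 < 1 / (q : ℝ) := by positivity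
  linarith

theorem log_eq' {q : ℕ} (hq : 1 ≤ q) :
    Real.log (1 + 1 / (q : ℝ)) = Real.log (q + 1) - Real.log q := by
  have : (0 : ℝ) < q := by exact_mod_cast hq
  rw [← Real.log_div (by positivity) (by positivity)]
  congr 1
  field_simp

theorem beta_pos {q : ℕ} (hq : 1 ≤ q) : 0 < beta q := by
  have h := log_pos' hq
  have : (0 : ℝ) < q := by exact_mod_cast hq
  unfold beta
  positivity

/-- convexity inequality at integers, strict away from `q, q+1`. -/
theorem int_ineq {q m : ℕ} (hq : 1 ≤ q) (hm : 1 ≤ m) (h1 : m ≠ q) (h2 : m ≠ q + 1) :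
    ((m : ℝ) - q) * ((q + 1) * (Real.log (q + 1) - Real.log q)) <
      m * (Real.log m - Real.log q) := by
  have hq0 : (0 : ℝ) < q := by exact_mod_cast hq
  have hm0 : (0 : ℝ) < m := by exact_mod_cast hm
  have hc := Real.strictConvexOn_mul_log
  rcases lt_or_gt_of_ne h1 with hlt | hgt
  · -- m < q
    have hlt' : (m : ℝ) < q := by exact_mod_cast hlt
    have ha : 0 < (1 : ℝ) / (q + 1 - m) := by
      apply one_div_pos.2; linarith
    have hb : 0 < ((q : ℝ) - m) / (q + 1 - m) := div_pos (by linarith) (by linarith)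
    have hab : (1 : ℝ) / (q + 1 - m) + ((q : ℝ) - m) / (q + 1 - m) = 1 := by
      have : (q : ℝ) + 1 - m ≠ 0 := by linarith
      field_simp
      ring
    have h := hc.2 (x := (m : ℝ)) (y := (q : ℝ) + 1) (Set.mem_Ici.2 hm0.le)
      (Set.mem_Ici.2 (by linarith)) (by linarith) ha hb hab
    simp only [smul_eq_mul] at h
    have e : (1 : ℝ) / (q + 1 - m) * m + ((q : ℝ) - m) / (q + 1 - m) * (q + 1) = q := by
      have : (q : ℝ) + 1 - m ≠ 0 := by linarith
      field_simp
      ring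
    rw [e] at h
    have hpos : (0 : ℝ) < q + 1 - m := by linarith
    have h' := mul_lt_mul_of_pos_right h hpos
    have e2 : ((1 : ℝ) / (q + 1 - m) * (m * Real.log m) +
        ((q : ℝ) - m) / (q + 1 - m) * ((q + 1) * Real.log (q + 1))) * (q + 1 - m)
        = m * Real.log m + (q - m) * ((q + 1) * Real.log (q + 1)) := by
      field_simp
    rw [e2] at h'
    nlinarith
  · have hgt2 : q + 1 < m := by omega
    have hgt' : (q : ℝ) + 1 < m := by exact_mod_cast hgt2
    have ha : 0 < ((m : ℝ) - q - 1) / (m - q) := div_pos (by linarith) (by linarith)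
    have hb : 0 < (1 : ℝ) / (m - q) := by apply one_div_pos.2; linarith
    have hne : (m : ℝ) - q ≠ 0 := by linarith
    have hab : ((m : ℝ) - q - 1) / (m - q) + (1 : ℝ) / (m - q) = 1 := by
      field_simp
      ring
    have h := hc.2 (x := (q : ℝ)) (y := (m : ℝ)) (Set.mem_Ici.2 hq0.le)
      (Set.mem_Ici.2 hm0.le) (by linarith) ha hb hab
    simp only [smul_eq_mul] at h
    have e : ((m : ℝ) - q - 1) / (m - q) * q + (1 : ℝ) / (m - q) * m = q + 1 := by
      field_simp
      ring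
    rw [e] at h
    have hpos : (0 : ℝ) < m - q := by linarith
    have h' := mul_lt_mul_of_pos_right h hpos
    have e2 : (((m : ℝ) - q - 1) / (m - q) * (q * Real.log q) +
        (1 : ℝ) / (m - q) * (m * Real.log m)) * (m - q)
        = (m - q - 1) * (q * Real.log q) + m * Real.log m := by
      field_simp
    rw [e2] at h'
    nlinarith

theorem T_nat_lt {q m : ℕ} (hq : 1 ≤ q) (hm : 1 ≤ m) (h1 : m ≠ q) (h2 : m ≠ q + 1) :
    T q m < 1 / m := by
  have h := int_ineq hq hm h1 h2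
  have hl := log_pos' hq
  rw [← log_eq' hq] at h
  have hq0 : (0 : ℝ) < q := by exact_mod_cast hq
  have hm0 : (0 : ℝ) < m := by exact_mod_cast hm
  unfold T beta
  set l := Real.log (1 + 1 / (q : ℝ)) with hldef
  set D := Real.log (m : ℝ) - Real.log q with hD
  have h3 : ((m : ℝ) - q) / (q * m) < 1 / (q * (q + 1) * l) * D := by
    rw [one_div, inv_mul_eq_div, div_lt_div_iff₀ (by positivity) (by positivity)]
    nlinarith [mul_lt_mul_of_pos_left h hq0]
  have h4 : ((m : ℝ) - q) / (q * m) = 1 / q - 1 / m := by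
    field_simp
  linarith

theorem T_self {q : ℕ} (hq : 1 ≤ q) : T q q = 1 / q := by
  unfold T; simp

theorem T_succ {q : ℕ} (hq : 1 ≤ q) : T q ((q + 1 : ℕ) : ℝ) = 1 / ((q + 1 : ℕ) : ℝ) := by
  have hl := log_pos' hq
  have hq0 : (0 : ℝ) < q := by exact_mod_cast hq
  unfold T beta
  push_cast
  rw [← log_eq' hq]
  generalize Real.log (1 + 1 / (q : ℝ)) = l at hl
  field_simp
  ring

theorem T_nat_le {q m : ℕ} (hq : 1 ≤ q) (hm : 1 ≤ m) : T q m ≤ 1 / m := by
  by_cases h1 : m = q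
  · subst h1; exact (T_self hq).le
  by_cases h2 : m = q + 1
  · subst h2; exact (T_succ hq).le
  exact (T_nat_lt hq hm h1 h2).le

theorem T_le_L {q : ℕ} (hq : 1 ≤ q) {u : ℝ} (hu : 1 ≤ u) : T q u ≤ L u := by
  have hm : 1 ≤ ⌊u⌋₊ := Nat.le_floor (by simpa using hu)
  have hm' : (1 : ℝ) ≤ ⌊u⌋₊ := by exact_mod_cast hm
  have h1 : (⌊u⌋₊ : ℝ) ≤ u := Nat.floor_le (by linarith)
  have h2 : u < ⌊u⌋₊ + 1 := Nat.lt_floor_add_one u
  have hT1 := T_nat_le hq hm
  have hT2 := T_nat_le hq (show 1 ≤ ⌊u⌋₊ + 1 by omega)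
  have hb := beta_pos hq
  unfold L
  push_cast at hT2
  generalize (⌊u⌋₊ : ℝ) = m at hm' h1 h2 hT1 hT2 ⊢
  have hm0 : 0 < m := by linarith
  have hcon := (strictConcaveOn_log_Ioi.concaveOn).2 (x := m) (y := m + 1) (Set.mem_Ioi.2 hm0)
    (Set.mem_Ioi.2 (by linarith)) (show 0 ≤ m + 1 - u by linarith) (show 0 ≤ u - m by linarith)
    (by ring)
  simp only [smul_eq_mul] at hcon
  rw [show (m + 1 - u) * m + (u - m) * (m + 1) = u by ring] at hcon
  have hTu : T q u ≤ (m + 1 - u) * T q m + (u - m) * T q (m + 1) := by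
    unfold T
    nlinarith
  have e : (2 * m + 1 - u) / (m * (m + 1)) = (m + 1 - u) * (1 / m) + (u - m) * (1 / (m + 1)) := by
    field_simp
    ring
  rw [e]
  have a1 := mul_le_mul_of_nonneg_left hT1 (show 0 ≤ m + 1 - u by linarith)
  have a2 := mul_le_mul_of_nonneg_left hT2 (show 0 ≤ u - m by linarith)
  linarith

theorem T_eq_L {q : ℕ} (hq : 1 ≤ q) {u : ℝ} (hu : 1 ≤ u) (h : T q u = L u) :
    u = (q : ℝ) ∨ u = ((q + 1 : ℕ) : ℝ) := by
  have hm : 1 ≤ ⌊u⌋₊ := Nat.le_floor (by simpa using hu)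
  have hm' : (1 : ℝ) ≤ ⌊u⌋₊ := by exact_mod_cast hm
  have h1 : (⌊u⌋₊ : ℝ) ≤ u := Nat.floor_le (by linarith)
  have h2 : u < ⌊u⌋₊ + 1 := Nat.lt_floor_add_one u
  have hT1 := T_nat_le hq hm
  have hT2 := T_nat_le hq (show 1 ≤ ⌊u⌋₊ + 1 by omega)
  have hb := beta_pos hq
  rcases eq_or_lt_of_le h1 with heq | hlt
  · -- u is an integer
    rw [← heq, L_natCast hm] at h
    by_contra hcon
    push Not at hcon
    have c1 : ⌊u⌋₊ ≠ q := fun hh => hcon.1 (by rw [← heq, hh])
    have c2 : ⌊u⌋₊ ≠ q + 1 := fun hh => hcon.2 (by rw [← heq, hh])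
    exact absurd h (T_nat_lt hq hm c1 c2).ne
  · exfalso
    unfold L at h
    push_cast at hT2
    generalize (⌊u⌋₊ : ℝ) = m at hm' h1 h2 hT1 hT2 hlt h
    have hm0 : 0 < m := by linarith
    have hcon := (strictConcaveOn_log_Ioi).2 (x := m) (y := m + 1) (Set.mem_Ioi.2 hm0)
      (Set.mem_Ioi.2 (by linarith)) (by linarith) (show 0 < m + 1 - u by linarith)
      (show 0 < u - m by linarith) (by ring)
    simp only [smul_eq_mul] at hcon
    rw [show (m + 1 - u) * m + (u - m) * (m + 1) = u by ring] at hcon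
    have hTu : T q u < (m + 1 - u) * T q m + (u - m) * T q (m + 1) := by
      unfold T
      nlinarith
    have e : (2 * m + 1 - u) / (m * (m + 1)) = (m + 1 - u) * (1 / m) + (u - m) * (1 / (m + 1)) := by
      field_simp
      ring
    rw [e] at h
    have a1 := mul_le_mul_of_nonneg_left hT1 (show 0 ≤ m + 1 - u by linarith)
    have a2 := mul_le_mul_of_nonneg_left hT2 (show 0 ≤ u - m by linarith)
    linarith

/-- The value `M(n,k)`. -/
noncomputable def M (n k : ℕ) : ℝ :=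
  (1 / ((n / k : ℕ) : ℝ) ^ (n / k)) ^ (k - n % k) *
    (1 / (((n / k : ℕ) : ℝ) + 1) ^ (n / k + 1)) ^ (n % k)

theorem M_pos {n k : ℕ} (hk : 1 ≤ k) (hkn : k ≤ n) : 0 < M n k := by
  have hq : 1 ≤ n / k := (Nat.one_le_div_iff (by omega)).2 hkn
  have hq0 : (0 : ℝ) < ((n / k : ℕ) : ℝ) := by exact_mod_cast hq
  unfold M; positivity

theorem log_M {n k : ℕ} (hk : 1 ≤ k) (hkn : k ≤ n) :
    Real.log (M n k) = -(((k : ℝ) - (n % k : ℕ)) * ((n / k : ℕ) * Real.log ((n / k : ℕ) : ℝ)) +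
      (n % k : ℕ) * (((n / k : ℕ) + 1) * Real.log (((n / k : ℕ) : ℝ) + 1))) := by
  have hq : 1 ≤ n / k := (Nat.one_le_div_iff (by omega)).2 hkn
  have hq0 : (0 : ℝ) < ((n / k : ℕ) : ℝ) := by exact_mod_cast hq
  have hs : n % k ≤ k := (Nat.mod_lt _ (by omega)).le
  unfold M
  rw [Real.log_mul (by positivity) (by positivity), Real.log_pow, Real.log_pow, one_div, one_div,
    Real.log_inv, Real.log_inv, Real.log_pow, Real.log_pow, Nat.cast_sub hs]
  push_cast
  ring

variable {ι : Type*} [Fintype ι] [DecidableEq ι]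

/-- The key numerical deduction. -/
theorem sum_log_ge {n k : ℕ} (hk : 1 ≤ k) (hkn : k ≤ n) (hn : Fintype.card ι = n) (u : ι → ℝ)
    (hu : ∀ i, 1 ≤ u i) (hL : ∑ i, L (u i) ≤ k) :
    -Real.log (M n k) ≤ ∑ i, Real.log (u i) ∧
    (∑ i, Real.log (u i) = -Real.log (M n k) →
      (∀ i, u i = ((n / k : ℕ) : ℝ) ∨ u i = ((n / k + 1 : ℕ) : ℝ)) ∧ ∑ i, L (u i) = k) := by
  have hq : 1 ≤ n / k := (Nat.one_le_div_iff (by omega)).2 hkn
  have hq0 : (0 : ℝ) < ((n / k : ℕ) : ℝ) := by exact_mod_cast hq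
  have hdiv : (n : ℝ) = ((n / k : ℕ) : ℝ) * k + ((n % k : ℕ) : ℝ) := by
    have := Nat.div_add_mod n k
    have h2 : ((k * (n / k) + n % k : ℕ) : ℝ) = n := by exact_mod_cast this
    push_cast at h2 ⊢
    linarith
  rw [log_M hk hkn, neg_neg]
  generalize hqq : n / k = q at *
  generalize hss : n % k = s at *
  have hb := beta_pos hq
  have hl := log_pos' hq
  have hbl : beta q * (Real.log (q + 1) - Real.log q) * (q * (q + 1)) = 1 := by
    rw [← log_eq' hq]; unfold beta
    generalize Real.log (1 + 1 / (q : ℝ)) = l at hl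
    field_simp
  have hsumT : ∑ i, T q (u i) = n / q - beta q * (∑ i, Real.log (u i) - n * Real.log q) := by
    unfold T
    rw [Finset.sum_sub_distrib, ← Finset.mul_sum, Finset.sum_sub_distrib]
    simp only [Finset.sum_const, Finset.card_univ, hn, nsmul_eq_mul]
    ring
  have hTL : ∑ i, T q (u i) ≤ ∑ i, L (u i) := Finset.sum_le_sum fun i _ => T_le_L hq (hu i)
  -- n/q - k = s/q
  have hnq : (n : ℝ) / q = k + s / q := by
    rw [hdiv]; field_simp
  set X := ∑ i, Real.log (u i) with hX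
  set lq := Real.log (q : ℝ)
  set lq1 := Real.log ((q : ℝ) + 1)
  have hV : ((k : ℝ) - s) * (q * lq) + s * ((q + 1) * lq1) - n * lq = s * (q + 1) * (lq1 - lq) := by
    rw [hdiv]; ring
  have hVb : beta q * (s * (q + 1) * (lq1 - lq)) = s / q := by
    have : beta q * (s * (q + 1) * (lq1 - lq)) = s / q * (beta q * (lq1 - lq) * (q * (q + 1))) := by
      field_simp
    rw [this, hbl, mul_one]
  constructor
  · have h1 : n / q - beta q * (X - n * lq) ≤ k := by rw [← hsumT]; exact hTL.trans hL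
    have h2 : s / q ≤ beta q * (X - n * lq) := by linarith
    rw [← hVb] at h2
    have h3 := le_of_mul_le_mul_left h2 hb
    linarith
  · intro hXe
    have h1 : ∑ i, T q (u i) = k := by
      rw [hsumT, hXe]
      have : ((k : ℝ) - s) * (q * lq) + s * ((q + 1) * lq1) - n * lq = s * (q + 1) * (lq1 - lq) := hV
      rw [this, hVb, hnq]; ring
    have h2 : ∑ i, L (u i) = k := le_antisymm hL (h1 ▸ hTL)
    refine ⟨fun i => ?_, h2⟩
    have h3 : ∑ i, T q (u i) = ∑ i, L (u i) := by rw [h1, h2]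
    have h4 := (Finset.sum_eq_sum_iff_of_le (fun i _ => T_le_L hq (hu i))).1 h3 i (Finset.mem_univ i)
    exact T_eq_L hq (hu i) h4

/-- Row-stochastic matrices of rank at most `k`. -/
def SS (ι : Type*) [Fintype ι] [DecidableEq ι] (k : ℕ) : Set (Matrix ι ι ℝ) :=
  {A | (∀ i j, 0 ≤ A i j) ∧ (∀ i, ∑ j, A i j = 1) ∧ A.rank ≤ k}

theorem entry_le_one {A : Matrix ι ι ℝ} (h0 : ∀ i j, 0 ≤ A i j) (h1 : ∀ i, ∑ j, A i j = 1)
    (i j : ι) : A i j ≤ 1 := by
  rw [← h1 i]
  exact Finset.single_le_sum (f := fun j => A i j) (fun j _ => h0 i j) (Finset.mem_univ j)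

theorem isCompact_SS (k : ℕ) : IsCompact (SS ι k) := by
  have hc : IsCompact (Set.univ.pi fun _ : ι => Set.univ.pi fun _ : ι => Set.Icc (0 : ℝ) 1) :=
    isCompact_univ_pi fun _ => isCompact_univ_pi fun _ => isCompact_Icc
  have hcl : IsClosed (SS ι k) := by
    have e : SS ι k = (⋂ i, ⋂ j, {A : Matrix ι ι ℝ | 0 ≤ A i j}) ∩
        ((⋂ i, {A : Matrix ι ι ℝ | ∑ j, A i j = 1}) ∩ {A : Matrix ι ι ℝ | A.rank ≤ k}) := by
      ext A; simp [SS]
    rw [e]
    refine IsClosed.inter ?_ (IsClosed.inter ?_ (isClosed_rank_le k))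
    · refine isClosed_iInter fun i => isClosed_iInter fun j => ?_
      exact isClosed_le continuous_const (Continuous.matrix_elem continuous_id i j)
    · refine isClosed_iInter fun i => ?_
      refine isClosed_eq (continuous_finsetSum _ fun j _ => Continuous.matrix_elem continuous_id i j)
        continuous_const
  refine hc.of_isClosed_subset hcl ?_
  intro A hA
  rw [Set.mem_univ_pi]
  intro i
  rw [Set.mem_univ_pi]
  intro j
  exact ⟨hA.1 i j, entry_le_one hA.1 hA.2.1 i j⟩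

theorem exists_max (k : ℕ) {A : Matrix ι ι ℝ} (hA : A ∈ SS ι k) :
    ∃ B ∈ SS ι k, ∀ C ∈ SS ι k, ∏ i, C i i ≤ ∏ i, B i i := by
  have hcont : Continuous fun A : Matrix ι ι ℝ => ∏ i, A i i :=
    continuous_finsetProd _ fun i _ => Continuous.matrix_elem continuous_id i i
  obtain ⟨B, hB, hmax⟩ := (isCompact_SS (ι := ι) k).exists_isMaxOn ⟨A, hA⟩ hcont.continuousOn
  exact ⟨B, hB, fun C hC => hmax hC⟩

theorem col_sum_of_max (k : ℕ) {A : Matrix ι ι ℝ} (hA : A ∈ SS ι k)
    (hmax : ∀ C ∈ SS ι k, ∏ i, C i i ≤ ∏ i, A i i) (hpos : ∀ i, 0 < A i i) (j : ι) :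
    ∑ i, A i j = 1 := by
  have hkey : ∀ x : ℝ, -1 < x → 1 + x ≤ Real.exp ((∑ i, A i j) * x) := by
    intro x hx
    have hden : ∀ i, 0 < 1 + x * A i j := by
      intro i
      have h0 := hA.1 i j
      have h1 := entry_le_one hA.1 hA.2.1 i j
      rcases eq_or_lt_of_le h0 with h | h
      · rw [← h]; simp
      · nlinarith
    let c : ι → ℝ := fun l => if l = j then 1 + x else 1
    let B : Matrix ι ι ℝ := Matrix.diagonal (fun i => (1 + x * A i j)⁻¹) * A * Matrix.diagonal c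
    have hB : ∀ i l, B i l = (1 + x * A i j)⁻¹ * A i l * c l := by
      intro i l
      simp only [B]
      rw [Matrix.mul_diagonal, Matrix.diagonal_mul]
    have hc : ∀ l, 0 < c l := by
      intro l; simp only [c]; split_ifs <;> linarith
    have hsum : ∀ i, ∑ l, A i l * c l = 1 + x * A i j := by
      intro i
      have : ∀ l, A i l * c l = A i l + (if l = j then x * A i l else 0) := by
        intro l; simp only [c]; split_ifs <;> ring
      simp_rw [this, Finset.sum_add_distrib, hA.2.1 i]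
      simp
    have hBS : B ∈ SS ι k := by
      refine ⟨fun i l => ?_, fun i => ?_, ?_⟩
      · rw [hB]
        exact mul_nonneg (mul_nonneg (inv_nonneg.2 (hden i).le) (hA.1 i l)) (hc l).le
      · simp_rw [hB, mul_assoc]
        rw [← Finset.mul_sum, hsum i, inv_mul_cancel₀ (hden i).ne']
      · exact (Matrix.rank_mul_le_left _ _).trans ((Matrix.rank_mul_le_right _ _).trans hA.2.2)
    have h := hmax B hBS
    have hp : ∏ i, B i i = (∏ i, (1 + x * A i j))⁻¹ * (∏ i, A i i) * (1 + x) := by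
      simp_rw [hB, Finset.prod_mul_distrib, Finset.prod_inv_distrib]
      congr 1
      simp [c]
    rw [hp] at h
    have hPA : 0 < ∏ i, A i i := Finset.prod_pos fun i _ => hpos i
    have hPD : 0 < ∏ i, (1 + x * A i j) := Finset.prod_pos fun i _ => hden i
    have h2 : 1 + x ≤ ∏ i, (1 + x * A i j) := by
      have h3 : (∏ i, (1 + x * A i j))⁻¹ * (1 + x) ≤ 1 := by
        have : ((∏ i, (1 + x * A i j))⁻¹ * (1 + x)) * (∏ i, A i i) ≤ 1 * (∏ i, A i i) := by
          linarith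
        exact le_of_mul_le_mul_right this hPA
      rwa [inv_mul_le_iff₀ hPD, mul_one] at h3
    refine h2.trans ?_
    rw [Finset.sum_mul, Real.exp_sum]
    refine Finset.prod_le_prod (fun i _ => (hden i).le) fun i _ => ?_
    have := Real.add_one_le_exp (A i j * x)
    linarith
  set s := ∑ i, A i j
  have hloc : IsLocalMin (fun x : ℝ => Real.exp (s * x) - (1 + x)) 0 := by
    have : ∀ᶠ x in nhds (0 : ℝ), -1 < x := lt_mem_nhds (by norm_num)
    filter_upwards [this] with x hx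
    simp only [mul_zero, Real.exp_zero, add_zero, sub_self]
    linarith [hkey x hx]
  have hd : HasDerivAt (fun x : ℝ => Real.exp (s * x) - (1 + x)) (s - 1) 0 := by
    have h1 : HasDerivAt (fun x : ℝ => s * x) s 0 := by
      simpa using (hasDerivAt_id (0 : ℝ)).const_mul s
    have h2 := h1.exp
    have h3 : HasDerivAt (fun x : ℝ => 1 + x) 1 0 := by
      simpa using (hasDerivAt_id (0 : ℝ)).const_add 1
    have h4 := h2.sub h3
    have e : Real.exp (s * 0) * s - 1 = s - 1 := by simp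
    rw [← e]
    exact h4
  have := hloc.hasDerivAt_eq_zero hd
  linarith

theorem col_le_of_max (k : ℕ) {A : Matrix ι ι ℝ} (hA : A ∈ SS ι k)
    (hmax : ∀ C ∈ SS ι k, ∏ i, C i i ≤ ∏ i, A i i) (hpos : ∀ i, 0 < A i i) (i l : ι) :
    A l i ≤ A i i := by
  let B : Matrix ι ι ℝ := A.submatrix (Function.update id i l) id
  have hB : B ∈ SS ι k := by
    refine ⟨fun a b => hA.1 _ _, fun a => hA.2.1 _, (Matrix.rank_submatrix_le _ _ _).trans hA.2.2⟩
  have h := hmax B hB
  have e1 : ∏ a, B a a = A l i * ∏ a ∈ Finset.univ.erase i, A a a := by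
    rw [← Finset.mul_prod_erase _ _ (Finset.mem_univ i)]
    congr 1
    · simp [B]
    · refine Finset.prod_congr rfl fun a ha => ?_
      have : a ≠ i := (Finset.mem_erase.1 ha).1
      simp [B, Function.update_of_ne this]
  have e2 : ∏ a, A a a = A i i * ∏ a ∈ Finset.univ.erase i, A a a := by
    rw [← Finset.mul_prod_erase _ _ (Finset.mem_univ i)]
  rw [e1, e2] at h
  exact le_of_mul_le_mul_right h (Finset.prod_pos fun a _ => hpos a)

/-- A maximiser with positive diagonal is doubly stochastic with dominating diagonal. -/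
theorem max_props (k : ℕ) {A : Matrix ι ι ℝ} (hA : A ∈ SS ι k)
    (hmax : ∀ C ∈ SS ι k, ∏ i, C i i ≤ ∏ i, A i i) (hpos : ∀ i, 0 < A i i) :
    (∀ j, ∑ i, A i j = 1) ∧ (∀ i j, A i j ≤ A i i) ∧ (∀ i j, A j i ≤ A i i) := by
  have hcol := col_sum_of_max k hA hmax hpos
  refine ⟨hcol, ?_, fun i j => col_le_of_max k hA hmax hpos i j⟩
  have hAT : Aᵀ ∈ SS ι k := by
    refine ⟨fun a b => hA.1 _ _, fun a => hcol a, ?_⟩
    rw [Matrix.rank_transpose]; exact hA.2.2
  intro i j
  exact col_le_of_max k hAT (fun C hC => hmax C hC) hpos i j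

theorem diag_pos_of_prod {A : Matrix ι ι ℝ} (h0 : ∀ i j, 0 ≤ A i j) (h : 0 < ∏ i, A i i) (i : ι) :
    0 < A i i := by
  rcases eq_or_lt_of_le (h0 i i) with he | hlt
  · exfalso
    have : ∏ i, A i i = 0 := Finset.prod_eq_zero (Finset.mem_univ i) he.symm
    linarith
  · exact hlt

/-- The inequality. -/
theorem diag_le {n k : ℕ} (hk : 1 ≤ k) (hkn : k ≤ n) (hn : Fintype.card ι = n)
    {A : Matrix ι ι ℝ} (hA : A ∈ SS ι k) : ∏ i, A i i ≤ M n k := by
  obtain ⟨B, hB, hmax⟩ := exists_max k hA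
  refine (hmax A hA).trans ?_
  by_cases h0 : 0 < ∏ i, B i i
  swap
  · exact (not_lt.1 h0).trans (M_pos hk hkn).le
  have hpos := diag_pos_of_prod hB.1 h0
  obtain ⟨p1, p2, p3⟩ := max_props k hB hmax hpos
  have hL := sum_L_le B k hB.2.2 hB.1 hB.2.1 p1 hpos p2 p3
  have hu : ∀ i, 1 ≤ 1 / B i i := fun i =>
    (one_le_div (hpos i)).2 (entry_le_one hB.1 hB.2.1 i i)
  have h := (sum_log_ge hk hkn hn (fun i => 1 / B i i) hu hL).1
  have e : ∑ i, Real.log (1 / B i i) = -Real.log (∏ i, B i i) := by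
    rw [Real.log_prod (fun i _ => (hpos i).ne'), ← Finset.sum_neg_distrib]
    refine Finset.sum_congr rfl fun i _ => by rw [one_div, Real.log_inv]
  rw [e] at h
  have h2 : Real.log (∏ i, B i i) ≤ Real.log (M n k) := by linarith
  exact (Real.log_le_log_iff h0 (M_pos hk hkn)).1 h2

/-- The structure of the extremal matrices. -/
theorem eq_structure {n k : ℕ} (hk : 1 ≤ k) (hkn : k ≤ n) (hn : Fintype.card ι = n)
    {A : Matrix ι ι ℝ} (hA : A ∈ SS ι k) (he : ∏ i, A i i = M n k) :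
    (∀ i, 1 / A i i = ((n / k : ℕ) : ℝ) ∨ 1 / A i i = ((n / k + 1 : ℕ) : ℝ)) ∧
    ∑ i, A i i = k ∧ Aᵀ = A ∧ A * A = A ∧ (∀ i j, A i j ≤ A i i) ∧ (∀ i, 0 < A i i) := by
  have hmax : ∀ C ∈ SS ι k, ∏ i, C i i ≤ ∏ i, A i i := fun C hC => by
    rw [he]; exact diag_le hk hkn hn hC
  have h0 : 0 < ∏ i, A i i := by rw [he]; exact M_pos hk hkn
  have hpos := diag_pos_of_prod hA.1 h0
  obtain ⟨p1, p2, p3⟩ := max_props k hA hmax hpos
  have hL := sum_L_le A k hA.2.2 hA.1 hA.2.1 p1 hpos p2 p3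
  have hu : ∀ i, 1 ≤ 1 / A i i := fun i =>
    (one_le_div (hpos i)).2 (entry_le_one hA.1 hA.2.1 i i)
  have h := (sum_log_ge hk hkn hn (fun i => 1 / A i i) hu hL).2
  have e : ∑ i, Real.log (1 / A i i) = -Real.log (∏ i, A i i) := by
    rw [Real.log_prod (fun i _ => (hpos i).ne'), ← Finset.sum_neg_distrib]
    refine Finset.sum_congr rfl fun i _ => by rw [one_div, Real.log_inv]
  rw [he] at e
  obtain ⟨q1, q2⟩ := h e
  have hq : 1 ≤ n / k := (Nat.one_le_div_iff (by omega)).2 hkn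
  have hLd : ∀ i, L (1 / A i i) = A i i := by
    intro i
    have hne := (hpos i).ne'
    rcases q1 i with h1 | h1
    · rw [h1, L_natCast hq, ← h1]; field_simp
    · rw [h1, L_natCast (by omega), ← h1]; field_simp
  have htr : ∑ i, A i i = k := by rw [← q2]; exact Finset.sum_congr rfl fun i _ => (hLd i).symm
  obtain ⟨P, hP1, hP2, hP3⟩ := exists_proj_norm A
  have hsq : ∑ i, ∑ j, A i j ^ 2 ≤ k := by
    rw [← htr]
    refine Finset.sum_le_sum fun i _ => ?_
    calc ∑ j, A i j ^ 2 ≤ ∑ j, A i i * A i j := Finset.sum_le_sum fun j _ => by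
          rw [sq]; exact mul_le_mul_of_nonneg_right (p2 i j) (hA.1 i j)
      _ = A i i := by rw [← Finset.mul_sum, hA.2.1 i, mul_one]
  have hrk : (A.rank : ℝ) ≤ k := by exact_mod_cast hA.2.2
  have htr' : A.trace = k := by rw [← htr]; rfl
  have hz : ∑ i, ∑ j, (A i j - P i j) ^ 2 ≤ 0 := by rw [hP3, htr']; linarith
  have hAP : A = P := by
    ext i j
    have h1 : ∑ i, ∑ j, (A i j - P i j) ^ 2 = 0 := le_antisymm hz
      (Finset.sum_nonneg fun i _ => Finset.sum_nonneg fun j _ => sq_nonneg _)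
    rw [Finset.sum_eq_zero_iff_of_nonneg
      (fun i _ => Finset.sum_nonneg fun j _ => sq_nonneg _)] at h1
    have h2 := h1 i (Finset.mem_univ i)
    rw [Finset.sum_eq_zero_iff_of_nonneg (fun j _ => sq_nonneg _)] at h2
    have h3 := h2 j (Finset.mem_univ j)
    have h4 : A i j - P i j = 0 := by simpa using h3
    linarith
  refine ⟨q1, htr, ?_, ?_, p2, hpos⟩
  · rw [hAP, hP1]
  · rw [hAP, hP2]

end Pool.Agent.X48.StochRank
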